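import Pool.Agent.Lib.H78W.X0

set_option autoImplicit false

/-!
CHUNK X4 of H78W (analysis of H53W).  Nondegenerate jets.
-/

open MvPolynomial

namespace Pool.Agent.H78W

open Pool.Agent.H89T Pool.Agent.H67T Pool.Agent.H53U Pool.Agent.H78M

variable {N k : ℕ}

/-- Vectors `v_1, ..., v_r` linearly independent: linear forms `L_i` with `L_i (v_j) = δ_ij` (extend to a basis, dual basis; `LinearIndependent`, `exists_extend`). -/
theorem exists_dual {r : ℕ} {v : Fin r → Fin N → ℂ} (hv : LinearIndependent ℂ v) :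
    ∃ L : Fin r → Fin N → ℂ, ∀ i j, ∑ b, L i b * v j b = if i = j then 1 else 0 := by
  have hinj : LinearMap.ker (Fintype.linearCombination ℂ v) = ⊥ :=
    LinearMap.ker_eq_bot.2 (linearIndependent_iff_injective_fintypeLinearCombination.1 hv)
  obtain ⟨g, hg⟩ := (Fintype.linearCombination ℂ v).exists_leftInverse_of_injective hinj
  refine ⟨fun i b => g (Pi.single b 1) i, fun i j => ?_⟩
  have h1 : g (v j) = Pi.single j 1 := by
    have h2 := congrArg (fun f => f (Pi.single j (1 : ℂ))) hg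
    simp only [LinearMap.comp_apply, LinearMap.id_apply] at h2
    rw [Fintype.linearCombination_apply_single, one_smul] at h2
    exact h2
  have h3 : v j = ∑ b, v j b • (Pi.single b (1 : ℂ) : Fin N → ℂ) := by
    funext b'
    rw [Finset.sum_apply, Finset.sum_eq_single b']
    · simp
    · intro b _ hb
      rw [Pi.smul_apply, Pi.single_eq_of_ne (Ne.symm hb), smul_zero]
    · intro h; exact absurd (Finset.mem_univ _) h
  have h4 : g (v j) i = ∑ b, v j b * g (Pi.single b 1) i := by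
    conv_lhs => rw [h3]
    rw [map_sum, Finset.sum_apply]
    refine Finset.sum_congr rfl fun b _ => ?_
    rw [map_smul, Pi.smul_apply, smul_eq_mul]
  have h5 : ∑ b, g (Pi.single b 1) i * v j b = g (v j) i := by
    rw [h4]
    exact Finset.sum_congr rfl fun b _ => mul_comm _ _
  rw [h5, h1, Pi.single_apply]

/-- If `z_i (ξ (t))` is divisible by `t ^ (i + 1)` with coefficient `1` of `t ^ (i + 1)` then the matrix is triangular with `1` on the diagonal. -/
theorem det_matW_tri (p : Fin k → Polynomial ℂ)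
    (h0 : ∀ i : Fin k, (Polynomial.X : Polynomial ℂ) ^ ((i : ℕ) + 1) ∣ p i)
    (h1 : ∀ i : Fin k, (p i).coeff ((i : ℕ) + 1) = 1) : (matW p).det = 1 := by
  rw [Matrix.det_of_isLowerTriangular]
  · apply Finset.prod_eq_one
    intro i _
    exact h1 i
  · intro l i hli
    have hli' : l < i := hli
    have h2 := Polynomial.X_pow_dvd_iff.1 (h0 i) ((l : ℕ) + 1) (by
      have : (l : ℕ) < (i : ℕ) := hli'
      omega)
    exact h2

/-- The linear form with coefficients `L`. -/
noncomputable def x4_lin (L : Fin N → ℂ) : MvPolynomial (Fin N) ℂ := ∑ b, C (L b) * X b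

theorem x4_lin_const (L : Fin N → ℂ) : constantCoeff (x4_lin L) = 0 := by
  unfold x4_lin
  rw [map_sum]
  apply Finset.sum_eq_zero
  intro b _
  rw [map_mul, constantCoeff_X, mul_zero]

theorem x4_lin_deg (L : Fin N → ℂ) : (x4_lin L).totalDegree ≤ 1 := by
  unfold x4_lin
  refine (totalDegree_finsetSum _ _).trans (Finset.sup_le fun b _ => ?_)
  refine (totalDegree_mul _ _).trans ?_
  rw [totalDegree_C, totalDegree_X]

theorem x4_lin_coeff (L : Fin N → ℂ) (ξ : JV N k → ℂ) (m : ℕ) :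
    (aeval (arc ξ) (x4_lin L)).coeff m = ∑ b, L b * (arc ξ b).coeff m := by
  unfold x4_lin
  rw [map_sum, Polynomial.finsetSum_coeff]
  refine Finset.sum_congr rfl fun b _ => ?_
  rw [map_mul, aeval_X, algHom_C, Polynomial.algebraMap_eq, Polynomial.coeff_C_mul]

/-- With `L_i` of `exists_dual` for `v_i = tv ξ (i + 1)`: `l_i = ∑ C (L i b) * X b`; `l_i (ξ (t))` is divisible by `t ^ (i + 1)` with coefficient `1` of `t ^ (i + 1)`
(the coefficients of `t ^ (j + 1)`, `j < r`, are `δ_ij`).  `z_i = l_i` for `i < r`, and `z_i = l_(r - 1) * l_(i - r)` for `r ≤ i < k ≤ 2 r`: divisible by `t ^ (r + (i - r + 1))`. -/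
theorem QND_of_indep {ξ : JV N k → ℂ} (h0 : ∀ b, ξ (b, 0) = 0) {r : ℕ} (hr : 1 ≤ r) (hkr : k ≤ 2 * r)
    (hrk : r ≤ k) (hind : LinearIndependent ℂ fun i : Fin r => tv ξ ((i : ℕ) + 1)) : QND ξ := by
  obtain ⟨L, hL⟩ := exists_dual hind
  have hzero : ∀ b, (arc ξ b).coeff 0 = 0 := fun b => (H78M.coeff_arc ξ b 0).trans (h0 b)
  have hc : ∀ (i : Fin r) (j : ℕ), j < r → (aeval (arc ξ) (x4_lin (L i))).coeff (j + 1) = if (i : ℕ) = j then 1 else 0 := by
    intro i j hj
    rw [x4_lin_coeff]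
    have h2 := hL i ⟨j, hj⟩
    have h3 : (if i = (⟨j, hj⟩ : Fin r) then (1 : ℂ) else 0) = if (i : ℕ) = j then 1 else 0 := by
      by_cases h : (i : ℕ) = j
      · rw [if_pos h, if_pos (Fin.ext h)]
      · rw [if_neg h, if_neg (fun h' => h (congrArg Fin.val h'))]
    rw [← h3, ← h2]
    rfl
  have hc0 : ∀ i : Fin r, (aeval (arc ξ) (x4_lin (L i))).coeff 0 = 0 := by
    intro i
    rw [x4_lin_coeff]
    apply Finset.sum_eq_zero
    intro b _
    rw [hzero b, mul_zero]
  have hq : ∀ i : Fin r, ∃ q : Polynomial ℂ, aeval (arc ξ) (x4_lin (L i)) = Polynomial.X ^ ((i : ℕ) + 1) * q ∧ q.coeff 0 = 1 := by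
    intro i
    have hd : (Polynomial.X : Polynomial ℂ) ^ ((i : ℕ) + 1) ∣ aeval (arc ξ) (x4_lin (L i)) := by
      rw [Polynomial.X_pow_dvd_iff]
      intro m hm
      rcases Nat.eq_zero_or_pos m with rfl | hm0
      · exact hc0 i
      · obtain ⟨j, rfl⟩ : ∃ j, m = j + 1 := ⟨m - 1, by omega⟩
        rw [hc i j (by omega), if_neg (by omega)]
    obtain ⟨q, hq⟩ := hd
    refine ⟨q, hq, ?_⟩
    have h3 := hc i i i.2
    rw [hq, if_pos rfl, Polynomial.coeff_X_pow_mul'] at h3
    simpa using h3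
  choose q hq1 hq2 using hq
  have hr1 : r - 1 < r := by omega
  refine ⟨fun i => if h : (i : ℕ) < r then x4_lin (L ⟨i, h⟩) else
    x4_lin (L ⟨r - 1, hr1⟩) * x4_lin (L ⟨(i : ℕ) - r, by omega⟩), ?_, ?_, ?_⟩
  · intro i
    dsimp only
    split_ifs with h
    · exact x4_lin_const _
    · rw [map_mul, x4_lin_const, zero_mul]
  · intro i
    dsimp only
    split_ifs with h
    · exact (x4_lin_deg _).trans (by omega)
    · refine (totalDegree_mul _ _).trans ?_
      have h1 := x4_lin_deg (L ⟨r - 1, hr1⟩)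
      have h2 := x4_lin_deg (L ⟨(i : ℕ) - r, by omega⟩)
      omega
  · have hz : ∀ i : Fin k, ∃ q' : Polynomial ℂ, aeval (arc ξ) (if h : (i : ℕ) < r then x4_lin (L ⟨i, h⟩) else
        x4_lin (L ⟨r - 1, hr1⟩) * x4_lin (L ⟨(i : ℕ) - r, by omega⟩)) = Polynomial.X ^ ((i : ℕ) + 1) * q' ∧
        q'.coeff 0 = 1 := by
      intro i
      split_ifs with h
      · exact ⟨q ⟨i, h⟩, hq1 ⟨i, h⟩, hq2 ⟨i, h⟩⟩
      · refine ⟨q ⟨r - 1, hr1⟩ * q ⟨(i : ℕ) - r, by omega⟩, ?_, ?_⟩
        · rw [map_mul, hq1, hq1]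
          have e : ((i : ℕ) + 1) = (r - 1 + 1) + ((i : ℕ) - r + 1) := by omega
          rw [e, pow_add (Polynomial.X : Polynomial ℂ) (r - 1 + 1)]
          dsimp only
          ring
        · rw [Polynomial.mul_coeff_zero, hq2, hq2, one_mul]
    have hdet := det_matW_tri (fun i : Fin k => aeval (arc ξ) (if h : (i : ℕ) < r then x4_lin (L ⟨i, h⟩) else
        x4_lin (L ⟨r - 1, hr1⟩) * x4_lin (L ⟨(i : ℕ) - r, by omega⟩)))
      (fun i => by
        obtain ⟨q', h1, _⟩ := hz i
        exact ⟨q', h1⟩)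
      (fun i => by
        obtain ⟨q', h1, h2⟩ := hz i
        rw [h1, Polynomial.coeff_X_pow_mul', if_pos le_rfl, Nat.sub_self, h2])
    rw [hdet]
    exact one_ne_zero

end Pool.Agent.H78W
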