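import Pool.Agent.Lib.H78W.X5

set_option autoImplicit false

/-!
CHUNK X6 of H78W (analysis of H53W).  The general point of a curve.
-/

open MvPolynomial Filter Topology

namespace Pool.Agent.H78W

open Pool.Agent.H89T Pool.Agent.H67T Pool.Agent.H53U Pool.Agent.H78M

variable {N : ℕ} {g : ℂ → Fin N → ℂ}

/-- The minors of the matrix of the derivatives. -/
noncomputable def x6_det (g : ℂ → Fin N → ℂ) {r : ℕ} (J : Fin r → Fin N) (t : ℂ) : ℂ :=
  (Matrix.of fun (i j : Fin r) => dg g ((i : ℕ) + 1) t (J j)).det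

theorem x6_minor {r : ℕ} {v : Fin r → Fin N → ℂ} (hA : LinearIndependent ℂ v) :
    ∃ J : Fin r → Fin N, (Matrix.of fun (i j : Fin r) => v i (J j)).det ≠ 0 := by
  classical
  have hrk : (Matrix.of v).rank = Fintype.card (Fin r) := LinearIndependent.rank_matrix hA
  have hspan : Submodule.span ℂ (Set.range (Matrix.of v).col) = ⊤ := by
    apply Submodule.eq_top_of_finrank_eq
    rw [← Matrix.rank_eq_finrank_span_cols, hrk, Module.finrank_fintype_fun_eq_card]
  obtain ⟨b, hb, hbs, hli⟩ := exists_linearIndependent ℂ (Set.range (Matrix.of v).col)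
  have hbf : b.Finite := (Set.finite_range (Matrix.of v).col).subset hb
  have hbt : ⊤ ≤ Submodule.span ℂ (Set.range (fun x : b => (x : Fin r → ℂ))) := by
    rw [Subtype.range_coe, hbs, hspan]
  let B : Module.Basis b ℂ (Fin r → ℂ) := Module.Basis.mk hli hbt
  have : Fintype b := hbf.fintype
  have hcard : Fintype.card (Fin r) = Fintype.card b := by
    rw [← Module.finrank_fintype_fun_eq_card ℂ (η := Fin r), Module.finrank_eq_card_basis B]
  let e : Fin r ≃ b := Fintype.equivOfCardEq hcard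
  have hch : ∀ x : b, ∃ j : Fin N, (Matrix.of v).col j = (x : Fin r → ℂ) := fun x => hb x.2
  choose φ hφ using hch
  refine ⟨fun a => φ (e a), ?_⟩
  have h1 : LinearIndependent ℂ ((Matrix.of v).submatrix id (fun a => φ (e a))).col := by
    have h2 : ((Matrix.of v).submatrix id (fun a => φ (e a))).col = fun a => ((e a : b) : Fin r → ℂ) := by
      funext a
      rw [← hφ (e a)]
      rfl
    rw [h2]
    exact hli.comp e e.injective
  have h3 := (Matrix.linearIndependent_cols_iff_isUnit).1 h1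
  exact ((Matrix.isUnit_iff_isUnit_det _).1 h3).ne_zero

theorem x6_indep {r : ℕ} {v : Fin r → Fin N → ℂ} (J : Fin r → Fin N)
    (hJ : (Matrix.of fun (i j : Fin r) => v i (J j)).det ≠ 0) : LinearIndependent ℂ v := by
  classical
  have h1 : IsUnit (Matrix.of fun (i j : Fin r) => v i (J j)) :=
    (Matrix.isUnit_iff_isUnit_det _).2 (isUnit_iff_ne_zero.2 hJ)
  have h2 := (Matrix.linearIndependent_rows_iff_isUnit).2 h1
  exact LinearIndependent.of_comp (LinearMap.funLeft ℂ ℂ J) h2

theorem x6_analytic_dg (l : ℕ) (b : Fin N) {t : ℂ} (hg : AnalyticAt ℂ (fun z => g z b) t) :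
    AnalyticAt ℂ (fun z => dg g l z b) t := by
  show AnalyticAt ℂ (fun z => iteratedDeriv l (fun w => g w b) z) t
  have h1 : (fun z => iteratedDeriv l (fun w => g w b) z) = deriv^[l] (fun w => g w b) := by
    rw [← iteratedDeriv_eq_iterate]
  rw [h1]
  exact hg.iterated_deriv l

theorem x6_analytic {r : ℕ} (J : Fin r → Fin N) (hg : ∀ b, AnalyticAt ℂ (fun z => g z b) 0) :
    AnalyticAt ℂ (x6_det g J) 0 := by
  have h1 : x6_det g J = fun t => ∑ σ : Equiv.Perm (Fin r), (((Equiv.Perm.sign σ : ℤ) : ℂ)) *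
      ∏ i, dg g ((σ i : ℕ) + 1) t (J i) := by
    funext t
    unfold x6_det
    rw [Matrix.det_apply']
    rfl
  rw [h1]
  refine Finset.analyticAt_fun_sum _ fun σ _ => ?_
  refine analyticAt_const.mul ?_
  exact Finset.analyticAt_fun_prod _ fun i _ => x6_analytic_dg _ _ (hg _)

/-- The linear independence of `g' (t), ..., g^(r) (t)` is the nonvanishing of one of the finitely many minors, which are analytic functions of `t` at `0`: each of them vanishes near `0` or
is different from `0` at all points `t ≠ 0` near `0` (`AnalyticAt.eventually_eq_zero_or_eventually_ne_zero`). -/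
theorem eventually_indep_or {r : ℕ} (hg : ∀ b, AnalyticAt ℂ (fun z => g z b) 0) :
    (∀ᶠ t in nhdsWithin (0 : ℂ) {0}ᶜ, LinearIndependent ℂ fun i : Fin r => dg g ((i : ℕ) + 1) t) ∨
      ∀ᶠ t in nhds (0 : ℂ), ¬ LinearIndependent ℂ fun i : Fin r => dg g ((i : ℕ) + 1) t := by
  classical
  by_cases h : ∃ J : Fin r → Fin N, ∀ᶠ t in nhdsWithin (0 : ℂ) {0}ᶜ, x6_det g J t ≠ 0
  · obtain ⟨J, hJ⟩ := h
    left
    filter_upwards [hJ] with t ht
    exact x6_indep J ht
  · right
    have h1 : ∀ J : Fin r → Fin N, ∀ᶠ t in nhds (0 : ℂ), x6_det g J t = 0 := by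
      intro J
      rcases (x6_analytic J hg).eventually_eq_zero_or_eventually_ne_zero with h2 | h2
      · exact h2
      · exact absurd ⟨J, h2⟩ h
    filter_upwards [Filter.eventually_all.2 h1] with t ht hli
    obtain ⟨J, hJ⟩ := x6_minor hli
    exact hJ (ht J)

/-- Let `r` be the largest number with `2 r ≤ k + 1` such that `g' (t), ..., g^(r) (t)` are linearly independent for all `t ≠ 0` near `0` (`r ≥ 1`: `eventually_indep_or` for `r = 1`,
`g' (0) ≠ 0`).  If `k ≤ 2 r` we are done.  Otherwise `2 (r + 1) ≤ k + 1`, so `g', ..., g^(r + 1)` are dependent at all points near `0` (`eventually_indep_or`), hence near every point `t ≠ 0` near `0`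
(`eventually_eventually_nhds`), and `mem_span_all` at these points (`g` is analytic near `0`: `AnalyticAt.eventually_analyticAt`). -/
theorem exists_general (hg : ∀ b, AnalyticAt ℂ (fun z => g z b) 0)
    (h1 : ∃ b, deriv (fun z => g z b) 0 ≠ 0) {k : ℕ} (hk : 1 ≤ k) :
    ∃ r : ℕ, 1 ≤ r ∧ 2 * r ≤ k + 1 ∧
      (∀ᶠ t in nhdsWithin (0 : ℂ) {0}ᶜ,
        LinearIndependent ℂ fun i : Fin r => dg g ((i : ℕ) + 1) t) ∧
      (k ≤ 2 * r ∨ ∀ᶠ t in nhdsWithin (0 : ℂ) {0}ᶜ, ∀ l, 1 ≤ l →
        dg g l t ∈ Submodule.span ℂ (Set.range fun i : Fin r => dg g ((i : ℕ) + 1) t)) := by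
  classical
  set P : ℕ → Prop := fun r => ∀ᶠ t in nhdsWithin (0 : ℂ) {0}ᶜ,
    LinearIndependent ℂ fun i : Fin r => dg g ((i : ℕ) + 1) t with hP
  have hP1 : P 1 := by
    rcases eventually_indep_or (r := 1) hg with h2 | h2
    · exact h2
    · exfalso
      refine h2.self_of_nhds ?_
      rw [linearIndependent_unique_iff]
      intro h3
      obtain ⟨b, hb⟩ := h1
      apply hb
      have h4 := congrFun h3 b
      have h5 : iteratedDeriv (((default : Fin 1) : ℕ) + 1) (fun w => g w b) 0 = 0 := h4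
      have h6 : ((default : Fin 1) : ℕ) + 1 = 1 := rfl
      rw [h6, iteratedDeriv_one] at h5
      exact h5
  obtain ⟨r, hr⟩ : ∃ r, r = Nat.findGreatest P ((k + 1) / 2) := ⟨_, rfl⟩
  have hle : r ≤ (k + 1) / 2 := by rw [hr]; exact Nat.findGreatest_le _
  have h1r : 1 ≤ r := by rw [hr]; exact Nat.le_findGreatest (by omega) hP1
  have hPr : P r := by
    rw [hr]
    exact Nat.findGreatest_spec (P := P) (m := 1) (by omega) hP1
  refine ⟨r, h1r, by omega, hPr, ?_⟩
  by_cases hk2 : k ≤ 2 * r
  · exact Or.inl hk2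
  · right
    have hnP : ¬ P (r + 1) := Nat.findGreatest_is_greatest (P := P) (n := (k + 1) / 2) (by omega) (by omega)
    have h3 : ∀ᶠ t in nhds (0 : ℂ), ¬ LinearIndependent ℂ fun i : Fin (r + 1) => dg g ((i : ℕ) + 1) t := by
      rcases eventually_indep_or (r := r + 1) hg with h2 | h2
      · exact absurd h2 hnP
      · exact h2
    have h4 : ∀ᶠ t in nhds (0 : ℂ), ∀ b, AnalyticAt ℂ (fun z => g z b) t :=
      Filter.eventually_all.2 fun b => (hg b).eventually_analyticAt
    have h5 := h3.eventually_nhds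
    filter_upwards [hPr, h4.filter_mono nhdsWithin_le_nhds, h5.filter_mono nhdsWithin_le_nhds] with t a1 a2 a3 l hl
    exact mem_span_all a2 a1 a3 l hl

end Pool.Agent.H78W
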