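import Pool.Agent.Lib.H78W.X0

set_option autoImplicit false

/-!
CHUNK X7 of H78W (analysis of H53W).  Translation of the base point.
-/

open MvPolynomial Filter Topology

namespace Pool.Agent.H78W

open Pool.Agent.H89T Pool.Agent.H67T Pool.Agent.H53U Pool.Agent.H78M

variable {N c : ℕ} {d : Fin c → ℕ}

theorem TF_homogeneous (x : Fin N → ℂ) {F : MvPolynomial (Fin (N + 1)) ℂ} {e : ℕ}
    (hF : F.IsHomogeneous e) : (TF x F).IsHomogeneous e := by
  unfold TF
  have h1 := hF.aeval (n := 1) (fun b : Fin (N + 1) =>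
    Fin.cases (motive := fun _ => MvPolynomial (Fin (N + 1)) ℂ) (X 0)
    (fun b' => X b'.succ + C (x b') * X 0) b) (by
      intro b
      refine Fin.cases ?_ (fun b' => ?_) b
      · exact isHomogeneous_X _ _
      · refine (isHomogeneous_X _ _).add ?_
        have := (isHomogeneous_C (Fin (N + 1)) (x b')).mul (isHomogeneous_X ℂ (0 : Fin (N + 1)))
        rwa [zero_add] at this)
  rwa [one_mul] at h1

theorem eval_Ty_TF (x : Fin N → ℂ) (y : Fin (N + 1) → ℂ) (F : MvPolynomial (Fin (N + 1)) ℂ) :
    eval (Ty x y) (TF x F) = eval y F := by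
  unfold TF
  induction F using MvPolynomial.induction_on with
  | C r => rw [algHom_C, algebraMap_eq, eval_C, eval_C]
  | add p q hp hq => rw [map_add, map_add, hp, hq, map_add]
  | mul_X p b hp =>
    rw [map_mul, map_mul, hp, aeval_X, map_mul, eval_X]
    congr 1
    refine Fin.cases ?_ (fun b' => ?_) b
    · simp only [Fin.cases_zero, eval_X]
      rfl
    · simp only [Fin.cases_succ, map_add, map_mul, eval_X, eval_C]
      change y b'.succ - x b' * y 0 + x b' * y 0 = y b'.succ
      ring

/-- The coefficients are determined by the polynomials. -/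
theorem x7_ext {a a' : CI N d → ℂ} (h : ∀ j, PF a j = PF a' j) : a = a' := by
  rw [← cofs_PF a, ← cofs_PF a']
  funext p
  rw [h p.1]

/-- The values of `PF (cfs d F) j`. -/
theorem x7_eval_PF_cfs {F : Fin c → MvPolynomial (Fin (N + 1)) ℂ} (hF : ∀ j, (F j).IsHomogeneous (d j))
    (j : Fin c) (z : Fin N → ℂ) : eval z (PF (cfs d F) j) = eval (Fin.cases (motive := fun _ => ℂ) 1 z) (F j) := by
  rw [eval_PF]
  have h1 := eval_insertNth 0 (hF j) z
  have h2 : ((0 : Fin (N + 1)).insertNth (1 : ℂ) z : Fin (N + 1) → ℂ) = Fin.cases (motive := fun _ => ℂ) 1 z := by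
    funext b
    refine Fin.cases ?_ (fun b' => ?_) b
    · simp
    · simp
  rw [h2] at h1
  rw [h1]
  rfl

/-- `MvPolynomial.funext`; `eval_PF`, `U0`, `cfs`, `ev_cf` at the point `(1, z)`. -/
theorem PF_cfs {F : Fin c → MvPolynomial (Fin (N + 1)) ℂ} (hF : ∀ j, (F j).IsHomogeneous (d j))
    (j : Fin c) : PF (cfs d F) j =
      aeval (fun b : Fin (N + 1) => Fin.cases (motive := fun _ => MvPolynomial (Fin N) ℂ) 1 X b) (F j) := by
  refine MvPolynomial.funext fun z => ?_
  rw [x7_eval_PF_cfs hF]
  generalize F j = G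
  induction G using MvPolynomial.induction_on with
  | C r => rw [algHom_C, algebraMap_eq, eval_C, eval_C]
  | add p q hp hq => rw [map_add, map_add, map_add, hp, hq]
  | mul_X p b hp =>
    rw [map_mul, map_mul, map_mul, hp, aeval_X, eval_X]
    congr 1
    refine Fin.cases ?_ (fun b' => ?_) b
    · simp
    · simp

/-- `PF_cfs` on both sides, `PF_tra`, `shiftP`; the coefficients are determined by `PF` (`cofs_PF`). -/
theorem cfs_TF (x : Fin N → ℂ) {F : Fin c → MvPolynomial (Fin (N + 1)) ℂ}
    (hF : ∀ j, (F j).IsHomogeneous (d j)) :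
    cfs d (fun j => TF x (F j)) = tra (fun b => - x b) (cfs d F) := by
  refine x7_ext fun j => ?_
  rw [PF_tra]
  refine MvPolynomial.funext fun z => ?_
  have h0 := x7_eval_PF_cfs (fun j => TF_homogeneous x (hF j)) j z
  rw [h0, eval_shiftP, x7_eval_PF_cfs hF]
  have h1 : (Fin.cases (motive := fun _ => ℂ) 1 z : Fin (N + 1) → ℂ) =
      Ty x (Fin.cases (motive := fun _ => ℂ) 1 (fun b => z b + - - x b)) := by
    funext b
    refine Fin.cases ?_ (fun b' => ?_) b
    · simp [Ty]
    · simp [Ty]
  rw [h1, eval_Ty_TF]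

theorem IsHol_Ty (x : Fin N → ℂ) {y : ℂ → Fin (N + 1) → ℂ} (hy : IsHol y) {α β : ℂ} (hα : α ≠ 0) :
    IsHol fun u => Ty x (y (α * u + β)) := by
  have hlin : Differentiable ℂ fun u : ℂ => α * u + β :=
    (differentiable_id.const_mul α).add_const β
  refine ⟨fun b => ?_, fun u h0 => ?_⟩
  · refine Fin.cases ?_ (fun b' => ?_) b
    · exact (hy.diff 0).comp hlin
    · exact ((hy.diff b'.succ).comp hlin).sub (((hy.diff 0).comp hlin).const_mul (x b'))
  · apply hy.ne_zero (α * u + β)
    have h1 : y (α * u + β) 0 = 0 := congrFun h0 0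
    funext b
    refine Fin.cases ?_ (fun b' => ?_) b
    · exact h1
    · have h2 : y (α * u + β) b'.succ - x b' * y (α * u + β) 0 = 0 := congrFun h0 b'.succ
      rw [h1, mul_zero, sub_zero] at h2
      exact h2

/-- `(y_(b + 1) - x_b y_0) / y_0 = ch_b - x_b` where `y_0 ≠ 0`. -/
theorem ch_Ty (x : Fin N → ℂ) (y : ℂ → Fin (N + 1) → ℂ) {z : ℂ} (hz : y z 0 ≠ 0) (b : Fin N) :
    ch 0 (fun z => Ty x (y z)) z b = ch 0 y z b - x b := by
  unfold ch Ty
  simp only [Fin.zero_succAbove, Fin.cases_succ, Fin.cases_zero]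
  field_simp

/-- The function `x ↦ Θ (tra (- x) a)` is a polynomial, so it is continuous (`tra`, `cofs`, `shiftP`: the coefficients of `F_a (X + x)` are polynomials in `x`: `tra_map` with
`eval x : ℂ[x] →+* ℂ`); its value at `0` is `Θ (a)`. -/
theorem eventually_tra_ne {Θ : RC N d} {a : CI N d → ℂ} (h : eval a Θ ≠ 0) :
    ∀ᶠ x in nhds (0 : Fin N → ℂ), eval (tra (fun b => - x b) a) Θ ≠ 0 := by
  classical
  -- the coefficients as polynomials in `x`
  have h1 : ∀ (x : Fin N → ℂ) (p : CI N d), tra (fun b => - x b) a p =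
      eval x (tra (fun b => - (X b : MvPolynomial (Fin N) ℂ)) (fun p => C (a p)) p) := by
    intro x p
    rw [tra_map]
    simp only [map_neg, eval_X, eval_C]
  have h2 : Continuous fun x : Fin N → ℂ => eval (tra (fun b => - x b) a) Θ := by
    have h3 : ∀ x : Fin N → ℂ, eval (tra (fun b => - x b) a) Θ =
        eval x (aeval (fun p => tra (fun b => - (X b : MvPolynomial (Fin N) ℂ)) (fun p => C (a p)) p) Θ) := by
      intro x
      have h4 : (tra (fun b => - x b) a) = fun p => eval x (tra (fun b => - (X b : MvPolynomial (Fin N) ℂ)) (fun p => C (a p)) p) :=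
        funext (h1 x)
      rw [h4]
      clear h h4
      induction Θ using MvPolynomial.induction_on with
      | C r =>
        rw [algHom_C, eval_C]
        exact (eval_C r).symm
      | add p q hp hq => rw [map_add, map_add, map_add, hp, hq]
      | mul_X p b hp => rw [map_mul, map_mul, map_mul, hp, aeval_X, eval_X]
    simp only [h3]
    exact MvPolynomial.continuous_eval _
  have h5 : eval (tra (fun b => - (0 : Fin N → ℂ) b) a) Θ ≠ 0 := by
    have h6 : tra (fun b => - (0 : Fin N → ℂ) b) a = a := by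
      refine x7_ext fun j => ?_
      rw [PF_tra]
      refine MvPolynomial.funext fun z => ?_
      rw [eval_shiftP]
      have h7 : (fun b => z b + - - (0 : Fin N → ℂ) b) = z := by
        funext b
        simp
      rw [h7]
    rw [h6]
    exact h
  exact h2.continuousAt.eventually_ne h5

/-- `eval_PF`, `PF_tra`, `eval_shiftP` (`U0_tra` in H53U/M2.lean or the like). -/
theorem U0_tra_neg (x : Fin N → ℂ) (a : CI N d → ℂ) (j : Fin c) :
    U0 (tra (fun b => - x b) a) 0 j = U0 a x j := by
  have h1 := U0_tra (fun b => - x b) a x j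
  have h2 : (fun b => x b + - x b) = (0 : Fin N → ℂ) := by
    funext b
    simp
  rw [h2] at h1
  exact h1

end Pool.Agent.H78W
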