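import Pool.Agent.Lib.H78W.X3
import Pool.Agent.Lib.H78W.X4
import Pool.Agent.Lib.H78W.X6
import Pool.Agent.Lib.H78W.X7

set_option autoImplicit false

/-!
CHUNK X8 of H78W (analysis of H53W).  THE MAIN THEOREM OF THE ANALYSIS.
-/

open MvPolynomial Filter Topology

namespace Pool.Agent.H78W

open Pool.Agent.H89T Pool.Agent.H67T Pool.Agent.H53U Pool.Agent.H78M

/-- The value of `tv`. -/
theorem x8_tv {N k : ℕ} (ξ : JV N k → ℂ) {l : ℕ} (hl : l ≤ k) (b : Fin N) :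
    tv ξ l b = ξ (b, ⟨l, by omega⟩) := by
  unfold tv
  rw [Pool.Agent.H89T.coeff_arc]
  rw [dif_pos (by omega)]

theorem x8_tv_zero {N k : ℕ} (ξ : JV N k → ℂ) {l : ℕ} (hl : k < l) : tv ξ l = 0 := by
  funext b
  unfold tv
  rw [Pool.Agent.H89T.coeff_arc]
  rw [dif_neg (by omega)]
  rfl

/-- The derivatives of a translated function. -/
theorem x8_iter (f : ℂ → ℂ) (t x : ℂ) (l : ℕ) (hx : x = f t) :
    iteratedDeriv l (fun w => f (w + t) - x) 0 = if l = 0 then 0 else iteratedDeriv l f t := by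
  cases l with
  | zero =>
    rw [if_pos rfl, iteratedDeriv_zero, hx]
    simp
  | succ l =>
    rw [if_neg (Nat.succ_ne_zero l), iteratedDeriv_succ']
    have h1 : (deriv fun w => f (w + t) - x) = fun w => deriv f (w + t) := by
      funext w
      rw [deriv_sub_const, deriv_comp_add_const]
    rw [h1, iteratedDeriv_comp_add_const, iteratedDeriv_succ']
    show iteratedDeriv l (deriv f) (0 + t) = _
    rw [zero_add]

/-- The jet at `0` of the translated curve. -/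
theorem tv_translate {N k : ℕ} {y : ℂ → Fin (N + 1) → ℂ} (hy : IsHol y) {t₁ : ℂ} (ht : y t₁ 0 ≠ 0)
    {x : Fin N → ℂ} (hx : ∀ b, x b = ch 0 y t₁ b) {l : ℕ} (hl : l ≤ k) :
    tv (jetf k (ch 0 fun z => Ty x (y (z + t₁))) 0) l =
      if l = 0 then 0 else (1 / (l.factorial : ℂ)) • dg (fun z b => ch 0 y z b) l t₁ := by
  funext b
  rw [x8_tv _ hl]
  unfold jetf
  show iteratedDeriv l (fun w => ch 0 (fun z => Ty x (y (z + t₁))) w b) 0 / (l.factorial : ℂ) = _
  have hc : Continuous fun w : ℂ => y (w + t₁) 0 := (hy.diff 0).continuous.comp (continuous_id.add continuous_const)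
  have hne : ∀ᶠ w in nhds (0 : ℂ), y (w + t₁) 0 ≠ 0 := by
    refine hc.continuousAt.eventually_ne ?_
    rw [zero_add]
    exact ht
  have h1 : (fun w => ch 0 (fun z => Ty x (y (z + t₁))) w b) =ᶠ[nhds 0]
      fun w => (fun z => ch 0 y z b) (w + t₁) - x b := by
    filter_upwards [hne] with w hw
    exact ch_Ty x (fun z => y (z + t₁)) hw b
  have h2 := x8_iter (fun z => ch 0 y z b) t₁ (x b) l (hx b)
  rw [h1.iteratedDeriv_eq l, h2]
  split_ifs with h
  · simp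
  · unfold dg
    rw [Pi.smul_apply, smul_eq_mul]
    ring

/-- Scaling of a family by nonzero numbers: the linear independence. -/
theorem x8_indep {N r : ℕ} {v w : Fin r → Fin N → ℂ} (h : ∀ i, ∃ s : ℂ, s ≠ 0 ∧ v i = s • w i)
    (hw : LinearIndependent ℂ w) : LinearIndependent ℂ v := by
  choose s hs hv using h
  have h1 := hw.units_smul fun i => Units.mk0 (s i) (hs i)
  have h2 : (fun i => Units.mk0 (s i) (hs i)) • w = v := by
    funext i
    rw [hv i]
    rfl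
  rwa [h2] at h1

/-- Scaling of a family by nonzero numbers: the span. -/
theorem x8_span {N r : ℕ} {v w : Fin r → Fin N → ℂ} (h : ∀ i, ∃ s : ℂ, s ≠ 0 ∧ v i = s • w i)
    {u : Fin N → ℂ} (hu : u ∈ Submodule.span ℂ (Set.range w)) :
    u ∈ Submodule.span ℂ (Set.range v) := by
  refine Submodule.span_le.2 ?_ hu
  rintro _ ⟨i, rfl⟩
  obtain ⟨s, hs, hv⟩ := h i
  have h1 : w i = s⁻¹ • v i := by
    rw [hv, smul_smul, inv_mul_cancel₀ hs, one_smul]
  rw [h1]
  exact Submodule.smul_mem _ _ (Submodule.subset_span ⟨i, rfl⟩)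

/-- PROOF.  `Θ` is the product of the `Θ` of `PtdQ` and of the `Θ_r` of `NoReg n r d`, `1 ≤ r`, `2 r < k` (`prod_generic`, `mul_generic`).  Let `y` be a curve in `F = 0` through
`(1, 0, ..., 0)`, `a = cfs d F`, and suppose that `deriv (fun z => ch 0 y z b) 0 ≠ 0` for some `b`.  `y' z = y (exp z - 1)`, `g z = ch 0 y' z`; `deriv (fun z => g z b) 0 ≠ 0` (`jet_exp`, or the chain rule).
`exists_general`: `r`.  Choose `t₁ ≠ 0` near `0` with `y' t₁ 0 ≠ 0`, `eval (tra (- g t₁) a) Θ ≠ 0` (`eventually_tra_ne`, `g` is continuous at `0`, `g 0 = 0`) and the properties of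
`exists_general`.  `x = g t₁`, `F' j = TF x (F j)`, `cfs d F' = tra (- x) a` (`cfs_TF`), `U0 (cfs d F') 0 j = U0 a x j = 0` (`U0_tra_neg`, `ev_cf`), `w u = Ty x (y (exp t₁ * u + (exp t₁ - 1)))`:
`w (exp z - 1) = Ty x (y' (z + t₁))` (`Complex.exp_add`), `IsHol_Ty`, `eval_Ty_TF`, `w 0 = Ty x (y' t₁)` has `w 0 b.succ = 0`.
If `k ≤ 2 r`: the jet of order `k` of `w (exp z - 1)` at `0` is `QND` by `QND_of_indep` (`tv_translate`; `r ≤ k` as `2 r ≤ k + 1`; multiplication of the vectors by nonzero numbers keeps the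
linear independence: `LinearIndependent.units_smul` or the like), contradiction to `PtdQ`.
If `2 r < k`: the jet `ξ` of order `2 r` is `RegJ r` (`tv_translate`), `uV (cfs d F') ξ j i = 0` for `i ≤ 2 r` (`H53V.uR_jet_zero` for the curve `w (exp z - 1)`, `eval_uR`), contradiction to `NoReg`. -/
theorem ptdU_of_ptdQ {n k c : ℕ} (hk : 1 ≤ k) {d : Fin c → ℕ} (hd : ∀ j, 1 ≤ d j) (h : PtdQ n k d)
    (hreg : ∀ r, 1 ≤ r → 2 * r < k → NoReg n r d) : PtdU n d := by
  classical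
  obtain ⟨Θ₀, hΘ₀, hQ⟩ := h
  have hreg' : ∀ r : ℕ, ∃ Θ : RC (n + c) d,
      (∃ a : CI (n + c) d → ℂ, (∀ j, U0 a 0 j = 0) ∧ eval a Θ ≠ 0) ∧
      (1 ≤ r → 2 * r < k → ∀ a : CI (n + c) d → ℂ, (∀ j, U0 a 0 j = 0) → eval a Θ ≠ 0 →
        ∀ ξ : JV (n + c) (2 * r) → ℂ, (∀ b, ξ (b, 0) = 0) →
          (∀ j, ∀ i ≤ 2 * r, H53V.uV a ξ j i = 0) → ¬ RegJ r ξ) := by
    intro r
    by_cases hr : 1 ≤ r ∧ 2 * r < k
    · obtain ⟨Θ, h1, h2⟩ := hreg r hr.1 hr.2
      exact ⟨Θ, h1, fun _ _ => h2⟩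
    · refine ⟨1, ⟨fun _ => 0, fun j => ?_, ?_⟩, fun h1 h2 => absurd ⟨h1, h2⟩ hr⟩
      · rw [n1b_U0]
      · rw [map_one]
        exact one_ne_zero
  choose Θr hΘr hR using hreg'
  refine ⟨Θ₀ * ∏ r ∈ Finset.range k, Θr r,
    mul_generic hΘ₀ (prod_generic hd _ _ fun r _ => hΘr r), ?_⟩
  intro F hF hF0 hΘ y hy hFy h0 h1
  by_contra hcon
  push Not at hcon
  obtain ⟨b₀, hb₀⟩ := hcon
  set a := cfs d F with ha
  set y' : ℂ → Fin (n + c + 1) → ℂ := fun z => y (Complex.exp z - 1) with hy'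
  have hy'h : IsHol y' := ⟨fun j => (hy.diff j).comp (Complex.differentiable_exp.sub_const 1),
    fun z => hy.ne_zero _⟩
  have hFy' : ∀ z j, eval (y' z) (F j) = 0 := fun z j => hFy _ j
  have hy'0 : y' 0 = y 0 := by
    simp [hy']
  have hjet := jet_exp hy h0 h1
  have hy'00 : y' 0 0 ≠ 0 := by rw [hy'0]; exact h0
  set g : ℂ → Fin (n + c) → ℂ := fun z b => ch 0 y' z b with hg
  have hga : ∀ b, AnalyticAt ℂ (fun z => g z b) 0 := fun b => analyticAt_ch hy'h.diff 0 hy'00 b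
  have hg1 : ∃ b, deriv (fun z => g z b) 0 ≠ 0 := by
    refine ⟨b₀, ?_⟩
    have h2 := congrFun hjet (b₀, 1)
    unfold jetf JJ at h2
    rw [if_neg (show ¬ ((1 : Fin 2) = 0) by decide)] at h2
    have e1 : ((1 : Fin (1 + 1)) : ℕ) = 1 := rfl
    have h3 : deriv (fun z => g z b₀) 0 = deriv (fun z => ch 0 y z b₀) 0 := by
      have h4 : iteratedDeriv ((1 : Fin (1 + 1)) : ℕ) (fun w => ch 0 y' w b₀) 0 /
          (((1 : Fin (1 + 1)) : ℕ).factorial : ℂ) = deriv (fun z => ch 0 y z b₀) 0 := h2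
      rw [e1, iteratedDeriv_one, Nat.factorial_one, Nat.cast_one, div_one] at h4
      exact h4
    rw [h3]
    exact hb₀
  obtain ⟨r, hr1, hr2, hind, hspan⟩ := exists_general hga hg1 hk
  -- the point
  have hgc : Tendsto (fun z => g z) (nhds 0) (nhds 0) := by
    have h2 : ContinuousAt (fun z => g z) 0 := continuousAt_pi.2 fun b => (hga b).continuousAt
    have h3 : g 0 = 0 := by
      funext b
      show ch 0 y' 0 b = 0
      unfold ch
      rw [hy'0, Fin.zero_succAbove, h1, zero_div]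
    have h4 := h2.tendsto
    rwa [h3] at h4
  have ev1 : ∀ᶠ t in nhdsWithin (0 : ℂ) {0}ᶜ,
      eval (tra (fun b => - g t b) a) (Θ₀ * ∏ r ∈ Finset.range k, Θr r) ≠ 0 :=
    nhdsWithin_le_nhds (hgc.eventually (eventually_tra_ne hΘ))
  have ev2 : ∀ᶠ t in nhdsWithin (0 : ℂ) {0}ᶜ, y' t 0 ≠ 0 :=
    nhdsWithin_le_nhds ((hy'h.diff 0).continuous.continuousAt.eventually_ne hy'00)
  have ev3 : ∀ᶠ t in nhdsWithin (0 : ℂ) {0}ᶜ, k ≤ 2 * r ∨ ∀ l, 1 ≤ l →
        dg g l t ∈ Submodule.span ℂ (Set.range fun i : Fin r => dg g ((i : ℕ) + 1) t) := by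
    rcases hspan with h2 | h2
    · exact Eventually.of_forall fun _ => Or.inl h2
    · exact h2.mono fun _ h3 => Or.inr h3
  obtain ⟨t₁, ⟨⟨hT1, hT2⟩, hT3⟩, hT4⟩ := (((ev1.and ev2).and ev3).and hind).exists
  -- the translated equations and the translated curve
  have hU : ∀ j, U0 (cfs d fun j => TF (g t₁) (F j)) 0 j = 0 := by
    intro j
    rw [cfs_TF (g t₁) hF, U0_tra_neg]
    have h2 := ev_cf 0 (hF j) hT2
    rw [hFy', zero_div] at h2
    exact h2
  have hF' : ∀ j, (TF (g t₁) (F j)).IsHomogeneous (d j) := fun j => TF_homogeneous _ (hF j)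
  have hΘ' : eval (cfs d fun j => TF (g t₁) (F j)) (Θ₀ * ∏ r ∈ Finset.range k, Θr r) ≠ 0 := by
    rw [cfs_TF (g t₁) hF]
    exact hT1
  rw [map_mul, mul_ne_zero_iff, map_prod, Finset.prod_ne_zero_iff] at hΘ'
  set w : ℂ → Fin (n + c + 1) → ℂ := fun u => Ty (g t₁) (y (Complex.exp t₁ * u + (Complex.exp t₁ - 1))) with hw
  have hwh : IsHol w := IsHol_Ty (g t₁) hy (Complex.exp_ne_zero t₁)
  have hwF : ∀ z j, eval (w z) (TF (g t₁) (F j)) = 0 := by
    intro z j
    rw [hw]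
    simp only
    rw [eval_Ty_TF]
    exact hFy _ j
  have hwe : (fun z => w (Complex.exp z - 1)) = fun z => Ty (g t₁) (y' (z + t₁)) := by
    funext z
    rw [hw, hy']
    simp only
    congr 2
    rw [Complex.exp_add]
    ring
  have hw0 : w 0 = Ty (g t₁) (y' t₁) := by
    rw [hw, hy']
    simp only
    congr 2
    ring
  have hw00 : w 0 0 ≠ 0 := by
    rw [hw0]
    exact hT2
  have hw0s : ∀ b : Fin (n + c), w 0 b.succ = 0 := by
    intro b
    rw [hw0]
    show y' t₁ b.succ - ch 0 y' t₁ b * y' t₁ 0 = 0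
    unfold ch
    rw [Fin.zero_succAbove, div_mul_cancel₀ _ hT2, sub_self]
  have htv : ∀ {K l : ℕ}, 1 ≤ l → l ≤ K →
      tv (jetf K (ch 0 fun z => w (Complex.exp z - 1)) 0) l = (1 / (l.factorial : ℂ)) • dg g l t₁ := by
    intro K l hl1 hl2
    rw [hwe, tv_translate hy'h hT2 (fun b => rfl) hl2, if_neg (by omega)]
  have hξ0 : ∀ (K : ℕ) (b : Fin (n + c)), jetf K (ch 0 fun z => w (Complex.exp z - 1)) 0 (b, 0) = 0 := by
    intro K b
    have h2 := congrFun (tv_translate (k := K) hy'h hT2 (x := g t₁) (fun b => rfl) (Nat.zero_le K)) b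
    rw [if_pos rfl, x8_tv _ (Nat.zero_le K)] at h2
    rw [hwe]
    exact h2
  have hfac : ∀ l : ℕ, (1 / (l.factorial : ℂ)) ≠ 0 := by
    intro l
    exact one_div_ne_zero (Nat.cast_ne_zero.2 (Nat.factorial_ne_zero l))
  by_cases hkr : k ≤ 2 * r
  · refine hQ (fun j => TF (g t₁) (F j)) hF' hU hΘ'.1 w hwh hwF hw00 hw0s ?_
    refine QND_of_indep (hξ0 k) hr1 hkr (by omega) ?_
    refine x8_indep (fun i => ⟨_, hfac ((i : ℕ) + 1), ?_⟩) hT4
    exact htv (by omega) (by have := i.2; omega)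
  · have hsp := hT3.resolve_left hkr
    have hrk : r ∈ Finset.range k := Finset.mem_range.2 (by omega)
    refine hR r hr1 (by omega) (cfs d fun j => TF (g t₁) (F j)) hU (hΘ'.2 r hrk)
      (jetf (2 * r) (ch 0 fun z => w (Complex.exp z - 1)) 0) (hξ0 _) ?_ ?_
    · intro j i hi
      have hwe' : IsHol fun z => w (Complex.exp z - 1) :=
        ⟨fun j => (hwh.diff j).comp (Complex.differentiable_exp.sub_const 1), fun z => hwh.ne_zero _⟩
      have h2 := H53V.uR_jet_zero (k := 2 * r) hF' hwe' (fun z j => hwF _ j) (z := 0) (by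
        simpa using hw00) j hi
      rw [eval_uR] at h2
      exact h2
    · have hsc : ∀ i : Fin r, ∃ s : ℂ, s ≠ 0 ∧
          tv (jetf (2 * r) (ch 0 fun z => w (Complex.exp z - 1)) 0) ((i : ℕ) + 1) = s • dg g ((i : ℕ) + 1) t₁ :=
        fun i => ⟨_, hfac ((i : ℕ) + 1), htv (by omega) (by have := i.2; omega)⟩
      refine ⟨x8_indep hsc hT4, fun l hl => ?_⟩
      by_cases hl2 : l ≤ 2 * r
      · rw [htv hl hl2]
        exact Submodule.smul_mem _ _ (x8_span hsc (hsp l hl))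
      · rw [x8_tv_zero _ (by omega)]
        exact Submodule.zero_mem _

theorem ptdU_of_algKW {n k q c : ℕ} (hn : 1 ≤ n) (hk : 1 ≤ k) {d : Fin c → ℕ} (hd : ∀ j, 1 ≤ d j)
    (h : AlgKW n k q d) (hreg : ∀ r, 1 ≤ r → 2 * r < k → NoReg n r d) : PtdU n d :=
  ptdU_of_ptdQ hk hd (ptdQ_of_algKW hn hk hd h) hreg

end Pool.Agent.H78W
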