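import Pool.Agent.Lib.H78W.X0
import Pool.Agent.Lib.H53U.Final3

set_option autoImplicit false

/-!
CHUNK F2 of H78W (H53W).  Dropping equations; the combinatorics of the degrees.
-/

open MvPolynomial

namespace Pool.Agent.H78W

open Pool.Agent.H89T Pool.Agent.H67T Pool.Agent.H53U Pool.Agent.H78M

/-- `Θ' = rename (fun p => (e p.1, p.2)) Θ`; extend a tuple `F'` by `0` at the other indices; restrict `F` to the indices `e j`. -/
theorem hypU_of_sub {N c c' : ℕ} {d : Fin c → ℕ} (e : Fin c' → Fin c) (he : Function.Injective e)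
    (h : HypU N fun j => d (e j)) : HypU N d := by
  classical
  obtain ⟨Θ, ⟨F₀, hF₀, hF₀Θ⟩, hΘ⟩ := h
  have hval : ∀ F : Fin c → MvPolynomial (Fin (N + 1)) ℂ,
      cvs (rename (fun p : Fin c' × (Fin (N + 1) →₀ ℕ) => (e p.1, p.2)) Θ) F =
        cvs Θ (fun j => F (e j)) := by
    intro F
    rw [cvs, cvs, eval_rename]
    rfl
  refine ⟨rename (fun p : Fin c' × (Fin (N + 1) →₀ ℕ) => (e p.1, p.2)) Θ,
    ⟨fun j => if hj : ∃ j', e j' = j then F₀ hj.choose else 0, fun j => ?_, ?_⟩, ?_⟩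
  · beta_reduce
    split_ifs with hj
    · have h1 : (F₀ hj.choose).IsHomogeneous (d (e hj.choose)) := hF₀ hj.choose
      rwa [hj.choose_spec] at h1
    · exact isHomogeneous_zero _ _ _
  · rw [hval]
    have h1 : (fun j : Fin c' => (if hj : ∃ j', e j' = e j then F₀ hj.choose else 0 :
        MvPolynomial (Fin (N + 1)) ℂ)) = F₀ := by
      funext j
      have hj : ∃ j', e j' = e j := ⟨j, rfl⟩
      rw [dif_pos hj]
      exact congrArg F₀ (he hj.choose_spec)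
    rw [h1]
    exact hF₀Θ
  · intro F hF hFΘ y hy hFy
    rw [hval] at hFΘ
    exact hΘ (fun j => F (e j)) (fun j => hF (e j)) hFΘ y hy fun z j => hFy z (e j)

/-- `K` as in the hypothesis: `c ≤ |K| + ∑_{Kᶜ} (d j - 1) < 2 n + 64 n ^ 2 ≤ 66 n ^ 2`, and `∑_K (d j - 1) > D - 64 n ^ 2 ≥ D / 2` has fewer than `2 n` terms, so one of them is at least `D / (4 n)`. -/
theorem exists_large {n c : ℕ} (hn : 1 ≤ n) {d : Fin c → ℕ} (hd : ∀ j, 2 ≤ d j)
    (hD : 128 * n ^ 2 ≤ ∑ j, (d j - 1))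
    (hS : ¬ ∀ K : Finset (Fin c), K.card < 2 * n → 64 * n ^ 2 ≤ ∑ j ∈ Kᶜ, (d j - 1)) :
    c ≤ 66 * n ^ 2 ∧ ∃ j1 : Fin c, ∑ j, (d j - 1) ≤ 4 * n * (d j1 - 1) := by
  classical
  push Not at hS
  obtain ⟨K, hK, hKc⟩ := hS
  have hsum : ∑ j ∈ K, (d j - 1) + ∑ j ∈ Kᶜ, (d j - 1) = ∑ j, (d j - 1) :=
    Finset.sum_add_sum_compl K _
  have hcard : Kᶜ.card ≤ ∑ j ∈ Kᶜ, (d j - 1) := by
    rw [Finset.card_eq_sum_ones]
    refine Finset.sum_le_sum fun j _ => ?_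
    have := hd j
    omega
  have hc : K.card + Kᶜ.card = c := by
    rw [Finset.card_add_card_compl, Fintype.card_fin]
  have hn2 : n ≤ n ^ 2 := by
    calc n = n * 1 := (mul_one n).symm
      _ ≤ n * n := Nat.mul_le_mul_left _ hn
      _ = n ^ 2 := (sq n).symm
  refine ⟨by omega, ?_⟩
  by_contra hcon
  push Not at hcon
  have h1 : ∑ j ∈ K, 4 * n * (d j - 1) ≤ ∑ _j ∈ K, ∑ j, (d j - 1) :=
    Finset.sum_le_sum fun j _ => (hcon j).le
  rw [← Finset.mul_sum, Finset.sum_const, smul_eq_mul] at h1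
  have h2 : K.card * ∑ j, (d j - 1) ≤ 2 * n * ∑ j, (d j - 1) := Nat.mul_le_mul_right _ hK.le
  have h3 : ∑ j, (d j - 1) + 1 ≤ 2 * ∑ j ∈ K, (d j - 1) := by omega
  have h4 : 2 * n * (∑ j, (d j - 1) + 1) ≤ 2 * n * (2 * ∑ j ∈ K, (d j - 1)) :=
    Nat.mul_le_mul_left _ h3
  have h5 : 2 * n * (2 * ∑ j ∈ K, (d j - 1)) = 4 * n * ∑ j ∈ K, (d j - 1) := by ring
  have h6 : 2 * n * (∑ j, (d j - 1) + 1) = 2 * n * ∑ j, (d j - 1) + 2 * n := by ring
  omega

end Pool.Agent.H78W
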