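import Pool.Agent.Lib.H78W.X0

set_option autoImplicit false

/-!
CHUNK Y3 of H78W (H53W).  Module C: the parameters of the regular jets; Cramer's rule for the coefficients.
-/

open MvPolynomial

namespace Pool.Agent.H78W

open Pool.Agent.H89T Pool.Agent.H67T Pool.Agent.H53U Pool.Agent.H78M

variable {N c r : ℕ} {d : Fin c → ℕ}

/-- The jet with the Taylor coefficients `u (., 1), ..., u (., r)` and `∑_j lam (i, j) u (., j)` in the orders `r + 1 + i`. -/
noncomputable def pJ {B : Type*} [CommRing B] (u : Fin N × Fin r → B) (lam : Fin r × Fin r → B) :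
    JV N (2 * r) → B :=
  fun p => if h0 : (p.2 : ℕ) = 0 then 0 else
    if h : (p.2 : ℕ) ≤ r then u (p.1, ⟨(p.2 : ℕ) - 1, by omega⟩)
    else ∑ j, lam (⟨(p.2 : ℕ) - r - 1, by have := p.2.2; omega⟩, j) * u (p.1, j)

theorem y3_mono {B : Type*} [CommRing B] (z : Fin N →₀ ℕ) (q : Fin N → Polynomial B) :
    aeval q (monomial z (1 : B)) = ∏ b, q b ^ z b := by
  rw [aeval_monomial, map_one, one_mul, Finsupp.prod_fintype _ _ (by simp)]

theorem y3_map {B B' : Type*} [CommRing B] [CommRing B'] (f : B →+* B') (z : Fin N →₀ ℕ)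
    (ξ : JV N (2 * r) → B) : (aeval (arc ξ) (monomial z (1 : B))).map f =
      aeval (arc fun p => f (ξ p)) (monomial z (1 : B')) := by
  rw [y3_mono, y3_mono, Polynomial.map_prod]
  refine Finset.prod_congr rfl fun b _ => ?_
  rw [Polynomial.map_pow, arc_map]

/-- `RegJ`: the coefficients of the orders `r + 1, ..., 2 r` are linear combinations of the first `r` ones (`Submodule.mem_span_range_iff_exists_fun`). -/
theorem RegJ.exists_pJ {ξ : JV N (2 * r) → ℂ} (h0 : ∀ b, ξ (b, 0) = 0) (h : RegJ r ξ) :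
    ∃ (u : Fin N × Fin r → ℂ) (lam : Fin r × Fin r → ℂ), ξ = pJ u lam := by
  classical
  have hs : ∀ i : Fin r, ∃ c : Fin r → ℂ, ∑ j, c j • tv ξ ((j : ℕ) + 1) = tv ξ ((i : ℕ) + r + 1) := by
    intro i
    exact (Submodule.mem_span_range_iff_exists_fun ℂ).1 (h.2 _ (by omega))
  choose c hc using hs
  have htv : ∀ (b : Fin N) (l : ℕ) (hl : l < 2 * r + 1), tv ξ l b = ξ (b, ⟨l, hl⟩) := by
    intro b l hl
    unfold tv
    rw [H89T.coeff_arc, dif_pos hl]
  refine ⟨fun p => ξ (p.1, ⟨(p.2 : ℕ) + 1, by have := p.2.2; omega⟩), fun q => c q.1 q.2, ?_⟩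
  funext p
  obtain ⟨b, l⟩ := p
  unfold pJ
  have hl := l.2
  by_cases h1 : (l : ℕ) = 0
  · have h2 : l = 0 := Fin.ext h1
    subst h2
    rw [dif_pos (show (((b, (0 : Fin (2 * r + 1))) : JV N (2 * r)).2 : ℕ) = 0 from rfl)]
    exact h0 b
  · rw [dif_neg h1]
    by_cases h2 : (l : ℕ) ≤ r
    · rw [dif_pos h2]
      congr 2
      apply Fin.ext
      change (l : ℕ) = (l : ℕ) - 1 + 1
      omega
    · rw [dif_neg h2]
      have h3 := congrFun (hc ⟨(l : ℕ) - r - 1, by omega⟩) b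
      have h4 : (l : ℕ) - r - 1 + r + 1 = l := by omega
      change (∑ j, c ⟨(l : ℕ) - r - 1, _⟩ j • tv ξ ((j : ℕ) + 1)) b = tv ξ ((l : ℕ) - r - 1 + r + 1) b at h3
      rw [h4, htv b l hl, Finset.sum_apply] at h3
      rw [← h3]
      refine Finset.sum_congr rfl fun j _ => ?_
      rw [Pi.smul_apply, htv b _ (by have := j.2; omega), smul_eq_mul]

theorem map_pJ {B B' : Type*} [CommRing B] [CommRing B'] (f : B →+* B') (u : Fin N × Fin r → B)
    (lam : Fin r × Fin r → B) (p : JV N (2 * r)) :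
    f (pJ u lam p) = pJ (fun q => f (u q)) (fun q => f (lam q)) p := by
  unfold pJ
  split_ifs with h1 h2
  · exact map_zero f
  · rfl
  · rw [map_sum]
    refine Finset.sum_congr rfl fun j _ => ?_
    rw [map_mul]

/-- The matrix of the monomials `Z`. -/
noncomputable def MZ {B : Type*} [CommRing B] (Z : Fin (2 * r) → (Fin N →₀ ℕ)) (ξ : JV N (2 * r) → B) :
    Matrix (Fin (2 * r)) (Fin (2 * r)) B :=
  matW fun i => aeval (arc ξ) (monomial (Z i) (1 : B))

/-- The column `Z i` replaced by the monomial `β`. -/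
noncomputable def MZu {B : Type*} [CommRing B] (Z : Fin (2 * r) → (Fin N →₀ ℕ)) (ξ : JV N (2 * r) → B)
    (i : Fin (2 * r)) (β : Fin N →₀ ℕ) : Matrix (Fin (2 * r)) (Fin (2 * r)) B :=
  matW (Function.update (fun i => aeval (arc ξ) (monomial (Z i) (1 : B))) i
    (aeval (arc ξ) (monomial β (1 : B))))

theorem map_MZ {B B' : Type*} [CommRing B] [CommRing B'] (f : B →+* B')
    (Z : Fin (2 * r) → (Fin N →₀ ℕ)) (ξ : JV N (2 * r) → B) :
    f (MZ Z ξ).det = (MZ Z fun p => f (ξ p)).det := by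
  unfold MZ matW
  rw [RingHom.map_det]
  congr 1
  ext l i
  rw [RingHom.mapMatrix_apply, Matrix.map_apply, Matrix.of_apply, Matrix.of_apply]
  change f ((aeval (arc ξ) (monomial (Z i) (1 : B))).coeff ((l : ℕ) + 1)) =
    (aeval (arc fun p => f (ξ p)) (monomial (Z i) (1 : B'))).coeff ((l : ℕ) + 1)
  rw [← y3_map f, Polynomial.coeff_map]

theorem map_MZu {B B' : Type*} [CommRing B] [CommRing B'] (f : B →+* B')
    (Z : Fin (2 * r) → (Fin N →₀ ℕ)) (ξ : JV N (2 * r) → B) (i : Fin (2 * r)) (β : Fin N →₀ ℕ) :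
    f (MZu Z ξ i β).det = (MZu Z (fun p => f (ξ p)) i β).det := by
  unfold MZu matW
  rw [RingHom.map_det]
  congr 1
  ext l i'
  rw [RingHom.mapMatrix_apply, Matrix.map_apply, Matrix.of_apply, Matrix.of_apply]
  by_cases h : i' = i
  · subst h
    rw [Function.update_self, Function.update_self, ← y3_map f, Polynomial.coeff_map]
  · rw [Function.update_of_ne h, Function.update_of_ne h, ← y3_map f, Polynomial.coeff_map]

/-- Let `α i : Idx N (d j)` have the exponents `Z i`.  If `F_{a,j} (x (t)) = 0` modulo `t ^ (2 r + 1)` and `F_{a,j} (0) = 0` then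
`∑_i a (j, α i) [t ^ l] x (t) ^ (Z i) = - ∑_β a (j, β) [t ^ l] x (t) ^ β`, `1 ≤ l ≤ 2 r`, the sum over the `β ≠ 0` different from the `α i`; Cramer's rule (`Matrix.cramer`, linear in the
right side). -/
theorem cramer_coeff {Z : Fin (2 * r) → (Fin N →₀ ℕ)} (hZ : Function.Injective Z)
    (hZ0 : ∀ i, Z i ≠ 0) {j : Fin c}
    {α : Fin (2 * r) → Idx N (d j)} (hα : ∀ i, expo (α i) = Z i) {a : CI N d → ℂ}
    (ha : U0 a 0 j = 0) {ξ : JV N (2 * r) → ℂ} (h0 : ∀ b, ξ (b, 0) = 0)
    (hξ : ∀ i ≤ 2 * r, H53V.uV a ξ j i = 0) (i : Fin (2 * r)) :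
    (MZ Z ξ).det * a ⟨j, α i⟩ =
      - ∑ β : Idx N (d j), if expo β ≠ 0 ∧ ∀ i', expo β ≠ Z i' then
        a ⟨j, β⟩ * (MZu Z ξ i (expo β)).det else 0 := by
  classical
  have hinj : Function.Injective α := by
    intro i1 i2 h
    apply hZ
    rw [← hα i1, ← hα i2, h]
  set w : Idx N (d j) → Fin (2 * r) → ℂ := fun β l =>
    (aeval (arc ξ) (monomial (expo β) (1 : ℂ))).coeff ((l : ℕ) + 1) with hw
  -- the equations
  have heq : ∀ l : Fin (2 * r), ∑ β : Idx N (d j), a ⟨j, β⟩ * w β l = 0 := by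
    intro l
    have h1 := hξ ((l : ℕ) + 1) (by have := l.2; omega)
    unfold H53V.uV uu Fx ev at h1
    rw [Polynomial.finsetSum_coeff] at h1
    rw [← h1]
    refine Finset.sum_congr rfl fun β _ => ?_
    rw [Polynomial.coeff_C_mul, hw]
    simp only
    rw [y3_mono]
    rfl
  have hzero : ∀ β : Idx N (d j), expo β = 0 → ∀ l, w β l = 0 := by
    intro β hβ l
    rw [hw]
    simp only
    rw [y3_mono, hβ]
    have h1 : ∏ b : Fin N, (arc ξ b) ^ ((0 : Fin N →₀ ℕ) b) = 1 := by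
      refine Finset.prod_eq_one fun b _ => ?_
      rw [Finsupp.zero_apply, pow_zero]
    rw [h1, Polynomial.coeff_one, if_neg (Nat.succ_ne_zero _)]
  have hA : ∀ l i', (MZ Z ξ) l i' = w (α i') l := by
    intro l i'
    rw [hw]
    simp only
    rw [hα]
    rfl
  -- the equations in matrix form
  have hmat : (MZ Z ξ).mulVec (fun i' => a ⟨j, α i'⟩) =
      - ∑ β : Idx N (d j), (if expo β ≠ 0 ∧ ∀ i', expo β ≠ Z i' then a ⟨j, β⟩ else 0) • w β := by
    funext l
    rw [Pi.neg_apply, Finset.sum_apply, eq_neg_iff_add_eq_zero]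
    refine Eq.trans ?_ (heq l)
    have h1 : ((MZ Z ξ).mulVec (fun i' => a ⟨j, α i'⟩)) l = ∑ β ∈ Finset.univ.image α, a ⟨j, β⟩ * w β l := by
      rw [Finset.sum_image fun i1 _ i2 _ h => hinj h]
      change ∑ i', (MZ Z ξ) l i' * a ⟨j, α i'⟩ = _
      refine Finset.sum_congr rfl fun i' _ => ?_
      rw [hA, mul_comm]
    have h2 : ∑ β ∈ Finset.univ.image α, a ⟨j, β⟩ * w β l =
        ∑ β : Idx N (d j), if β ∈ Finset.univ.image α then a ⟨j, β⟩ * w β l else 0 := by
      rw [← Finset.sum_filter]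
      refine Finset.sum_congr ?_ fun _ _ => rfl
      ext β
      rw [Finset.mem_filter]
      exact ⟨fun h => ⟨Finset.mem_univ _, h⟩, fun h => h.2⟩
    rw [h1, h2, ← Finset.sum_add_distrib]
    refine Finset.sum_congr rfl fun β _ => ?_
    rw [Pi.smul_apply, smul_eq_mul]
    by_cases hb : β ∈ Finset.univ.image α
    · obtain ⟨i', -, hi'⟩ := Finset.mem_image.1 hb
      rw [if_pos hb, if_neg, zero_mul, add_zero]
      rintro ⟨-, h3⟩
      exact h3 i' (by rw [← hi', hα])
    · rw [if_neg hb, zero_add]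
      by_cases h0' : expo β = 0
      · rw [hzero β h0' l, mul_zero, mul_zero]
      · rw [if_pos]
        refine ⟨h0', fun i' h3 => hb ?_⟩
        rw [Finset.mem_image]
        exact ⟨i', Finset.mem_univ _, expo_injective (by rw [hα, h3])⟩
  -- Cramer
  have hcr : Matrix.cramer (MZ Z ξ) ((MZ Z ξ).mulVec (fun i' => a ⟨j, α i'⟩)) i = (MZ Z ξ).det * a ⟨j, α i⟩ := by
    rw [Matrix.cramer_eq_adjugate_mulVec, Matrix.mulVec_mulVec, Matrix.adjugate_mul, Matrix.smul_mulVec,
      Matrix.one_mulVec, Pi.smul_apply, smul_eq_mul]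
  rw [← hcr, hmat, map_neg, map_sum, Pi.neg_apply, Finset.sum_apply]
  congr 1
  refine Finset.sum_congr rfl fun β _ => ?_
  rw [map_smul, Pi.smul_apply, smul_eq_mul, Matrix.cramer_apply]
  have hM : (MZ Z ξ).updateCol i (w β) = MZu Z ξ i (expo β) := by
    ext l i'
    by_cases h : i' = i
    · subst h
      rw [Matrix.updateCol_self]
      unfold MZu matW
      rw [Matrix.of_apply, Function.update_self]
    · rw [Matrix.updateCol_ne h]
      unfold MZu matW
      rw [Matrix.of_apply, Function.update_of_ne h]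
      rfl
  rw [hM]
  split_ifs with h
  · rfl
  · rw [zero_mul]

end Pool.Agent.H78W
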