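import Pool.Agent.Lib.H78W.Y1
import Pool.Agent.Lib.H78W.Y3

set_option autoImplicit false

/-!
CHUNK Y4 of H78W (H53W).  Module C: one chart.
-/

open MvPolynomial

namespace Pool.Agent.H78W

open Pool.Agent.H89T Pool.Agent.H67T Pool.Agent.H53U Pool.Agent.H78M

/-- PROOF.  `N = n + c`.  `ι = {p : CI N d // expo p.2 ≠ 0}`, `rest = {p : CI N d // expo p.2 ≠ 0 ∧ ∀ i, expo p.2 ≠ Z i}`, `τ = (Fin N × Fin r) ⊕ (Fin r × Fin r) ⊕ rest`.
`#ι = #rest + 2 r c` (for every `j` the `2 r` exponents `Z i` have indices in `Idx N (d j)` as `2 ≤ d j`: `exists_expo`), `#τ = N r + r ^ 2 + #rest < #ι` as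
`(n + c) r + r ^ 2 < 2 r c`.  `W = (MZ Z (pJ u lam)).det` with `u, lam` the variables; `G p = W * X p` for `p` in `rest`, and for `p = (j, α)` with `expo α = Z i`:
`G p = - ∑_β, if .. then X (j, β) * (MZu Z (pJ u lam) i (expo β)).det else 0`.  `Θ'` of `exists_dependence`, `Θ = rename Subtype.val Θ'`.  `Θ` does not vanish at some `a` with zero constant
coefficients: `Θ' ≠ 0` (`MvPolynomial.funext`), extend by `0`.  If `a` is pointed, `Θ (a) ≠ 0`, and `ξ` is a regular jet of the fibre then `ξ = pJ u lam` (`RegJ.exists_pJ`), and the point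
`t = (u, lam, a|rest)` satisfies `eval t (G p) = eval t W * a p` (`cramer_coeff`, `map_MZ`, `map_MZu`, `map_pJ`), so `eval t W = (MZ Z ξ).det = 0`. -/
theorem exists_Theta_Z {n c r : ℕ} (hr : 1 ≤ r) (hnr : n + r < c) {d : Fin c → ℕ} (hd : ∀ j, 2 ≤ d j)
    {Z : Fin (2 * r) → (Fin (n + c) →₀ ℕ)} (hZ : Function.Injective Z) (hZ0 : ∀ i, Z i ≠ 0)
    (hZ2 : ∀ i, (Z i).degree ≤ 2) :
    ∃ Θ : RC (n + c) d, (∃ a : CI (n + c) d → ℂ, (∀ j, U0 a 0 j = 0) ∧ eval a Θ ≠ 0) ∧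
      ∀ a : CI (n + c) d → ℂ, (∀ j, U0 a 0 j = 0) → eval a Θ ≠ 0 →
        ∀ ξ : JV (n + c) (2 * r) → ℂ, (∀ b, ξ (b, 0) = 0) →
          (∀ j, ∀ i ≤ 2 * r, H53V.uV a ξ j i = 0) → RegJ r ξ → (MZ Z ξ).det = 0 := by
  classical
  have hex : ∀ (j : Fin c) (i : Fin (2 * r)), ∃ β : Idx (n + c) (d j), expo β = Z i := fun j i =>
    exists_expo ((hZ2 i).trans (hd j))
  choose al hal using hex
  obtain ⟨W, hW⟩ : ∃ W : MvPolynomial ((Fin (n + c) × Fin r) ⊕ (Fin r × Fin r) ⊕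
      {p : CI (n + c) d // expo p.2 ≠ 0 ∧ ∀ i, expo p.2 ≠ Z i}) ℂ,
    W = (MZ Z (pJ (fun q => X (Sum.inl q)) fun q => X (Sum.inr (Sum.inl q)))).det := ⟨_, rfl⟩
  obtain ⟨G, hG⟩ : ∃ G : {p : CI (n + c) d // expo p.2 ≠ 0} → MvPolynomial ((Fin (n + c) × Fin r) ⊕
      (Fin r × Fin r) ⊕ {p : CI (n + c) d // expo p.2 ≠ 0 ∧ ∀ i, expo p.2 ≠ Z i}) ℂ,
    G = fun p => if h : ∀ i, expo p.1.2 ≠ Z i then W * X (Sum.inr (Sum.inr ⟨p.1, p.2, h⟩))
      else - ∑ β : Idx (n + c) (d p.1.1), if hβ : expo β ≠ 0 ∧ ∀ i', expo β ≠ Z i' then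
        X (Sum.inr (Sum.inr ⟨⟨p.1.1, β⟩, hβ⟩)) *
          (MZu Z (pJ (fun q => X (Sum.inl q)) fun q => X (Sum.inr (Sum.inl q)))
            (Classical.choose (not_forall.1 h)) (expo β)).det else 0 := ⟨_, rfl⟩
  have hcard : Fintype.card ((Fin (n + c) × Fin r) ⊕ (Fin r × Fin r) ⊕
      {p : CI (n + c) d // expo p.2 ≠ 0 ∧ ∀ i, expo p.2 ≠ Z i}) <
      Fintype.card {p : CI (n + c) d // expo p.2 ≠ 0} := by
    obtain ⟨φ, hφ⟩ : ∃ φ : {p : CI (n + c) d // expo p.2 ≠ 0 ∧ ∀ i, expo p.2 ≠ Z i} ⊕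
        (Fin c × Fin (2 * r)) → {p : CI (n + c) d // expo p.2 ≠ 0},
        φ = Sum.elim (fun p => ⟨p.1, p.2.1⟩) fun q => ⟨⟨q.1, al q.1 q.2⟩, by
          show expo (al q.1 q.2) ≠ 0
          rw [hal]
          exact hZ0 _⟩ := ⟨_, rfl⟩
    have hφi : Function.Injective φ := by
      rintro (p | q) (p' | q') h
      · rw [hφ] at h
        have h1 : p.1 = p'.1 := congrArg (fun z : {p : CI (n + c) d // expo p.2 ≠ 0} => z.1) h
        exact congrArg Sum.inl (Subtype.ext h1)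
      · rw [hφ] at h
        have h1 : p.1 = ⟨q'.1, al q'.1 q'.2⟩ := congrArg (fun z : {p : CI (n + c) d // expo p.2 ≠ 0} => z.1) h
        have h2 := p.2.2 q'.2
        rw [h1] at h2
        exact absurd (hal _ _) h2
      · rw [hφ] at h
        have h1 : ⟨q.1, al q.1 q.2⟩ = p'.1 := congrArg (fun z : {p : CI (n + c) d // expo p.2 ≠ 0} => z.1) h
        have h2 := p'.2.2 q.2
        rw [← h1] at h2
        exact absurd (hal _ _) h2
      · rw [hφ] at h
        have h1 : (⟨q.1, al q.1 q.2⟩ : CI (n + c) d) = ⟨q'.1, al q'.1 q'.2⟩ := congrArg (fun z : {p : CI (n + c) d // expo p.2 ≠ 0} => z.1) h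
        have h2 : q.1 = q'.1 := congrArg Sigma.fst h1
        have h3 : Z q.2 = Z q'.2 := by
          have h4 : expo (⟨q.1, al q.1 q.2⟩ : CI (n + c) d).2 =
            expo (⟨q'.1, al q'.1 q'.2⟩ : CI (n + c) d).2 := by rw [h1]
          have h5 : expo (al q.1 q.2) = expo (al q'.1 q'.2) := h4
          rw [hal, hal] at h5
          exact h5
        exact congrArg Sum.inr (Prod.ext h2 (hZ h3))
    have h1 := Fintype.card_le_of_injective φ hφi
    rw [Fintype.card_sum, Fintype.card_prod, Fintype.card_fin, Fintype.card_fin] at h1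
    refine lt_of_lt_of_le ?_ h1
    rw [Fintype.card_sum, Fintype.card_sum, Fintype.card_prod, Fintype.card_prod, Fintype.card_fin,
      Fintype.card_fin]
    have h2 : (n + c) * r + r * r < c * (2 * r) := by
      have h3 : n + c + r < 2 * c := by omega
      have h4 := Nat.mul_lt_mul_of_pos_right h3 hr
      nlinarith
    omega
  obtain ⟨Θ', hΘ0, hΘ⟩ := exists_dependence hcard W G
  have hren : ∀ a : CI (n + c) d → ℂ, eval a (rename Subtype.val Θ') =
      eval (fun p : {p : CI (n + c) d // expo p.2 ≠ 0} => a p.1) Θ' := by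
    intro a
    rw [eval_rename]
    rfl
  refine ⟨rename Subtype.val Θ', ?_, ?_⟩
  · obtain ⟨a', ha'⟩ : ∃ a' : {p : CI (n + c) d // expo p.2 ≠ 0} → ℂ, eval a' Θ' ≠ 0 := by
      by_contra hcon
      push Not at hcon
      exact hΘ0 (MvPolynomial.funext fun x => by rw [hcon x, map_zero])
    refine ⟨fun p => if h : expo p.2 ≠ 0 then a' ⟨p, h⟩ else 0, ?_, ?_⟩
    · intro j
      unfold U0 ev
      refine Finset.sum_eq_zero fun β _ => ?_
      by_cases hβ : expo β ≠ 0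
      · have h1 : ∃ b, expo β b ≠ 0 := by
          by_contra hcon
          push Not at hcon
          exact hβ (Finsupp.ext hcon)
        obtain ⟨b, hb⟩ := h1
        rw [Finset.prod_eq_zero (Finset.mem_univ b), mul_zero]
        rw [Pi.zero_apply]
        exact zero_pow hb
      · beta_reduce
        rw [dif_neg hβ, zero_mul]
    · rw [hren]
      have h1 : (fun p : {p : CI (n + c) d // expo p.2 ≠ 0} =>
          if h : expo p.1.2 ≠ 0 then a' ⟨p.1, h⟩ else 0) = a' := by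
        funext p
        rw [dif_pos p.2]
      rw [h1]
      exact ha'
  · intro a ha haΘ ξ h0 hξ hreg
    by_contra hne
    apply haΘ
    rw [hren]
    obtain ⟨u, lam, hul⟩ := RegJ.exists_pJ h0 hreg
    obtain ⟨t, ht⟩ : ∃ t : ((Fin (n + c) × Fin r) ⊕ (Fin r × Fin r) ⊕
      {p : CI (n + c) d // expo p.2 ≠ 0 ∧ ∀ i, expo p.2 ≠ Z i}) → ℂ,
      t = Sum.elim u (Sum.elim lam fun p => a p.1) := ⟨_, rfl⟩
    have hpJ : (fun p => eval t (pJ (fun q => (X (Sum.inl q) : MvPolynomial ((Fin (n + c) × Fin r) ⊕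
        (Fin r × Fin r) ⊕ {p : CI (n + c) d // expo p.2 ≠ 0 ∧ ∀ i, expo p.2 ≠ Z i}) ℂ))
          (fun q => X (Sum.inr (Sum.inl q))) p)) = ξ := by
      funext p
      rw [map_pJ, hul]
      have h1 : (fun q => eval t (X (Sum.inl q) : MvPolynomial ((Fin (n + c) × Fin r) ⊕
        (Fin r × Fin r) ⊕ {p : CI (n + c) d // expo p.2 ≠ 0 ∧ ∀ i, expo p.2 ≠ Z i}) ℂ)) = u := by
        funext q
        rw [eval_X, ht]
        rfl
      have h2 : (fun q => eval t (X (Sum.inr (Sum.inl q)) : MvPolynomial ((Fin (n + c) × Fin r) ⊕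
        (Fin r × Fin r) ⊕ {p : CI (n + c) d // expo p.2 ≠ 0 ∧ ∀ i, expo p.2 ≠ Z i}) ℂ)) = lam := by
        funext q
        rw [eval_X, ht]
        rfl
      rw [h1, h2]
    have hWt : eval t W = (MZ Z ξ).det := by
      rw [hW, map_MZ, hpJ]
    refine hΘ t (fun p => a p.1) ?_ ?_
    · rw [hWt]
      exact hne
    · intro p
      rw [hG]
      beta_reduce
      by_cases h : ∀ i, expo p.1.2 ≠ Z i
      · rw [dif_pos h, map_mul, eval_X, ht]
        rfl
      · rw [dif_neg h]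
        obtain ⟨i, hi⟩ : ∃ i, i = Classical.choose (not_forall.1 h) := ⟨_, rfl⟩
        have hi2 : expo p.1.2 = Z i := by
          rw [hi]
          exact not_not.1 (Classical.choose_spec (not_forall.1 h))
        rw [← hi, map_neg, map_sum]
        have h3 := cramer_coeff hZ hZ0 (j := p.1.1) (fun i => hal p.1.1 i) (ha p.1.1) h0 (hξ p.1.1) i
        have h4 : al p.1.1 i = p.1.2 := expo_injective ((hal _ _).trans hi2.symm)
        rw [h4] at h3
        have h5 : (⟨p.1.1, p.1.2⟩ : CI (n + c) d) = p.1 := rfl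
        rw [h5] at h3
        rw [hWt, h3]
        congr 1
        refine Finset.sum_congr rfl fun β _ => ?_
        split_ifs with hβ
        · rw [map_mul, eval_X, map_MZu, hpJ, ht]
          rfl
        · rw [map_zero]

end Pool.Agent.H78W
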