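import Pool.Agent.Lib.H78W.Y2
import Pool.Agent.Lib.H78W.Y4
import Pool.Agent.Lib.H53U.Q5

set_option autoImplicit false

/-!
CHUNK Y5 of H78W (H53W).  Module C: the result.
-/

open MvPolynomial

namespace Pool.Agent.H78W

open Pool.Agent.H89T Pool.Agent.H67T Pool.Agent.H53U Pool.Agent.H78M

/-- `Θ` is the product of the `Θ_Z` of `exists_Theta_Z` over the finitely many `Z` (functions from `Fin (2 r)` to the finite set of the exponents of degree at most `2`) with the three properties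
(`prod_generic`; index type `Fin (2 r) → Idx (n + c) 2` via `expo`), and `exists_monomials_reg`. -/
theorem noReg {n c r : ℕ} (hr : 1 ≤ r) (hnr : n + r < c) {d : Fin c → ℕ} (hd : ∀ j, 2 ≤ d j) :
    NoReg n r d := by
  classical
  have hd1 : ∀ j, 1 ≤ d j := fun j => le_trans (by omega) (hd j)
  have key : ∀ s : Fin (2 * r) → Idx (n + c) 2, ∃ Θ : RC (n + c) d,
      (∃ a : CI (n + c) d → ℂ, (∀ j, U0 a 0 j = 0) ∧ eval a Θ ≠ 0) ∧
      ∀ a : CI (n + c) d → ℂ, (∀ j, U0 a 0 j = 0) → eval a Θ ≠ 0 →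
        ∀ ξ : JV (n + c) (2 * r) → ℂ, (∀ b, ξ (b, 0) = 0) →
          (∀ j, ∀ i ≤ 2 * r, H53V.uV a ξ j i = 0) → RegJ r ξ →
            Function.Injective (fun i => expo (s i)) → (∀ i, expo (s i) ≠ 0) →
              (MZ (fun i => expo (s i)) ξ).det = 0 := by
    intro s
    by_cases h : Function.Injective (fun i => expo (s i)) ∧ ∀ i, expo (s i) ≠ 0
    · obtain ⟨Θ, h1, h2⟩ := exists_Theta_Z hr hnr hd h.1 h.2 (fun i => expo_degree (s i))
      exact ⟨Θ, h1, fun a ha ha' ξ h0 hξ hR _ _ => h2 a ha ha' ξ h0 hξ hR⟩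
    · obtain ⟨a, ha, ha'⟩ := prod_generic (d := d) hd1 (∅ : Finset (Fin 1)) (fun _ => 0) (by simp)
      refine ⟨1, ⟨a, ha, ?_⟩, fun a ha ha' ξ h0 hξ hR hi hne => absurd ⟨hi, hne⟩ h⟩
      rw [map_one]
      exact one_ne_zero
  choose Θ h1 h2 using key
  refine ⟨∏ s, Θ s, prod_generic hd1 Finset.univ Θ fun s _ => h1 s, ?_⟩
  intro a ha ha' ξ h0 hξ hR
  obtain ⟨Z, hZ, hZ0, hZ2, hZd⟩ := exists_monomials_reg hr h0 hR
  have hs : ∀ i, ∃ α : Idx (n + c) 2, expo α = Z i := fun i => exists_expo (hZ2 i)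
  choose s hs using hs
  have hsZ : (fun i => expo (s i)) = Z := funext hs
  rw [map_prod, Finset.prod_ne_zero_iff] at ha'
  have h3 := h2 s a ha (ha' s (Finset.mem_univ s)) ξ h0 hξ hR
  rw [hsZ] at h3
  refine hZd (h3 hZ fun i => ?_)
  rw [hs]
  exact hZ0 i

end Pool.Agent.H78W
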