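import Pool.Agent.Lib.H78W.W12

set_option autoImplicit false

/-!
CHUNK W13 of H78W (moves for small degrees, PROOF.md).  The relations are preserved.
-/

open MvPolynomial

namespace Pool.Agent.H78W

open Pool.Agent.H89T Pool.Agent.H67T Pool.Agent.H53U Pool.Agent.H78M

variable {N k c : ℕ} {d : Fin c → ℕ} {a : CI N d → ℂ} {φ : Fin N → MvPolynomial (Fin N) ℂ}
  {z : Fin k → MvPolynomial (Fin N) ℂ} {G : Fin c → MvPolynomial (Fin N) (AW N k d)}

/-- The ideal of the equations in the universal ring. -/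
noncomputable def IW (N k : ℕ) {c : ℕ} (d : Fin c → ℕ) : Ideal (AW N k d) :=
  Ideal.span {u | ∃ (j : Fin c) (i : ℕ), i ≤ k ∧ u = uu (fun α => aW ⟨j, α⟩) xW i}

theorem w13_flW_C (p : RC N d) : flW N k d (C p) = rename Sum.inr p := by
  unfold flW
  rw [coe_eval₂Hom, eval₂_C]
  rfl

theorem w13_flW_X (p : JV N k) : flW N k d (X p) = xW p := by
  unfold flW
  rw [coe_eval₂Hom, eval₂_X]

/-- `Ideal.span_le` / `Submodule.span_induction`; `flW (uR (gc) i) = uu aW xW i` (`hom_uu` / `uu_map`, `rename_X`). -/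
theorem flW_mem {P : MvPolynomial (JV N k) (RC N d)}
    (h : P ∈ H53V.IK k Finset.univ (gc N d)) : flW N k d P ∈ IW N k d := by
  have h1 : H53V.IK k Finset.univ (gc N d) ≤ (IW N k d).comap (flW N k d) := by
    unfold H53V.IK
    rw [Ideal.span_le]
    rintro _ ⟨j, i, hi, -, rfl⟩
    refine Ideal.mem_comap.2 ?_
    unfold H53V.uK uR
    rw [hom_uu (flW N k d)]
    refine Ideal.subset_span ⟨j, i, hi, ?_⟩
    have e1 : (fun α : Idx N (d j) => flW N k d (C (gc N d ⟨j, α⟩))) = fun α => aW ⟨j, α⟩ := by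
      funext α
      rw [w13_flW_C]
      unfold gc aW
      rw [rename_X]
    have e2 : (fun p : JV N k => flW N k d (X p)) = xW := by
      funext p
      rw [w13_flW_X]
    rw [e1, e2]
  exact h1 h

theorem DW_mem (hM : MoveW a φ z G) {P : AW N k d} (h : P ∈ IW N k d) : DW φ z G P ∈ IW N k d := by
  unfold IW at h
  induction h using Submodule.span_induction with
  | mem x hx =>
    obtain ⟨j, i, hi, rfl⟩ := hx
    rw [DW_uu hM j hi]
    exact Ideal.zero_mem _
  | zero =>
    rw [map_zero]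
    exact Ideal.zero_mem _
  | add x y _ _ hx hy =>
    rw [map_add]
    exact Ideal.add_mem _ hx hy
  | smul t x hx1 hx =>
    rw [smul_eq_mul, Derivation.leibniz, smul_eq_mul, smul_eq_mul]
    exact Ideal.add_mem _ (Ideal.mul_mem_left _ _ hx) (Ideal.mul_mem_right _ _ hx1)

theorem spW_mem {P : AW N k d} (h : P ∈ IW N k d) : spW a P ∈ H53V.IK k Finset.univ a := by
  have h1 : IW N k d ≤ (H53V.IK k Finset.univ a).comap (spW a : AW N k d →ₐ[ℂ] MvPolynomial (JV N k) ℂ).toRingHom := by
    unfold IW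
    rw [Ideal.span_le]
    rintro _ ⟨j, i, hi, rfl⟩
    refine Ideal.mem_comap.2 ?_
    rw [hom_uu (spW a : AW N k d →ₐ[ℂ] MvPolynomial (JV N k) ℂ).toRingHom]
    refine Ideal.subset_span ⟨j, i, hi, Or.inr (Finset.mem_univ _), ?_⟩
    have e1 : (fun α : Idx N (d j) => (spW a : AW N k d →ₐ[ℂ] MvPolynomial (JV N k) ℂ).toRingHom (aW ⟨j, α⟩)) =
        fun α => C (a ⟨j, α⟩) := by
      funext α
      show spW a (aW ⟨j, α⟩) = _
      unfold spW aW
      rw [aeval_X, Sum.elim_inr]
    have e2 : (fun p : JV N k => (spW a : AW N k d →ₐ[ℂ] MvPolynomial (JV N k) ℂ).toRingHom (xW p)) = fun p => X p := by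
      funext p
      show spW a (xW p) = _
      unfold spW xW
      rw [aeval_X, Sum.elim_inl]
    rw [e1, e2]
    rfl
  exact h1 h

theorem w13_iter_add (D : Derivation ℂ (AW N k d) (AW N k d)) (r : ℕ) (x y : AW N k d) :
    D^[r] (x - y) = D^[r] x - D^[r] y := by
  induction r with
  | zero => rfl
  | succ r ih => rw [Function.iterate_succ_apply', Function.iterate_succ_apply',
      Function.iterate_succ_apply', ih, map_sub]

theorem w13_iter_mul (D : Derivation ℂ (AW N k d) (AW N k d)) (r : ℕ) (x y : AW N k d) (h : D x = 0) :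
    D^[r] (x * y) = x * D^[r] y := by
  induction r with
  | zero => rfl
  | succ r ih => rw [Function.iterate_succ_apply', Function.iterate_succ_apply', ih,
      Derivation.leibniz, h, smul_zero, add_zero, smul_eq_mul]

theorem w13_iter_mem (hM : MoveW a φ z G) {P : AW N k d} (h : P ∈ IW N k d) (r : ℕ) :
    (DW φ z G)^[r] P ∈ IW N k d := by
  induction r with
  | zero => exact h
  | succ r ih =>
    rw [Function.iterate_succ_apply']
    exact DW_mem hM ih

theorem w13_lin (l : Fin N → ℂ) (y : ℂ) :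
    flW N k d (H53V.linK k (fun b => C (l b)) + C (C y)) =
      ∑ b, C (l b) * xW (b, 0) + C y := by
  unfold H53V.linK
  rw [map_add, map_sum, w13_flW_C, rename_C]
  congr 1
  refine Finset.sum_congr rfl fun b _ => ?_
  rw [map_mul, w13_flW_C, w13_flW_X, rename_C]

theorem w13_D_lin (l : Fin N → ℂ) (y : ℂ) :
    DW φ z G (∑ b, C (l b) * xW (b, 0) + C y) = 0 := by
  rw [map_add, derivation_C, add_zero, map_sum]
  refine Finset.sum_eq_zero fun b _ => ?_
  rw [Derivation.leibniz, derivation_C, w12_DW_inl, if_pos rfl, smul_zero, smul_zero, add_zero]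

theorem w13_sp_lin (l : Fin N → ℂ) (y : ℂ) :
    spW a (∑ b, C (l b) * xW (b, 0) + C y : AW N k d) = H53V.linK k l + C y := by
  unfold H53V.linK
  rw [map_add, map_sum]
  have h1 : ∀ t : ℂ, spW (N := N) (k := k) (d := d) a (C t) = C t := by
    intro t
    unfold spW
    exact aeval_C _ _
  rw [h1]
  congr 1
  refine Finset.sum_congr rfl fun b _ => ?_
  rw [map_mul, h1]
  congr 1
  unfold spW xW
  rw [aeval_X, Sum.elim_inl]

/-- `D ℓ = 0` for the linear form `ℓ` (`DW` of `xW (b, 0)` is `0`), so `D^[r] (ℓ ^ s P - Q) = ℓ ^ s D^[r] P - D^[r] Q` (induction on `r`, `Derivation.leibniz`, `leibniz_pow`). -/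
theorem DW_rel (hM : MoveW a φ z G) {l : Fin N → ℂ} {y : ℂ} {s : ℕ}
    {P Q : MvPolynomial (JV N k) (RC N d)}
    (h : (H53V.linK k (fun b => C (l b)) + C (C y)) ^ s * P - Q ∈
      H53V.IK k Finset.univ (gc N d)) (r : ℕ) :
    (H53V.linK k l + C y) ^ s * spW a ((DW φ z G)^[r] (flW N k d P)) -
      spW a ((DW φ z G)^[r] (flW N k d Q)) ∈ H53V.IK k Finset.univ a := by
  have h1 := spW_mem (a := a) (w13_iter_mem hM (flW_mem h) r)
  have h2 : DW φ z G ((∑ b, C (l b) * xW (b, 0) + C y) ^ s) = 0 := by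
    rw [Derivation.leibniz_pow, w13_D_lin, smul_zero, smul_zero]
  rw [map_sub, map_mul, map_pow, w13_lin, w13_iter_add, w13_iter_mul _ _ _ _ h2, map_sub, map_mul,
    map_pow, w13_sp_lin] at h1
  exact h1

end Pool.Agent.H78W
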