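import Pool.Agent.Lib.H78W.D0

set_option autoImplicit false

/-!
CHUNK W14 of H78W (moves for small degrees, PROOF.md).  The exponential of a derivation at a point.
-/

open MvPolynomial

namespace Pool.Agent.H78W

open Pool.Agent.H89T Pool.Agent.H67T Pool.Agent.H53U Pool.Agent.H78M

variable {A : Type*} [CommRing A] [Algebra ℂ A]

theorem coeff_expD (D : Derivation ℂ A A) (e : A →ₐ[ℂ] ℂ) (p : A) (r : ℕ) :
    PowerSeries.coeff r (expD D e p) = e (D^[r] p) / (r.factorial : ℂ) := by
  rw [expD, PowerSeries.coeff_mk]

/-- Leibniz' formula (induction on `n`, `Finset.Nat.antidiagonal`, as `Derivation`/`iteratedDeriv_mul`; or divide by the factorials first). -/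
theorem iterate_mul (D : Derivation ℂ A A) (n : ℕ) (p q : A) :
    D^[n] (p * q) = ∑ x ∈ Finset.HasAntidiagonal.antidiagonal n, (n.choose x.1 : A) * (D^[x.1] p * D^[x.2] q) := by
  induction n with
  | zero => simp
  | succ n ih =>
    rw [Finset.sum_antidiagonal_choose_succ_mul (fun i j => D^[i] p * D^[j] q) n,
      Function.iterate_succ_apply', ih, map_sum, ← Finset.sum_add_distrib]
    refine Finset.sum_congr rfl fun x hx => ?_
    have hxn : x.1 + x.2 = n := Finset.HasAntidiagonal.mem_antidiagonal.1 hx
    have hch : n.choose x.2 = n.choose x.1 := by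
      have := Nat.choose_symm_of_eq_add hxn.symm
      exact this.symm
    rw [hch, Derivation.leibniz, Derivation.map_natCast, smul_zero, add_zero, smul_eq_mul,
      Derivation.leibniz, smul_eq_mul, smul_eq_mul, Function.iterate_succ_apply',
      Function.iterate_succ_apply']
    ring

theorem expD_add (D : Derivation ℂ A A) (e : A →ₐ[ℂ] ℂ) (p q : A) :
    expD D e (p + q) = expD D e p + expD D e q := by
  ext n
  rw [map_add, coeff_expD, coeff_expD, coeff_expD, iterate_map_add, map_add, add_div]

theorem expD_mul (D : Derivation ℂ A A) (e : A →ₐ[ℂ] ℂ) (p q : A) :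
    expD D e (p * q) = expD D e p * expD D e q := by
  ext n
  rw [PowerSeries.coeff_mul, coeff_expD, iterate_mul, map_sum, Finset.sum_div]
  refine Finset.sum_congr rfl fun x hx => ?_
  have hxn : x.1 + x.2 = n := Finset.HasAntidiagonal.mem_antidiagonal.1 hx
  rw [coeff_expD, coeff_expD, map_mul, map_natCast, map_mul]
  have h1 : ((n.choose x.1 : ℕ) : ℂ) * (x.1.factorial : ℂ) * (x.2.factorial : ℂ) =
      (n.factorial : ℂ) := by
    have h2 := Nat.choose_mul_factorial_mul_factorial (n := n) (k := x.1) (by omega)
    have h3 : n - x.1 = x.2 := by omega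
    rw [h3] at h2
    exact_mod_cast h2
  have f0 : (n.factorial : ℂ) ≠ 0 := by exact_mod_cast n.factorial_ne_zero
  have f1 : (x.1.factorial : ℂ) ≠ 0 := by exact_mod_cast x.1.factorial_ne_zero
  have f2 : (x.2.factorial : ℂ) ≠ 0 := by exact_mod_cast x.2.factorial_ne_zero
  rw [div_mul_div_comm, div_eq_div_iff f0 (mul_ne_zero f1 f2), ← h1]
  ring

/-- Elements killed by `D` have constant exponentials. -/
theorem expD_of_zero (D : Derivation ℂ A A) (e : A →ₐ[ℂ] ℂ) {p : A} (h : D p = 0) :
    expD D e p = PowerSeries.C (e p) := by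
  ext n
  rw [coeff_expD, PowerSeries.coeff_C]
  cases n with
  | zero => simp
  | succ n =>
    have h1 : D^[n + 1] p = 0 := by
      rw [Function.iterate_succ_apply, h]
      exact iterate_map_zero D n
    rw [h1, map_zero, zero_div, if_neg (Nat.succ_ne_zero n)]

/-- `induction_on`. -/
theorem expD_eq_aeval {σ : Type*} (D : Derivation ℂ (MvPolynomial σ ℂ) (MvPolynomial σ ℂ))
    (e : MvPolynomial σ ℂ →ₐ[ℂ] ℂ) (p : MvPolynomial σ ℂ) :
    expD D e p = aeval (fun i => expD D e (X i)) p := by
  induction p using MvPolynomial.induction_on with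
  | C a =>
    have h1 : D (C a) = 0 := by
      have := D.map_algebraMap a
      exact this
    rw [expD_of_zero D e h1, MvPolynomial.aeval_C]
    have h2 : e (C a) = a := by
      have := e.commutes a
      exact this
    rw [h2]
    rfl
  | add p q hp hq => rw [expD_add, hp, hq, map_add]
  | mul_X p i hp => rw [expD_mul, hp, map_mul, aeval_X]

end Pool.Agent.H78W
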