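import Pool.Agent.Lib.H78W.D0

set_option autoImplicit false

/-!
CHUNK W15 of H78W (moves for small degrees, PROOF.md).  The order of vanishing along a formal arc.
-/

open MvPolynomial

namespace Pool.Agent.H78W

open Pool.Agent.H89T Pool.Agent.H67T Pool.Agent.H53U Pool.Agent.H78M

variable {σ : Type*} [Fintype σ] [DecidableEq σ]

/-- The restriction of `q` to the line `y + e τ`. -/
noncomputable def lineP (q : MvPolynomial σ ℂ) (y τ : σ → ℂ) : Polynomial ℂ :=
  eval₂ Polynomial.C (fun p => Polynomial.C (y p) + Polynomial.C (τ p) * Polynomial.X) q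

omit [Fintype σ] [DecidableEq σ] in
/-- Homogeneity. -/
theorem w15_hom {B : Type*} [CommRing B] [Algebra ℂ B] {φ : MvPolynomial σ ℂ} {n : ℕ}
    (h : φ.IsHomogeneous n) (c : B) (b : σ → B) :
    aeval (fun p => c * b p) φ = c ^ n * aeval b φ := by
  rw [aeval_def, aeval_def, eval₂_eq, eval₂_eq, Finset.mul_sum]
  refine Finset.sum_congr rfl fun m hm => ?_
  have hm' : ∑ i ∈ m.support, m i = n := by
    rw [← h (mem_support_iff.1 hm), ← Finsupp.degree_apply, Finsupp.degree_eq_weight_one]
    rfl
  have h1 : ∏ i ∈ m.support, (c * b i) ^ m i = c ^ n * ∏ i ∈ m.support, b i ^ m i := by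
    rw [← hm', ← Finset.prod_pow_eq_pow_sum, ← Finset.prod_mul_distrib]
    exact Finset.prod_congr rfl fun i _ => mul_pow _ _ _
  rw [h1]
  ring

/-- The polynomial `q (y + T)`. -/
noncomputable def w15_sh (q : MvPolynomial σ ℂ) (y : σ → ℂ) : MvPolynomial σ ℂ :=
  aeval (fun p => X p + C (y p)) q

omit [Fintype σ] [DecidableEq σ] in
theorem w15_sh_aeval {B : Type*} [CommRing B] [Algebra ℂ B] (q : MvPolynomial σ ℂ) (y : σ → ℂ)
    (b : σ → B) : aeval b (w15_sh q y) = aeval (fun p => b p + algebraMap ℂ B (y p)) q := by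
  rw [w15_sh]
  have h : (aeval b : MvPolynomial σ ℂ →ₐ[ℂ] B).comp
      (aeval (fun p => (X p + C (y p) : MvPolynomial σ ℂ))) =
      aeval (fun p => b p + algebraMap ℂ B (y p)) := by
    apply algHom_ext
    intro p
    rw [AlgHom.comp_apply, aeval_X, map_add, aeval_X, aeval_C, aeval_X]
  exact DFunLike.congr_fun h q

omit [Fintype σ] [DecidableEq σ] in
theorem w15_sum (φ : MvPolynomial σ ℂ) (M : ℕ) (hM : φ.totalDegree ≤ M) :
    ∑ i ∈ Finset.range (M + 1), homogeneousComponent i φ = φ := by
  have h1 : ∑ i ∈ Finset.range (φ.totalDegree + 1), homogeneousComponent i φ =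
      ∑ i ∈ Finset.range (M + 1), homogeneousComponent i φ := by
    refine Finset.sum_subset (Finset.range_subset_range.2 (by omega)) fun i _ hi => ?_
    rw [Finset.mem_range] at hi
    exact homogeneousComponent_eq_zero i φ (by omega)
  rw [← h1, sum_homogeneousComponent]

omit [Fintype σ] [DecidableEq σ] in
/-- (a) -/
theorem w15_line (q : MvPolynomial σ ℂ) (y τ : σ → ℂ) (i : ℕ) :
    (lineP q y τ).coeff i = eval τ (homogeneousComponent i (w15_sh q y)) := by
  have h1 : lineP q y τ = aeval (fun p => Polynomial.X * Polynomial.C (τ p)) (w15_sh q y) := by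
    rw [w15_sh_aeval, lineP, aeval_def]
    congr 1
    funext p
    rw [add_comm, mul_comm]
    rfl
  have h2 : ∀ j, aeval (fun p => Polynomial.X * Polynomial.C (τ p))
      (homogeneousComponent j (w15_sh q y)) =
      Polynomial.X ^ j * Polynomial.C (eval τ (homogeneousComponent j (w15_sh q y))) := by
    intro j
    rw [w15_hom (homogeneousComponent_isHomogeneous j _)]
    congr 1
    have h3 : (aeval (fun p => Polynomial.C (τ p)) : MvPolynomial σ ℂ →ₐ[ℂ] Polynomial ℂ) =
        (Algebra.ofId ℂ (Polynomial ℂ)).comp (aeval τ) := by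
      apply algHom_ext
      intro p
      rw [aeval_X, AlgHom.comp_apply, aeval_X]
      rfl
    rw [h3, AlgHom.comp_apply]
    rfl
  rw [h1, ← w15_sum (w15_sh q y) ((w15_sh q y).totalDegree + i) (by omega), map_sum,
    Polynomial.finsetSum_coeff, w15_sum (w15_sh q y) ((w15_sh q y).totalDegree + i) (by omega)]
  rw [Finset.sum_congr rfl fun j _ => by rw [h2 j, Polynomial.coeff_X_pow_mul']]
  rw [Finset.sum_eq_single i]
  · rw [if_pos le_rfl, Nat.sub_self, Polynomial.coeff_C_zero]
  · intro j _ hj
    split_ifs with h4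
    · rw [Polynomial.coeff_C, if_neg (by omega)]
    · rfl
  · intro hi
    exfalso
    apply hi
    rw [Finset.mem_range]
    omega

omit [Fintype σ] in
/-- (b) -/
theorem w15_van {B : Type*} [CommRing B] [Algebra ℂ B] (φ : MvPolynomial σ ℂ) (p0 : σ)
    (h : ∀ τ : σ → ℂ, τ p0 = 0 → eval τ φ = 0) (b : σ → B) (hb : b p0 = 0) : aeval b φ = 0 := by
  have h1 : aeval (fun p => if p = p0 then 0 else (X p : MvPolynomial σ ℂ)) φ = 0 := by
    apply MvPolynomial.funext
    intro τ
    rw [map_zero]
    have h2 : eval τ (aeval (fun p => if p = p0 then 0 else (X p : MvPolynomial σ ℂ)) φ) =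
        eval (fun p => if p = p0 then 0 else τ p) φ := by
      have h3 : (aeval τ : MvPolynomial σ ℂ →ₐ[ℂ] ℂ).comp
          (aeval (fun p => if p = p0 then 0 else (X p : MvPolynomial σ ℂ))) =
          aeval (fun p => if p = p0 then 0 else τ p) := by
        apply algHom_ext
        intro p
        rw [AlgHom.comp_apply, aeval_X, aeval_X]
        split_ifs
        · rw [map_zero]
        · rw [aeval_X]
      exact DFunLike.congr_fun h3 φ
    rw [h2]
    exact h _ (if_pos rfl)
  have h4 : (aeval b : MvPolynomial σ ℂ →ₐ[ℂ] B).comp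
      (aeval (fun p => if p = p0 then 0 else (X p : MvPolynomial σ ℂ))) = aeval b := by
    apply algHom_ext
    intro p
    rw [AlgHom.comp_apply, aeval_X, aeval_X]
    split_ifs with hp
    · rw [map_zero, hp, hb]
    · rw [aeval_X]
  rw [← h4, AlgHom.comp_apply, h1, map_zero]

/-- Let `q_i` be the homogeneous part of degree `i` of `q (y + T)` (`aeval (fun p => X p + C (y p)) q`, `homogeneousComponent i`).
(a) `[e ^ i] q (y + e τ) = q_i (τ)`.
(b) For `i < r` the polynomial `q_i` vanishes on the hyperplane `τ p0 = 0`, so the polynomial `q_i (T with T p0 = 0)` is `0` (`MvPolynomial.funext`).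
(c) Let `T p = Y p - C (y p) = X * T' p`, `T p0 = 0`.  `q (Y) = ∑_i q_i (T)`; for `i < r` this is `0` by (b), for `i ≥ r` it is `X ^ i q_i (T')` (homogeneity); the coefficient of
`X ^ r` is that of `q_r (T')` at `0`, i.e. `q_r (τ)`, `τ p = coeff 1 (Y p) = constantCoeff (T' p)`. -/
theorem coeff_aeval_arc (q : MvPolynomial σ ℂ) (y : σ → ℂ) (p0 : σ) {r : ℕ}
    (hmin : ∀ τ : σ → ℂ, τ p0 = 0 → ∀ i < r, (lineP q y τ).coeff i = 0) (Y : σ → PowerSeries ℂ)
    (hY : ∀ p, PowerSeries.constantCoeff (Y p) = y p) (hY0 : Y p0 = PowerSeries.C (y p0)) :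
    PowerSeries.coeff r (aeval Y q) =
      (lineP q y fun p => PowerSeries.coeff 1 (Y p)).coeff r := by
  let T' : σ → PowerSeries ℂ := fun p => PowerSeries.mk fun n => PowerSeries.coeff (n + 1) (Y p)
  have hT0 : T' p0 = 0 := by
    ext n
    simp only [T', PowerSeries.coeff_mk, hY0, PowerSeries.coeff_C, map_zero]
    exact if_neg (Nat.succ_ne_zero n)
  have hYT : ∀ p, Y p = PowerSeries.X * T' p + algebraMap ℂ (PowerSeries ℂ) (y p) := by
    intro p
    have h1 := PowerSeries.eq_X_mul_shift_add_const (Y p)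
    rw [hY p] at h1
    exact h1
  have h1 : aeval Y q = aeval (fun p => PowerSeries.X * T' p) (w15_sh q y) := by
    rw [w15_sh_aeval]
    congr 1
    congr 1
    funext p
    exact hYT p
  rw [h1, w15_line]
  have h2 : aeval (fun p => PowerSeries.X * T' p) (w15_sh q y) =
      ∑ i ∈ Finset.range ((w15_sh q y).totalDegree + r + 1),
        PowerSeries.X ^ i * aeval T' (homogeneousComponent i (w15_sh q y)) := by
    conv_lhs => rw [← w15_sum (w15_sh q y) ((w15_sh q y).totalDegree + r) (by omega)]
    rw [map_sum]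
    exact Finset.sum_congr rfl fun i _ => w15_hom (homogeneousComponent_isHomogeneous i _) _ _
  rw [h2, map_sum, Finset.sum_eq_single r]
  · rw [PowerSeries.coeff_X_pow_mul', if_pos le_rfl, Nat.sub_self,
      PowerSeries.coeff_zero_eq_constantCoeff_apply]
    have h3 : ∀ φ : MvPolynomial σ ℂ, PowerSeries.constantCoeff (aeval T' φ) =
        eval (fun p => PowerSeries.coeff 1 (Y p)) φ := by
      intro φ
      have h4 : (PowerSeries.constantCoeff (R := ℂ)).comp (aeval T' : MvPolynomial σ ℂ →ₐ[ℂ] _).toRingHom =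
          eval (fun p => PowerSeries.coeff 1 (Y p)) := by
        apply MvPolynomial.ringHom_ext
        · intro a
          simp
        · intro p
          simp [T']
      exact DFunLike.congr_fun h4 φ
    exact h3 _
  · intro i _ hi
    rcases Nat.lt_or_ge i r with h3 | h3
    · rw [w15_van _ p0 (fun τ hτ => by rw [← w15_line]; exact hmin τ hτ i h3) T' hT0, mul_zero,
        map_zero]
    · rw [PowerSeries.coeff_X_pow_mul', if_neg (by omega)]
  · intro hi
    exfalso
    apply hi
    rw [Finset.mem_range]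
    omega

end Pool.Agent.H78W
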