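import Pool.Agent.Lib.H78W.D0

set_option autoImplicit false

/-!
CHUNK W16 of H78W (moves for small degrees, PROOF.md).  The vector field.
-/

open MvPolynomial

namespace Pool.Agent.H78W

open Pool.Agent.H89T Pool.Agent.H67T Pool.Agent.H53U Pool.Agent.H78M

variable {n c k : ℕ} {d : Fin c → ℕ}

/-- A polynomial with nonzero constant coefficient is invertible modulo `X ^ m`. -/
theorem exists_inv_mod (δ : Polynomial ℂ) (h : δ.coeff 0 ≠ 0) (m : ℕ) :
    ∃ g : Polynomial ℂ, (Polynomial.X : Polynomial ℂ) ^ m ∣ δ * g - 1 := by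
  have h1 : IsCoprime (Polynomial.X : Polynomial ℂ) δ := by
    rcases EuclideanDomain.dvd_or_coprime (Polynomial.X : Polynomial ℂ) δ Polynomial.irreducible_X with h2 | h2
    · exact absurd (Polynomial.X_dvd_iff.1 h2) h
    · exact h2
  obtain ⟨u, g, hug⟩ := h1.pow_left (m := m)
  refine ⟨g, -u, ?_⟩
  linear_combination hug

/-- The matrix of the partial derivatives. -/
noncomputable def w16_M (a : CI (n + c) d → ℂ) :
    Matrix (Fin c) (Fin c) (MvPolynomial (Fin (n + c)) ℂ) :=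
  Matrix.of fun j r => pderiv (Fin.natAdd n r) (PF a j)

theorem w16_det (a : CI (n + c) d → ℂ) :
    constantCoeff (w16_M a).det = (H53V.MJ Finset.univ a).det := by
  classical
  rw [← eval_zero, RingHom.map_det]
  let e : {x // x ∈ (Finset.univ : Finset (Fin c))} ≃ Fin c :=
    Equiv.subtypeUnivEquiv Finset.mem_univ
  have h1 : H53V.MJ Finset.univ a =
      ((eval (0 : Fin (n + c) → ℂ)).mapMatrix (w16_M a)).submatrix e e := by
    ext j r
    rw [H53V.MJ, Matrix.of_apply, Matrix.submatrix_apply, RingHom.mapMatrix_apply, Matrix.map_apply,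
      w16_M, Matrix.of_apply, eval_pderiv_PF]
    rfl
  rw [h1, Matrix.det_submatrix_equiv_self]

/-- The arcs start at `0`. -/
theorem w16_arc {N : ℕ} {ξ : JV N k → ℂ} (h0 : ∀ b, ξ (b, 0) = 0) (b : Fin N) :
    (arc ξ b).coeff 0 = 0 := by
  rw [arc, Polynomial.finsetSum_coeff]
  refine Finset.sum_eq_zero fun l _ => ?_
  rw [Polynomial.coeff_C_mul, Polynomial.coeff_X_pow]
  by_cases hl : l = 0
  · rw [hl, h0, zero_mul]
  · rw [if_neg, mul_zero]
    intro h
    exact hl (Fin.ext (by simpa using h.symm))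

/-- Coefficients of the arcs. -/
theorem w16_arc_coeff {N : ℕ} (ξ : JV N k → ℂ) (b : Fin N) (l : Fin (k + 1)) :
    (arc ξ b).coeff (l : ℕ) = ξ (b, l) := by
  rw [arc, Polynomial.finsetSum_coeff, Finset.sum_eq_single l]
  · rw [Polynomial.coeff_C_mul, Polynomial.coeff_X_pow, if_pos rfl, mul_one]
  · intro l' _ hl'
    rw [Polynomial.coeff_C_mul, Polynomial.coeff_X_pow, if_neg, mul_zero]
    intro h
    exact hl' (Fin.ext h.symm)
  · intro h
    exact absurd (Finset.mem_univ _) h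

theorem w16_yT_dvd {J : Finset (Fin c)} (τ : H53V.FZ n k J → ℂ) (b : Fin (n + c)) :
    (Polynomial.X : Polynomial ℂ) ∣ yT τ b := by
  unfold yT
  split_ifs
  · refine Finset.dvd_sum fun i _ => ?_
    rw [pow_succ, ← mul_assoc]
    exact dvd_mul_left _ _
  · exact dvd_zero _

theorem w16_yT_dvd2 {J : Finset (Fin c)} (τ : H53V.FZ n k J → ℂ) (p0 : H53V.FZ n k J)
    (hp0 : (p0.2 : ℕ) = 0) (hτ : τ p0 = 0) :
    (Polynomial.X : Polynomial ℂ) ^ 2 ∣ yT τ p0.1.1 := by
  unfold yT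
  rw [dif_pos p0.1.2]
  refine Finset.dvd_sum fun i _ => ?_
  by_cases hi : i = p0.2
  · have h1 : ((⟨p0.1.1, p0.1.2⟩, i) : H53V.FZ n k J) = p0 := by
      rw [hi]
    rw [h1, hτ, Polynomial.C_0, zero_mul]
    exact dvd_zero _
  · have h2 : (i : ℕ) ≠ 0 := fun h => hi (Fin.ext (h.trans hp0.symm))
    exact Dvd.dvd.mul_left (pow_dvd_pow _ (by omega)) _

/-- The vector field with given first components. -/
noncomputable def w16_phi (a : CI (n + c) d → ℂ) (A : Fin n → MvPolynomial (Fin (n + c)) ℂ) :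
    Fin (n + c) → MvPolynomial (Fin (n + c)) ℂ :=
  Fin.append (fun b' => (w16_M a).det * A b')
    (fun r => - ∑ j, (w16_M a).adjugate r j *
      ∑ b', A b' * pderiv (Fin.castAdd c b') (PF a j))

theorem w16_phi1 (a : CI (n + c) d → ℂ) (A : Fin n → MvPolynomial (Fin (n + c)) ℂ) (b' : Fin n) :
    w16_phi a A (Fin.castAdd c b') = (w16_M a).det * A b' :=
  Fin.append_left _ _ b'

theorem w16_phi2 (a : CI (n + c) d → ℂ) (A : Fin n → MvPolynomial (Fin (n + c)) ℂ) (r : Fin c) :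
    w16_phi a A (Fin.natAdd n r) = - ∑ j, (w16_M a).adjugate r j *
      ∑ b', A b' * pderiv (Fin.castAdd c b') (PF a j) :=
  Fin.append_right _ _ r

theorem w16_const (a : CI (n + c) d → ℂ) (A : Fin n → MvPolynomial (Fin (n + c)) ℂ)
    (hA : ∀ b', constantCoeff (A b') = 0) (b : Fin (n + c)) :
    constantCoeff (w16_phi a A b) = 0 := by
  induction b using Fin.addCases with
  | left b' => rw [w16_phi1, map_mul, hA, mul_zero]
  | right r =>
    rw [w16_phi2, map_neg, map_sum, neg_eq_zero]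
    refine Finset.sum_eq_zero fun j _ => ?_
    rw [map_mul, map_sum]
    have h1 : ∑ b', constantCoeff (A b' * pderiv (Fin.castAdd c b') (PF a j)) = 0 := by
      refine Finset.sum_eq_zero fun b' _ => ?_
      rw [map_mul, hA, zero_mul]
    rw [h1, mul_zero]

theorem w16_zero (a : CI (n + c) d → ℂ) (A : Fin n → MvPolynomial (Fin (n + c)) ℂ) (j : Fin c) :
    ∑ b, w16_phi a A b * pderiv b (PF a j) = 0 := by
  classical
  obtain ⟨S, hS⟩ : ∃ S : Fin c → MvPolynomial (Fin (n + c)) ℂ,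
      ∀ i, S i = ∑ b', A b' * pderiv (Fin.castAdd c b') (PF a i) := ⟨_, fun _ => rfl⟩
  rw [Fin.sum_univ_add]
  have h6 : ∀ b' : Fin n, w16_phi a A (Fin.castAdd c b') * pderiv (Fin.castAdd c b') (PF a j) =
      (w16_M a).det * (A b' * pderiv (Fin.castAdd c b') (PF a j)) := by
    intro b'
    rw [w16_phi1, mul_assoc]
  rw [Finset.sum_congr rfl fun b' _ => h6 b', ← Finset.mul_sum, ← hS]
  have h2 : ∀ r : Fin c, w16_phi a A (Fin.natAdd n r) * pderiv (Fin.natAdd n r) (PF a j) =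
      - ∑ i, (w16_M a j r * (w16_M a).adjugate r i) * S i := by
    intro r
    have h3 : pderiv (Fin.natAdd n r) (PF a j) = w16_M a j r := rfl
    rw [w16_phi2, h3, neg_mul, Finset.sum_mul]
    refine congrArg Neg.neg (Finset.sum_congr rfl fun i _ => ?_)
    rw [← hS]
    ring
  rw [Finset.sum_congr rfl fun r _ => h2 r, Finset.sum_neg_distrib, Finset.sum_comm]
  have h4 : ∀ i, ∑ r, (w16_M a j r * (w16_M a).adjugate r i) * S i =
      if j = i then (w16_M a).det * S i else 0 := by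
    intro i
    rw [← Finset.sum_mul]
    have h5 := congrFun (congrFun (Matrix.mul_adjugate (w16_M a)) j) i
    rw [Matrix.mul_apply] at h5
    rw [h5, Matrix.smul_apply, Matrix.one_apply, smul_eq_mul]
    split_ifs
    · rw [mul_one]
    · rw [mul_zero, zero_mul]
  rw [Finset.sum_congr rfl fun i _ => h4 i, Finset.sum_ite_eq, if_pos (Finset.mem_univ j),
    add_neg_cancel]

/-- Let `M` be the matrix `∂ F_j / ∂ X_(natAdd n r)`, `δ = det M`, `δ (0) = (MJ univ a).det ≠ 0` (`eval_pderiv_PF`).  With `b0 = p0.1`, for the first `n` coordinates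
`φ_(castAdd b) = δ * h_b (X_b0)`, and `φ_(natAdd r) = - ∑_j adj (M)_{r j} ∑_{b < n} h_b (X_b0) ∂_(castAdd b) F_j`; then `∑_b φ_b ∂_b F_j = 0` as `M * adj M = δ`.
The polynomials `h_b` (`exists_comp` of H78M/G11.lean with `z = arc ξ b0`, `r = 1`, and `r = 2` for `b = b0`) have `h_b (ξ_b0 (t)) = g (t) τ_b (t)` modulo `t ^ (k + 1)`, `g` the inverse of
`δ (ξ (t))` (`exists_inv_mod`); `τ_b (t) = yT τ b`, divisible by `X`, and by `X ^ 2` for `b = b0` (`τ p0 = 0`).  The free coordinates for `J = univ` are the first `n`. -/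
theorem exists_phi (hk : 1 ≤ k) {a : CI (n + c) d → ℂ}
    (hM : (H53V.MJ Finset.univ a).det ≠ 0) {ξ : JV (n + c) k → ℂ} (h0 : ∀ b, ξ (b, 0) = 0)
    (p0 : H53V.FZ n k (Finset.univ : Finset (Fin c))) (hp0 : (p0.2 : ℕ) = 0)
    (hy : fibY Finset.univ ξ p0 ≠ 0) (τ : H53V.FZ n k (Finset.univ : Finset (Fin c)) → ℂ)
    (hτ : τ p0 = 0) :
    ∃ φ : Fin (n + c) → MvPolynomial (Fin (n + c)) ℂ, (∀ b, constantCoeff (φ b) = 0) ∧
      (∀ j, ∑ b, φ b * pderiv b (PF a j) = 0) ∧
      (∀ b : H53V.FrI n (Finset.univ : Finset (Fin c)),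
        (Polynomial.X : Polynomial ℂ) ^ (k + 1) ∣ aeval (arc ξ) (φ b.1) - yT τ b.1) ∧
      φ p0.1.1 ∈ mX (n + c) ℂ ^ 2 := by
  classical
  have hcast : ∀ b : H53V.FrI n (Finset.univ : Finset (Fin c)),
      ∃ b' : Fin n, b.1 = Fin.castAdd c b' := by
    rintro ⟨b, hb⟩
    induction b using Fin.addCases with
    | left b' => exact ⟨b', rfl⟩
    | right j => exact absurd rfl (hb j (Finset.mem_univ j))
  -- the constant coefficient of the determinant along the arc
  have hconst : ∀ P : MvPolynomial (Fin (n + c)) ℂ,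
      (aeval (arc ξ) P).coeff 0 = constantCoeff P := by
    intro P
    have h1 : (Polynomial.constantCoeff (R := ℂ)).comp
        (aeval (arc ξ) : MvPolynomial (Fin (n + c)) ℂ →ₐ[ℂ] Polynomial ℂ).toRingHom =
        constantCoeff := by
      apply MvPolynomial.ringHom_ext
      · intro r
        simp
      · intro b
        simp [w16_arc h0]
    exact DFunLike.congr_fun h1 P
  obtain ⟨g, hg⟩ := exists_inv_mod (aeval (arc ξ) (w16_M a).det)
    (by rw [hconst, w16_det]; exact hM) (k + 1)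
  have hz1 : (arc ξ p0.1.1).coeff 1 ≠ 0 := by
    have h1 : (((p0.2.succ : Fin (k + 1)) : ℕ)) = 1 := by rw [Fin.val_succ, hp0]
    rw [← h1, w16_arc_coeff]
    exact hy
  have key : ∀ b' : Fin n, ∃ h : Polynomial ℂ, Polynomial.X ∣ h ∧
      (Fin.castAdd c b' = p0.1.1 → (Polynomial.X : Polynomial ℂ) ^ 2 ∣ h) ∧
      (Polynomial.X : Polynomial ℂ) ^ (k + 1) ∣
        h.comp (arc ξ p0.1.1) - g * yT τ (Fin.castAdd c b') := by
    intro b'
    by_cases hb : Fin.castAdd c b' = p0.1.1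
    · obtain ⟨h, h1, h2⟩ := exists_comp k 2 (arc ξ p0.1.1) (g * yT τ (Fin.castAdd c b'))
        (w16_arc h0 _) hz1 (by rw [hb]; exact Dvd.dvd.mul_left (w16_yT_dvd2 τ p0 hp0 hτ) g)
      exact ⟨h, (dvd_pow_self _ two_ne_zero).trans h1, fun _ => h1, h2⟩
    · obtain ⟨h, h1, h2⟩ := exists_comp k 1 (arc ξ p0.1.1) (g * yT τ (Fin.castAdd c b'))
        (w16_arc h0 _) hz1 (by rw [pow_one]; exact Dvd.dvd.mul_left (w16_yT_dvd τ _) g)
      rw [pow_one] at h1
      exact ⟨h, h1, fun h3 => absurd h3 hb, h2⟩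
  choose h hX hX2 hcomp using key
  have hAarc : ∀ P : Polynomial ℂ, aeval (arc ξ) (Polynomial.aeval
      (X p0.1.1 : MvPolynomial (Fin (n + c)) ℂ) P) = P.comp (arc ξ p0.1.1) := by
    intro P
    rw [← Polynomial.aeval_algHom_apply, aeval_X]
    rfl
  have hA0 : ∀ b', constantCoeff (Polynomial.aeval
      (X p0.1.1 : MvPolynomial (Fin (n + c)) ℂ) (h b')) = 0 := by
    intro b'
    obtain ⟨h', hh'⟩ := hX b'
    rw [hh', map_mul, Polynomial.aeval_X, map_mul, constantCoeff_X, zero_mul]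
  let A : Fin n → MvPolynomial (Fin (n + c)) ℂ := fun b' => Polynomial.aeval
    (X p0.1.1 : MvPolynomial (Fin (n + c)) ℂ) (h b')
  refine ⟨w16_phi a A, w16_const a A hA0, w16_zero a A, ?_, ?_⟩
  · intro b
    obtain ⟨b', hb'⟩ := hcast b
    rw [hb', w16_phi1, map_mul]
    have h1 : aeval (arc ξ) (A b') = (h b').comp (arc ξ p0.1.1) := hAarc (h b')
    rw [h1]
    have h2 : aeval (arc ξ) (w16_M a).det * (h b').comp (arc ξ p0.1.1) -
        yT τ (Fin.castAdd c b') = aeval (arc ξ) (w16_M a).det *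
          ((h b').comp (arc ξ p0.1.1) - g * yT τ (Fin.castAdd c b')) +
        (aeval (arc ξ) (w16_M a).det * g - 1) * yT τ (Fin.castAdd c b') := by ring
    rw [h2]
    exact dvd_add (Dvd.dvd.mul_left (hcomp b') _) (Dvd.dvd.mul_right hg _)
  · obtain ⟨b', hb'⟩ := hcast p0.1
    have h1 : w16_phi a A p0.1.1 = (w16_M a).det * A b' := by rw [hb', w16_phi1]
    rw [h1]
    obtain ⟨h', hh'⟩ := hX2 b' hb'.symm
    have h2 : A b' = X p0.1.1 ^ 2 * Polynomial.aeval
        (X p0.1.1 : MvPolynomial (Fin (n + c)) ℂ) h' := by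
      have h3 : A b' = Polynomial.aeval (X p0.1.1 : MvPolynomial (Fin (n + c)) ℂ) (h b') := rfl
      rw [h3, hh', map_mul, map_pow, Polynomial.aeval_X]
    rw [h2]
    refine Ideal.mul_mem_left _ _ (Ideal.mul_mem_right _ _ (Ideal.pow_mem_pow ?_ 2))
    exact mem_mX (constantCoeff_X _ _)

end Pool.Agent.H78W
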