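import Pool.Agent.Lib.H78W.W11
import Pool.Agent.Lib.H78W.W13
import Pool.Agent.Lib.H78W.W14
import Pool.Agent.Lib.H78W.W15
import Pool.Agent.Lib.H78W.W16

set_option autoImplicit false

/-!
CHUNK W17 of H78W (moves for small degrees, PROOF.md).  The value at the given jet does not vanish.
-/

open MvPolynomial

namespace Pool.Agent.H78W

open Pool.Agent.H89T Pool.Agent.H67T Pool.Agent.H53U Pool.Agent.H78M

variable {n c k : ℕ} {d : Fin c → ℕ}

/-- Let `N = n + c`, `D' = DV a φ z`, `e = aeval ξ`, `γ p = expD D' e (X p)`.  `γ` is a jet over `ℂ⟦ε⟧` in the fibre: `γ (b, 0) = 0`, and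
`uu (C ∘ a) γ i = expD D' e (sgW a (uu aW xW i)) = C (uu a ξ i) = 0` for `i ≤ k` (`expD_eq_aeval`, `expD_of_zero`: `D' (sgW a (uu ..)) = sgW a (DW (uu ..)) = 0` by
`sgW_DW`, `DW_uu`; `sgW a (uu aW xW i) = uu (C ∘ a) (fun p => if p.2 = 0 then 0 else X p) i`). -/
theorem OnV_exp {a : CI (n + c) d → ℂ} {φ : Fin (n + c) → MvPolynomial (Fin (n + c)) ℂ}
    {z : Fin k → MvPolynomial (Fin (n + c)) ℂ} {G : Fin c → MvPolynomial (Fin (n + c)) (AW (n + c) k d)}
    (hM : MoveW a φ z G) {ξ : JV (n + c) k → ℂ} (h0 : ∀ b, ξ (b, 0) = 0)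
    (hV : OnV (kJ k Finset.univ) a ξ) :
    (∀ b, expD (DV a φ z) (aeval ξ) (X (b, 0)) = 0) ∧
      OnV (kJ k Finset.univ) (fun p => PowerSeries.C (a p))
        (fun p => expD (DV a φ z) (aeval ξ) (X p)) := by
  classical
  have hγ0 : ∀ b, expD (DV a φ z) (aeval ξ) (X (b, 0)) = 0 := by
    intro b
    rw [expD_of_zero]
    · rw [aeval_X, h0, map_zero]
    · unfold DV
      rw [mkDerivation_X, if_pos rfl]
  refine ⟨hγ0, ?_⟩
  intro j i hi
  have hik : i ≤ k := by
    have h1 : kJ k (Finset.univ : Finset (Fin c)) j = k := by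
      unfold kJ
      rw [if_pos (Finset.mem_univ j)]
    rw [h1] at hi
    exact hi
  obtain ⟨γ, hγ⟩ : ∃ γ : JV (n + c) k → PowerSeries ℂ, γ = fun p => expD (DV a φ z) (aeval ξ) (X p) := ⟨_, rfl⟩
  obtain ⟨u0, hu0⟩ : ∃ u0 : MvPolynomial (JV (n + c) k) ℂ,
      u0 = sgW a (uu (fun α => aW ⟨j, α⟩) xW i) := ⟨_, rfl⟩
  have e1 : u0 = uu (fun α => C (a ⟨j, α⟩)) (fun p : JV (n + c) k => if p.2 = 0 then (0 : MvPolynomial (JV (n + c) k) ℂ) else X p) i := by
    have h1 := hom_uu (sgW a : AW (n + c) k d →ₐ[ℂ] MvPolynomial (JV (n + c) k) ℂ).toRingHom (fun α => aW ⟨j, α⟩) xW i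
    have h2 : (fun α => (sgW a : AW (n + c) k d →ₐ[ℂ] MvPolynomial (JV (n + c) k) ℂ).toRingHom (aW ⟨j, α⟩)) =
        fun α => C (a ⟨j, α⟩) := by
      funext α
      exact aeval_X _ _
    have h3 : (fun p => (sgW a : AW (n + c) k d →ₐ[ℂ] MvPolynomial (JV (n + c) k) ℂ).toRingHom (xW p)) =
        (fun p : JV (n + c) k => if p.2 = 0 then (0 : MvPolynomial (JV (n + c) k) ℂ) else X p) := by
      funext p
      exact aeval_X _ _
    rw [h2, h3] at h1
    rw [hu0]
    exact h1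
  have e2 : DV a φ z u0 = 0 := by
    rw [hu0, ← sgW_DW hM, DW_uu hM j hik, map_zero]
  have e3 : expD (DV a φ z) (aeval ξ) u0 = PowerSeries.C (aeval ξ u0) := expD_of_zero _ _ e2
  have e4 : aeval ξ u0 = 0 := by
    have h1 := hom_uu (aeval ξ : MvPolynomial (JV (n + c) k) ℂ →ₐ[ℂ] ℂ).toRingHom (fun α => C (a ⟨j, α⟩))
      (fun p : JV (n + c) k => if p.2 = 0 then (0 : MvPolynomial (JV (n + c) k) ℂ) else X p) i
    have h2 : (fun α => (aeval ξ : MvPolynomial (JV (n + c) k) ℂ →ₐ[ℂ] ℂ).toRingHom (C (a ⟨j, α⟩))) =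
        fun α => a ⟨j, α⟩ := by
      funext α
      exact aeval_C _ _
    have h3 : (fun p : JV (n + c) k => (aeval ξ : MvPolynomial (JV (n + c) k) ℂ →ₐ[ℂ] ℂ).toRingHom
        (if p.2 = 0 then (0 : MvPolynomial (JV (n + c) k) ℂ) else X p)) = ξ := by
      funext p
      obtain ⟨b, l⟩ := p
      by_cases hl : l = 0
      · subst hl
        rw [if_pos rfl, map_zero, h0]
      · rw [if_neg hl]
        exact aeval_X _ _
    rw [h2, h3] at h1
    rw [e1]
    exact h1.trans (hV j i hi)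
  rw [e4, map_zero, expD_eq_aeval] at e3
  have e5 := hom_uu (aeval (fun p => expD (DV a φ z) (aeval ξ) (X p)) : MvPolynomial (JV (n + c) k) ℂ →ₐ[ℂ] PowerSeries ℂ).toRingHom
    (fun α => C (a ⟨j, α⟩)) (fun p : JV (n + c) k => if p.2 = 0 then (0 : MvPolynomial (JV (n + c) k) ℂ) else X p) i
  have h2 : (fun α => (aeval (fun p => expD (DV a φ z) (aeval ξ) (X p)) : MvPolynomial (JV (n + c) k) ℂ →ₐ[ℂ] PowerSeries ℂ).toRingHom (C (a ⟨j, α⟩))) =
      fun α => PowerSeries.C (a ⟨j, α⟩) := by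
    funext α
    exact aeval_C _ _
  have h3 : (fun p : JV (n + c) k => (aeval (fun p => expD (DV a φ z) (aeval ξ) (X p)) : MvPolynomial (JV (n + c) k) ℂ →ₐ[ℂ] PowerSeries ℂ).toRingHom
      (if p.2 = 0 then (0 : MvPolynomial (JV (n + c) k) ℂ) else X p)) = fun p => expD (DV a φ z) (aeval ξ) (X p) := by
    funext p
    obtain ⟨b, l⟩ := p
    by_cases hl : l = 0
    · subst hl
      rw [if_pos rfl, map_zero, hγ0]
    · rw [if_neg hl]
      exact aeval_X _ _
  rw [h2, h3] at e5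
  rw [← e5, ← e1]
  exact e3

/-- `r` is the smallest number such that `[e ^ r] PH (y + e τ) ≠ 0` for some `τ` with `τ p0 = 0` (`y = fibY univ ξ`); `w = det (matW (aeval (arc ξ) (z i)))`, `φ` of `exists_phi` for
`w⁻¹ τ`, `G` of `exists_moveW`.  `eval ξ (spW a Q) = eval ξ (sgW a Q)` (`ξ (b, 0) = 0`), so with `sgW_DW_iterate` and `coeff_expD` the number in question is `r!` times the coefficient of `ε ^ r` of
`expD D' e (sgW a (flW P)) = eval₂ (C ∘ eval a) γ P` (`expD_eq_aeval`).  `γ = fibJ (map C W) (fibY univ γ)` (`fibJ_fibY`, `IsInvK.map`, `map_Zg`, `OnV_exp`), so this is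
`aeval (fibY univ γ) (PH univ a W P)` (`hom_PH`).  `coeff_aeval_arc` with `Y = fibY univ γ`: `constantCoeff (Y p) = y p`; the coefficient of `ε` of `Y (b, i)` is
`eval ξ (sgW a (WW z * (phW (φ b)).coeff (i + 1))) = w * w⁻¹ τ (b, i)`; `Y p0` is constant since `D' (X (b0, 1)) = 0` (`φ b0 ∈ mX ^ 2`). -/
theorem exists_ne_zero (hk : 1 ≤ k) (hd : ∀ j, 2 ≤ d j) {a : CI (n + c) d → ℂ}
    {W : Fin (n + c) → MvPolynomial (Fin (n + c)) ℂ} (hW : IsInvK k (Zg Finset.univ a) W)
    (hM : (H53V.MJ Finset.univ a).det ≠ 0) {ξ : JV (n + c) k → ℂ} (h0 : ∀ b, ξ (b, 0) = 0)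
    (hV : OnV (kJ k Finset.univ) a ξ) {z : Fin k → MvPolynomial (Fin (n + c)) ℂ}
    (hz0 : ∀ i, constantCoeff (z i) = 0) (hz2 : ∀ i, (z i).totalDegree ≤ 2)
    (hz : (matW fun i => aeval (arc ξ) (z i)).det ≠ 0)
    (P : MvPolynomial (JV (n + c) k) (RC (n + c) d))
    (p0 : H53V.FZ n k (Finset.univ : Finset (Fin c))) (hp0 : (p0.2 : ℕ) = 0)
    (hy : fibY Finset.univ ξ p0 ≠ 0) {μ : ℕ} {τ : H53V.FZ n k (Finset.univ : Finset (Fin c)) → ℂ}
    (hτ : τ p0 = 0) {i : ℕ} (hi : i < μ)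
    (hne : (lineP (PH Finset.univ a W P) (fibY Finset.univ ξ) τ).coeff i ≠ 0) :
    ∃ (φ : Fin (n + c) → MvPolynomial (Fin (n + c)) ℂ)
      (G : Fin c → MvPolynomial (Fin (n + c)) (AW (n + c) k d)) (r : ℕ), r < μ ∧ MoveW a φ z G ∧
      eval ξ (spW a ((DW φ z G)^[r] (flW (n + c) k d P))) ≠ 0 := by
  classical
  -- the smallest order
  have hex : ∃ r, ∃ τ' : H53V.FZ n k (Finset.univ : Finset (Fin c)) → ℂ, τ' p0 = 0 ∧
      (lineP (PH Finset.univ a W P) (fibY Finset.univ ξ) τ').coeff r ≠ 0 := ⟨i, τ, hτ, hne⟩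
  obtain ⟨r, hr⟩ : ∃ r, r = Nat.find hex := ⟨_, rfl⟩
  have hri : r ≤ i := by
    rw [hr]
    exact Nat.find_min' hex ⟨τ, hτ, hne⟩
  obtain ⟨τ', hτ', hne'⟩ : ∃ τ' : H53V.FZ n k (Finset.univ : Finset (Fin c)) → ℂ, τ' p0 = 0 ∧
      (lineP (PH Finset.univ a W P) (fibY Finset.univ ξ) τ').coeff r ≠ 0 := by
    rw [hr]
    exact Nat.find_spec hex
  have hmin : ∀ τ'' : H53V.FZ n k (Finset.univ : Finset (Fin c)) → ℂ, τ'' p0 = 0 → ∀ i' < r,
      (lineP (PH Finset.univ a W P) (fibY Finset.univ ξ) τ'').coeff i' = 0 := by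
    intro τ'' h1 i' h2
    by_contra h3
    rw [hr] at h2
    exact Nat.find_min hex h2 ⟨τ'', h1, h3⟩
  obtain ⟨w, hw⟩ : ∃ w : ℂ, w = (matW fun i => aeval (arc ξ) (z i)).det := ⟨_, rfl⟩
  have hw0 : w ≠ 0 := by rw [hw]; exact hz
  obtain ⟨φ, hφ0, hφ1, hφ2, hφ3⟩ := exists_phi hk hM h0 p0 hp0 hy (fun p => w⁻¹ * τ' p)
    (by rw [hτ', mul_zero])
  obtain ⟨G, hG⟩ := exists_moveW (a := a) (φ := φ) (z := z) hk hφ0 hz0 hz2 hd (fun j => by
    rw [hφ1 j]
    exact Ideal.zero_mem _)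
  refine ⟨φ, G, r, lt_of_le_of_lt hri hi, hG, ?_⟩
  obtain ⟨hγ0, hγV⟩ := OnV_exp hG h0 hV
  obtain ⟨D', hD'⟩ : ∃ D' : Derivation ℂ (MvPolynomial (JV (n + c) k) ℂ) (MvPolynomial (JV (n + c) k) ℂ),
      D' = DV a φ z := ⟨_, rfl⟩
  rw [← hD'] at hγ0 hγV
  obtain ⟨γ, hγ⟩ : ∃ γ : JV (n + c) k → PowerSeries ℂ, γ = fun p => expD D' (aeval ξ) (X p) := ⟨_, rfl⟩
  rw [← hγ] at hγV
  -- reduction to the exponential
  have e1 : ∀ Q : AW (n + c) k d, eval ξ (spW a Q) = aeval ξ (sgW a Q) := by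
    intro Q
    have h1 : ((aeval ξ : MvPolynomial (JV (n + c) k) ℂ →ₐ[ℂ] ℂ).comp (spW a)) =
        (aeval ξ : MvPolynomial (JV (n + c) k) ℂ →ₐ[ℂ] ℂ).comp (sgW a) := by
      apply MvPolynomial.algHom_ext
      rintro (p | q)
      · obtain ⟨b, l⟩ := p
        rw [AlgHom.comp_apply, AlgHom.comp_apply]
        unfold spW sgW
        rw [aeval_X, aeval_X, Sum.elim_inl, Sum.elim_inl, aeval_X]
        by_cases hl : l = 0
        · subst hl
          rw [if_pos rfl, map_zero, h0]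
        · rw [if_neg hl, aeval_X]
      · rw [AlgHom.comp_apply, AlgHom.comp_apply]
        unfold spW sgW
        rw [aeval_X, aeval_X, Sum.elim_inr, Sum.elim_inr]
    have h2 := congrArg (fun f : AW (n + c) k d →ₐ[ℂ] ℂ => f Q) h1
    exact h2
  rw [e1, sgW_DW_iterate hG, ← hD']
  have e2 : aeval ξ (D'^[r] (sgW a (flW (n + c) k d P))) =
      (r.factorial : ℂ) * PowerSeries.coeff r (expD D' (aeval ξ) (sgW a (flW (n + c) k d P))) := by
    rw [coeff_expD]
    have h1 : (r.factorial : ℂ) ≠ 0 := by exact_mod_cast r.factorial_ne_zero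
    field_simp
  rw [e2]
  refine mul_ne_zero (by exact_mod_cast r.factorial_ne_zero) ?_
  -- the exponential as the value at the formal jet
  have e3 : expD D' (aeval ξ) (sgW a (flW (n + c) k d P)) =
      eval₂ ((PowerSeries.C : ℂ →+* PowerSeries ℂ).comp (eval a)) γ P := by
    rw [expD_eq_aeval, ← hγ]
    have h1 : (((aeval γ : MvPolynomial (JV (n + c) k) ℂ →ₐ[ℂ] PowerSeries ℂ).toRingHom.comp
        (sgW a).toRingHom).comp (flW (n + c) k d)) =
        eval₂Hom ((PowerSeries.C : ℂ →+* PowerSeries ℂ).comp (eval a)) γ := by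
      apply MvPolynomial.ringHom_ext
      · intro q
        show aeval γ (sgW a (flW (n + c) k d (C q))) = eval₂ _ _ (C q)
        unfold flW
        rw [eval₂Hom_C, eval₂_C]
        show aeval γ (sgW a (rename Sum.inr q)) = PowerSeries.C (eval a q)
        unfold sgW
        rw [aeval_rename]
        have h3 : ((Sum.elim (fun p : JV (n + c) k => if p.2 = 0 then (0 : MvPolynomial (JV (n + c) k) ℂ) else X p) fun q => C (a q)) ∘
            (Sum.inr : CI (n + c) d → JV (n + c) k ⊕ CI (n + c) d)) = fun q => C (a q) := rfl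
        rw [h3]
        have h4 : (aeval (fun q => (C (a q) : MvPolynomial (JV (n + c) k) ℂ)) q) = C (eval a q) := by
          rw [aeval_def, eval₂_eq_eval_map]
          have h5 := MvPolynomial.eval₂_comp_left (C : ℂ →+* MvPolynomial (JV (n + c) k) ℂ) (RingHom.id ℂ) a q
          rw [MvPolynomial.eval₂_id] at h5
          rw [h5, ← eval₂_eq_eval_map]
          rfl
        rw [h4, aeval_C]
        rfl
      · intro p
        show aeval γ (sgW a (flW (n + c) k d (X p))) = eval₂ _ _ (X p)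
        unfold flW
        rw [eval₂Hom_X', eval₂_X]
        unfold xW sgW
        rw [aeval_X, Sum.elim_inl]
        obtain ⟨b, l⟩ := p
        by_cases hl : l = 0
        · subst hl
          rw [if_pos rfl, map_zero, hγ]
          exact (hγ0 b).symm
        · rw [if_neg hl, aeval_X]
    have h2 := congrArg (fun f : MvPolynomial (JV (n + c) k) (RC (n + c) d) →+* PowerSeries ℂ => f P) h1
    exact h2
  have hWC : IsInvK k (Zg Finset.univ (fun p => PowerSeries.C (a p)))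
      (fun b => MvPolynomial.map (PowerSeries.C : ℂ →+* PowerSeries ℂ) (W b)) := by
    have h1 := hW.map (PowerSeries.C : ℂ →+* PowerSeries ℂ)
    have h2 : (fun b => MvPolynomial.map (PowerSeries.C : ℂ →+* PowerSeries ℂ) (Zg Finset.univ a b)) =
        Zg Finset.univ (fun p => PowerSeries.C (a p)) := by
      funext b
      exact map_Zg _ _ _ _
    rw [h2] at h1
    exact h1
  have hγ0' : ∀ b, γ (b, 0) = 0 := by
    intro b
    rw [hγ]
    exact hγ0 b
  have hfib := fibJ_fibY hWC hγ0' hγV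
  obtain ⟨Y, hY⟩ : ∃ Y : H53V.FZ n k (Finset.univ : Finset (Fin c)) → PowerSeries ℂ,
      Y = fibY Finset.univ γ := ⟨_, rfl⟩
  rw [← hY] at hfib
  have e4 : eval₂ ((PowerSeries.C : ℂ →+* PowerSeries ℂ).comp (eval a)) γ P =
      aeval Y (PH Finset.univ a W P) := by
    have h1 := hom_PH (aeval Y : MvPolynomial (H53V.FZ n k (Finset.univ : Finset (Fin c))) ℂ →ₐ[ℂ] PowerSeries ℂ).toRingHom
      a W P
    have h2 : ((aeval Y : MvPolynomial (H53V.FZ n k (Finset.univ : Finset (Fin c))) ℂ →ₐ[ℂ] PowerSeries ℂ).toRingHom.comp C) =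
        (PowerSeries.C : ℂ →+* PowerSeries ℂ) := by
      ext c' : 1
      exact aeval_C _ _
    have h3 : (fun q => (aeval Y : MvPolynomial (H53V.FZ n k (Finset.univ : Finset (Fin c))) ℂ →ₐ[ℂ] PowerSeries ℂ).toRingHom (X q)) = Y := by
      funext q
      exact aeval_X _ _
    rw [h2, h3, hfib] at h1
    exact h1.symm
  rw [e3, e4]
  -- the derivative
  have hval : ∀ (b : Fin (n + c)) (l : Fin (k + 1)), l ≠ 0 → aeval ξ (D' (X (b, l))) =
      w * (aeval (arc ξ) (φ b)).coeff (l : ℕ) := by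
    intro b l hl
    have harc : ∀ g : MvPolynomial (Fin (n + c)) ℂ, ((phW g : Polynomial (AW (n + c) k d)).map
        (((aeval ξ : MvPolynomial (JV (n + c) k) ℂ →ₐ[ℂ] ℂ).toRingHom).comp (sgW a).toRingHom)) =
        aeval (arc ξ) g := by
      intro g
      rw [← Polynomial.map_map, map_sgW_phW]
      have h1 : ((Polynomial.mapAlgHom (aeval ξ : MvPolynomial (JV (n + c) k) ℂ →ₐ[ℂ] ℂ)).comp
          (aeval (arc fun p : JV (n + c) k => if p.2 = 0 then (0 : MvPolynomial (JV (n + c) k) ℂ) else X p))) =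
          (aeval (arc ξ) : MvPolynomial (Fin (n + c)) ℂ →ₐ[ℂ] Polynomial ℂ) := by
        apply MvPolynomial.algHom_ext
        intro b'
        rw [AlgHom.comp_apply, aeval_X, aeval_X]
        have h2 := arc_map (aeval ξ : MvPolynomial (JV (n + c) k) ℂ →ₐ[ℂ] ℂ).toRingHom
          (fun p : JV (n + c) k => if p.2 = 0 then (0 : MvPolynomial (JV (n + c) k) ℂ) else X p) b'
        have h3 : (fun p : JV (n + c) k => (aeval ξ : MvPolynomial (JV (n + c) k) ℂ →ₐ[ℂ] ℂ).toRingHom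
            (if p.2 = 0 then (0 : MvPolynomial (JV (n + c) k) ℂ) else X p)) = ξ := by
          funext p
          obtain ⟨b'', l'⟩ := p
          by_cases hl' : l' = 0
          · subst hl'
            rw [if_pos rfl, map_zero, h0]
          · rw [if_neg hl']
            exact aeval_X _ _
        rw [h3] at h2
        exact h2
      have h4 := congrArg (fun f : MvPolynomial (Fin (n + c)) ℂ →ₐ[ℂ] Polynomial ℂ => f g) h1
      exact h4
    have h5 : aeval ξ (sgW a (WW z : AW (n + c) k d)) = w := by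
      rw [hw]
      have h6 := map_det_matW (((aeval ξ : MvPolynomial (JV (n + c) k) ℂ →ₐ[ℂ] ℂ).toRingHom).comp (sgW a).toRingHom)
        (fun i => (phW (z i) : Polynomial (AW (n + c) k d)))
      simp only [harc] at h6
      exact h6
    have h6 : aeval ξ (sgW a ((phW (φ b) : Polynomial (AW (n + c) k d)).coeff (l : ℕ))) =
        (aeval (arc ξ) (φ b)).coeff (l : ℕ) := by
      rw [← harc, Polynomial.coeff_map]
      rfl
    rw [hD']
    unfold DV
    rw [mkDerivation_X, if_neg hl, map_mul, map_mul, h5, h6]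
  have hcoef1 : ∀ p, PowerSeries.coeff 1 (Y p) = τ' p := by
    intro p
    obtain ⟨⟨b, hb⟩, l⟩ := p
    rw [hY, hγ]
    show PowerSeries.coeff 1 (expD D' (aeval ξ) (X (b, l.succ))) = _
    rw [coeff_expD, Nat.factorial_one, Nat.cast_one, div_one, Function.iterate_one, hval b l.succ (Fin.succ_ne_zero l)]
    have h1 := g20_coeff (hφ2 ⟨b, hb⟩) (i := (l.succ : ℕ)) l.succ.isLt
    have h2 : (yT (fun p => w⁻¹ * τ' p) b).coeff (l.succ : ℕ) = w⁻¹ * τ' (⟨b, hb⟩, l) := by
      unfold yT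
      rw [dif_pos hb, Polynomial.finsetSum_coeff, Finset.sum_eq_single l]
      · rw [Polynomial.coeff_C_mul, Polynomial.coeff_X_pow, Fin.val_succ, if_pos rfl, mul_one]
      · intro l' _ hne''
        rw [Polynomial.coeff_C_mul, Polynomial.coeff_X_pow, Fin.val_succ, if_neg, mul_zero]
        intro h3
        apply hne''
        apply Fin.ext
        omega
      · intro h3
        exact absurd (Finset.mem_univ _) h3
    rw [h1, h2, ← mul_assoc, mul_inv_cancel₀ hw0, one_mul]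
  have hcoef0 : ∀ p, PowerSeries.constantCoeff (Y p) = fibY Finset.univ ξ p := by
    intro p
    rw [← PowerSeries.coeff_zero_eq_constantCoeff_apply, hY, hγ]
    show PowerSeries.coeff 0 (expD D' (aeval ξ) (X (p.1.1, p.2.succ))) = _
    rw [coeff_expD, Nat.factorial_zero, Nat.cast_one, div_one, Function.iterate_zero, id, aeval_X]
    rfl
  have hY0 : Y p0 = PowerSeries.C (fibY Finset.univ ξ p0) := by
    rw [hY, hγ]
    show expD D' (aeval ξ) (X (p0.1.1, p0.2.succ)) = _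
    have h1 : D' (X (p0.1.1, p0.2.succ)) = 0 := by
      rw [hD']
      unfold DV
      rw [mkDerivation_X, if_neg (Fin.succ_ne_zero _)]
      have h2 : (phW (φ p0.1.1) : Polynomial (AW (n + c) k d)).coeff ((p0.2.succ : Fin (k + 1)) : ℕ) = 0 := by
        have h3 : (Polynomial.X : Polynomial (AW (n + c) k d)) ^ 2 ∣ phW (φ p0.1.1) := by
          have h4 := aeval_mem_pow (Ideal.span {(Polynomial.X : Polynomial (AW (n + c) k d))})
            (g := vW) (fun b => Ideal.mem_span_singleton.2 (Polynomial.X_dvd_iff.2 (coeff_zero_vW b))) hφ3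
          rw [Ideal.span_singleton_pow, Ideal.mem_span_singleton] at h4
          exact h4
        have h5 := Polynomial.X_pow_dvd_iff.1 h3 ((p0.2.succ : Fin (k + 1)) : ℕ) (by
          rw [Fin.val_succ, hp0]
          norm_num)
        exact h5
      show sgW a (WW z * (phW (φ p0.1.1)).coeff ((p0.2.succ : Fin (k + 1)) : ℕ)) = 0
      rw [h2, mul_zero, map_zero]
    rw [expD_of_zero _ _ h1, aeval_X]
    rfl
  rw [coeff_aeval_arc _ _ p0 hmin Y hcoef0 hY0]
  have h1 : (fun p => PowerSeries.coeff 1 (Y p)) = τ' := funext hcoef1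
  rw [h1]
  exact hne'

end Pool.Agent.H78W
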