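import Pool.Agent.Lib.H78W.K7
import Pool.Agent.Lib.H78N.C18

set_option autoImplicit false

/-!
CHUNK K8 of H78W (the count of H53W).  The count in the form of the existence module.
-/

namespace Pool.Agent.H78W

open Pool.Agent.H53V Pool.Agent.H78N

/-- As `count_final` in H78N/C18.lean: `t' = t + (n + 2)`, `badN_mono`, `badN_eq`, `goodN_eq`. -/
theorem countNW_final {n k D e1 B w q : ℕ} (hD : 1 ≤ D) (h : CountNW n k D e1 B w q) (A0 : ℕ) :
    ∃ m s t μ : ℕ, s ≤ D * t ∧ (q + 1) * (A0 + 2 * m + w * k * μ) + 1 ≤ q * s ∧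
      s + (n + 2) * D ≤ D * (t + (n + 2)) ∧
      tau (Fin n) k m μ * (A0 + 2 * m * D + n).choose n +
        B * Pool.Agent.H44K.nbad n k m t * (A0 + s + D * m + n).choose n <
        e1 ^ n * Pool.Agent.H44K.ngoodS n k m (t + (n + 2)) := by
  obtain ⟨m, s, t', μ, h1, h2, h3⟩ := h A0
  have he1 : 0 < D := by omega
  have ht' : n + 2 ≤ t' := by
    have h4 : D * (n + 2) ≤ D * t' := by
      rw [mul_comm D (n + 2)]
      omega
    exact Nat.le_of_mul_le_mul_left h4 he1
  obtain ⟨t, rfl⟩ : ∃ t, t' = t + (n + 2) := ⟨t' - (n + 2), by omega⟩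
  have hs : s ≤ D * t := by
    have h4 : D * (t + (n + 2)) = D * t + (n + 2) * D := by ring
    omega
  refine ⟨m, s, t, μ, hs, h2, h1, ?_⟩
  rw [← badN_eq, ← goodN_eq]
  refine lt_of_le_of_lt ?_ h3
  refine Nat.add_le_add_left ?_ _
  refine Nat.mul_le_mul_right _ (Nat.mul_le_mul_left _ (badN_mono ?_))
  omega

end Pool.Agent.H78W
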