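import Pool.Agent.Lib.H78W.K0

set_option autoImplicit false

/-!
CHUNK K9 of H78W (the count of H53W).  Numerics of the two cases of Theorem W.
-/

namespace Pool.Agent.H78W

open Pool.Agent.H53V Pool.Agent.H78N

theorem kW_mono {a b : ℕ} (h : a ≤ b) : kW a ≤ kW b := by
  rcases Nat.eq_zero_or_pos a with ha | ha
  · subst ha
    simp [kW]
  · have h1 : KW a ≤ KW b := by
      unfold KW
      refine Nat.ceil_mono ?_
      have h2 : Real.log ((2 * a : ℕ) : ℝ) ≤ Real.log ((2 * b : ℕ) : ℝ) := by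
        refine Real.log_le_log (by exact_mod_cast (by omega : 0 < 2 * a)) ?_
        exact_mod_cast (by omega : 2 * a ≤ 2 * b)
      linarith
    unfold kW
    exact Nat.mul_le_mul (by omega) h1

/-- `KW n ≤ 20 + 4 log (2 n) ≤ 22.773 + 4 log n ≤ 4 (6 + log n)` as `22.773 ≤ 24`. -/
theorem kW_le {n : ℕ} (hn : 1 ≤ n) : (kW n : ℝ) ≤ 8 * n * (6 + Real.log n) := by
  have hn1 : (1 : ℝ) ≤ n := by exact_mod_cast hn
  have hn0 : (0 : ℝ) < n := by linarith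
  have hl2 := Real.log_two_lt_d9
  have hl2' := Real.log_two_gt_d9
  have hx0 : 0 ≤ Real.log n := Real.log_nonneg hn1
  have e1 : Real.log ((2 * n : ℕ) : ℝ) = Real.log 2 + Real.log n := by
    push_cast
    exact Real.log_mul (by norm_num) hn0.ne'
  have h1 : (KW n : ℝ) < 19 + 4 * Real.log ((2 * n : ℕ) : ℝ) + 1 := by
    unfold KW
    refine Nat.ceil_lt_add_one ?_
    rw [e1]
    linarith
  rw [e1] at h1
  have h2 : (KW n : ℝ) ≤ 4 * (6 + Real.log n) := by linarith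
  unfold kW
  push_cast
  have h3 := mul_le_mul_of_nonneg_left h2 (show (0 : ℝ) ≤ 2 * n by linarith)
  linarith

theorem le_kW {n : ℕ} (hn : 1 ≤ n) : 38 * n ≤ kW n := by
  have hn1 : (1 : ℝ) ≤ ((2 * n : ℕ) : ℝ) := by exact_mod_cast (by omega : 1 ≤ 2 * n)
  have hx0 : 0 ≤ Real.log ((2 * n : ℕ) : ℝ) := Real.log_nonneg hn1
  have h1 : 19 ≤ KW n := by
    have h2 : (19 : ℝ) ≤ (KW n : ℝ) := by
      have h3 : 19 + 4 * Real.log ((2 * n : ℕ) : ℝ) ≤ (KW n : ℝ) := by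
        unfold KW
        exact Nat.le_ceil _
      linarith
    exact_mod_cast h2
  unfold kW
  nlinarith

/-- Let `x = log n`, `y = 6 + x ≥ 6`, `n1 = n + c`.  `c ≤ 2 n + kW n / 2 ≤ 2 n + 4 n y`, so `n1 ≤ 3 n + 4 n y ≤ 4.5 n y`.
`6 + log n1 ≤ 6 + x + log 4.5 + log y ≤ y + 1.5041 + (y / 6 + log 6 - 1) ≤ 1.5495 y` (`log y ≤ y / 6 + log 6 - 1`, `1.5041 + 0.7918 ≤ 0.3827 y`).
So `n1 (6 + log n1) ≤ 6.973 n y ^ 2`, its square is at most `48.63 n ^ 2 y ^ 4`, times `1750`: at most `85103 n ^ 2 y ^ 4`.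
`c kW (n1) ≤ n1 * 8 n1 (6 + log n1) ≤ 8 * 4.5 n y * 6.973 n y ^ 2 ≤ 251.1 n ^ 2 y ^ 3 ≤ 41.9 n ^ 2 y ^ 4`.  Sum `≤ 90000 n ^ 2 y ^ 4`. -/
theorem caseTwo_num {n c : ℕ} (hn : 1 ≤ n) (hc : 2 * c ≤ 4 * n + kW n) :
    1750 * ((n + c : ℕ) : ℝ) ^ 2 * (6 + Real.log ((n + c : ℕ) : ℝ)) ^ 2 + c * kW (n + c) ≤
      90000 * (n : ℝ) ^ 2 * (6 + Real.log n) ^ 4 := by
  have hn1 : (1 : ℝ) ≤ n := by exact_mod_cast hn
  have hn0 : (0 : ℝ) < n := by linarith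
  have hl2 := Real.log_two_lt_d9
  have hl2' := Real.log_two_gt_d9
  have hx0 : 0 ≤ Real.log n := Real.log_nonneg hn1
  have hk := kW_le hn
  have hk1 := kW_le (n := n + c) (by omega)
  have hcR : 2 * (c : ℝ) ≤ 4 * n + kW n := by exact_mod_cast hc
  have hc0 : (0 : ℝ) ≤ c := Nat.cast_nonneg c
  push_cast at hk1 ⊢
  obtain ⟨y, hy⟩ : ∃ y : ℝ, y = 6 + Real.log n := ⟨_, rfl⟩
  rw [← hy] at hk ⊢
  have hy6 : 6 ≤ y := by linarith
  have hy0 : 0 < y := by linarith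
  obtain ⟨N1, hN1⟩ : ∃ N1 : ℝ, N1 = (n : ℝ) + c := ⟨_, rfl⟩
  rw [← hN1] at hk1 ⊢
  have hN10 : 0 < N1 := by linarith
  have hny : 0 < (n : ℝ) * y := mul_pos hn0 hy0
  have hN1le : N1 ≤ 45 / 10 * (n * y) := by
    have h1 : 6 * (n : ℝ) ≤ n * y := by nlinarith
    linarith
  have hlog : Real.log N1 ≤ Real.log (27 / 6) + Real.log n + Real.log y := by
    have h1 := Real.log_le_log hN10 (show N1 ≤ 27 / 6 * (n * y) by linarith)
    rw [Real.log_mul (by norm_num) hny.ne', Real.log_mul hn0.ne' hy0.ne'] at h1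
    linarith
  have hlogy : Real.log y ≤ y / 6 + Real.log 6 - 1 := by
    have h := Real.log_le_sub_one_of_pos (show (0 : ℝ) < y / 6 by positivity)
    rw [Real.log_div hy0.ne' (by norm_num)] at h
    linarith
  have h27 : Real.log (27 / 6) + Real.log 6 ≤ 5 * Real.log 2 - 5 / 32 := by
    have h := Real.log_le_sub_one_of_pos (show (0 : ℝ) < 27 / 32 by norm_num)
    rw [Real.log_div (by norm_num) (by norm_num)] at h
    have h32 : Real.log 32 = 5 * Real.log 2 := by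
      rw [show (32 : ℝ) = 2 ^ 5 by norm_num, Real.log_pow]
      norm_num
    rw [h32] at h
    rw [Real.log_div (by norm_num) (by norm_num)]
    linarith
  have hM : 6 + Real.log N1 ≤ 1552 / 1000 * y := by
    linarith
  have hM0 : 0 ≤ 6 + Real.log N1 := by
    have h1 : Real.log n ≤ Real.log N1 := Real.log_le_log hn0 (by linarith)
    linarith
  obtain ⟨M, hMdef⟩ : ∃ M : ℝ, M = 6 + Real.log N1 := ⟨_, rfl⟩
  rw [← hMdef] at hM hM0 hk1 ⊢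
  have hP : N1 * M ≤ 6984 / 1000 * (n * y ^ 2) := by
    have h1 := mul_le_mul hN1le hM hM0 (by positivity)
    refine h1.trans (le_of_eq ?_)
    ring
  have hP0 : 0 ≤ N1 * M := mul_nonneg hN10.le hM0
  have h1 : 1750 * N1 ^ 2 * M ^ 2 ≤ 1750 * (6984 / 1000 * (n * y ^ 2)) ^ 2 := by
    have h2 : (N1 * M) ^ 2 ≤ (6984 / 1000 * (n * y ^ 2)) ^ 2 := pow_le_pow_left₀ hP0 hP 2
    have h3 : 1750 * N1 ^ 2 * M ^ 2 = 1750 * (N1 * M) ^ 2 := by ring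
    rw [h3]
    linarith
  have h2 : (c : ℝ) * kW (n + c) ≤ 8 * (45 / 10 * (n * y)) * (6984 / 1000 * (n * y ^ 2)) := by
    have h3 : (c : ℝ) * kW (n + c) ≤ N1 * (8 * N1 * M) :=
      mul_le_mul (by linarith) hk1 (Nat.cast_nonneg _) hN10.le
    have h4 : N1 * (8 * N1 * M) = 8 * N1 * (N1 * M) := by ring
    rw [h4] at h3
    refine h3.trans ?_
    exact mul_le_mul (by linarith) hP hP0 (by positivity)
  have h3 : (n : ℝ) ^ 2 * y ^ 3 * 6 ≤ (n : ℝ) ^ 2 * y ^ 4 := by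
    have h4 : 0 ≤ (n : ℝ) ^ 2 * y ^ 3 := by positivity
    have h5 : (n : ℝ) ^ 2 * y ^ 4 = (n : ℝ) ^ 2 * y ^ 3 * y := by ring
    rw [h5]
    exact mul_le_mul_of_nonneg_left hy6 h4
  have h5 : 1750 * (6984 / 1000 * ((n : ℝ) * y ^ 2)) ^ 2
      = 1750 * (6984 / 1000) ^ 2 * ((n : ℝ) ^ 2 * y ^ 4) := by ring
  have h6 : 8 * (45 / 10 * ((n : ℝ) * y)) * (6984 / 1000 * (n * y ^ 2))
      = 251424 / 1000 * ((n : ℝ) ^ 2 * y ^ 3) := by ring
  have h7 : 0 ≤ (n : ℝ) ^ 2 * y ^ 4 := by positivity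
  rw [h5] at h1
  rw [h6] at h2
  have h8 : 90000 * (n : ℝ) ^ 2 * y ^ 4 = 90000 * ((n : ℝ) ^ 2 * y ^ 4) := by ring
  rw [h8]
  have h9 : (1750 : ℝ) * (6984 / 1000) ^ 2 ≤ 85400 := by norm_num
  have h10 := mul_le_mul_of_nonneg_right h9 h7
  linarith

end Pool.Agent.H78W
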