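import Pool.Agent.Lib.H78W.F4
import Pool.Agent.Lib.H80W.Fin

set_option autoImplicit false

/-!
H78W (H53W): THEOREM W, the final form.
-/

open MvPolynomial

namespace Pool.Agent.H78W

open Pool.Agent.H89T Pool.Agent.H67T Pool.Agent.H53U Pool.Agent.H78M

/-- THEOREM W: all types. -/
theorem finalW {n c : ℕ} (hn : 1 ≤ n) {d : Fin c → ℕ} (hd : ∀ j, 2 ≤ d j)
    (h : 90000 * (n : ℝ) ^ 2 * (6 + Real.log n) ^ 4 ≤ ∑ j, ((d j : ℝ) - 1) ∨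
      (6000 * (n : ℝ) ^ 2 * (6 + Real.log n) ^ 2 ≤ ∑ j, ((d j : ℝ) - 1) ∧
        4 * n + 8 * n * (6 + Real.log n) < 2 * (c : ℝ)) ∨
      (1750 * (n : ℝ) ^ 2 * (6 + Real.log n) ^ 2 ≤ ∑ j, ((d j : ℝ) - 1) ∧
        ∀ j, 8 * (n : ℝ) * (6 + Real.log n) ≤ d j)) :
    HypU (n + c) d :=
  theoremW (fun _ _ _ _ j1 _ hk hd => H80W.dimV_W j1 hk hd) hn hd h

end Pool.Agent.H78W
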