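import Pool.Agent.Lib.H53V.Final
import Pool.Agent.Lib.H78N.Final
import Pool.Agent.Lib.H78W.Final

set_option autoImplicit false

/-!
Generic complete intersections of dimension `n` of all types of total degree `O (n ^ 2 (log n) ^ 4)` are Brody
hyperbolic; `O (n ^ 2 (log n) ^ 2)` for hypersurfaces, for large degrees and for large codimension.
-/

open MvPolynomial

namespace Pool.Agent.H78W.Candidate

/-- `P` holds for all `c`-tuples of forms of degrees `d 0, ..., d (c - 1)` in `N + 1` variables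
outside a proper algebraic subset: there is a polynomial `Θ` in the coefficients, not vanishing at
all these tuples, such that `P` holds for the tuples at which `Θ` does not vanish. -/
def ForGenericForms (N : ℕ) {c : ℕ} (d : Fin c → ℕ)
    (P : (Fin c → MvPolynomial (Fin (N + 1)) ℂ) → Prop) : Prop :=
  ∃ Θ : MvPolynomial (Fin c × (Fin (N + 1) →₀ ℕ)) ℂ,
    (∃ F : Fin c → MvPolynomial (Fin (N + 1)) ℂ, (∀ j, (F j).IsHomogeneous (d j)) ∧
      eval (fun p => coeff p.2 (F p.1)) Θ ≠ 0) ∧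
    ∀ F : Fin c → MvPolynomial (Fin (N + 1)) ℂ, (∀ j, (F j).IsHomogeneous (d j)) →
      eval (fun p => coeff p.2 (F p.1)) Θ ≠ 0 → P F

/-- `y` is a reduced representation of a nonconstant holomorphic map from `ℂ` to projective
space. -/
structure IsEntireCurve {m : ℕ} (y : ℂ → Fin m → ℂ) : Prop where
  holomorphic : ∀ j, Differentiable ℂ fun z => y z j
  ne_zero : ∀ z, y z ≠ 0
  nonconstant : ∃ z z', ∀ t : ℂ, y z' ≠ t • y z

/-- The projective algebraic set `F_1 = ... = F_c = 0` contains no nonconstant entire curve. -/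
def BrodyHyperbolic {N c : ℕ} (F : Fin c → MvPolynomial (Fin (N + 1)) ℂ) : Prop :=
  ¬ ∃ y : ℂ → Fin (N + 1) → ℂ, IsEntireCurve y ∧ ∀ z j, eval (y z) (F j) = 0

/-- **Generic complete intersections of dimension `n` and type `(d_1, ..., d_c)`, all `d_j ≥ 2`, are
Brody hyperbolic** in each of the following cases:
(1) the total degree is large: `∑ (d_j - 1) ≥ 90000 n ^ 2 (6 + log n) ^ 4` or
`∑ (d_j - 1) ≥ 17100 n ^ 4 (1 + log n)` (every codimension, all types; the second bound is better for small `n`);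
(2) large codimension: `2 c > 4 n + 8 n (6 + log n)` and `∑ (d_j - 1) ≥ 6000 n ^ 2 (6 + log n) ^ 2`;
(3) large degrees: all `d_j ≥ 8 n (6 + log n)` and `∑ (d_j - 1) ≥ 1750 n ^ 2 (6 + log n) ^ 2`;
(4) hypersurfaces (`c = 1`) of degree at least `1000 n ^ 2 (6 + log n) ^ 2 + 1`;
(5) `∑ (d_j - 1) ≥ 250 n ^ 2 (2 n + e) (1 + log n)`, where the sum is over the `j` with `d_j ≥ 4 n` and `e` is the
number of the other `j`; in particular hypersurfaces of degree at least `500 n ^ 3 (1 + log n) + 1` (small `n`);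
(6) the sum of the `d_j - 1` without any `2 n - 1` of them is at least `64 n ^ 2`, for example quadrics,
`c ≥ 64 n ^ 2 + 2 n`. -/
theorem result (n : ℕ) (hn : 1 ≤ n) (c : ℕ) (d : Fin c → ℕ) (hd : ∀ j, 2 ≤ d j)
    (h : 90000 * (n : ℝ) ^ 2 * (6 + Real.log n) ^ 4 ≤ ∑ j, ((d j : ℝ) - 1) ∨
      17100 * (n : ℝ) ^ 4 * (1 + Real.log n) ≤ ∑ j, ((d j : ℝ) - 1) ∨
      4 * (n : ℝ) + 8 * n * (6 + Real.log n) < 2 * c ∧
        6000 * (n : ℝ) ^ 2 * (6 + Real.log n) ^ 2 ≤ ∑ j, ((d j : ℝ) - 1) ∨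
      (∀ j, 8 * (n : ℝ) * (6 + Real.log n) ≤ d j) ∧
        1750 * (n : ℝ) ^ 2 * (6 + Real.log n) ^ 2 ≤ ∑ j, ((d j : ℝ) - 1) ∨
      c = 1 ∧ (∀ j, 1 + 1000 * (n : ℝ) ^ 2 * (6 + Real.log n) ^ 2 ≤ d j) ∨
      250 * (n : ℝ) ^ 2 * (2 * (n : ℝ) + (Finset.univ.filter fun j => d j < 4 * n).card) *
        (1 + Real.log n) ≤ ∑ j ∈ Finset.univ.filter (fun j => 4 * n ≤ d j), ((d j : ℝ) - 1) ∨
      ∀ K : Finset (Fin c), K.card < 2 * n → 64 * n ^ 2 ≤ ∑ j ∈ Kᶜ, (d j - 1)) :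
    ForGenericForms (n + c) d BrodyHyperbolic := by
  have key : Pool.Agent.H53U.HypU (n + c) d → ForGenericForms (n + c) d BrodyHyperbolic := by
    rintro ⟨Θ, hΘ, h⟩
    refine ⟨Θ, hΘ, fun F hF hF0 => ?_⟩
    rintro ⟨y, hy, hyF⟩
    obtain ⟨z, z', hzz⟩ := hy.nonconstant
    obtain ⟨t, ht⟩ := h F hF hF0 y ⟨hy.holomorphic, hy.ne_zero⟩ hyF z z'
    exact hzz t ht
  apply key
  rcases h with h | h | ⟨hc, h⟩ | ⟨hj, h⟩ | ⟨rfl, h⟩ | h | h
  · exact Pool.Agent.H78W.finalW hn hd (Or.inl h)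
  · exact Pool.Agent.H53V.finalB n c hn d hd h
  · exact Pool.Agent.H78W.finalW hn hd (Or.inr (Or.inl ⟨h, hc⟩))
  · exact Pool.Agent.H78W.finalW hn hd (Or.inr (Or.inr ⟨h, hj⟩))
  · have h1 := Pool.Agent.H78N.hypU_n2 hn (h 0)
    have h2 : d = fun _ => d 0 := funext fun j => by rw [Subsingleton.elim j 0]
    rw [h2]
    exact h1
  · exact Pool.Agent.H53V.finalA n c hn d hd h
  · exact (Pool.Agent.H53U.final3 n hn).1 c d hd h

end Pool.Agent.H78W.Candidate
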