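import Pool.Agent.Lib.H78M.G31

set_option autoImplicit false

/-!
H78W (module B of H53W, see PROOF.md): moves for jets of order `k` of complete intersections with equations of arbitrary
degrees at least `2`.  Definitions and the statements of the module.

`N = n + c` variables, `c` polynomials of degrees at most `d 0, ..., d (c - 1)`, coefficients indexed by `CI N d`
(H53U).  The jet variables are `JV N k` (H89T): `(b, l)` is the `l`-th Taylor coefficient of the `b`-th coordinate,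
`l = 0, ..., k`.
-/

open MvPolynomial

namespace Pool.Agent.H78W

open Pool.Agent.H89T Pool.Agent.H67T Pool.Agent.H53U Pool.Agent.H78M

section Pole

variable {N k : ℕ} {B : Type*} [CommRing B]

/-- The polynomial `∑ s_l t ^ l`, `l = 0, ..., k`. -/
noncomputable def sT (s : Fin (k + 1) → B) : Polynomial B :=
  ∑ l : Fin (k + 1), Polynomial.C (s l) * Polynomial.X ^ (l : ℕ)

/-- The jet `(s (t), s (t) ζ_b (t))` of order `k` in one more variable. -/
noncomputable def mulJ (s : Fin (k + 1) → B) (ζ : JV N k → B) (p : JV (N + 1) k) : B :=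
  Fin.cases (motive := fun _ => B) (s p.2) (fun b => (sT s * arc ζ b).coeff (p.2 : ℕ)) p.1

/-- `P` has a pole of order at most `M` along the hyperplane at infinity: `s_0 ^ M P (ζ)` is a polynomial of degree at most
`M` in the jet `(s (t), s (t) ζ (t))`. -/
def HasPole (M : ℕ) (P : MvPolynomial (JV N k) ℂ) : Prop :=
  ∃ R : MvPolynomial (JV (N + 1) k) ℂ, R.totalDegree ≤ M ∧
    ∀ (s : Fin (k + 1) → ℂ) (ζ : JV N k → ℂ), s 0 ^ M * eval ζ P = eval (mulJ s ζ) R

end Pole

/-- The universal ring: jets and coefficients. -/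
abbrev AW (N k : ℕ) {c : ℕ} (d : Fin c → ℕ) : Type := MvPolynomial (JV N k ⊕ CI N d) ℂ

section Flat

variable {N k c : ℕ} {d : Fin c → ℕ}

/-- The degree in the jets of one more variable is at most `M`. -/
def YD (M : ℕ) (R : MvPolynomial (JV (N + 1) k ⊕ CI N d) ℂ) : Prop :=
  ∀ μ ∈ R.support, ∑ p : JV (N + 1) k, μ (Sum.inl p) ≤ M

/-- The same as `HasPole` in the universal ring. -/
def PoleA (M : ℕ) (P : AW N k d) : Prop :=
  ∃ R : MvPolynomial (JV (N + 1) k ⊕ CI N d) ℂ, YD M R ∧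
    ∀ (a : CI N d → ℂ) (s : Fin (k + 1) → ℂ) (ζ : JV N k → ℂ),
      s 0 ^ M * eval (Sum.elim ζ a) P = eval (Sum.elim (mulJ s ζ) a) R

/-- The coefficients as elements of the universal ring. -/
noncomputable def aW (p : CI N d) : AW N k d := X (Sum.inr p)

/-- The jet variables as elements of the universal ring. -/
noncomputable def xW (p : JV N k) : AW N k d := X (Sum.inl p)

/-- The arc `v (t) = x (t) - x`. -/
noncomputable def vW (b : Fin N) : Polynomial (AW N k d) := arc xW b - Polynomial.C (xW (b, 0))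

/-- `φ (v (t))`. -/
noncomputable def phW (φ : MvPolynomial (Fin N) ℂ) : Polynomial (AW N k d) := aeval vW φ

/-- The matrix of the coefficients of `t, ..., t ^ k` of `k` polynomials. -/
def matW {B : Type*} [CommRing B] (q : Fin k → Polynomial B) : Matrix (Fin k) (Fin k) B :=
  Matrix.of fun l i => (q i).coeff ((l : ℕ) + 1)

/-- `W = det ([t ^ l] z_i (v (t)))`. -/
noncomputable def WW (z : Fin k → MvPolynomial (Fin N) ℂ) : AW N k d := (matW fun i => phW (z i)).det

/-- `W_i (H)`: `z_i (v (t))` is replaced by `H`. -/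
noncomputable def WC (z : Fin k → MvPolynomial (Fin N) ℂ) (H : Polynomial (AW N k d)) (i : Fin k) :
    AW N k d :=
  (matW (Function.update (fun i => phW (z i)) i H)).det

/-- `H_j (t) = ∑ φ_b (v (t)) ∂_b F_{a,j} (x (t))`. -/
noncomputable def HH (φ : Fin N → MvPolynomial (Fin N) ℂ) (j : Fin c) : Polynomial (AW N k d) :=
  ∑ b, phW (φ b) * aeval (arc xW) (pderiv b (PF (aW : CI N d → AW N k d) j))

/-- The derivation of the move: `x ↦ 0`, `v_b (t) ↦ W φ_b (v (t))`, `F_{a,j} ↦ G_j`. -/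
noncomputable def DW (φ : Fin N → MvPolynomial (Fin N) ℂ) (z : Fin k → MvPolynomial (Fin N) ℂ)
    (G : Fin c → MvPolynomial (Fin N) (AW N k d)) : Derivation ℂ (AW N k d) (AW N k d) :=
  mkDerivation ℂ (Sum.elim
    (fun p : JV N k => if p.2 = 0 then 0 else WW z * (phW (φ p.1)).coeff (p.2 : ℕ))
    fun q : CI N d => cofs (d q.1) (G q.1) q.2)

/-- Specialization of the coefficients. -/
noncomputable def spW (a : CI N d → ℂ) : AW N k d →ₐ[ℂ] MvPolynomial (JV N k) ℂ :=
  aeval (Sum.elim (fun p => X p) fun q => C (a q))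

/-- Specialization of the coefficients, and `x = 0`. -/
noncomputable def sgW (a : CI N d → ℂ) : AW N k d →ₐ[ℂ] MvPolynomial (JV N k) ℂ :=
  aeval (Sum.elim (fun p => if p.2 = 0 then 0 else X p) fun q => C (a q))

/-- The derivation `v_b (t) ↦ W φ_b (v (t))` of `ℂ[x, v]` at `x = 0` and at the coefficients `a`. -/
noncomputable def DV (a : CI N d → ℂ) (φ : Fin N → MvPolynomial (Fin N) ℂ)
    (z : Fin k → MvPolynomial (Fin N) ℂ) :
    Derivation ℂ (MvPolynomial (JV N k) ℂ) (MvPolynomial (JV N k) ℂ) :=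
  mkDerivation ℂ fun p : JV N k =>
    if p.2 = 0 then 0 else sgW a (WW z * (phW (φ p.1)).coeff (p.2 : ℕ))

/-- The polynomials with coefficients in `RC N d` as elements of the universal ring. -/
noncomputable def flW (N k : ℕ) {c : ℕ} (d : Fin c → ℕ) : MvPolynomial (JV N k) (RC N d) →+* AW N k d :=
  eval₂Hom (rename Sum.inr : RC N d →ₐ[ℂ] AW N k d).toRingHom xW

/-- The data of a move. -/
structure MoveW (a : CI N d → ℂ) (φ : Fin N → MvPolynomial (Fin N) ℂ)
    (z : Fin k → MvPolynomial (Fin N) ℂ) (G : Fin c → MvPolynomial (Fin N) (AW N k d)) : Prop where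
  phi0 : ∀ b, constantCoeff (φ b) = 0
  z0 : ∀ i, constantCoeff (z i) = 0
  z2 : ∀ i, (z i).totalDegree ≤ 2
  degG : ∀ j, (G j).totalDegree ≤ d j
  congG : ∀ j, (Polynomial.X : Polynomial (AW N k d)) ^ (k + 1) ∣
    aeval (arc xW) (G j) + Polynomial.C (WW z) * HH φ j
  zeroG : ∀ j α, sgW a (coeff α (G j)) = 0
  poleG : ∀ j α, PoleA (7 * k) (coeff α (G j))

/-- Type `(2, M)`: `s (t) ^ 2 q (t)` has coefficients with poles of order at most `M - 2`. -/
def PT (M : ℕ) (q : Polynomial (AW N k d)) : Prop :=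
  ∀ l ≤ k, ∃ R : MvPolynomial (JV (N + 1) k ⊕ CI N d) ℂ, YD M R ∧
    ∀ (a : CI N d → ℂ) (s : Fin (k + 1) → ℂ) (ζ : JV N k → ℂ),
      s 0 ^ (M - 2) * (sT s ^ 2 * q.map (eval (Sum.elim ζ a))).coeff l =
        eval (Sum.elim (mulJ s ζ) a) R

/-- The coefficient of `t ^ l` has a pole of order at most `A + 2 l`. -/
def PB (A : ℕ) (q : Polynomial (AW N k d)) : Prop := ∀ l, PoleA (A + 2 * l) (q.coeff l)

end Flat

section Exp

variable {A : Type*} [CommRing A] [Algebra ℂ A]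

/-- `e (exp (ε D) p)`, a power series in `ε`. -/
noncomputable def expD (D : Derivation ℂ A A) (e : A →ₐ[ℂ] ℂ) (p : A) : PowerSeries ℂ :=
  PowerSeries.mk fun r => e (D^[r] p) / (r.factorial : ℂ)

end Exp

section Main

/-- The jet `ξ` is nondegenerate with respect to the quadratic polynomials: the `k` coefficients of `t, ..., t ^ k` of the
polynomials of degree at most `2` along the arc of `ξ` are arbitrary. -/
def QND {N k : ℕ} (ξ : JV N k → ℂ) : Prop :=
  ∃ z : Fin k → MvPolynomial (Fin N) ℂ, (∀ i, constantCoeff (z i) = 0) ∧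
    (∀ i, (z i).totalDegree ≤ 2) ∧ (matW fun i => aeval (arc ξ) (z i)).det ≠ 0

/-- PROPOSITION V with the constant `7`, `J = univ`. -/
def PropVW (n k q : ℕ) {c : ℕ} (d : Fin c → ℕ) : Prop :=
  ∃ m a0 s μ : ℕ, (q + 1) * (a0 + 2 * m + 7 * k * μ) + 1 ≤ q * s ∧ ∀ l : Fin (n + c) → ℂ,
    ∃ (r : ℕ) (P Q : Fin r → MvPolynomial (JV (n + c) k) (RC (n + c) d)),
      H53V.tau (H53V.FrI n (Finset.univ : Finset (Fin c))) k m μ < r ∧ (∀ i, H53V.BiK a0 m (P i)) ∧
      (∀ i, H53V.BiK a0 m (Q i)) ∧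
      (∀ i, H53V.linK k (fun b => C (l b)) ^ s * P i - Q i ∈
        H53V.IK k Finset.univ (gc (n + c) d)) ∧
      ∃ (a : CI (n + c) d → ℂ) (x : Fin (n + c) → ℂ), (∀ j, U0 a x j = 0) ∧
        (H53V.MJ Finset.univ (tra (fun b => - x b) a)).det ≠ 0 ∧
        LinearIndependent ℂ fun i => H53V.ResX k Finset.univ a x (map (eval a) (P i))

/-- The intermediate statement, as `PropE0` of H78M. -/
def PropE0W (n k q : ℕ) {c : ℕ} (d : Fin c → ℕ) : Prop :=
  ∃ m a0 s μ : ℕ, (q + 1) * (a0 + 2 * m + 7 * k * μ) + 1 ≤ q * s ∧ ∀ l : Fin (n + c) → ℂ,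
    ∃ (ρ : ℕ) (P Q : Fin ρ → MvPolynomial (JV (n + c) k) (RC (n + c) d)) (y : ℂ),
      H53V.tau (H53V.FrI n (Finset.univ : Finset (Fin c))) k m μ < ρ ∧ (∀ i, BiDegK a0 m (P i)) ∧
      (∀ i, BiDegK a0 m (Q i)) ∧
      (∀ i, (H53V.linK k (fun b => C (l b)) + C (C y)) ^ s * P i - Q i ∈
        IIK (kJ k Finset.univ) (gc (n + c) d)) ∧
      ∃ (a : CI (n + c) d → ℂ) (ξ : Fin ρ → JV (n + c) k → ℂ),
        (∀ t b, ξ t (b, 0) = 0) ∧ (∀ t, OnV (kJ k Finset.univ) a (ξ t)) ∧
        (H53V.MJ Finset.univ a).det ≠ 0 ∧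
        (Matrix.of fun t s => evK a (ξ s) (P t)).det ≠ 0

/-- THE RESULT OF THE MODULE: as `AlgK` of H53V, with poles instead of weights, and only for the nondegenerate jets. -/
def AlgKW (n k q : ℕ) {c : ℕ} (d : Fin c → ℕ) : Prop :=
  ∃ M s : ℕ, (q + 1) * M + 1 ≤ q * s ∧ ∀ l : Fin (n + c) → ℂ, ∃ Θ : RC (n + c) d,
    (∃ a : CI (n + c) d → ℂ, (∀ j, U0 a 0 j = 0) ∧ eval a Θ ≠ 0) ∧
    ∀ a : CI (n + c) d → ℂ, (∀ j, U0 a 0 j = 0) → eval a Θ ≠ 0 →
      ∀ ξ : JV (n + c) k → ℂ, (∀ b, ξ (b, 0) = 0) → QND ξ →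
        (∀ j, ∀ i ≤ k, H53V.uV a ξ j i = 0) →
        ∃ (P Q : MvPolynomial (JV (n + c) k) ℂ) (t : ℂ), HasPole M P ∧ HasPole M Q ∧
          (H53V.linK k l + C t) ^ s * P - Q ∈ H53V.IK k Finset.univ a ∧ eval ξ P ≠ 0

end Main

end Pool.Agent.H78W
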