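import Pool.Agent.Lib.H78W.K0

set_option autoImplicit false

/-!
CHUNK K2 of H78W (the count of H53W).  The main inequality.
-/

namespace Pool.Agent.H78W

open Pool.Agent.H53V Pool.Agent.H78N

/-- As `hmain_of` in H78N/C12.lean: `c12_alg` with `T = T0 * L ^ n`, `c2 = B * L ^ n`, `e = D` gives
`L ^ n * (left side) < D ^ n * X`, `X` the factor of `e1 ^ n` on the right; so `X > 0`, and `D ^ n ≤ L ^ n * e1 ^ n`; divide by `L ^ n`. -/
theorem hmainW_of {n k D e1 B : ℕ} {L : ℝ} (hn : 2 ≤ n) (hk : n ≤ k) (hD : 1 ≤ D) (hB : 1 ≤ B)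
    (hL1 : 1 ≤ L) (hL : (D : ℝ) ≤ L * e1) (p0 : Fin n × Fin k) {σ τ zm : ℝ}
    (hσ : 0 < σ) (hτ : 0 < τ) (hστ : σ < τ * D) (hτ1 : τ ≤ 1)
    (hI : T0 p0 ((n : ℝ) * k) zm * L ^ n * FF (Fin n) k *
      ((n * k + n - 1).factorial * (2 * (k : ℝ)) ^ n / n.factorial) ≤ 1 / 4)
    (hII : (B : ℝ) * L ^ n * (k.choose (n - 1) * (τ * k * (n * (k + 1))) ^ (k - n + 1) /
      (k - n + 1).factorial) * ((2 * (k : ℝ) * (n * (k + 1))) ^ n / n.factorial) ≤ 1 / 4) :
    T0 p0 ((n : ℝ) * k) zm * ((2 * (D : ℝ)) ^ n / n.factorial) +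
      B * (k.choose (n - 1) * (τ ^ (k - n + 1) * (k : ℝ) ^ (k - n + 1)) /
        ((n * k - (k - n + 1) - 1).factorial * FF (Fin n) k * (k - n + 1).factorial) *
        ((σ + D) ^ n / n.factorial)) <
      (e1 : ℝ) ^ n * ((1 / (n * k + n - 1).factorial -
        k.choose (n - 1) * (τ ^ (k - n + 1) * (k : ℝ) ^ (k - n + 1)) /
          ((n * k + n - 1 - (k - n + 1)).factorial * (k - n + 1).factorial)) /
        (FF (Fin n) k * PiN n k)) := by
  have hn0 : (2 : ℝ) ≤ n := by exact_mod_cast hn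
  have hkn : (n : ℝ) ≤ k := by exact_mod_cast hk
  have hk0 : (2 : ℝ) ≤ k := hn0.trans hkn
  have hD0 : (1 : ℝ) ≤ D := by exact_mod_cast hD
  have hB0 : (1 : ℝ) ≤ B := by exact_mod_cast hB
  have h2k : 2 * k ≤ n * k := Nat.mul_le_mul_right k hn
  have hY1 : (1 : ℝ) ≤ (n : ℝ) * (k + 1) := by nlinarith
  have hN1 : ((n * k + n - 1 : ℕ) : ℝ) ≤ (n : ℝ) * (k + 1) := by
    have h1 : n * k + n - 1 ≤ n * (k + 1) := by
      rw [mul_add, mul_one]
      omega
    exact_mod_cast h1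
  have hND : ((n * k + n - 1).factorial : ℝ) ≤ ((n : ℝ) * (k + 1)) ^ (k - n + 1 + n) *
      ((n * k - (k - n + 1) - 1).factorial : ℝ) := by
    have h1 := k6_fac (N := n * k + n - 1) (j := k - n + 1 + n) (by omega)
    have h2 : n * k + n - 1 - (k - n + 1 + n) = n * k - (k - n + 1) - 1 := by omega
    rw [h2] at h1
    refine h1.trans (mul_le_mul_of_nonneg_right ?_ (Nat.cast_nonneg _))
    exact pow_le_pow_left₀ (Nat.cast_nonneg _) hN1 _
  have hNG : ((n * k + n - 1).factorial : ℝ) ≤ ((n : ℝ) * (k + 1)) ^ (k - n + 1) *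
      ((n * k + n - 1 - (k - n + 1)).factorial : ℝ) := by
    have h1 := k6_fac (N := n * k + n - 1) (j := k - n + 1) (by omega)
    refine h1.trans (mul_le_mul_of_nonneg_right ?_ (Nat.cast_nonneg _))
    exact pow_le_pow_left₀ (Nat.cast_nonneg _) hN1 _
  have hP0 : 0 < PiN n k := by
    unfold PiN
    refine Finset.prod_pos fun i _ => ?_
    exact_mod_cast Nat.succ_pos _
  have hPk : PiN n k ≤ (k : ℝ) ^ n := by
    unfold PiN
    calc ∏ i : Fin n, (((k - n + (i : ℕ) + 1 : ℕ)) : ℝ) ≤ ∏ _i : Fin n, (k : ℝ) := by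
          refine Finset.prod_le_prod (fun i _ => Nat.cast_nonneg _) fun i _ => ?_
          have := i.2
          exact_mod_cast (by omega : k - n + (i : ℕ) + 1 ≤ k)
      _ = (k : ℝ) ^ n := by rw [Finset.prod_const, Finset.card_univ, Fintype.card_fin]
  have hLn : (1 : ℝ) ≤ L ^ n := one_le_pow₀ hL1
  have hL0 : 0 < L := by linarith
  have hc : (1 : ℝ) ≤ (B : ℝ) * L ^ n * ((2 * (k : ℝ) * (n * (k + 1))) ^ n / n.factorial) := by
    have h1 : (1 : ℝ) ≤ (B : ℝ) * L ^ n := one_le_mul_of_one_le_of_one_le hB0 hLn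
    have h2 : (n.factorial : ℝ) ≤ (n : ℝ) ^ n := by exact_mod_cast Nat.factorial_le_pow n
    have h3 : (n : ℝ) ^ n ≤ (2 * (k : ℝ) * (n * (k + 1))) ^ n := by
      refine pow_le_pow_left₀ (by linarith) ?_ n
      nlinarith
    have h4 : (1 : ℝ) ≤ (2 * (k : ℝ) * (n * (k + 1))) ^ n / n.factorial := by
      rw [le_div_iff₀ (by exact_mod_cast n.factorial_pos), one_mul]
      exact h2.trans h3
    exact one_le_mul_of_one_le_of_one_le h1 h4
  have hσe : σ ≤ (D : ℝ) := by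
    have : τ * (D : ℝ) ≤ 1 * D := mul_le_mul_of_nonneg_right hτ1 (by linarith)
    linarith
  have hfac : ∀ a : ℕ, (0 : ℝ) < a.factorial := fun a => by exact_mod_cast a.factorial_pos
  have hF0 : 0 < FF (Fin n) k := FF_pos _ _
  have hT0 : 0 ≤ T0 p0 ((n : ℝ) * k) zm := c12_T0 (by omega) (by omega) p0 zm
  have key := c12_alg (T := T0 p0 ((n : ℝ) * k) zm * L ^ n) (F := FF (Fin n) k) (Pn := PiN n k)
    (N := ((n * k + n - 1).factorial : ℝ)) (D := ((n * k - (k - n + 1) - 1).factorial : ℝ))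
    (G := ((n * k + n - 1 - (k - n + 1)).factorial : ℝ)) (nf := (n.factorial : ℝ))
    (gf := ((k - n + 1).factorial : ℝ)) (ch := (k.choose (n - 1) : ℝ)) (c2 := (B : ℝ) * L ^ n)
    (τ := τ) (k := k) (Y := (n : ℝ) * (k + 1)) (σ := σ) (e := D) (n := n) (g := k - n + 1)
    (mul_nonneg hT0 (by positivity)) hF0 hP0 hPk (hfac _) (hfac _) (hfac _) hND hNG
    (hfac _) (hfac _) (Nat.cast_nonneg _) (by positivity) hτ (by linarith) (by linarith)
    (by linarith) hσ hσe hc hI hII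
  set X : ℝ := (1 / ((n * k + n - 1).factorial : ℝ) -
        k.choose (n - 1) * (τ ^ (k - n + 1) * (k : ℝ) ^ (k - n + 1)) /
          ((n * k + n - 1 - (k - n + 1)).factorial * (k - n + 1).factorial)) /
        (FF (Fin n) k * PiN n k) with hX
  set U : ℝ := T0 p0 ((n : ℝ) * k) zm * ((2 * (D : ℝ)) ^ n / n.factorial) +
      B * (k.choose (n - 1) * (τ ^ (k - n + 1) * (k : ℝ) ^ (k - n + 1)) /
        ((n * k - (k - n + 1) - 1).factorial * FF (Fin n) k * (k - n + 1).factorial) *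
        ((σ + D) ^ n / n.factorial)) with hU
  have hU0 : 0 ≤ U := by
    have := hfac n
    have := hfac (n * k - (k - n + 1) - 1)
    have := hfac (k - n + 1)
    have h9 : (0 : ℝ) < σ + D := by linarith
    rw [hU]
    positivity
  have hkey : L ^ n * U < (D : ℝ) ^ n * X := by
    refine lt_of_eq_of_lt ?_ key
    rw [hU]
    ring
  have hDn : (0 : ℝ) < (D : ℝ) ^ n := by positivity
  have hX0 : 0 < X := by
    have h9 : 0 < (D : ℝ) ^ n * X := lt_of_le_of_lt (mul_nonneg (by positivity) hU0) hkey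
    exact (pos_iff_pos_of_mul_pos h9).1 hDn
  have hDL : (D : ℝ) ^ n ≤ L ^ n * (e1 : ℝ) ^ n := by
    rw [← mul_pow]
    exact pow_le_pow_left₀ (by positivity) hL n
  have h10 : L ^ n * U < L ^ n * ((e1 : ℝ) ^ n * X) := by
    calc L ^ n * U < (D : ℝ) ^ n * X := hkey
      _ ≤ L ^ n * (e1 : ℝ) ^ n * X := mul_le_mul_of_nonneg_right hDL hX0.le
      _ = _ := by ring
  exact lt_of_mul_lt_mul_left h10 (by positivity)

end Pool.Agent.H78W
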