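import Pool.Agent.Lib.H78W.K0

set_option autoImplicit false

/-!
CHUNK K3 of H78W (the count of H53W).  The first inequality.
-/

namespace Pool.Agent.H78W

open Pool.Agent.H53V Pool.Agent.H78N

/-- `T0 p0 (n k) zm = L ^ (- n) * T0 p0 (n k) (zm - log L / k)` (definition of `T0`: `exp (φ - φ zm)`), and `hI_of` (H78N/C13.lean) for `zm - log L / k`. -/
theorem hIW_of {n k : ℕ} {L : ℝ} (hn : 1 ≤ n) (hk : 1 ≤ k) (hL : 1 ≤ L) (p0 : Fin n × Fin k)
    (h0 : (p0.2 : ℕ) = 0) {zm : ℝ}
    (hz : Real.log (4 * Real.exp 1 * (n * k)) +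
      n * (Real.log (8 * Real.exp 1 * k ^ 2 * (k + 1)) + Real.log L) ≤ n * k * zm) :
    T0 p0 ((n : ℝ) * k) zm * L ^ n * FF (Fin n) k *
      ((n * k + n - 1).factorial * (2 * (k : ℝ)) ^ n / n.factorial) ≤ 1 / 4 := by
  have hn0 : (0 : ℝ) < n := by exact_mod_cast hn
  have hk0 : (0 : ℝ) < k := by exact_mod_cast hk
  have hL0 : 0 < L := by linarith
  have h1 := hI_of hn hk p0 h0 (zm := zm - Real.log L / k) (by
    have e : (n : ℝ) * k * (zm - Real.log L / k) = n * k * zm - n * Real.log L := by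
      field_simp
    rw [e]
    linarith)
  have h2 : T0 p0 ((n : ℝ) * k) zm * L ^ n = T0 p0 ((n : ℝ) * k) (zm - Real.log L / k) := by
    unfold T0
    have e1 : (n : ℝ) * k - n * k * (zm - Real.log L / k) = (n * k - n * k * zm) + n * Real.log L := by
      field_simp
      ring
    have e2 : Real.exp (n * Real.log L) = L ^ n := by
      rw [← Real.log_pow, Real.exp_log (pow_pos hL0 n)]
    rw [e1, Real.exp_add, e2]
    ring
  rw [h2]
  exact h1

end Pool.Agent.H78W
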