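import Pool.Agent.Lib.H78W.K0

set_option autoImplicit false

/-!
CHUNK K4 of H78W (the count of H53W).  The second inequality.
-/

namespace Pool.Agent.H78W

open Pool.Agent.H53V Pool.Agent.H78N

/-- As `hII_of` in H78N/C14.lean (the same proof with `(n + 2) ^ 2 = exp (2 log (n + 2))` replaced by `B * L ^ n = exp (log B + n log L)`). -/
theorem hIIW_of {n k : ℕ} {B L : ℝ} (hn : 2 ≤ n) (hk : 9 * n ≤ k) (hB : 1 ≤ B) (hL : 1 ≤ L) {τ : ℝ}
    (hτ : τ = 8 / (9 * Real.exp 1 ^ 2) / (n * (k + 1)))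
    (hK : Real.log 4 + (Real.log B + n * Real.log L) + n * Real.log (k / n) + 2 * n +
      n * Real.log (2 * k * (k + 1)) ≤ k - n + 1) :
    B * L ^ n * (k.choose (n - 1) * (τ * k * (n * (k + 1))) ^ (k - n + 1) /
      (k - n + 1).factorial) * ((2 * (k : ℝ) * (n * (k + 1))) ^ n / n.factorial) ≤ 1 / 4 := by
  have hn0 : (0 : ℝ) < n := by exact_mod_cast (by omega : 0 < n)
  have hk0 : (0 : ℝ) < k := by exact_mod_cast (by omega : 0 < k)
  have he : (0 : ℝ) < Real.exp 1 := Real.exp_pos 1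
  have hkn : (9 : ℝ) * n ≤ k := by exact_mod_cast hk
  obtain ⟨g, hg⟩ : ∃ g : ℕ, g = k - n + 1 := ⟨_, rfl⟩
  have hgR : (g : ℝ) = k - n + 1 := by
    rw [hg]
    push_cast [Nat.cast_sub (by omega : n ≤ k)]
    ring
  have hg0 : (0 : ℝ) < g := by rw [hgR]; linarith
  rw [← hg]
  have hkk : τ * k * (n * (k + 1)) = g * (8 * k / (9 * Real.exp 1 ^ 2 * g)) := by
    rw [hτ]
    field_simp
  have hA : (τ * k * (n * (k + 1))) ^ g / g.factorial ≤ Real.exp (-(g : ℝ)) := by
    rw [hkk]
    refine (pow_fact_le (by positivity) g).trans ?_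
    have h1 : Real.exp 1 * (8 * k / (9 * Real.exp 1 ^ 2 * g)) ≤ Real.exp (-1) := by
      rw [Real.exp_neg, ← mul_div_assoc, div_le_iff₀ (by positivity)]
      have h2 : (Real.exp 1)⁻¹ * (9 * Real.exp 1 ^ 2 * g) = Real.exp 1 * (9 * g) := by
        field_simp
      rw [h2]
      apply mul_le_mul_of_nonneg_left _ he.le
      rw [hgR]
      linarith
    refine (pow_le_pow_left₀ (by positivity) h1 g).trans ?_
    rw [← Real.exp_nat_mul]
    apply le_of_eq
    congr 1
    ring
  have hB1 : (k.choose (n - 1) : ℝ) ≤ Real.exp (n + n * Real.log (k / n)) := by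
    have h1 : (k.choose (n - 1) : ℝ) ≤ (k : ℝ) ^ (n - 1) / (n - 1).factorial := Nat.choose_le_pow_div _ _
    have h2 : (k : ℝ) ^ (n - 1) / (n - 1).factorial ≤ (k : ℝ) ^ n / n.factorial := by
      obtain ⟨m, rfl⟩ : ∃ m, n = m + 1 := ⟨n - 1, by omega⟩
      rw [Nat.add_sub_cancel, Nat.factorial_succ, pow_succ, Nat.cast_mul, div_le_div_iff₀ (by positivity) (by positivity)]
      have h3 : ((m + 1 : ℕ) : ℝ) ≤ k := by linarith
      have h4 : (0 : ℝ) ≤ (k : ℝ) ^ m * m.factorial := by positivity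
      nlinarith [mul_le_mul_of_nonneg_left h3 h4]
    have h3 : (k : ℝ) ^ n / n.factorial = (n * ((k : ℝ) / n)) ^ n / n.factorial := by
      rw [mul_div_cancel₀ _ hn0.ne']
    have h4 := pow_fact_le (x := (k : ℝ) / n) (by positivity) n
    refine h1.trans (h2.trans ((le_of_eq h3).trans (h4.trans (le_of_eq ?_))))
    rw [mul_pow, ← Real.exp_nat_mul, mul_one, Real.exp_add, ← Real.rpow_natCast, Real.rpow_def_of_pos (by positivity),
      mul_comm (Real.log _)]
  have hC : ((2 * (k : ℝ) * (n * (k + 1))) ^ n / n.factorial) ≤ Real.exp (n + n * Real.log (2 * k * (k + 1))) := by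
    have h3 : 2 * (k : ℝ) * (n * (k + 1)) = n * (2 * k * (k + 1)) := by ring
    rw [h3]
    refine (pow_fact_le (by positivity) n).trans (le_of_eq ?_)
    rw [mul_pow, ← Real.exp_nat_mul, mul_one, Real.exp_add, ← Real.rpow_natCast (2 * k * (k + 1) : ℝ),
      Real.rpow_def_of_pos (by positivity), mul_comm (Real.log _)]
  have hD : B * L ^ n = Real.exp (Real.log B + n * Real.log L) := by
    have hB0 : 0 < B := by linarith
    have hL0 : 0 < L := by linarith
    rw [Real.exp_add, Real.exp_log hB0, ← Real.log_pow, Real.exp_log (pow_pos hL0 n)]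
  have hE : (k.choose (n - 1) : ℝ) * (τ * k * (n * (k + 1))) ^ g / g.factorial ≤
      Real.exp (n + n * Real.log (k / n)) * Real.exp (-(g : ℝ)) := by
    rw [mul_div_assoc]
    refine mul_le_mul hB1 hA ?_ (Real.exp_pos _).le
    rw [hkk]
    positivity
  rw [hD]
  calc Real.exp (Real.log B + n * Real.log L) * ((k.choose (n - 1) : ℝ) * (τ * k * (n * (k + 1))) ^ g / g.factorial) *
        ((2 * (k : ℝ) * (n * (k + 1))) ^ n / n.factorial)
      ≤ Real.exp (Real.log B + n * Real.log L) * (Real.exp (n + n * Real.log (k / n)) * Real.exp (-(g : ℝ))) *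
        Real.exp (n + n * Real.log (2 * k * (k + 1))) := by
        refine mul_le_mul (mul_le_mul_of_nonneg_left hE (Real.exp_pos _).le) hC (by positivity) (by positivity)
    _ = Real.exp (Real.log B + n * Real.log L + (n + n * Real.log (k / n) + -(g : ℝ)) + (n + n * Real.log (2 * k * (k + 1)))) := by
        rw [← Real.exp_add, ← Real.exp_add, ← Real.exp_add]
    _ ≤ Real.exp (- Real.log 4) := by
        apply Real.exp_le_exp.2
        rw [hgR]
        linarith
    _ = 1 / 4 := by
        rw [Real.exp_neg, Real.exp_log (by norm_num), one_div]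

end Pool.Agent.H78W
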