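import Pool.Agent.Lib.H78W.K0

set_option autoImplicit false

/-!
CHUNK K5 of H78W (the count of H53W).  Numerics: the choice of `k`.
-/

namespace Pool.Agent.H78W

open Pool.Agent.H53V Pool.Agent.H78N

/-- As `hK_num` in H78N/C15.lean.  Divide by `n`.  `n + c + 1 ≤ 17.25 n ^ 2` (`n ≥ 2`), `log B = 2 log (n + c + 1) ≤ 2 log 17.25 + 4 log n ≤ 5.696 + 4 log n`, and
`(log 4 + 5.696 + 4 log n) / n ≤ 3.542 + 1.472` (`log n ≤ n / e`; or `log n ≤ log 2 + n / 2 - 1`, i.e. `4 log n ≤ 4 log 2 - 4 + 2 n`, which gives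
`log 4 + 5.696 + 4 log n ≤ 5.856 + 2 n ≤ 4.928 n`).  `log (2 n) = log 2 + log n`, `log (2 k (k + 1)) ≤ log 2 + 2 log n + 2 log K + 1 / 38`,
`3 log K ≤ 3 (K / 16 + log 16 - 1) ≤ 0.1875 K + 5.318`.  Sum: `4.93 + 3 log n + 0.1875 K + 5.318 + 2 + 1.387 + 0.03 ≤ K - 1`, because `0.8125 K ≥ 15.43 + 3.25 log n`. -/
theorem hKW_num {n K c : ℕ} (hn : 2 ≤ n) (hc : 2 * c ≤ 33 * n ^ 2) (hK : 19 + 4 * Real.log n ≤ K) :
    Real.log 4 + (Real.log ((((n + c + 1) ^ 2 : ℕ)) : ℝ) + n * Real.log (2 * n)) +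
      n * Real.log (((n * K : ℕ) : ℝ) / n) + 2 * n +
      n * Real.log (2 * (n * K : ℕ) * ((n * K : ℕ) + 1)) ≤ ((n * K : ℕ) : ℝ) - n + 1 := by
  have hn2 : (2 : ℝ) ≤ n := by exact_mod_cast hn
  have hn0 : (0 : ℝ) < n := by linarith
  have hL0 : 0 ≤ Real.log n := Real.log_nonneg (by linarith)
  have hK14 : (19 : ℝ) ≤ K := by linarith
  have hK0 : (0 : ℝ) < K := by linarith
  have hc0 : (0 : ℝ) ≤ c := Nat.cast_nonneg c
  have hcR : 2 * (c : ℝ) ≤ 33 * (n : ℝ) ^ 2 := by exact_mod_cast hc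
  have hl2 := Real.log_two_lt_d9
  have hl2' := Real.log_two_gt_d9
  have h4 : Real.log 4 = 2 * Real.log 2 := by
    rw [show (4 : ℝ) = 2 ^ 2 by norm_num, Real.log_pow]
    norm_num
  have h16 : Real.log 16 = 4 * Real.log 2 := by
    rw [show (16 : ℝ) = 2 ^ 4 by norm_num, Real.log_pow]
    norm_num
  have h17 : Real.log (1725 / 100) ≤ 4 * Real.log 2 + 78125 / 1000000 := by
    have h := Real.log_le_sub_one_of_pos (show (0 : ℝ) < (1725 / 100) / 16 by norm_num)
    rw [Real.log_div (by norm_num) (by norm_num), h16] at h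
    norm_num at h ⊢
    linarith
  have h0 : Real.log ((n : ℝ) + c + 1) ≤ Real.log (1725 / 100) + 2 * Real.log n := by
    have h1 : (n : ℝ) + c + 1 ≤ 1725 / 100 * (n : ℝ) ^ 2 := by nlinarith
    have h2 := Real.log_le_log (by positivity) h1
    rw [Real.log_mul (by norm_num) (by positivity), Real.log_pow] at h2
    push_cast at h2
    exact h2
  have h1 : Real.log n ≤ Real.log 2 + (n : ℝ) / 2 - 1 := by
    have h := Real.log_le_sub_one_of_pos (show (0 : ℝ) < (n : ℝ) / 2 by positivity)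
    rw [Real.log_div (by positivity) (by norm_num)] at h
    linarith
  have h2 : Real.log K ≤ K / 16 + Real.log 16 - 1 := by
    have h := Real.log_le_sub_one_of_pos (show (0 : ℝ) < K / 16 by positivity)
    rw [Real.log_div (by positivity) (by norm_num)] at h
    linarith
  have hk0 : (0 : ℝ) < n * K := by positivity
  have hk28 : (38 : ℝ) ≤ n * K := by nlinarith
  have h3 : Real.log (n * K + 1) ≤ Real.log (n * K) + 1 / 38 := by
    have h := Real.log_le_sub_one_of_pos (show (0 : ℝ) < (n * K + 1) / (n * K) by positivity)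
    rw [Real.log_div (by positivity) (by positivity)] at h
    have h5 : ((n : ℝ) * K + 1) / (n * K) - 1 = 1 / (n * K) := by field_simp; ring
    have h6 : 1 / ((n : ℝ) * K) ≤ 1 / 38 := one_div_le_one_div_of_le (by norm_num) hk28
    linarith
  have h5 : Real.log ((n : ℝ) * K) = Real.log n + Real.log K := Real.log_mul hn0.ne' hK0.ne'
  have e1 : Real.log (2 * ((n : ℝ) * K) * (n * K + 1))
      = Real.log 2 + Real.log ((n : ℝ) * K) + Real.log (n * K + 1) := by
    rw [Real.log_mul (by positivity) (by positivity), Real.log_mul (by norm_num) hk0.ne']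
  have e2 : Real.log (2 * (n : ℝ)) = Real.log 2 + Real.log n :=
    Real.log_mul (by norm_num) hn0.ne'
  push_cast
  rw [mul_div_cancel_left₀ _ hn0.ne', e1, e2, Real.log_pow]
  have h6 : Real.log 2 + Real.log ((n : ℝ) * K) + Real.log (n * K + 1) + Real.log K + 2 + 4.94
      + (Real.log 2 + Real.log n) ≤ K - 1 := by
    linarith
  have h7 := mul_le_mul_of_nonneg_left h6 hn0.le
  have h8 : Real.log 4 + 2 * Real.log ((n : ℝ) + c + 1) ≤ 4.94 * n := by linarith
  push_cast
  linarith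

end Pool.Agent.H78W
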