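import Pool.Agent.Lib.H78W.K0

set_option autoImplicit false

/-!
CHUNK K6 of H78W (the count of H53W).  Numerics: the final condition.
-/

namespace Pool.Agent.H78W

open Pool.Agent.H53V Pool.Agent.H78N

theorem k6_key {N K : ℝ} (hN : 1 ≤ N) (hK1 : 1 ≤ K) (hK : K ≤ 20 + 4 * Real.log (2 * N)) :
    Real.log (8 * Real.exp 1 * (2 * N * K) ^ 2 * (2 * N * K + 1)) +
      Real.log (2 * (2 * N)) + Real.log (4 * Real.exp 1 * (2 * N * (2 * N * K))) / (2 * N)
      ≤ 21345 / 1000 + 475 / 100 * Real.log N ∧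
    2 * N * (2 * N * K + 1) * (9 * Real.exp 1 ^ 2 / 8) ≤
      2 * N * (2 * N * (23273 / 1000 + 4 * Real.log N)) * (83128 / 10000) := by
  have hN0 : 0 < N := by linarith
  have he0 : 0 < Real.exp 1 := Real.exp_pos 1
  have he1 := Real.exp_one_lt_d9
  have hl2 := Real.log_two_lt_d9
  have hx0 : 0 ≤ Real.log N := Real.log_nonneg hN
  have hx1 : Real.log N ≤ N - 1 := Real.log_le_sub_one_of_pos hN0
  rw [Real.log_mul (by norm_num) hN0.ne'] at hK
  set x := Real.log N with hx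
  have hK' : K ≤ 22773 / 1000 + 4 * x := by linarith
  set k := 2 * N * K with hk
  have hk2 : 2 * N ≤ k := by
    rw [hk]
    nlinarith
  have hk0 : 0 < k := by linarith
  have hk1 : k + 1 ≤ 2 * N * (23273 / 1000 + 4 * x) := by
    have h1 : 2 * N * K ≤ 2 * N * (22773 / 1000 + 4 * x) := mul_le_mul_of_nonneg_left hK' (by linarith)
    have h2 : 2 * N * (23273 / 1000 + 4 * x) = 2 * N * (22773 / 1000 + 4 * x) + N := by ring
    rw [h2]
    linarith
  have hL : Real.log (k + 1) ≤ 3921 / 1000 + 125 / 100 * x := by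
    have h1 : Real.log (k + 1) ≤ Real.log (2 * N * (23273 / 1000 + 4 * x)) := Real.log_le_log (by linarith) hk1
    have h2 : Real.log (2 * N * (23273 / 1000 + 4 * x)) = Real.log 2 + x + Real.log (23273 / 1000 + 4 * x) := by
      rw [Real.log_mul (by positivity) (by positivity), Real.log_mul (by norm_num) hN0.ne']
    have h3 : Real.log (23273 / 1000 + 4 * x) = 4 * Real.log 2 + Real.log ((23273 / 1000 + 4 * x) / 16) := by
      rw [Real.log_div (by positivity) (by norm_num)]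
      have h4 : Real.log 16 = 4 * Real.log 2 := by
        rw [show (16 : ℝ) = 2 ^ 4 by norm_num, Real.log_pow]
        norm_num
      rw [h4]
      ring
    have h5 : Real.log ((23273 / 1000 + 4 * x) / 16) ≤ (23273 / 1000 + 4 * x) / 16 - 1 :=
      Real.log_le_sub_one_of_pos (by positivity)
    rw [h2, h3] at h1
    linarith
  have ha : Real.log (8 * Real.exp 1 * k ^ 2 * (k + 1)) ≤ 14843 / 1000 + 375 / 100 * x := by
    have h1 : 8 * Real.exp 1 * k ^ 2 * (k + 1) ≤ 8 * Real.exp 1 * (k + 1) ^ 3 := by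
      have h2 : k ^ 2 * (k + 1) ≤ (k + 1) ^ 2 * (k + 1) := by
        have h3 : k ^ 2 ≤ (k + 1) ^ 2 := pow_le_pow_left₀ hk0.le (by linarith) 2
        exact mul_le_mul_of_nonneg_right h3 (by linarith)
      calc 8 * Real.exp 1 * k ^ 2 * (k + 1) = 8 * Real.exp 1 * (k ^ 2 * (k + 1)) := by ring
        _ ≤ 8 * Real.exp 1 * ((k + 1) ^ 2 * (k + 1)) := mul_le_mul_of_nonneg_left h2 (by positivity)
        _ = 8 * Real.exp 1 * (k + 1) ^ 3 := by ring
    have h4 : Real.log (8 * Real.exp 1 * (k + 1) ^ 3) = 3 * Real.log 2 + 1 + 3 * Real.log (k + 1) := by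
      rw [Real.log_mul (by positivity) (by positivity), Real.log_mul (by norm_num) he0.ne', Real.log_exp,
        Real.log_pow, show (8 : ℝ) = 2 ^ 3 by norm_num, Real.log_pow]
      push_cast
      ring
    have h5 := Real.log_le_log (by positivity) h1
    rw [h4] at h5
    linarith
  have hb : Real.log (4 * Real.exp 1 * (2 * N * k)) / (2 * N) ≤ 5115 / 1000 := by
    have h1 : 4 * Real.exp 1 * (2 * N * k) ≤ 4 * Real.exp 1 * (k + 1) ^ 2 := by
      have h2 : 2 * N * k ≤ (k + 1) ^ 2 := by nlinarith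
      exact mul_le_mul_of_nonneg_left h2 (by positivity)
    have h4 : Real.log (4 * Real.exp 1 * (k + 1) ^ 2) = 2 * Real.log 2 + 1 + 2 * Real.log (k + 1) := by
      rw [Real.log_mul (by positivity) (by positivity), Real.log_mul (by norm_num) he0.ne', Real.log_exp,
        Real.log_pow, show (4 : ℝ) = 2 ^ 2 by norm_num, Real.log_pow]
      push_cast
      ring
    have h5 := Real.log_le_log (by positivity) h1
    rw [h4] at h5
    rw [div_le_iff₀ (by positivity)]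
    linarith
  have hc : Real.log (2 * (2 * N)) ≤ 13863 / 10000 + x := by
    rw [Real.log_mul (by norm_num) (by positivity), Real.log_mul (by norm_num) hN0.ne']
    linarith
  have hE : 9 * Real.exp 1 ^ 2 / 8 ≤ 83128 / 10000 := by
    have h1 : Real.exp 1 ^ 2 ≤ (27182818286 / 10000000000) ^ 2 :=
      pow_le_pow_left₀ he0.le (by linarith) 2
    have h2 : ((27182818286 : ℝ) / 10000000000) ^ 2 ≤ 73891 / 10000 := by norm_num
    linarith
  refine ⟨by linarith, ?_⟩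
  exact mul_le_mul (mul_le_mul_of_nonneg_left hk1 (by linarith)) hE (by positivity) (by positivity)

/-- The final step, for a factor `A` and a constant `C`. -/
theorem k6_fin {N K A C a b : ℝ} (hN : 1 ≤ N) (hK1 : 1 ≤ K) (hK : K ≤ 20 + 4 * Real.log (2 * N))
    (hA : 0 ≤ A) (ha : 101 / 100 * (2 + A * (21345 / 1000)) ≤ a)
    (hb : 101 / 100 * (A * (475 / 100)) ≤ b) (ha0 : 0 ≤ a) (hb0 : 0 ≤ b)
    (hC : ∀ x : ℝ, 0 ≤ x →
      (a + b * x) * ((23273 / 1000 + 4 * x) * (332512 / 10000)) < C * (6 + x) ^ 2) :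
    101 / 100 * (2 + A * (Real.log (8 * Real.exp 1 * (2 * N * K) ^ 2 * (2 * N * K + 1)) +
      Real.log (2 * (2 * N)) + Real.log (4 * Real.exp 1 * (2 * N * (2 * N * K))) / (2 * N))) *
      (2 * N * (2 * N * K + 1) * (9 * Real.exp 1 ^ 2 / 8)) < C * N ^ 2 * (6 + Real.log N) ^ 2 := by
  obtain ⟨h1, h2⟩ := k6_key hN hK1 hK
  have hN0 : 0 < N := by linarith
  have hx0 : 0 ≤ Real.log N := Real.log_nonneg hN
  set x := Real.log N with hx
  set M := Real.log (8 * Real.exp 1 * (2 * N * K) ^ 2 * (2 * N * K + 1)) +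
      Real.log (2 * (2 * N)) + Real.log (4 * Real.exp 1 * (2 * N * (2 * N * K))) / (2 * N) with hM
  have hu : 101 / 100 * (2 + A * M) ≤ a + b * x := by
    have h3 := mul_le_mul_of_nonneg_left h1 hA
    have h4 := mul_le_mul_of_nonneg_right hb hx0
    nlinarith
  have hv0 : 0 ≤ 2 * N * (2 * N * K + 1) * (9 * Real.exp 1 ^ 2 / 8) := by positivity
  calc 101 / 100 * (2 + A * M) * (2 * N * (2 * N * K + 1) * (9 * Real.exp 1 ^ 2 / 8))
      ≤ (a + b * x) * (2 * N * (2 * N * (23273 / 1000 + 4 * x)) * (83128 / 10000)) :=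
        mul_le_mul hu h2 hv0 (by positivity)
    _ = N ^ 2 * ((a + b * x) * ((23273 / 1000 + 4 * x) * (332512 / 10000))) := by ring
    _ < N ^ 2 * (C * (6 + x) ^ 2) := mul_lt_mul_of_pos_left (hC x hx0) (by positivity)
    _ = C * N ^ 2 * (6 + x) ^ 2 := by ring

/-- As `c16_key` in H78N/C16.lean.  Let `x = log N ≥ 0`, `n = 2 N`, `k = n K`, `K ≤ 20 + 4 (log 2 + x) ≤ 22.773 + 4 x`, `k + 1 ≤ n (23.273 + 4 x)`,
`log (k + 1) ≤ log 2 + x + (log 16 + (23.273 + 4 x) / 16 - 1) ≤ 3.921 + 1.25 x`, so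
`log (8 e k ^ 2 (k + 1)) ≤ 3.0795 + 3 (3.921 + 1.25 x) ≤ 14.843 + 3.75 x`, `log (2 n) ≤ 1.3863 + x`,
`log (4 e n k) / n ≤ (2.3863 + 2 (3.921 + 1.25 x)) / (2 N) ≤ (10.229 + 2.5 x) / (2 N) ≤ 5.115` (`x ≤ N - 1`).  The sum of these three is at most `21.345 + 4.75 x`.
`9 e ^ 2 / 8 ≤ 8.3128`, `n (k + 1) (9 e ^ 2 / 8) ≤ 33.2512 N ^ 2 (23.273 + 4 x)`.
`w = 7`: `101 / 100 (2 + 28 / 3 (21.345 + 4.75 x)) ≤ 203.3 + 44.78 x`, product `≤ N ^ 2 (157325 + 61693 x + 5956 x ^ 2) < 6000 N ^ 2 (6 + x) ^ 2`. -/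
theorem finW7 {N K : ℝ} (hN : 1 ≤ N) (hK1 : 1 ≤ K) (hK : K ≤ 20 + 4 * Real.log (2 * N)) :
    101 / 100 * (2 + 28 / 3 * (Real.log (8 * Real.exp 1 * (2 * N * K) ^ 2 * (2 * N * K + 1)) +
      Real.log (2 * (2 * N)) + Real.log (4 * Real.exp 1 * (2 * N * (2 * N * K))) / (2 * N))) *
      (2 * N * (2 * N * K + 1) * (9 * Real.exp 1 ^ 2 / 8)) < 6000 * N ^ 2 * (6 + Real.log N) ^ 2 := by
  refine k6_fin (A := 28 / 3) (a := 2033 / 10) (b := 4478 / 100) hN hK1 hK (by norm_num) (by norm_num)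
    (by norm_num) (by norm_num) (by norm_num) ?_
  intro x hx
  nlinarith [mul_nonneg hx hx]

/-- The same with `8 / 3`: `101 / 100 (2 + 8 / 3 (21.345 + 4.75 x)) ≤ 59.51 + 12.8 x`, product `≤ N ^ 2 (46052 + 17821 x + 1703 x ^ 2) < 1750 N ^ 2 (6 + x) ^ 2`. -/
theorem finW2 {N K : ℝ} (hN : 1 ≤ N) (hK1 : 1 ≤ K) (hK : K ≤ 20 + 4 * Real.log (2 * N)) :
    101 / 100 * (2 + 8 / 3 * (Real.log (8 * Real.exp 1 * (2 * N * K) ^ 2 * (2 * N * K + 1)) +
      Real.log (2 * (2 * N)) + Real.log (4 * Real.exp 1 * (2 * N * (2 * N * K))) / (2 * N))) *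
      (2 * N * (2 * N * K + 1) * (9 * Real.exp 1 ^ 2 / 8)) < 1750 * N ^ 2 * (6 + Real.log N) ^ 2 := by
  refine k6_fin (A := 8 / 3) (a := 5951 / 100) (b := 128 / 10) hN hK1 hK (by norm_num) (by norm_num)
    (by norm_num) (by norm_num) (by norm_num) ?_
  intro x hx
  nlinarith [mul_nonneg hx hx]

end Pool.Agent.H78W
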