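import Pool.Agent.Lib.H78W.K1
import Pool.Agent.Lib.H78W.K2
import Pool.Agent.Lib.H78W.K3
import Pool.Agent.Lib.H78W.K4
import Pool.Agent.Lib.H78W.K5
import Pool.Agent.Lib.H78W.K6

set_option autoImplicit false

/-!
CHUNK K7 of H78W (the count of H53W).  The main theorem of the count.
-/

namespace Pool.Agent.H78W

open Pool.Agent.H53V Pool.Agent.H78N

/-- As `count_main` in H78N/C17.lean.  `n = 2 n₀`, `K = KW n₀`, `k = kW n₀ = n K ≥ 9 n`, `L = 2 n` (`D ≤ 4 n₀ e1`), `B = (n + c + 1) ^ 2`, `p0 = (0, 0)`,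
`n k zm = log (4 e n k) + n (log (8 e k^2 (k+1)) + log L)`, `τ = 8 / (9 e^2) / (n (k + 1)) ≤ 1`; by `hfin`: `101 / 100 (2 + 4 w / 3 k zm) < τ D`, choose `σ`
strictly between; `q = 100`: `101 (2 + w k (4 / 3 zm)) < 100 σ`.  `hIW_of`, `hIIW_of` (with `hKW_num`), `hmainW_of`, `countNW_of_lim`. -/
theorem countNW_main {n₀ c D e1 w : ℕ} (hn : 1 ≤ n₀) (hw : 1 ≤ w) (hc : c ≤ 66 * n₀ ^ 2)
    (hL : D ≤ 4 * n₀ * e1)
    (hfin : ∀ K : ℝ, 1 ≤ K → K ≤ 20 + 4 * Real.log (2 * (n₀ : ℝ)) →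
      101 / 100 * (2 + 4 * w / 3 * (Real.log (8 * Real.exp 1 * (2 * n₀ * K) ^ 2 * (2 * n₀ * K + 1)) +
        Real.log (2 * (2 * n₀)) +
          Real.log (4 * Real.exp 1 * (2 * n₀ * (2 * n₀ * K))) / (2 * n₀))) *
      (2 * n₀ * (2 * n₀ * K + 1) * (9 * Real.exp 1 ^ 2 / 8)) < D) :
    CountNW (2 * n₀) (kW n₀) D e1 ((2 * n₀ + c + 1) ^ 2) w 100 := by
  obtain ⟨K, hKdef⟩ : ∃ K : ℕ, K = KW n₀ := ⟨_, rfl⟩
  have hkW : kW n₀ = 2 * n₀ * K := by rw [hKdef]; rfl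
  rw [hkW]
  have hKl' : 19 + 4 * Real.log ((2 * n₀ : ℕ) : ℝ) ≤ K := by
    rw [hKdef]
    exact Nat.le_ceil _
  have hlogn' : 0 ≤ Real.log ((2 * n₀ : ℕ) : ℝ) :=
    Real.log_nonneg (by exact_mod_cast (show 1 ≤ 2 * n₀ by omega))
  have hKu' : (K : ℝ) ≤ 20 + 4 * Real.log ((2 * n₀ : ℕ) : ℝ) := by
    have h1 := Nat.ceil_lt_add_one (a := 19 + 4 * Real.log ((2 * n₀ : ℕ) : ℝ)) (by linarith)
    have h2 : (KW n₀ : ℝ) < 19 + 4 * Real.log ((2 * n₀ : ℕ) : ℝ) + 1 := h1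
    rw [← hKdef] at h2
    linarith
  have hF := hfin K (by linarith) (by push_cast at hKu'; exact hKu')
  obtain ⟨n, hn'⟩ : ∃ n, n = 2 * n₀ := ⟨_, rfl⟩
  have hnc : (2 : ℝ) * (n₀ : ℝ) = (n : ℝ) := by
    rw [hn']
    push_cast
    ring
  have hcn : 2 * c ≤ 33 * n ^ 2 := by
    have : n ^ 2 = 4 * n₀ ^ 2 := by rw [hn']; ring
    rw [this]
    omega
  have hLn : D ≤ 2 * n * e1 := by
    have : 2 * n * e1 = 4 * n₀ * e1 := by rw [hn']; ring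
    rw [this]
    exact hL
  rw [← hn'] at hKl' hKu' hlogn' ⊢
  rw [hnc] at hF
  have hn2 : 2 ≤ n := by omega
  have hnR : (2 : ℝ) ≤ n := by exact_mod_cast hn2
  have hK19 : 19 ≤ K := by
    have h1 : (19 : ℝ) ≤ K := by linarith
    exact_mod_cast h1
  have hKn := hKW_num (n := n) (K := K) (c := c) hn2 hcn hKl'
  obtain ⟨k, hk⟩ : ∃ k, k = n * K := ⟨_, rfl⟩
  have hkc : (n : ℝ) * (K : ℝ) = (k : ℝ) := by
    rw [hk]
    push_cast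
    ring
  rw [← hk] at hKn ⊢
  rw [hkc] at hF
  have hk9 : 9 * n ≤ k := by
    rw [hk, mul_comm 9 n]
    exact Nat.mul_le_mul_left n (by omega)
  have hnk : n ≤ k := by omega
  have hk1 : 1 ≤ k := by omega
  have hkR : (18 : ℝ) ≤ k := by exact_mod_cast (show 18 ≤ k by omega)
  have hE : (1 : ℝ) ≤ Real.exp 1 := Real.one_le_exp (by norm_num)
  have hn0 : (0 : ℝ) < n := by linarith
  have hk0 : (0 : ℝ) < k := by linarith
  have hw0 : (0 : ℝ) ≤ w := Nat.cast_nonneg w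
  have hlA : 0 < Real.log (4 * Real.exp 1 * ((n : ℝ) * k)) := by
    apply Real.log_pos
    nlinarith [mul_pos hn0 hk0]
  have hlB : 0 ≤ Real.log (8 * Real.exp 1 * (k : ℝ) ^ 2 * ((k : ℝ) + 1)) := by
    apply Real.log_nonneg
    have h1 : (1 : ℝ) ≤ (k : ℝ) ^ 2 := one_le_pow₀ (by linarith)
    have h2 : (1 : ℝ) ≤ 8 * Real.exp 1 := by linarith
    have h3 : (1 : ℝ) ≤ 8 * Real.exp 1 * (k : ℝ) ^ 2 := one_le_mul_of_one_le_of_one_le h2 h1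
    exact one_le_mul_of_one_le_of_one_le h3 (by linarith)
  have hlC : 0 ≤ Real.log (2 * (n : ℝ)) := Real.log_nonneg (by linarith)
  obtain ⟨Lb, hLb⟩ : ∃ Lb : ℝ, Lb = Real.log (8 * Real.exp 1 * (k : ℝ) ^ 2 * ((k : ℝ) + 1)) +
      Real.log (2 * (n : ℝ)) := ⟨_, rfl⟩
  have hLb0 : 0 ≤ Lb := by rw [hLb]; linarith
  obtain ⟨zm, hzdef⟩ : ∃ zm : ℝ, zm = (Real.log (4 * Real.exp 1 * ((n : ℝ) * k)) +
      n * Lb) / (n * k) := ⟨_, rfl⟩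
  have hzm : 0 < zm := by
    rw [hzdef]
    have : 0 ≤ n * Lb := mul_nonneg hn0.le hLb0
    positivity
  have hz : (n : ℝ) * k * zm = Real.log (4 * Real.exp 1 * ((n : ℝ) * k)) + n * Lb := by
    rw [hzdef, mul_div_cancel₀ _ (mul_pos hn0 hk0).ne']
  have hkz : (k : ℝ) * zm = Lb + Real.log (4 * Real.exp 1 * ((n : ℝ) * k)) / n := by
    have h1 : (n : ℝ) * (k * zm) = n * (Lb + Real.log (4 * Real.exp 1 * ((n : ℝ) * k)) / n) := by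
      have hdiv : ∀ La Lb : ℝ, (n : ℝ) * (Lb + La / n) = La + n * Lb := fun La Lb => by
        rw [mul_add, mul_div_cancel₀ _ hn0.ne']
        ring
      rw [← mul_assoc, hz, hdiv]
    exact mul_left_cancel₀ hn0.ne' h1
  rw [← hLb, ← hkz] at hF
  obtain ⟨τ, hτdef⟩ : ∃ τ : ℝ, τ = 8 / (9 * Real.exp 1 ^ 2) / ((n : ℝ) * ((k : ℝ) + 1)) := ⟨_, rfl⟩
  have hτ : 0 < τ := by
    rw [hτdef]
    positivity
  have hinv : τ * ((n : ℝ) * ((k : ℝ) + 1) * (9 * Real.exp 1 ^ 2 / 8)) = 1 := by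
    rw [hτdef]
    field_simp
  have hD1 : 1 ≤ (n : ℝ) * ((k : ℝ) + 1) * (9 * Real.exp 1 ^ 2 / 8) := by
    have h1 : (1 : ℝ) ≤ Real.exp 1 ^ 2 := one_le_pow₀ hE
    have h2 : (1 : ℝ) ≤ 9 * Real.exp 1 ^ 2 / 8 := by linarith
    have h3 : (1 : ℝ) ≤ (n : ℝ) * ((k : ℝ) + 1) := by nlinarith
    exact one_le_mul_of_one_le_of_one_le h3 h2
  have hτ1 : τ ≤ 1 := by
    calc τ = τ * 1 := (mul_one _).symm
      _ ≤ τ * ((n : ℝ) * ((k : ℝ) + 1) * (9 * Real.exp 1 ^ 2 / 8)) := mul_le_mul_of_nonneg_left hD1 hτ.le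
      _ = 1 := hinv
  have hkzp : 0 < (k : ℝ) * zm := mul_pos hk0 hzm
  have hG0 : 0 < 101 / 100 * (2 + 4 * w / 3 * ((k : ℝ) * zm)) := by positivity
  have hgap : 101 / 100 * (2 + 4 * w / 3 * ((k : ℝ) * zm)) < τ * D := by
    have h1 := mul_lt_mul_of_pos_left hF hτ
    have h2 : τ * (101 / 100 * (2 + 4 * w / 3 * ((k : ℝ) * zm)) *
        ((n : ℝ) * ((k : ℝ) + 1) * (9 * Real.exp 1 ^ 2 / 8))) =
        101 / 100 * (2 + 4 * w / 3 * ((k : ℝ) * zm)) := by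
      calc _ = 101 / 100 * (2 + 4 * w / 3 * ((k : ℝ) * zm)) *
          (τ * ((n : ℝ) * ((k : ℝ) + 1) * (9 * Real.exp 1 ^ 2 / 8))) := by ring
        _ = _ := by rw [hinv, mul_one]
    rwa [h2] at h1
  have hD : 1 ≤ D := by
    have h1 : 0 < (D : ℝ) := lt_of_le_of_lt (by positivity) hF
    exact_mod_cast h1
  obtain ⟨σ, hσ1, hσ2⟩ := exists_between hgap
  have hσ : 0 < σ := by linarith
  have hB1 : 1 ≤ (n + c + 1) ^ 2 := Nat.one_le_pow _ _ (by omega)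
  have hBR : (1 : ℝ) ≤ (((n + c + 1) ^ 2 : ℕ) : ℝ) := by exact_mod_cast hB1
  have hL1 : (1 : ℝ) ≤ 2 * (n : ℝ) := by linarith
  have hLR : (D : ℝ) ≤ 2 * (n : ℝ) * e1 := by exact_mod_cast hLn
  let p0 : Fin n × Fin k := (⟨0, by omega⟩, ⟨0, by omega⟩)
  have hI := hIW_of (n := n) (k := k) (L := 2 * (n : ℝ)) (by omega) hk1 hL1 p0 rfl (zm := zm)
    (by rw [hz, hLb])
  have hII := hIIW_of (n := n) (k := k) (B := (((n + c + 1) ^ 2 : ℕ) : ℝ)) (L := 2 * (n : ℝ))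
    hn2 hk9 hBR hL1 (τ := τ) hτdef hKn
  have hmain := hmainW_of (n := n) (k := k) (D := D) (e1 := e1) (B := (n + c + 1) ^ 2)
    (L := 2 * (n : ℝ)) hn2 hnk hD hB1 hL1 hLR p0 hσ hτ hσ2 hτ1 hI hII
  refine countNW_of_lim (n := n) (k := k) (D := D) (e1 := e1) (w := w) (q := 100) hn2 hnk p0
    hσ hτ hzm hσ2 ?_ hmain
  push_cast
  linarith

theorem countNW_7 {n₀ c D e1 : ℕ} (hn : 1 ≤ n₀) (hc : c ≤ 66 * n₀ ^ 2) (hL : D ≤ 4 * n₀ * e1)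
    (hD : 6000 * (n₀ : ℝ) ^ 2 * (6 + Real.log n₀) ^ 2 ≤ D) :
    CountNW (2 * n₀) (kW n₀) D e1 ((2 * n₀ + c + 1) ^ 2) 7 100 := by
  refine countNW_main hn (by norm_num) hc hL (fun K h1 h2 => ?_)
  have h3 := finW7 (N := (n₀ : ℝ)) (by exact_mod_cast hn) h1 h2
  have e : (4 : ℝ) * ((7 : ℕ) : ℝ) / 3 = 28 / 3 := by norm_num
  rw [e]
  exact h3.trans_le hD

theorem countNW_2 {n₀ c D e1 : ℕ} (hn : 1 ≤ n₀) (hc : c ≤ 66 * n₀ ^ 2) (hL : D ≤ 4 * n₀ * e1)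
    (hD : 1750 * (n₀ : ℝ) ^ 2 * (6 + Real.log n₀) ^ 2 ≤ D) :
    CountNW (2 * n₀) (kW n₀) D e1 ((2 * n₀ + c + 1) ^ 2) 2 100 := by
  refine countNW_main hn (by norm_num) hc hL (fun K h1 h2 => ?_)
  have h3 := finW2 (N := (n₀ : ℝ)) (by exact_mod_cast hn) h1 h2
  have e : (4 : ℝ) * ((2 : ℕ) : ℝ) / 3 = 8 / 3 := by norm_num
  rw [e]
  exact h3.trans_le hD

end Pool.Agent.H78W
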