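import Pool.Agent.Lib.H78W.F1
import Pool.Agent.Lib.H78W.F2
import Pool.Agent.Lib.H78W.K7
import Pool.Agent.Lib.H78W.X8
import Pool.Agent.Lib.H78W.Y5
import Pool.Agent.Lib.H78M.G31
import Pool.Agent.Lib.H53V.NMain
import Pool.Agent.Lib.H53U.RFinal

set_option autoImplicit false

/-!
CHUNK F3 of H78W (H53W).  The two main cases.
-/

open MvPolynomial

namespace Pool.Agent.H78W

open Pool.Agent.H89T Pool.Agent.H67T Pool.Agent.H53U Pool.Agent.H78M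

theorem f3_KW (n : ℕ) (hn : 1 ≤ n) : 19 ≤ KW n := by
  unfold KW
  have h1 : (0 : ℝ) ≤ Real.log ((2 * n : ℕ) : ℝ) := Real.log_natCast_nonneg _
  have h2 : ((19 : ℕ) : ℝ) ≤ ⌈19 + 4 * Real.log ((2 * n : ℕ) : ℝ)⌉₊ := by
    refine le_trans ?_ (Nat.le_ceil _)
    push_cast at h1 ⊢
    linarith
  exact_mod_cast h2

theorem f3_kW (n : ℕ) (hn : 1 ≤ n) : 2 * n * 19 ≤ kW n :=
  Nat.mul_le_mul_left _ (f3_KW n hn)

theorem f3_big {n D : ℕ} {C : ℝ} (hC : 128 ≤ 36 * C) (hn : 1 ≤ n)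
    (hD : C * (n : ℝ) ^ 2 * (6 + Real.log n) ^ 2 ≤ (D : ℝ)) : 128 * n ^ 2 ≤ D := by
  have h1 : (0 : ℝ) ≤ Real.log (n : ℝ) := Real.log_natCast_nonneg _
  have h2 : (36 : ℝ) ≤ (6 + Real.log n) ^ 2 := by nlinarith
  have h3 : (0 : ℝ) ≤ (n : ℝ) ^ 2 := by positivity
  have hC0 : 0 ≤ C := by linarith
  have h4 : C * (n : ℝ) ^ 2 * 36 ≤ C * (n : ℝ) ^ 2 * (6 + Real.log n) ^ 2 :=
    mul_le_mul_of_nonneg_left h2 (mul_nonneg hC0 h3)
  have h5 : (128 : ℝ) * (n : ℝ) ^ 2 ≤ (36 * C) * (n : ℝ) ^ 2 := mul_le_mul_of_nonneg_right hC h3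
  have h6 : ((128 * n ^ 2 : ℕ) : ℝ) ≤ (D : ℝ) := by
    push_cast
    linarith
  exact_mod_cast h6

/-- All degrees at least `2`, many equations.  `hA` is the existence theorem of module A.  If the condition of `final3` holds use it.  Otherwise `exists_large`,
`countNW_7`, `propVW_of_count`, `algKW_of_propVW`, `ptdU_of_algKW` (dimension `2 n`, `k = kW n`), `NoReg (2 n) r d` for `2 r < kW n` by `noReg` (`2 n + r < c`), `hypU_of_ptdU`. -/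
theorem caseOne (hA : ∀ (n k c : ℕ) (d : Fin c → ℕ) (j1 : Fin c), 1 ≤ n → n ≤ k → (∀ j, 2 ≤ d j) →
      DimVW n k d j1)
    {n c : ℕ} (hn : 1 ≤ n) {d : Fin c → ℕ} (hd : ∀ j, 2 ≤ d j) (hc : 4 * n + kW n < 2 * c)
    (hD : 6000 * (n : ℝ) ^ 2 * (6 + Real.log n) ^ 2 ≤ ((∑ j, (d j - 1) : ℕ) : ℝ)) :
    HypU (n + c) d := by
  by_cases hS : ∀ K : Finset (Fin c), K.card < 2 * n → 64 * n ^ 2 ≤ ∑ j ∈ Kᶜ, (d j - 1)
  · exact (H53U.final3 n hn).1 c d hd hS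
  have hd1 : ∀ j, 1 ≤ d j := fun j => le_trans (by norm_num) (hd j)
  obtain ⟨hc66, j1, hj1⟩ := exists_large hn hd (f3_big (by norm_num) hn hD) hS
  have hk := f3_kW n hn
  have h1 := countNW_7 hn hc66 hj1 hD
  have h2 := propVW_of_count (n := 2 * n) (by omega) hd
    (hA (2 * n) (kW n) c d j1 (by omega) (by omega) hd) h1
  have h3 := algKW_of_propVW (by omega) hd h2
  have h4 := ptdU_of_algKW (by omega) (by omega) hd1 h3
    (fun r hr hr2 => noReg hr (by omega) hd)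
  rw [two_mul] at h4
  exact hypU_of_ptdU hd1 h4

/-- All degrees at least `kW n`: `final3` or `exists_large`, `countNW_2`, `propV_of_count`, `H78M.algK_of_propV` (`J = univ`), `H53V.ptdU_of_algK`, `hypU_of_ptdU`. -/
theorem caseLarge (hA : ∀ (n k c : ℕ) (d : Fin c → ℕ) (j1 : Fin c), 1 ≤ n → n ≤ k → (∀ j, 2 ≤ d j) →
      DimVW n k d j1)
    {n c : ℕ} (hn : 1 ≤ n) {d : Fin c → ℕ} (hd : ∀ j, kW n ≤ d j)
    (hD : 1750 * (n : ℝ) ^ 2 * (6 + Real.log n) ^ 2 ≤ ((∑ j, (d j - 1) : ℕ) : ℝ)) :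
    HypU (n + c) d := by
  have hk := f3_kW n hn
  have hd2 : ∀ j, 2 ≤ d j := fun j => le_trans (by omega) (hd j)
  by_cases hS : ∀ K : Finset (Fin c), K.card < 2 * n → 64 * n ^ 2 ≤ ∑ j ∈ Kᶜ, (d j - 1)
  · exact (H53U.final3 n hn).1 c d hd2 hS
  have hd1 : ∀ j, 1 ≤ d j := fun j => le_trans (by norm_num) (hd2 j)
  obtain ⟨hc66, j1, hj1⟩ := exists_large hn hd2 (f3_big (by norm_num) hn hD) hS
  have h1 := countNW_2 hn hc66 hj1 hD
  have h2 := propV_of_count (n := 2 * n) (by omega) hd2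
    (hA (2 * n) (kW n) c d j1 (by omega) (by omega) hd2) h1
  have h3 := H78M.algK_of_propV (by omega) (fun j _ => hd j) h2
  have h4 := H53V.ptdU_of_algK (by omega) (by omega) hd1 h3
  rw [two_mul] at h4
  exact hypU_of_ptdU hd1 h4

end Pool.Agent.H78W
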