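import Pool.Agent.Lib.H78W.F3
import Pool.Agent.Lib.H78W.K9

set_option autoImplicit false

/-!
CHUNK F4 of H78W (H53W).  Theorem W.
-/

open MvPolynomial

namespace Pool.Agent.H78W

open Pool.Agent.H89T Pool.Agent.H67T Pool.Agent.H53U Pool.Agent.H78M

/-- Few equations: `S = {j : d j < kW (n + c)}`, `e` the increasing enumeration of the complement (`Finset.orderEmbOfFin`), `c' = #Sᶜ`, `n' = n + #S`, `n' + c' = n + c`.
`∑_{Sᶜ} (d j - 1) ≥ D - c kW (n + c) ≥ 1750 (n + c) ^ 2 (6 + log (n + c)) ^ 2 ≥ 1750 n' ^ 2 (6 + log n') ^ 2` (`caseTwo_num`), `d (e j) ≥ kW (n + c) ≥ kW n'` (`kW_mono`); `caseLarge`,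
`hypU_of_sub`. -/
theorem caseTwo (hA : ∀ (n k c : ℕ) (d : Fin c → ℕ) (j1 : Fin c), 1 ≤ n → n ≤ k → (∀ j, 2 ≤ d j) →
      DimVW n k d j1)
    {n c : ℕ} (hn : 1 ≤ n) {d : Fin c → ℕ} (hd : ∀ j, 2 ≤ d j) (hc : 2 * c ≤ 4 * n + kW n)
    (hD : 90000 * (n : ℝ) ^ 2 * (6 + Real.log n) ^ 4 ≤ ((∑ j, (d j - 1) : ℕ) : ℝ)) :
    HypU (n + c) d := by
  classical
  obtain ⟨S, hS⟩ : ∃ S : Finset (Fin c), S = Finset.univ.filter fun j => d j < kW (n + c) := ⟨_, rfl⟩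
  obtain ⟨T, hT⟩ : ∃ T : Finset (Fin c), T = Sᶜ := ⟨_, rfl⟩
  have hST : S.card + T.card = c := by
    rw [hT, Finset.card_add_card_compl, Fintype.card_fin]
  let e : Fin T.card → Fin c := fun i => (T.equivFin.symm i : Fin c)
  have he : Function.Injective e := fun i i' h => T.equivFin.symm.injective (Subtype.ext h)
  have heT : ∀ i, kW (n + c) ≤ d (e i) := by
    intro i
    have h1 : e i ∈ T := (T.equivFin.symm i).2
    rw [hT, Finset.mem_compl, hS, Finset.mem_filter] at h1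
    by_contra h2
    exact h1 ⟨Finset.mem_univ _, by omega⟩
  have hsum : ∑ i, (d (e i) - 1) = ∑ j ∈ T, (d j - 1) := by
    rw [← Finset.sum_coe_sort T fun j => d j - 1]
    exact Equiv.sum_comp T.equivFin.symm fun x : T => d (x : Fin c) - 1
  have hsplit : ∑ j ∈ S, (d j - 1) + ∑ j ∈ T, (d j - 1) = ∑ j, (d j - 1) := by
    rw [hT]
    exact Finset.sum_add_sum_compl S _
  have hSle : ∑ j ∈ S, (d j - 1) ≤ c * kW (n + c) := by
    calc ∑ j ∈ S, (d j - 1) ≤ ∑ _j ∈ S, kW (n + c) := by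
          refine Finset.sum_le_sum fun j hj => ?_
          rw [hS, Finset.mem_filter] at hj
          have := hj.2
          omega
      _ = S.card * kW (n + c) := by rw [Finset.sum_const, smul_eq_mul]
      _ ≤ c * kW (n + c) := Nat.mul_le_mul_right _ (by omega)
  have hnum := caseTwo_num (n := n) (c := c) hn hc
  have hTD : 1750 * ((n + c : ℕ) : ℝ) ^ 2 * (6 + Real.log ((n + c : ℕ) : ℝ)) ^ 2 ≤
      ((∑ j ∈ T, (d j - 1) : ℕ) : ℝ) := by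
    have h1 : ((∑ j, (d j - 1) : ℕ) : ℝ) = ((∑ j ∈ S, (d j - 1) : ℕ) : ℝ) + ((∑ j ∈ T, (d j - 1) : ℕ) : ℝ) := by
      rw [← hsplit]
      exact Nat.cast_add _ _
    have h2 : ((∑ j ∈ S, (d j - 1) : ℕ) : ℝ) ≤ (c : ℝ) * (kW (n + c) : ℝ) := by
      exact_mod_cast hSle
    linarith
  obtain ⟨n', hn'⟩ : ∃ n' : ℕ, n' = n + S.card := ⟨_, rfl⟩
  have hn'1 : 1 ≤ n' := by omega
  have hn'c : n' ≤ n + c := by omega
  have hN : n' + T.card = n + c := by omega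
  have hle : 1750 * (n' : ℝ) ^ 2 * (6 + Real.log n') ^ 2 ≤
      1750 * ((n + c : ℕ) : ℝ) ^ 2 * (6 + Real.log ((n + c : ℕ) : ℝ)) ^ 2 := by
    have h1 : (1 : ℝ) ≤ n' := by exact_mod_cast hn'1
    have h2 : (n' : ℝ) ≤ ((n + c : ℕ) : ℝ) := by exact_mod_cast hn'c
    have h3 : 0 ≤ Real.log n' := Real.log_nonneg h1
    have h4 : Real.log n' ≤ Real.log ((n + c : ℕ) : ℝ) := Real.log_le_log (by linarith) h2
    gcongr
  have hL : HypU (n' + T.card) fun i => d (e i) := by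
    refine caseLarge hA hn'1 (fun i => (kW_mono hn'c).trans (heT i)) ?_
    rw [hsum]
    exact hle.trans hTD
  rw [hN] at hL
  exact hypU_of_sub e he hL

/-- THEOREM W: all types. -/
theorem theoremW (hA : ∀ (n k c : ℕ) (d : Fin c → ℕ) (j1 : Fin c), 1 ≤ n → n ≤ k → (∀ j, 2 ≤ d j) →
      DimVW n k d j1)
    {n c : ℕ} (hn : 1 ≤ n) {d : Fin c → ℕ} (hd : ∀ j, 2 ≤ d j)
    (h : 90000 * (n : ℝ) ^ 2 * (6 + Real.log n) ^ 4 ≤ ∑ j, ((d j : ℝ) - 1) ∨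
      (6000 * (n : ℝ) ^ 2 * (6 + Real.log n) ^ 2 ≤ ∑ j, ((d j : ℝ) - 1) ∧
        4 * n + 8 * n * (6 + Real.log n) < 2 * (c : ℝ)) ∨
      (1750 * (n : ℝ) ^ 2 * (6 + Real.log n) ^ 2 ≤ ∑ j, ((d j : ℝ) - 1) ∧
        ∀ j, 8 * (n : ℝ) * (6 + Real.log n) ≤ d j)) :
    HypU (n + c) d := by
  have hn0 : (1 : ℝ) ≤ n := by exact_mod_cast hn
  have hlog : 0 ≤ Real.log n := Real.log_nonneg hn0
  have hcast : ∑ j, ((d j : ℝ) - 1) = ((∑ j, (d j - 1) : ℕ) : ℝ) := by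
    rw [Nat.cast_sum]
    refine Finset.sum_congr rfl fun j _ => ?_
    rw [Nat.cast_sub (le_trans (by omega) (hd j)), Nat.cast_one]
  rw [hcast] at h
  have hk := kW_le hn
  rcases h with h | ⟨h, hc⟩ | ⟨h, hdj⟩
  · by_cases hc : 4 * n + kW n < 2 * c
    · refine caseOne hA hn hd hc (le_trans ?_ h)
      have h1 : (1 : ℝ) ≤ (6 + Real.log n) ^ 2 := by nlinarith
      have h2 : 0 ≤ (n : ℝ) ^ 2 * (6 + Real.log n) ^ 2 := by positivity
      have h3 : (n : ℝ) ^ 2 * (6 + Real.log n) ^ 2 * 1 ≤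
          (n : ℝ) ^ 2 * (6 + Real.log n) ^ 2 * (6 + Real.log n) ^ 2 := mul_le_mul_of_nonneg_left h1 h2
      calc 6000 * (n : ℝ) ^ 2 * (6 + Real.log n) ^ 2 = 6000 * ((n : ℝ) ^ 2 * (6 + Real.log n) ^ 2 * 1) := by ring
        _ ≤ 6000 * ((n : ℝ) ^ 2 * (6 + Real.log n) ^ 2 * (6 + Real.log n) ^ 2) := by linarith
        _ ≤ 90000 * ((n : ℝ) ^ 2 * (6 + Real.log n) ^ 2 * (6 + Real.log n) ^ 2) := by nlinarith
        _ = 90000 * (n : ℝ) ^ 2 * (6 + Real.log n) ^ 4 := by ring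
    · exact caseTwo hA hn hd (by omega) h
  · refine caseOne hA hn hd ?_ h
    have h1 : ((4 * n + kW n : ℕ) : ℝ) < ((2 * c : ℕ) : ℝ) := by
      push_cast
      linarith
    exact_mod_cast h1
  · refine caseLarge hA hn (fun j => ?_) h
    have h1 : (kW n : ℝ) ≤ (d j : ℝ) := hk.trans (hdj j)
    exact_mod_cast h1

end Pool.Agent.H78W
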