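import Pool.Agent.Lib.H78N.C17

set_option autoImplicit false

/-!
CHUNK K0 of H78W (the count of H53W).  Definitions.
-/

namespace Pool.Agent.H78W

open Pool.Agent.H53V Pool.Agent.H78N

/-- The conclusion of the count (for `q` and all `A0`), cost `w k` per move, `D = ∑ (d_j - 1)`, `e1` the largest of the `d_j - 1`,
`B = (n + c + 1) ^ 2`. -/
def CountNW (n k D e1 B w q : ℕ) : Prop :=
  ∀ A0 : ℕ, ∃ m s t μ : ℕ, s + (n + 2) * D ≤ D * t ∧ (q + 1) * (A0 + 2 * m + w * k * μ) + 1 ≤ q * s ∧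
    tau (Fin n) k m μ * (A0 + 2 * m * D + n).choose n +
      B * badN n k m t * (A0 + s + D * m + n).choose n < e1 ^ n * goodN n k m t

/-- The number `K`, for `n = 2 n₀`. -/
noncomputable def KW (n₀ : ℕ) : ℕ := ⌈19 + 4 * Real.log ((2 * n₀ : ℕ) : ℝ)⌉₊

/-- The order of the jets. -/
noncomputable def kW (n₀ : ℕ) : ℕ := 2 * n₀ * KW n₀

end Pool.Agent.H78W
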