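import Pool.Agent.Lib.H78W.K0

set_option autoImplicit false

/-!
CHUNK K1 of H78W (the count of H53W).  The limit theorem.
-/

open Filter Topology

namespace Pool.Agent.H78W

open Pool.Agent.H53V Pool.Agent.H78N

/-- As `countN_of_lim` in H78N/C11.lean (the same proof with `e` replaced by `D`, the factor `(n + 2) ^ 2` by `B`, `e ^ n` by `e1 ^ n`, `2 k μ` by `w k μ`):
`s = ⌈σ m⌉₊`, `t = ⌈τ m⌉₊`, `μ = ⌈4 / 3 * zm * m⌉₊`, `f1_lim D A0`, `f2_lim n k D A0`, `f3_lim`. -/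
theorem countNW_of_lim {n k D e1 B w q : ℕ} (hn : 2 ≤ n) (hk : n ≤ k) (p0 : Fin n × Fin k)
    {σ τ zm : ℝ} (hσ : 0 < σ) (hτ : 0 < τ) (hzm : 0 < zm) (hστ : σ < τ * D)
    (hσ1 : ((q : ℝ) + 1) * (2 + w * k * (4 / 3 * zm)) < q * σ)
    (hmain : T0 p0 ((n : ℝ) * k) zm * ((2 * (D : ℝ)) ^ n / n.factorial) +
      B * (k.choose (n - 1) * (τ ^ (k - n + 1) * (k : ℝ) ^ (k - n + 1)) /
        ((n * k - (k - n + 1) - 1).factorial * FF (Fin n) k * (k - n + 1).factorial) *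
        ((σ + D) ^ n / n.factorial)) <
      (e1 : ℝ) ^ n * ((1 / (n * k + n - 1).factorial -
        k.choose (n - 1) * (τ ^ (k - n + 1) * (k : ℝ) ^ (k - n + 1)) /
          ((n * k + n - 1 - (k - n + 1)).factorial * (k - n + 1).factorial)) /
        (FF (Fin n) k * PiN n k))) :
    CountNW n k D e1 B w q := by
  intro A0
  have hz : 0 < 4 / 3 * zm := by positivity
  have L1 := f1_lim D A0 p0 zm
  have L2 := f2_lim n k D A0 hσ.le hτ.le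
  have L3 := f3_lim n k hτ.le
  simp only [one_pow, mul_one] at L2 L3
  have L4 := (L1.add (L2.const_mul ((B : ℝ)))).eventually_lt (L3.const_mul ((e1 : ℝ) ^ n)) hmain
  -- the first two inequalities
  have A1 : ∀ᶠ m : ℕ in atTop, ((⌈σ * m⌉₊ : ℝ) + ((n : ℝ) + 2) * D) / m < D * (((⌈τ * m⌉₊ : ℝ) + 0) / m) :=
    (ceil_lim hσ.le (((n : ℝ) + 2) * D)).eventually_lt ((ceil_lim hτ.le 0).const_mul (D : ℝ)) (by rw [mul_comm]; exact hστ)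
  have A2 : ∀ᶠ m : ℕ in atTop, ((q : ℝ) + 1) * (((A0 : ℝ) + 1 + 2 * m) / m + w * k * (((⌈4 / 3 * zm * m⌉₊ : ℝ) + 0) / m)) <
      q * (((⌈σ * m⌉₊ : ℝ) + 0) / m) :=
    (((lin_lim ((A0 : ℝ) + 1) 2).add ((ceil_lim hz.le 0).const_mul (w * (k : ℝ)))).const_mul ((q : ℝ) + 1)).eventually_lt
      ((ceil_lim hσ.le 0).const_mul (q : ℝ)) hσ1
  obtain ⟨m, hm1, h1, h2, h3⟩ := ((eventually_ge_atTop 1).and (A1.and (A2.and L4))).exists
  have hm0 : (0 : ℝ) < m := by exact_mod_cast hm1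
  refine ⟨m, ⌈σ * m⌉₊, ⌈τ * m⌉₊, ⌈4 / 3 * zm * m⌉₊, ?_, ?_, ?_⟩
  · rw [← mul_div_assoc, div_lt_div_iff_of_pos_right hm0, add_zero] at h1
    have h4 : ((⌈σ * m⌉₊ + (n + 2) * D : ℕ) : ℝ) ≤ ((D * ⌈τ * m⌉₊ : ℕ) : ℝ) := by
      push_cast
      exact h1.le
    exact_mod_cast h4
  · have h5 : ((q : ℝ) + 1) * (((A0 : ℝ) + 1 + 2 * m) + w * k * (⌈4 / 3 * zm * m⌉₊ : ℝ)) < q * (⌈σ * m⌉₊ : ℝ) := by
      have h6 := mul_lt_mul_of_pos_right h2 hm0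
      calc ((q : ℝ) + 1) * (((A0 : ℝ) + 1 + 2 * m) + w * k * (⌈4 / 3 * zm * m⌉₊ : ℝ))
          = ((q : ℝ) + 1) * (((A0 : ℝ) + 1 + 2 * m) / m + w * k * (((⌈4 / 3 * zm * m⌉₊ : ℝ) + 0) / m)) * m := by
            field_simp
            ring
        _ < q * (((⌈σ * m⌉₊ : ℝ) + 0) / m) * m := h6
        _ = q * (⌈σ * m⌉₊ : ℝ) := by
            field_simp
            ring
    have h7 : (q + 1) * (A0 + 1 + 2 * m + w * k * ⌈4 / 3 * zm * m⌉₊) < q * ⌈σ * m⌉₊ := by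
      exact_mod_cast h5
    nlinarith [h7]
  · have h8 := mul_lt_mul_of_pos_right h3 (pow_pos hm0 (n * k + n - 1))
    have g1 := f1_le (by omega) (by omega) D A0 p0 zm hm1
    have g2 := f2_le hn hk D A0 σ τ hm1
    have g3 := f3_ge hn hk τ hm1
    have h9 : (tau (Fin n) k m ⌈4 / 3 * zm * m⌉₊ : ℝ) * ((A0 + 2 * m * D + n).choose n : ℝ) +
        (B : ℝ) * ((badN n k m ⌈τ * m⌉₊ : ℝ) * ((A0 + ⌈σ * m⌉₊ + D * m + n).choose n : ℝ)) <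
        (e1 : ℝ) ^ n * (goodN n k m ⌈τ * m⌉₊ : ℝ) := by
      calc (tau (Fin n) k m ⌈4 / 3 * zm * m⌉₊ : ℝ) * ((A0 + 2 * m * D + n).choose n : ℝ) +
        (B : ℝ) * ((badN n k m ⌈τ * m⌉₊ : ℝ) * ((A0 + ⌈σ * m⌉₊ + D * m + n).choose n : ℝ))
          ≤ f1 D A0 p0 zm m * (m : ℝ) ^ (n * k + n - 1) +
            (B : ℝ) * (f2 n k D A0 σ τ m * (m : ℝ) ^ (n * k + n - 1)) :=
            add_le_add g1 (mul_le_mul_of_nonneg_left g2 (by positivity))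
        _ = (f1 D A0 p0 zm m + (B : ℝ) * f2 n k D A0 σ τ m) * (m : ℝ) ^ (n * k + n - 1) := by ring
        _ < (e1 : ℝ) ^ n * f3 n k τ m * (m : ℝ) ^ (n * k + n - 1) := h8
        _ = (e1 : ℝ) ^ n * (f3 n k τ m * (m : ℝ) ^ (n * k + n - 1)) := by ring
        _ ≤ _ := mul_le_mul_of_nonneg_left g3 (by positivity)
    have h10 : tau (Fin n) k m ⌈4 / 3 * zm * m⌉₊ * (A0 + 2 * m * D + n).choose n +
        B * (badN n k m ⌈τ * m⌉₊ * (A0 + ⌈σ * m⌉₊ + D * m + n).choose n) <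
        e1 ^ n * goodN n k m ⌈τ * m⌉₊ := by
      exact_mod_cast h9
    rw [← mul_assoc] at h10
    exact h10

end Pool.Agent.H78W
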