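import Pool.Agent.Lib.H78W.D0

set_option autoImplicit false

/-!
CHUNK W1 of H78W (moves for small degrees, PROOF.md).  The degree `YD` in the jets of one more variable.
-/

open MvPolynomial

namespace Pool.Agent.H78W

open Pool.Agent.H89T Pool.Agent.H67T Pool.Agent.H53U Pool.Agent.H78M

variable {N k c : ℕ} {d : Fin c → ℕ} {R S : MvPolynomial (JV (N + 1) k ⊕ CI N d) ℂ} {M M' : ℕ}

theorem w1_add (μ ν : (JV (N + 1) k ⊕ CI N d) →₀ ℕ) :
    ∑ p : JV (N + 1) k, (μ + ν) (Sum.inl p) =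
      ∑ p : JV (N + 1) k, μ (Sum.inl p) + ∑ p : JV (N + 1) k, ν (Sum.inl p) := by
  rw [← Finset.sum_add_distrib]
  exact Finset.sum_congr rfl fun p _ => Finsupp.add_apply μ ν _

theorem w1_iff : YD M R ↔ ∀ μ, coeff μ R ≠ 0 → ∑ p : JV (N + 1) k, μ (Sum.inl p) ≤ M :=
  ⟨fun h μ hμ => h μ (mem_support_iff.2 hμ), fun h μ hμ => h μ (mem_support_iff.1 hμ)⟩

theorem w1_monomial {μ : (JV (N + 1) k ⊕ CI N d) →₀ ℕ} (t : ℂ)
    (h : ∑ p : JV (N + 1) k, μ (Sum.inl p) ≤ M) : YD M (monomial μ t) := by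
  classical
  rw [w1_iff]
  intro ν hν
  rw [coeff_monomial] at hν
  by_cases e : μ = ν
  · rw [← e]; exact h
  · rw [if_neg e] at hν; exact absurd rfl hν

theorem w1_single_inl (p : JV (N + 1) k) :
    ∑ q : JV (N + 1) k, (Finsupp.single (Sum.inl p : JV (N + 1) k ⊕ CI N d) 1) (Sum.inl q) = 1 := by
  classical
  rw [Finset.sum_eq_single p]
  · rw [Finsupp.single_eq_same]
  · intro b _ hb
    rw [Finsupp.single_apply, if_neg fun e => hb (Sum.inl.inj e).symm]
  · intro h; exact absurd (Finset.mem_univ p) h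

theorem w1_single_inr (p : CI N d) :
    ∑ q : JV (N + 1) k, (Finsupp.single (Sum.inr p : JV (N + 1) k ⊕ CI N d) 1) (Sum.inl q) = 0 := by
  classical
  refine Finset.sum_eq_zero fun q _ => ?_
  rw [Finsupp.single_apply, if_neg (by simp)]

theorem YD_C (t : ℂ) : YD 0 (C t : MvPolynomial (JV (N + 1) k ⊕ CI N d) ℂ) := by
  rw [← monomial_zero']
  exact w1_monomial t (by simp)

theorem YD_inl (p : JV (N + 1) k) : YD 1 (X (Sum.inl p) : MvPolynomial (JV (N + 1) k ⊕ CI N d) ℂ) := by
  exact w1_monomial 1 (w1_single_inl p).le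

theorem YD_inr (q : CI N d) : YD 0 (X (Sum.inr q) : MvPolynomial (JV (N + 1) k ⊕ CI N d) ℂ) := by
  exact w1_monomial 1 (w1_single_inr q).le

theorem YD.mono (h : YD M R) (hM : M ≤ M') : YD M' R := by
  exact fun μ hμ => (h μ hμ).trans hM

theorem YD_zero (M : ℕ) : YD M (0 : MvPolynomial (JV (N + 1) k ⊕ CI N d) ℂ) := by
  rw [w1_iff]
  intro μ hμ
  exact absurd (coeff_zero μ) hμ

theorem YD.add (h : YD M R) (h' : YD M S) : YD M (R + S) := by
  rw [w1_iff] at *
  intro μ hμ
  rw [coeff_add] at hμ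
  by_cases e : coeff μ R = 0
  · rw [e, zero_add] at hμ
    exact h' μ hμ
  · exact h μ e

theorem YD.neg (h : YD M R) : YD M (- R) := by
  rw [w1_iff] at *
  intro μ hμ
  rw [coeff_neg, neg_ne_zero] at hμ
  exact h μ hμ

theorem YD.mul (h : YD M R) (h' : YD M' S) : YD (M + M') (R * S) := by
  classical
  rw [w1_iff] at *
  intro μ hμ
  rw [coeff_mul] at hμ
  obtain ⟨x, hx, hx'⟩ := Finset.exists_ne_zero_of_sum_ne_zero hμ
  rw [← Finset.HasAntidiagonal.mem_antidiagonal.1 hx, w1_add]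
  exact Nat.add_le_add (h _ (left_ne_zero_of_mul hx')) (h' _ (right_ne_zero_of_mul hx'))

theorem YD.pow (h : YD M R) (e : ℕ) : YD (e * M) (R ^ e) := by
  induction e with
  | zero =>
    rw [pow_zero, zero_mul, ← C_1]
    exact YD_C 1
  | succ e ih =>
    rw [pow_succ, add_mul, one_mul]
    exact ih.mul h

theorem YD.sum {ι : Type*} (t : Finset ι) {f : ι → MvPolynomial (JV (N + 1) k ⊕ CI N d) ℂ}
    (h : ∀ i ∈ t, YD M (f i)) : YD M (∑ i ∈ t, f i) := by
  classical
  induction t using Finset.induction_on with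
  | empty =>
    rw [Finset.sum_empty]
    exact YD_zero M
  | insert a t ha ih =>
    rw [Finset.sum_insert ha]
    exact (h a (Finset.mem_insert_self a t)).add (ih fun i hi => h i (Finset.mem_insert_of_mem hi))

theorem YD.prod {ι : Type*} (t : Finset ι) {f : ι → MvPolynomial (JV (N + 1) k ⊕ CI N d) ℂ}
    {m : ι → ℕ} (h : ∀ i ∈ t, YD (m i) (f i)) : YD (∑ i ∈ t, m i) (∏ i ∈ t, f i) := by
  classical
  induction t using Finset.induction_on with
  | empty =>
    rw [Finset.prod_empty, Finset.sum_empty, ← C_1]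
    exact YD_C 1
  | insert a t ha ih =>
    rw [Finset.prod_insert ha, Finset.sum_insert ha]
    exact (h a (Finset.mem_insert_self a t)).mul (ih fun i hi => h i (Finset.mem_insert_of_mem hi))

/-- The monomials of `pderiv g R` are of the form `μ - single g 1` with `μ ∈ R.support`, `1 ≤ μ g` (`pderiv`, `mkDerivation_monomial`, induction on
`R` over the monomials in the support, or `coeff` of `pderiv`). -/
theorem YD.pderiv_inr (h : YD M R) (q : CI N d) : YD M (pderiv (Sum.inr q) R) := by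
  classical
  rw [← support_sum_monomial_coeff R, map_sum]
  refine YD.sum _ fun μ hμ => ?_
  rw [pderiv_monomial]
  refine w1_monomial _ (le_trans (Finset.sum_le_sum fun p _ => ?_) (h μ hμ))
  rw [Finsupp.tsub_apply]
  exact Nat.sub_le _ _

/-- As before; if `M = 0` then `pderiv (inl p) R = 0`. -/
theorem YD.pderiv_inl_mul (h : YD M R) {e : ℕ} (h' : YD (e + 1) S) (p : JV (N + 1) k) :
    YD (M + e) (pderiv (Sum.inl p) R * S) := by
  classical
  rw [← support_sum_monomial_coeff R, map_sum, Finset.sum_mul]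
  refine YD.sum _ fun μ hμ => ?_
  rw [pderiv_monomial]
  have h1 := h μ hμ
  by_cases e0 : μ (Sum.inl p) = 0
  · rw [e0, Nat.cast_zero, mul_zero, map_zero, zero_mul]
    exact YD_zero _
  · have e1 : (μ - Finsupp.single (Sum.inl p) 1) + Finsupp.single (Sum.inl p) 1 = μ :=
      tsub_add_cancel_of_le (Finsupp.single_le_iff.2 (Nat.one_le_iff_ne_zero.2 e0))
    have e2 := w1_add (μ - Finsupp.single (Sum.inl p) 1) (Finsupp.single (Sum.inl p) 1)
    rw [e1, w1_single_inl] at e2
    refine ((w1_monomial _ le_rfl).mul h').mono ?_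
    omega

end Pool.Agent.H78W
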