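import Pool.Agent.Lib.H78W.D0

set_option autoImplicit false

/-!
CHUNK W10 of H78W (moves for small degrees, PROOF.md).  The reduction lemma for one monomial.
-/

open MvPolynomial

namespace Pool.Agent.H78W

open Pool.Agent.H89T Pool.Agent.H67T Pool.Agent.H53U Pool.Agent.H78M

variable {N : ℕ}

/-- The partial derivatives of a monomial. -/
theorem w10_pderiv {K : ℕ} {β : Fin N →₀ ℕ} (hβ : β.degree ≤ K) (b : Fin N) :
    pderiv b (monomial β (1 : MvPolynomial (Fin N) ℂ)) ∈ SpM N ℂ K := by
  by_cases h0 : β b = 0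
  · rw [pderiv_monomial, h0, Nat.cast_zero, mul_zero, map_zero]
    exact Submodule.zero_mem _
  · obtain ⟨β', rfl⟩ : ∃ β', β = β' + Finsupp.single b 1 :=
      ⟨β - Finsupp.single b 1, (tsub_add_cancel_of_le (Finsupp.single_le_iff.2
        (Nat.one_le_iff_ne_zero.2 h0))).symm⟩
    have hdeg : (β' + Finsupp.single b 1).degree = β'.degree + 1 := by
      rw [map_add, Finsupp.degree_single]
    have h1 : pderiv b (monomial (β' + Finsupp.single b 1) (1 : MvPolynomial (Fin N) ℂ)) =
        C (C (((β' + Finsupp.single b 1 : Fin N →₀ ℕ) b : ℕ) : ℂ)) * monomial β' 1 := by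
      rw [pderiv_monomial, add_tsub_cancel_right, one_mul, C_mul_monomial, mul_one,
        map_natCast (C : ℂ →+* MvPolynomial (Fin N) ℂ)]
    rw [h1]
    exact g16_smul (g16_monomial_mem β' (by omega)) _

/-- `pderiv b (monomial β 1)` is `0` or a constant times a monomial of degree `< K` (`g16_monomial_mem`, `g16_smul`), so
`aeval (X - x) (φ b) * pderiv b (monomial β 1) ∈ SpM N ℂ K` (`SpM_mul_shift`), and every element of `SpM N A K` satisfies
`RedM N A K (2 r - 1) (r + 1)` (as `hred` in the proof of `exists_E` in H78M/G16.lean: `redM_red`, `RedM.add`, `RedM.smul`). -/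
theorem exists_red {K r : ℕ} (hr : 1 ≤ r) (hrK : r ≤ K) (φ : Fin N → MvPolynomial (Fin N) ℂ)
    {β : Fin N →₀ ℕ} (hβ : β.degree ≤ K) :
    ∃ E : MvPolynomial (Fin N) (MvPolynomial (Fin N) ℂ), E.totalDegree ≤ K ∧
      (∀ α, (coeff α E).totalDegree ≤ 2 * r - 1) ∧
      (∑ b, aeval (fun b' => (X b' - C (X b') : MvPolynomial (Fin N) (MvPolynomial (Fin N) ℂ))) (φ b) *
          pderiv b (monomial β 1)) - E ∈
        mJ (fun b => (X b : MvPolynomial (Fin N) ℂ)) ^ (r + 1) := by
  have hred : ∀ P ∈ SpM N ℂ K, RedM N ℂ K (2 * r - 1) (r + 1) P := by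
    intro P hP
    unfold SpM at hP
    induction hP using Submodule.span_induction with
    | mem G hG =>
      obtain ⟨γ, κ, h1, rfl⟩ := hG
      have h2 := redM_red (A := ℂ) hrK (r - 1) γ κ (by omega)
      exact g15_mono (by omega) h2
    | zero =>
      refine ⟨0, by simp, fun α => by simp, ?_⟩
      rw [sub_zero]
      exact Ideal.zero_mem _
    | add x y _ _ hx hy => exact RedM.add hx hy
    | smul a x _ hx =>
      have h1 : a • x = C (C a) * x := by
        rw [Algebra.smul_def]
        rfl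
      rw [h1]
      exact RedM.smul hx a
  refine hred _ (Submodule.sum_mem _ fun b _ => ?_)
  rw [mul_comm]
  exact SpM_mul_shift (w10_pderiv hβ b) (φ b)

end Pool.Agent.H78W
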