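import Pool.Agent.Lib.H78W.W9
import Pool.Agent.Lib.H78W.W10

set_option autoImplicit false

/-!
CHUNK W11 of H78W (moves for small degrees, PROOF.md).  The equations of large degree.
-/

open MvPolynomial

namespace Pool.Agent.H78W

open Pool.Agent.H89T Pool.Agent.H67T Pool.Agent.H53U Pool.Agent.H78M

variable {N k c : ℕ} {d : Fin c → ℕ}

/-- The base point as a homomorphism. -/
noncomputable def w11_iW (N k : ℕ) {c : ℕ} (d : Fin c → ℕ) : MvPolynomial (Fin N) ℂ →+* AW N k d :=
  (aeval (fun b => (xW (b, 0) : AW N k d)) : MvPolynomial (Fin N) ℂ →ₐ[ℂ] AW N k d).toRingHom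

theorem w11_iW_X (b : Fin N) : w11_iW N k d (X b) = xW (b, 0) :=
  aeval_X (fun b => (xW (b, 0) : AW N k d)) b

theorem w11_iW_fun : (fun b : Fin N => w11_iW N k d (X b)) = fun b : Fin N => (xW (b, 0) : AW N k d) := by
  funext b
  rw [w11_iW_X]

theorem w11_iW_C (t : ℂ) : w11_iW N k d (C t) = C t :=
  aeval_C (fun b => (xW (b, 0) : AW N k d)) t

theorem w11_sgW_iW (a : CI N d → ℂ) (q : MvPolynomial (Fin N) ℂ) :
    sgW a (w11_iW N k d q) = C (eval 0 q) := by
  induction q using MvPolynomial.induction_on with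
  | C r =>
    rw [w11_iW_C, eval_C]
    unfold sgW
    rw [aeval_C]
    rfl
  | add p q hp hq => rw [map_add, map_add, hp, hq, map_add, map_add]
  | mul_X p b hp =>
    rw [map_mul, map_mul, hp, w11_iW_X, w9_sgW_xW, if_pos rfl, map_mul, eval_X, Pi.zero_apply,
      mul_zero, mul_zero, map_zero]

theorem w11_shift_map (g : MvPolynomial (Fin N) ℂ) :
    map (w11_iW N k d) (aeval (fun b' => (X b' - C (X b') :
      MvPolynomial (Fin N) (MvPolynomial (Fin N) ℂ))) g) =
      aeval (fun b' => (X b' - C (xW (b', 0)) : MvPolynomial (Fin N) (AW N k d))) g := by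
  induction g using MvPolynomial.induction_on with
  | C r =>
    rw [aeval_C, aeval_C]
    change map (w11_iW N k d) (C (C r)) = C (C r)
    rw [map_C, w11_iW_C]
  | add p q hp hq => rw [map_add, map_add, hp, hq, map_add]
  | mul_X p b hp =>
    rw [map_mul, map_mul, hp, map_mul, aeval_X, aeval_X, map_sub, map_X, map_C, w11_iW_X]

theorem w11_shift_zero (g : MvPolynomial (Fin N) ℂ) :
    map (eval (0 : Fin N → ℂ)) (aeval (fun b' => (X b' - C (X b') :
      MvPolynomial (Fin N) (MvPolynomial (Fin N) ℂ))) g) = g := by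
  induction g using MvPolynomial.induction_on with
  | C r =>
    rw [aeval_C]
    change map (eval (0 : Fin N → ℂ)) (C (C r)) = C r
    rw [map_C, eval_C]
  | add p q hp hq => rw [map_add, map_add, hp, hq]
  | mul_X p b hp =>
    rw [map_mul, map_mul, hp, aeval_X, map_sub, map_X, map_C, eval_X, Pi.zero_apply, map_zero,
      sub_zero]

theorem w11_mono {B : Type*} [CommRing B] (b : Fin N) (t : B) (β : Fin N →₀ ℕ) :
    C t * pderiv b (monomial β (1 : B)) = pderiv b (monomial β t) := by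
  rw [← pderiv_C_mul, C_mul_monomial, mul_one]

theorem w11_PF {B : Type*} [CommRing B] (a : CI N d → B) (j : Fin c)
    (G : Fin N → MvPolynomial (Fin N) B) :
    ∑ α : Idx N (d j), C (a ⟨j, α⟩) * ∑ b, G b * pderiv b (monomial (expo α) (1 : B)) =
      ∑ b, G b * pderiv b (PF a j) := by
  unfold PF
  rw [pol_eq]
  simp_rw [Finset.mul_sum]
  rw [Finset.sum_comm]
  refine Finset.sum_congr rfl fun b _ => ?_
  rw [map_sum, Finset.mul_sum]
  refine Finset.sum_congr rfl fun α _ => ?_
  rw [← w11_mono b (a ⟨j, α⟩) (expo α)]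
  ring

theorem w11_pole {e : ℕ} {q : MvPolynomial (Fin N) ℂ} (h : q.totalDegree ≤ e) :
    PoleA e (w11_iW N k d q) := by
  have h1 := PoleA_x (k := k) (d := d) h
  exact h1

/-- Let `iW : ℂ[x] →ₐ AW`, `x_b ↦ xW (b, 0)`.  With `E_α` of `exists_red` (`r = k`, `K = d j`, `β = expo α`) put `E = ∑_α C (aW ⟨j, α⟩) * map iW E_α`,
`E0 = ∑_α C (a ⟨j, α⟩) * map (eval 0) E_α`.  Then
(1) `∑_b aeval (X - x) (φ b) * pderiv b (PF aW j) - E ∈ mJ (xW (b, 0)) ^ (k + 1)` (`pol_eq`, `map_mJ`);
(2) `E0 ∈ mX ^ (k + 1)` (`map (eval 0)` of the congruence, `g25_mJ`, `hpres`), `E0.totalDegree ≤ d j`, `E0 = pol (cofs (d j) E0)`, the coefficients of degree `≤ k` vanish.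
This chunk: the polynomial `E` and its properties. -/
theorem exists_EW {a : CI N d → ℂ} {φ : Fin N → MvPolynomial (Fin N) ℂ} (hk : 1 ≤ k) {j : Fin c}
    (hjk : k ≤ d j) (hpres : ∑ b, φ b * pderiv b (PF a j) ∈ mX N ℂ ^ (k + 1)) :
    ∃ (E : MvPolynomial (Fin N) (AW N k d)) (E0 : MvPolynomial (Fin N) ℂ), E.totalDegree ≤ d j ∧
      (∀ α, PoleA (2 * k - 1) (coeff α E)) ∧
      (∑ b, aeval (fun b' => (X b' - C (xW (b', 0)) : MvPolynomial (Fin N) (AW N k d))) (φ b) *
          pderiv b (PF (aW : CI N d → AW N k d) j)) - E ∈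
        mJ (fun b => (xW (b, 0) : AW N k d)) ^ (k + 1) ∧
      E0.totalDegree ≤ d j ∧ E0 ∈ mX N ℂ ^ (k + 1) ∧
      ∀ α, sgW a (coeff α E) = C (coeff α E0) := by
  classical
  have hE := fun α : Idx N (d j) => exists_red hk hjk φ (expo_degree α)
  choose E' hE1 hE2 hE3 using hE
  refine ⟨∑ α : Idx N (d j), C (aW ⟨j, α⟩) * map (w11_iW N k d) (E' α),
    ∑ α : Idx N (d j), C (a ⟨j, α⟩) * map (eval (0 : Fin N → ℂ)) (E' α), ?_, ?_, ?_, ?_, ?_, ?_⟩
  · refine totalDegree_finsetSum_le fun α _ => ?_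
    exact (g18_Cmul _ _).trans ((g18_map _ _).trans (hE1 α))
  · intro α
    rw [coeff_sum]
    refine PoleA.sum _ fun β _ => ?_
    rw [coeff_C_mul, coeff_map]
    exact ((PoleA_aW _).mul (w11_pole (hE2 β α))).mono (by omega)
  · rw [← w11_PF (aW : CI N d → AW N k d) j
      (fun b => aeval (fun b' => (X b' - C (xW (b', 0)) : MvPolynomial (Fin N) (AW N k d))) (φ b)),
      ← Finset.sum_sub_distrib]
    refine Ideal.sum_mem _ fun α _ => ?_
    rw [← mul_sub]
    refine Ideal.mul_mem_left _ _ ?_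
    have h1 := map_mJ (w11_iW N k d) _ (hE3 α)
    rw [w11_iW_fun, map_sub, map_sum] at h1
    have h3 : ∀ b : Fin N, map (w11_iW N k d)
        (aeval (fun b' => (X b' - C (X b') : MvPolynomial (Fin N) (MvPolynomial (Fin N) ℂ))) (φ b) *
          pderiv b (monomial (expo α) 1)) =
        aeval (fun b' => (X b' - C (xW (b', 0)) : MvPolynomial (Fin N) (AW N k d))) (φ b) *
          pderiv b (monomial (expo α) 1) := by
      intro b
      rw [map_mul, w11_shift_map, ← pderiv_map, map_monomial, map_one]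
    rw [Finset.sum_congr rfl fun b _ => h3 b] at h1
    exact h1
  · refine totalDegree_finsetSum_le fun α _ => ?_
    exact (g18_Cmul _ _).trans ((g18_map _ _).trans (hE1 α))
  · have h0 : (∑ b, φ b * pderiv b (PF a j)) -
        ∑ α : Idx N (d j), C (a ⟨j, α⟩) * map (eval (0 : Fin N → ℂ)) (E' α) ∈ mX N ℂ ^ (k + 1) := by
      rw [← w11_PF a j φ, ← Finset.sum_sub_distrib]
      refine Ideal.sum_mem _ fun α _ => ?_
      rw [← mul_sub]
      refine Ideal.mul_mem_left _ _ ?_
      have h1 := map_mJ (eval (0 : Fin N → ℂ)) _ (hE3 α)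
      have h2 : (fun b => eval (0 : Fin N → ℂ) (X b)) = fun _ : Fin N => (0 : ℂ) := by
        funext b
        rw [eval_X]
        rfl
      rw [h2, g25_mJ, map_sub, map_sum] at h1
      have h3 : ∀ b : Fin N, map (eval (0 : Fin N → ℂ))
          (aeval (fun b' => (X b' - C (X b') : MvPolynomial (Fin N) (MvPolynomial (Fin N) ℂ))) (φ b) *
            pderiv b (monomial (expo α) 1)) =
          φ b * pderiv b (monomial (expo α) 1) := by
        intro b
        rw [map_mul, w11_shift_zero, ← pderiv_map, map_monomial, map_one]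
      rw [Finset.sum_congr rfl fun b _ => h3 b] at h1
      exact h1
    have h4 := Ideal.sub_mem _ hpres h0
    rwa [sub_sub_cancel] at h4
  · intro α
    rw [coeff_sum, coeff_sum, map_sum, map_sum]
    refine Finset.sum_congr rfl fun β _ => ?_
    rw [coeff_C_mul, coeff_C_mul, coeff_map, coeff_map, map_mul, w9_sgW_aW, w11_sgW_iW, map_mul]

theorem w11_arc {P : MvPolynomial (Fin N) (AW N k d)} {s : ℕ}
    (hP : P ∈ mJ (fun b => (xW (b, 0) : AW N k d)) ^ s) :
    (Polynomial.X : Polynomial (AW N k d)) ^ s ∣ aeval (arc xW) P := by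
  have h1 : Ideal.map (aeval (arc xW) : MvPolynomial (Fin N) (AW N k d) →ₐ[AW N k d]
      Polynomial (AW N k d)) (mJ (fun b => (xW (b, 0) : AW N k d))) ≤
      Ideal.span {(Polynomial.X : Polynomial (AW N k d))} := by
    unfold mJ
    rw [Ideal.map_span, Ideal.span_le]
    rintro _ ⟨_, ⟨b, rfl⟩, rfl⟩
    rw [SetLike.mem_coe, Ideal.mem_span_singleton, Polynomial.X_dvd_iff]
    have h2 : (aeval (arc xW) : MvPolynomial (Fin N) (AW N k d) →ₐ[AW N k d]
      Polynomial (AW N k d)) (X b - C (xW (b, 0))) = arc xW b - Polynomial.C (xW (b, 0)) := by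
      rw [map_sub, aeval_X, aeval_C]
      rfl
    rw [h2]
    exact coeff_zero_vW b
  have h2 := Ideal.mem_map_of_mem (aeval (arc xW) : MvPolynomial (Fin N) (AW N k d) →ₐ[AW N k d]
      Polynomial (AW N k d)) hP
  rw [Ideal.map_pow] at h2
  have h3 := Ideal.pow_right_mono h1 s h2
  rwa [Ideal.span_singleton_pow, Ideal.mem_span_singleton] at h3

theorem w11_sqx (γ δ : Fin N →₀ ℕ) : CPW δ.degree (sqx (fun b => (xW (b, 0) : AW N k d)) γ δ) := by
  unfold sqx
  have h1 : CPW (∑ b : Fin N, γ b * 0) (∏ b : Fin N, (X b : MvPolynomial (Fin N) (AW N k d)) ^ γ b) :=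
    w9_prod _ fun b _ => w9_pow (w9_X b) (γ b)
  have h2 : CPW (∑ b : Fin N, δ b * 1)
      (∏ b : Fin N, (X b - C (xW (b, 0)) : MvPolynomial (Fin N) (AW N k d)) ^ δ b) :=
    w9_prod _ fun b _ => w9_pow (w9_lin b) (δ b)
  refine w9_mono (w9_mul h1 h2) ?_
  rw [Finsupp.degree_eq_sum]
  simp

/-- `G = - C (WW z) * (E - comp)`, `comp = ∑_β, if k + 1 ≤ |β| then C (C (cofs (d j) E0 β)) * sqx (xW (b, 0)) (s β).1 (s β).2 else 0` with `s` of `exists_spl (d j) k`.
`comp ∈ mJ ^ (k + 1)` (`sqx_mem`), degree `≤ d j` (`totalDegree_sqx`, `expo_degree`), coefficients of degree `≤ k + 1` in `x`, and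
`map (sgW a) comp = map C E0` (`g25_sqx`, `pol_cofs`).  `congG`: the image of `mJ ^ (k + 1)` under `aeval (arc xW)` is divisible by `X ^ (k + 1)` (`arc xW b - C (xW (b, 0))` is
divisible by `X`), `aeval_arc_shift`.  `poleG`: `4 k + max (2 k - 1) (k + 1) ≤ 7 k`. -/
theorem exists_G_large {a : CI N d → ℂ} {φ : Fin N → MvPolynomial (Fin N) ℂ}
    {z : Fin k → MvPolynomial (Fin N) ℂ} (hk : 1 ≤ k)
    (hz0 : ∀ i, constantCoeff (z i) = 0) (hz2 : ∀ i, (z i).totalDegree ≤ 2) {j : Fin c}
    (hjk : k ≤ d j) (hpres : ∑ b, φ b * pderiv b (PF a j) ∈ mX N ℂ ^ (k + 1)) :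
    ∃ G : MvPolynomial (Fin N) (AW N k d), G.totalDegree ≤ d j ∧
      (Polynomial.X : Polynomial (AW N k d)) ^ (k + 1) ∣
        aeval (arc xW) G + Polynomial.C (WW z) * HH φ j ∧
      (∀ α, sgW a (coeff α G) = 0) ∧ ∀ α, PoleA (7 * k) (coeff α G) := by
  classical
  obtain ⟨E, E0, hE1, hE2, hE3, hE4, hE5, hE6⟩ := exists_EW hk hjk hpres
  obtain ⟨s, hs⟩ := exists_spl (N := N) (d j) k
  set comp : MvPolynomial (Fin N) (AW N k d) := ∑ β : Idx N (d j), if k + 1 ≤ (expo β).degree then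
    C (C (cofs (d j) E0 β)) * sqx (fun b => (xW (b, 0) : AW N k d)) (s β).1 (s β).2 else 0 with hcomp
  have hc1 : comp.totalDegree ≤ d j := by
    refine totalDegree_finsetSum_le fun α _ => ?_
    split_ifs with h
    · refine (g18_Cmul _ _).trans ((totalDegree_sqx _ _ _).trans ?_)
      rw [← map_add, (hs α h).1]
      exact expo_degree α
    · rw [totalDegree_zero]
      exact Nat.zero_le _
  have hc2 : comp ∈ mJ (fun b => (xW (b, 0) : AW N k d)) ^ (k + 1) := by
    refine Ideal.sum_mem _ fun α _ => ?_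
    split_ifs with h
    · refine Ideal.mul_mem_left _ _ ?_
      have h3 := sqx_mem (γ := (s α).1) (κ := (s α).2) (fun b => (xW (b, 0) : AW N k d))
      rwa [(hs α h).2] at h3
    · exact Ideal.zero_mem _
  have hc3 : CPW (k + 1) comp := by
    refine w9_sum _ fun α _ => ?_
    split_ifs with h
    · have h1 := w9_mul (w9_C (PoleA_C (N := N) (k := k) (d := d) (cofs (d j) E0 α)))
        (w11_sqx (k := k) (d := d) (s α).1 (s α).2)
      rw [(hs α h).2] at h1
      exact w9_mono h1 (by omega)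
    · exact w9_zero _
  have hc4 : map (sgW a).toRingHom comp = map (C : ℂ →+* MvPolynomial (JV N k) ℂ) E0 := by
    have h1 : E0 = ∑ β : Idx N (d j), if k + 1 ≤ (expo β).degree then
        C (cofs (d j) E0 β) * monomial (expo β) 1 else 0 := by
      conv_lhs => rw [← pol_cofs hE4, pol_eq]
      refine Finset.sum_congr rfl fun β _ => ?_
      split_ifs with h
      · rw [C_mul_monomial, mul_one]
      · have h2 := (mem_mX_pow (k + 1) E0).1 hE5 (expo β) (by omega)
        have h3 : cofs (d j) E0 β = 0 := h2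
        rw [h3, monomial_zero]
    conv_rhs => rw [h1]
    rw [hcomp, map_sum, map_sum]
    refine Finset.sum_congr rfl fun β _ => ?_
    split_ifs with h
    · rw [map_mul, map_mul, map_C, map_C, g25_sqx _ _ ?_ (s β).1 (s β).2, (hs β h).1, map_monomial,
        C_1]
      · have h4 : (sgW a : AW N k d →ₐ[ℂ] MvPolynomial (JV N k) ℂ) (C (cofs (d j) E0 β)) =
            C (cofs (d j) E0 β) := (sgW a).commutes _
        have h5 : (sgW a : AW N k d →ₐ[ℂ] MvPolynomial (JV N k) ℂ).toRingHom (C (cofs (d j) E0 β)) =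
            C (cofs (d j) E0 β) := h4
        rw [h5]
      · intro b
        have h5 := w9_sgW_xW (k := k) a (b, 0)
        rw [if_pos rfl] at h5
        exact h5
    · rw [map_zero, map_zero]
  refine ⟨-(C (WW z) * (E - comp)), ?_, ?_, ?_, ?_⟩
  · rw [totalDegree_neg]
    exact (g18_Cmul _ _).trans ((totalDegree_sub _ _).trans (max_le hE1 hc1))
  · have h1 : aeval (arc (xW : JV N k → AW N k d))
        (∑ b, aeval (fun b' => (X b' - C (xW (b', 0)) : MvPolynomial (Fin N) (AW N k d))) (φ b) *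
          pderiv b (PF (aW : CI N d → AW N k d) j)) = HH φ j := by
      unfold HH
      rw [map_sum]
      refine Finset.sum_congr rfl fun b _ => ?_
      rw [map_mul, aeval_arc_shift]
    have h2 := w11_arc (Ideal.add_mem _ hE3 hc2)
    rw [map_add, map_sub, h1] at h2
    have h3 : aeval (arc (xW : JV N k → AW N k d)) (-(C (WW z) * (E - comp))) +
        Polynomial.C (WW z) * HH φ j =
        Polynomial.C (WW z) * (HH φ j - aeval (arc (xW : JV N k → AW N k d)) E +
          aeval (arc (xW : JV N k → AW N k d)) comp) := by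
      rw [map_neg, map_mul, map_sub, aeval_C]
      change -(Polynomial.C (WW z) * _) + _ = _
      ring
    rw [h3]
    exact Dvd.dvd.mul_left h2 _
  · intro α
    rw [coeff_neg, coeff_C_mul, coeff_sub, map_neg, map_mul, map_sub, hE6]
    have h1 : sgW a (coeff α comp) = C (coeff α E0) := by
      have h2 := congrArg (coeff α) hc4
      rw [coeff_map, coeff_map] at h2
      exact h2
    rw [h1, sub_self, mul_zero, neg_zero]
  · intro α
    rw [coeff_neg, coeff_C_mul, coeff_sub]
    have h1 : PoleA (3 * k) (coeff α E - coeff α comp) :=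
      ((hE2 α).mono (by omega)).sub ((hc3 α).mono (by omega))
    exact ((PoleA_WW hz0 hz2).mul h1).neg.mono (by omega)

/-- Choose `G j` by `exists_G_small` or `exists_G_large`. -/
theorem exists_moveW {a : CI N d → ℂ} {φ : Fin N → MvPolynomial (Fin N) ℂ}
    {z : Fin k → MvPolynomial (Fin N) ℂ} (hk : 1 ≤ k) (hφ : ∀ b, constantCoeff (φ b) = 0)
    (hz0 : ∀ i, constantCoeff (z i) = 0) (hz2 : ∀ i, (z i).totalDegree ≤ 2) (hd : ∀ j, 2 ≤ d j)
    (hpres : ∀ j, ∑ b, φ b * pderiv b (PF a j) ∈ mX N ℂ ^ (k + 1)) :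
    ∃ G : Fin c → MvPolynomial (Fin N) (AW N k d), MoveW a φ z G := by
  have h : ∀ j, ∃ G : MvPolynomial (Fin N) (AW N k d), G.totalDegree ≤ d j ∧
      (Polynomial.X : Polynomial (AW N k d)) ^ (k + 1) ∣
        aeval (arc xW) G + Polynomial.C (WW z) * HH φ j ∧
      (∀ α, sgW a (coeff α G) = 0) ∧ ∀ α, PoleA (7 * k) (coeff α G) := by
    intro j
    rcases le_total (d j) k with hj | hj
    · exact exists_G_small hk hφ hz0 hz2 (hd j) hj (hpres j)
    · exact exists_G_large hk hz0 hz2 hj (hpres j)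
  choose G h1 h2 h3 h4 using h
  exact ⟨G, ⟨hφ, hz0, hz2, h1, h2, h3, h4⟩⟩

end Pool.Agent.H78W
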