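import Pool.Agent.Lib.H78W.W2

set_option autoImplicit false

/-!
CHUNK W6 of H78W (moves for small degrees, PROOF.md).  The type of a polynomial with given poles of the coefficients; the calculus `PB`.
-/

open MvPolynomial

namespace Pool.Agent.H78W

open Pool.Agent.H89T Pool.Agent.H67T Pool.Agent.H53U Pool.Agent.H78M

variable {N k c : ℕ} {d : Fin c → ℕ} {A A' : ℕ} {q q' : Polynomial (AW N k d)}

/-- The universal `s (t)`. -/
noncomputable def w6_S (N k : ℕ) {c : ℕ} (d : Fin c → ℕ) :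
    Polynomial (MvPolynomial (JV (N + 1) k ⊕ CI N d) ℂ) :=
  sT fun l => X (Sum.inl (0, l))

theorem w6_S_map (a : CI N d → ℂ) (s : Fin (k + 1) → ℂ) (ζ : JV N k → ℂ) :
    (w6_S N k d).map (eval (Sum.elim (mulJ s ζ) a)) = sT s := by
  unfold w6_S sT
  rw [Polynomial.map_sum]
  refine Finset.sum_congr rfl fun l _ => ?_
  rw [Polynomial.map_mul, Polynomial.map_pow, Polynomial.map_C, Polynomial.map_X, eval_X,
    Sum.elim_inl, mulJ_zero]

theorem w6_S_YD (i : ℕ) : YD 1 ((w6_S N k d).coeff i) := by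
  unfold w6_S sT
  rw [Polynomial.finsetSum_coeff]
  refine YD.sum _ fun l _ => ?_
  rw [Polynomial.coeff_C_mul, Polynomial.coeff_X_pow]
  split_ifs
  · rw [mul_one]
    exact YD_inl _
  · rw [mul_zero]
    exact YD_zero 1

theorem w6_S2_YD (i : ℕ) : YD 2 ((w6_S N k d ^ 2).coeff i) := by
  rw [pow_two, Polynomial.coeff_mul]
  exact YD.sum _ fun p _ => (w6_S_YD p.1).mul (w6_S_YD p.2)

theorem w6_S2_eval (a : CI N d → ℂ) (s : Fin (k + 1) → ℂ) (ζ : JV N k → ℂ) (i : ℕ) :
    eval (Sum.elim (mulJ s ζ) a) ((w6_S N k d ^ 2).coeff i) = (sT s ^ 2).coeff i := by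
  rw [← w6_S_map a s ζ, ← Polynomial.map_pow, Polynomial.coeff_map]

/-- `s_0 ^ A [t ^ l] (s (t) ^ 2 q (t)) = ∑_{i + j = l} [t ^ i] s (t) ^ 2 (s_0 ^ A [t ^ j] q (t))`; `s (t) ^ 2` has coefficients of degree `2` in the `Y (0, i)`
(`sT s` is the image of `∑ Y (0, l) t ^ l`). -/
theorem PT_of_coeff (h : ∀ l ≤ k, PoleA A (q.coeff l)) : PT (A + 2) q := by
  intro l hl
  have h' : ∀ j, ∃ R : MvPolynomial (JV (N + 1) k ⊕ CI N d) ℂ, j ≤ k → (YD A R ∧
    ∀ (a : CI N d → ℂ) (s : Fin (k + 1) → ℂ) (ζ : JV N k → ℂ),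
      s 0 ^ A * eval (Sum.elim ζ a) (q.coeff j) = eval (Sum.elim (mulJ s ζ) a) R) := by
    intro j
    by_cases hj : j ≤ k
    · obtain ⟨R, h1, h2⟩ := h j hj
      exact ⟨R, fun _ => ⟨h1, h2⟩⟩
    · exact ⟨0, fun h0 => absurd h0 hj⟩
  choose R hR using h'
  refine ⟨∑ p ∈ Finset.HasAntidiagonal.antidiagonal l, (w6_S N k d ^ 2).coeff p.1 * R p.2, ?_, ?_⟩
  · refine YD.sum _ fun p hp => ?_
    have hp2 : p.2 ≤ k := by
      have := Finset.HasAntidiagonal.mem_antidiagonal.1 hp
      omega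
    exact ((w6_S2_YD p.1).mul (hR p.2 hp2).1).mono (by omega)
  · intro a s ζ
    rw [Nat.add_sub_cancel, Polynomial.coeff_mul, Finset.mul_sum, map_sum]
    refine Finset.sum_congr rfl fun p hp => ?_
    have hp2 : p.2 ≤ k := by
      have := Finset.HasAntidiagonal.mem_antidiagonal.1 hp
      omega
    rw [map_mul, w6_S2_eval, ← (hR p.2 hp2).2 a s ζ, Polynomial.coeff_map]
    ring

theorem PB.mono (h : PB A q) (hA : A ≤ A') : PB A' q :=
  fun l => (h l).mono (by omega)

theorem PB.add (h : PB A q) (h' : PB A q') : PB A (q + q') := by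
  intro l
  rw [Polynomial.coeff_add]
  exact (h l).add (h' l)

theorem PB.mul (h : PB A q) (h' : PB A' q') : PB (A + A') (q * q') := by
  intro l
  rw [Polynomial.coeff_mul]
  refine PoleA.sum _ fun p hp => ?_
  have hp' := Finset.HasAntidiagonal.mem_antidiagonal.1 hp
  exact ((h p.1).mul (h' p.2)).mono (by omega)

theorem w6_zero : PB A (0 : Polynomial (AW N k d)) := by
  intro l
  rw [Polynomial.coeff_zero]
  exact PoleA_zero _

theorem PB.sum {ι : Type*} (t : Finset ι) {f : ι → Polynomial (AW N k d)} (h : ∀ i ∈ t, PB A (f i)) :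
    PB A (∑ i ∈ t, f i) := by
  intro l
  rw [Polynomial.finsetSum_coeff]
  exact PoleA.sum _ fun i hi => h i hi l

theorem PB_C {x : AW N k d} (h : PoleA A x) : PB A (Polynomial.C x) := by
  intro l
  rw [Polynomial.coeff_C]
  split_ifs
  · exact h.mono (by omega)
  · exact PoleA_zero _

/-- `coeff_arc` / `H89T.coeff_arc`, `PoleA_xW`: `l + 1 ≤ 1 + 2 l`. -/
theorem PB_arc (b : Fin N) : PB 1 (arc xW b : Polynomial (AW N k d)) := by
  intro l
  rw [H89T.coeff_arc]
  split_ifs with h
  · exact (PoleA_xW b ⟨l, h⟩).mono (by simp only; omega)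
  · exact PoleA_zero _

/-- `l + 1 ≤ 2 l` for `l ≥ 1`; the coefficient of `t ^ 0` is `0`. -/
theorem PB_vW (b : Fin N) : PB 0 (vW b : Polynomial (AW N k d)) := by
  intro l
  unfold vW
  rw [Polynomial.coeff_sub, H89T.coeff_arc, Polynomial.coeff_C]
  by_cases h0 : l = 0
  · subst h0
    rw [dif_pos (Nat.succ_pos k), if_pos rfl]
    have h1 : (⟨0, Nat.succ_pos k⟩ : Fin (k + 1)) = 0 := rfl
    rw [h1, sub_self]
    exact PoleA_zero _
  · rw [if_neg h0, sub_zero]
    split_ifs with h
    · exact (PoleA_xW b ⟨l, h⟩).mono (by simp only; omega)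
    · exact PoleA_zero _

theorem w6_one : PB 0 (1 : Polynomial (AW N k d)) := by
  have h := PB_C (PoleA_C (N := N) (k := k) (d := d) 1)
  rwa [C_1, Polynomial.C_1] at h

theorem w6_pow (h : PB A q) (e : ℕ) : PB (e * A) (q ^ e) := by
  induction e with
  | zero =>
    rw [pow_zero, zero_mul]
    exact w6_one
  | succ e ih =>
    rw [pow_succ]
    exact (ih.mul h).mono (by rw [Nat.succ_mul])

theorem w6_prod {ι : Type*} (t : Finset ι) {f : ι → Polynomial (AW N k d)} {m : ι → ℕ}
    (h : ∀ i ∈ t, PB (m i) (f i)) : PB (∑ i ∈ t, m i) (∏ i ∈ t, f i) := by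
  classical
  induction t using Finset.induction_on with
  | empty =>
    rw [Finset.sum_empty, Finset.prod_empty]
    exact w6_one
  | insert i t hi ih =>
    rw [Finset.sum_insert hi, Finset.prod_insert hi]
    exact (h i (Finset.mem_insert_self i t)).mul (ih fun j hj => h j (Finset.mem_insert_of_mem hj))

theorem PB_phW (φ : MvPolynomial (Fin N) ℂ) : PB 0 (phW φ : Polynomial (AW N k d)) := by
  unfold phW
  induction φ using MvPolynomial.induction_on with
  | C r =>
    rw [aeval_C]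
    exact PB_C (PoleA_C r)
  | add p q hp hq =>
    rw [map_add]
    exact hp.add hq
  | mul_X p b hp =>
    rw [map_mul, aeval_X]
    exact (hp.mul (PB_vW b)).mono (by omega)

/-- Sum over the monomials. -/
theorem PB_aeval_arc {D : ℕ} {G : MvPolynomial (Fin N) (AW N k d)} (hG : G.totalDegree ≤ D)
    (hc : ∀ α, PoleA A (coeff α G)) : PB (A + D) (aeval (arc (xW : JV N k → AW N k d)) G) := by
  rw [aeval_def, eval₂_eq']
  refine PB.sum _ fun α hα => ?_
  have h1 : PB (∑ b : Fin N, α b * 1) (∏ b : Fin N, arc (xW : JV N k → AW N k d) b ^ α b) :=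
    w6_prod _ fun b _ => w6_pow (PB_arc b) (α b)
  have h2 : ∑ b : Fin N, α b * 1 ≤ D := by
    have h3 := le_totalDegree hα
    rw [Finsupp.sum_fintype _ _ (fun _ => rfl)] at h3
    simp only [mul_one]
    exact h3.trans hG
  exact ((PB_C (hc α)).mul h1).mono (by omega)

theorem w6_pderiv_deg {B : Type*} [CommRing B] {k : ℕ} {p : MvPolynomial (Fin N) B}
    (h : p.totalDegree ≤ k) (i : Fin N) : (pderiv i p).totalDegree ≤ k - 1 := by
  classical
  refine Finset.sup_le fun m hm => ?_
  rw [mem_support_iff, coeff_pderiv] at hm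
  have h1 : m + Finsupp.single i 1 ∈ p.support := by
    rw [mem_support_iff]
    exact left_ne_zero_of_mul hm
  have h2 := le_totalDegree h1
  rw [Finsupp.sum_add_index' (fun _ => rfl) (fun _ _ _ => rfl)] at h2
  simp at h2
  omega

/-- `totalDegree_PF`, the total degree of `pderiv b G` is at most that of `G` minus `1` (`m10_pderiv_deg` in H53U/M10.lean), its coefficients are integer multiples of
coefficients of `G`; the coefficients of `PF aW j` are `0` or `aW q`. -/
theorem PB_HH (φ : Fin N → MvPolynomial (Fin N) ℂ) (j : Fin c) :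
    PB (d j - 1) (HH φ j : Polynomial (AW N k d)) := by
  classical
  unfold HH
  refine PB.sum _ fun b _ => ?_
  have hdeg := w6_pderiv_deg (totalDegree_PF (aW : CI N d → AW N k d) j) b
  have hco : ∀ α, PoleA 0 (coeff α (PF (aW : CI N d → AW N k d) j)) := by
    intro α
    by_cases hα : α.degree ≤ d j
    · obtain ⟨β, rfl⟩ := exists_expo hα
      have h1 := congrFun (cofs_PF (aW : CI N d → AW N k d)) ⟨j, β⟩
      have h2 : coeff (expo β) (PF (aW : CI N d → AW N k d) j) = aW ⟨j, β⟩ := h1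
      rw [h2]
      exact PoleA_aW _
    · rw [coeff_eq_zero_of_totalDegree_lt]
      · exact PoleA_zero _
      · refine lt_of_le_of_lt (totalDegree_PF _ j) ?_
        push Not at hα
        rwa [Finsupp.degree_apply] at hα
  have hco' : ∀ α, PoleA 0 (coeff α (pderiv b (PF (aW : CI N d → AW N k d) j))) := by
    intro α
    rw [coeff_pderiv]
    have h3 : ((α b : AW N k d) + 1) = C ((α b : ℂ) + 1) := by
      rw [map_add, map_natCast, C_1]
    rw [h3]
    exact ((hco _).mul (PoleA_C _)).mono (by omega)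
  exact ((PB_phW (φ b)).mul (PB_aeval_arc hdeg hco')).mono (by omega)

end Pool.Agent.H78W
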