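import Pool.Agent.Lib.H78W.W2

set_option autoImplicit false

/-!
CHUNK W7 of H78W (moves for small degrees, PROOF.md).  The pole of the determinant.
-/

open MvPolynomial

namespace Pool.Agent.H78W

open Pool.Agent.H89T Pool.Agent.H67T Pool.Agent.H53U Pool.Agent.H78M

variable {N k c : ℕ} {d : Fin c → ℕ}

/-- The coefficients of `t, ..., t ^ k` of the `S q_i` are `T * matW q`, `T l l' = [t ^ (l - l')] S` (`0` for `l < l'`) if the `q_i` have no constant coefficient; `T` is lower
triangular (`Matrix.det_of_lowerTriangular`). -/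
theorem det_matW_mul {B : Type*} [CommRing B] (S : Polynomial B) (q : Fin k → Polynomial B)
    (h0 : ∀ i, (q i).coeff 0 = 0) :
    (matW fun i => S * q i).det = S.coeff 0 ^ k * (matW q).det := by
  classical
  let T : Matrix (Fin k) (Fin k) B := Matrix.of fun l l' => if (l' : ℕ) ≤ (l : ℕ) then S.coeff ((l : ℕ) - (l' : ℕ)) else 0
  have h1 : (matW fun i => S * q i) = T * matW q := by
    ext l i
    rw [Matrix.mul_apply]
    have e1 : (S * q i).coeff ((l : ℕ) + 1) =
        ∑ b ∈ Finset.range ((l : ℕ) + 1), S.coeff ((l : ℕ) - b) * (q i).coeff (b + 1) := by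
      rw [mul_comm, Polynomial.coeff_mul, Finset.Nat.sum_antidiagonal_eq_sum_range_succ_mk,
        Finset.sum_range_succ', h0 i, zero_mul, add_zero]
      refine Finset.sum_congr rfl fun b _ => ?_
      rw [mul_comm, Nat.add_sub_add_right]
    have e2 : ∑ l' : Fin k, T l l' * matW q l' i =
        ∑ b ∈ Finset.range k, (if b ≤ (l : ℕ) then S.coeff ((l : ℕ) - b) else 0) * (q i).coeff (b + 1) :=
      (Finset.sum_range fun b => (if b ≤ (l : ℕ) then S.coeff ((l : ℕ) - b) else 0) * (q i).coeff (b + 1)).symm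
    have e3 : ∑ b ∈ Finset.range ((l : ℕ) + 1), (if b ≤ (l : ℕ) then S.coeff ((l : ℕ) - b) else 0) * (q i).coeff (b + 1) =
        ∑ b ∈ Finset.range k, (if b ≤ (l : ℕ) then S.coeff ((l : ℕ) - b) else 0) * (q i).coeff (b + 1) := by
      refine Finset.sum_subset (fun b hb => ?_) (fun b _ hb => ?_)
      · rw [Finset.mem_range] at hb ⊢
        have := l.2
        omega
      · rw [Finset.mem_range] at hb
        rw [if_neg (by omega), zero_mul]
    rw [e2, ← e3]
    change (S * q i).coeff ((l : ℕ) + 1) = _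
    rw [e1]
    refine Finset.sum_congr rfl fun b hb => ?_
    rw [Finset.mem_range] at hb
    rw [if_pos (by omega)]
  rw [h1, Matrix.det_mul]
  have h2 : T.det = S.coeff 0 ^ k := by
    rw [Matrix.det_of_isLowerTriangular T]
    · have e : ∀ i : Fin k, T i i = S.coeff 0 := by
        intro i
        change (if (i : ℕ) ≤ (i : ℕ) then S.coeff ((i : ℕ) - (i : ℕ)) else 0) = _
        rw [if_pos le_rfl, Nat.sub_self]
      rw [Finset.prod_congr rfl fun i _ => e i, Finset.prod_const, Finset.card_univ, Fintype.card_fin]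
    · intro i j hij
      have hij' : i < j := hij
      change (if (j : ℕ) ≤ (i : ℕ) then S.coeff ((i : ℕ) - (j : ℕ)) else 0) = _
      rw [if_neg (by have := Fin.lt_def.1 hij'; omega)]
  rw [h2]

theorem map_det_matW {B B' : Type*} [CommRing B] [CommRing B'] (f : B →+* B')
    (q : Fin k → Polynomial B) : f (matW q).det = (matW fun i => (q i).map f).det := by
  rw [RingHom.map_det]
  refine congrArg Matrix.det ?_
  ext l i
  change f ((q i).coeff ((l : ℕ) + 1)) = ((q i).map f).coeff ((l : ℕ) + 1)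
  rw [Polynomial.coeff_map]

/-- Let `R i l` belong to `q i` and `l` (`PT`).  `s_0 ^ (∑ M_i) det (matW q) = ∏ s_0 ^ (M_i - 2) det (matW (s (t) ^ 2 q_i))`
(`det_matW_mul`, `(sT s ^ 2).coeff 0 = s_0 ^ 2`, `∑ M_i = 2 k + ∑ (M_i - 2)`), and this is the value of `det (R i (l + 1))` (`Matrix.det_apply`: the factor of the
column `i` is multiplied by `s_0 ^ (M_i - 2)`).  `YD (∑ M_i)`: `Matrix.det_apply`, `YD.prod`. -/
theorem PoleA_det {q : Fin k → Polynomial (AW N k d)} {M : Fin k → ℕ} (hM : ∀ i, 2 ≤ M i)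
    (h0 : ∀ i, (q i).coeff 0 = 0) (hq : ∀ i, PT (M i) (q i)) :
    PoleA (∑ i, M i) (matW q).det := by
  classical
  have hq' : ∀ (i : Fin k) (l : Fin k), ∃ R : MvPolynomial (JV (N + 1) k ⊕ CI N d) ℂ, YD (M i) R ∧
      ∀ (a : CI N d → ℂ) (s : Fin (k + 1) → ℂ) (ζ : JV N k → ℂ),
        s 0 ^ (M i - 2) * (sT s ^ 2 * (q i).map (eval (Sum.elim ζ a))).coeff ((l : ℕ) + 1) =
          eval (Sum.elim (mulJ s ζ) a) R := fun i l => hq i ((l : ℕ) + 1) l.2
  choose R hR1 hR2 using hq'
  refine ⟨(Matrix.of fun l i => R i l).det, ?_, ?_⟩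
  · rw [Matrix.det_apply']
    refine YD.sum _ fun σ _ => ?_
    have e1 : (((Equiv.Perm.sign σ : ℤˣ) : ℤ) : MvPolynomial (JV (N + 1) k ⊕ CI N d) ℂ) =
        C ((((Equiv.Perm.sign σ : ℤˣ) : ℤ)) : ℂ) := (map_intCast (C : ℂ →+* MvPolynomial (JV (N + 1) k ⊕ CI N d) ℂ) _).symm
    rw [e1, ← zero_add (∑ i, M i)]
    exact (YD_C _).mul (YD.prod _ fun i _ => hR1 i (σ i))
  · intro a s ζ
    have e1 : eval (Sum.elim (mulJ s ζ) a) (Matrix.of fun l i => R i l).det =
        (Matrix.of fun (l i : Fin k) => s 0 ^ (M i - 2) *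
          (matW fun i => sT s ^ 2 * (q i).map (eval (Sum.elim ζ a))) l i).det := by
      rw [RingHom.map_det]
      refine congrArg Matrix.det ?_
      ext l i
      exact (hR2 i l a s ζ).symm
    have h2 : ∀ i, ((q i).map (eval (Sum.elim ζ a))).coeff 0 = 0 := by
      intro i
      rw [Polynomial.coeff_map, h0 i, map_zero]
    have h3 : (sT s ^ 2).coeff 0 = s 0 ^ 2 := by
      rw [pow_two, Polynomial.mul_coeff_zero, pow_two]
      have := coeff_sT s 0
      rw [Fin.val_zero] at this
      rw [this]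
    have h4 : ∑ i, M i = ∑ i, (M i - 2) + 2 * k := by
      have : ∑ i : Fin k, (2 : ℕ) = 2 * k := by
        rw [Finset.sum_const, Finset.card_univ, Fintype.card_fin, smul_eq_mul, mul_comm]
      rw [← this, ← Finset.sum_add_distrib]
      exact Finset.sum_congr rfl fun i _ => (Nat.sub_add_cancel (hM i)).symm
    rw [e1, Matrix.det_mul_row, det_matW_mul _ _ h2, h3, map_det_matW, h4, pow_add,
      Finset.prod_pow_eq_pow_sum, pow_mul]
    ring

end Pool.Agent.H78W
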