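import Pool.Agent.Lib.H78W.W5
import Pool.Agent.Lib.H78W.W6
import Pool.Agent.Lib.H78W.W7

set_option autoImplicit false

/-!
CHUNK W8 of H78W (moves for small degrees, PROOF.md).  The poles of `W`, `W_i (H)`, and of the images of the jets; Cramer's rule.
-/

open MvPolynomial

namespace Pool.Agent.H78W

open Pool.Agent.H89T Pool.Agent.H67T Pool.Agent.H53U Pool.Agent.H78M

variable {N k c : ℕ} {d : Fin c → ℕ}

theorem coeff_zero_vW (b : Fin N) : (vW b : Polynomial (AW N k d)).coeff 0 = 0 := by
  unfold vW
  rw [Polynomial.coeff_sub, Polynomial.coeff_C_zero, H89T.coeff_arc, dif_pos (Nat.succ_pos k)]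
  exact sub_self _

theorem coeff_zero_phW {φ : MvPolynomial (Fin N) ℂ} (h : constantCoeff φ = 0) :
    (phW φ : Polynomial (AW N k d)).coeff 0 = 0 := by
  unfold phW
  rw [← Polynomial.constantCoeff_apply, aeval_def, hom_eval₂]
  have h1 : (fun i => (Polynomial.constantCoeff : Polynomial (AW N k d) →+* AW N k d)
      ((vW : Fin N → Polynomial (AW N k d)) i)) = 0 := by
    funext b
    exact coeff_zero_vW b
  rw [h1, eval₂_zero_apply, h, map_zero]

/-- `PoleA_det` with `M i = 4`. -/
theorem PoleA_WW {z : Fin k → MvPolynomial (Fin N) ℂ} (hz0 : ∀ i, constantCoeff (z i) = 0)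
    (hz2 : ∀ i, (z i).totalDegree ≤ 2) : PoleA (4 * k) (WW z : AW N k d) := by
  have h := PoleA_det (N := N) (k := k) (d := d) (q := fun i => phW (z i)) (M := fun _ => 4)
    (fun _ => by omega) (fun i => coeff_zero_phW (hz0 i)) (fun i => PT_phW (hz2 i))
  rw [Finset.sum_const, Finset.card_univ, Fintype.card_fin, smul_eq_mul, mul_comm] at h
  exact h

/-- `PoleA_det` with `M = Function.update (fun _ => 4) i (A + 2)`, `PT_of_coeff`; `∑ = 4 (k - 1) + (A + 2)`. -/
theorem PoleA_WC {z : Fin k → MvPolynomial (Fin N) ℂ} (hz0 : ∀ i, constantCoeff (z i) = 0)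
    (hz2 : ∀ i, (z i).totalDegree ≤ 2) {A : ℕ} {H : Polynomial (AW N k d)} (hH0 : H.coeff 0 = 0)
    (hH : ∀ l ≤ k, PoleA A (H.coeff l)) (i : Fin k) : PoleA (4 * (k - 1) + (A + 2)) (WC z H i) := by
  have h := PoleA_det (N := N) (k := k) (d := d)
    (q := Function.update (fun i => phW (z i)) i H)
    (M := Function.update (fun _ => 4) i (A + 2))
    (fun j => by
      by_cases hj : j = i
      · subst hj
        rw [Function.update_self]
        omega
      · rw [Function.update_of_ne hj]
        omega)
    (fun j => by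
      by_cases hj : j = i
      · subst hj
        rw [Function.update_self]
        exact hH0
      · rw [Function.update_of_ne hj]
        exact coeff_zero_phW (hz0 j))
    (fun j => by
      by_cases hj : j = i
      · subst hj
        rw [Function.update_self, Function.update_self]
        exact PT_of_coeff hH
      · rw [Function.update_of_ne hj, Function.update_of_ne hj]
        exact PT_phW (hz2 j))
  rw [Finset.sum_update_of_mem (Finset.mem_univ i), Finset.sum_const, smul_eq_mul,
    Finset.card_sdiff, Finset.inter_univ, Finset.card_singleton, Finset.card_univ,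
    Fintype.card_fin, mul_comm, add_comm] at h
  exact h

/-- Cramer's rule: `matW (update q i H)` is `(matW q).updateCol i (fun l => H.coeff (l + 1))`, so its determinant is
`(matW q).cramer (fun l => H.coeff (l + 1)) i` (`Matrix.cramer_apply`); `Matrix.mulVec_cramer`.  The coefficients of `t ^ 0` vanish. -/
theorem cramer_matW {B : Type*} [CommRing B] (q : Fin k → Polynomial B) (H : Polynomial B)
    (hq : ∀ i, (q i).coeff 0 = 0) (hH : H.coeff 0 = 0) :
    (Polynomial.X : Polynomial B) ^ (k + 1) ∣
      (∑ i, Polynomial.C (matW (Function.update q i H)).det * q i) -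
        Polynomial.C (matW q).det * H := by
  rw [Polynomial.X_pow_dvd_iff]
  intro e he
  rw [Polynomial.coeff_sub, Polynomial.finsetSum_coeff, Polynomial.coeff_C_mul]
  rcases Nat.eq_zero_or_pos e with h0 | h0
  · subst h0
    rw [hH, mul_zero, sub_zero]
    refine Finset.sum_eq_zero fun i _ => ?_
    rw [Polynomial.coeff_C_mul, hq i, mul_zero]
  · obtain ⟨l, rfl⟩ : ∃ l, e = l + 1 := ⟨e - 1, by omega⟩
    have hl : l < k := by omega
    have h1 : ∀ i, (matW (Function.update q i H)).det =
        (matW q).cramer (fun l : Fin k => H.coeff ((l : ℕ) + 1)) i := by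
      intro i
      rw [Matrix.cramer_apply]
      congr 1
      ext r j
      rw [Matrix.updateCol_apply]
      unfold matW
      rw [Matrix.of_apply, Matrix.of_apply]
      by_cases hj : j = i
      · subst hj
        rw [Function.update_self, if_pos rfl]
      · rw [Function.update_of_ne hj, if_neg hj]
    have h2 := congrFun (Matrix.mulVec_cramer (matW q) (fun l : Fin k => H.coeff ((l : ℕ) + 1)))
      ⟨l, hl⟩
    rw [Matrix.mulVec, dotProduct, Pi.smul_apply, smul_eq_mul] at h2
    rw [← h2, sub_eq_zero]
    refine Finset.sum_congr rfl fun i _ => ?_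
    rw [Polynomial.coeff_C_mul, h1 i, mul_comm]
    rfl

end Pool.Agent.H78W
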