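import Pool.Agent.Lib.H78W.W4
import Pool.Agent.Lib.H78W.W8
import Pool.Agent.Lib.H89T.C1

set_option autoImplicit false

/-!
CHUNK W12 of H78W (moves for small degrees, PROOF.md).  The derivation of a move kills the equations.
-/

open MvPolynomial

namespace Pool.Agent.H78W

open Pool.Agent.H89T Pool.Agent.H67T Pool.Agent.H53U Pool.Agent.H78M

variable {N k c : ℕ} {d : Fin c → ℕ} {a : CI N d → ℂ} {φ : Fin N → MvPolynomial (Fin N) ℂ}
  {z : Fin k → MvPolynomial (Fin N) ℂ} {G : Fin c → MvPolynomial (Fin N) (AW N k d)}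

/-- `Fdx b a ξ = evd b (C ∘ a) (arc ξ)` is the value of `pderiv b (PF a j)` at the arc (`eval_pderiv_pol` over the polynomial ring, `map_pol`, `aeval = eval ∘ map`). -/
theorem aeval_arc_pderiv {B : Type*} [CommRing B] (a : CI N d → B) (ξ : JV N k → B) (b : Fin N)
    (j : Fin c) : aeval (arc ξ) (pderiv b (PF a j)) = Fdx b (fun α => a ⟨j, α⟩) ξ := by
  rw [aeval_def, eval₂_eq_eval_map, ← pderiv_map]
  unfold PF Fdx
  rw [map_pol, eval_pderiv_pol]
  rfl

theorem w12_DW_inl (p : JV N k) : DW φ z G (xW p) =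
    if p.2 = 0 then 0 else WW z * (phW (φ p.1)).coeff (p.2 : ℕ) := by
  unfold DW xW
  rw [mkDerivation_X, Sum.elim_inl]

theorem w12_DW_inr (q : CI N d) : DW φ z G (aW q) = cofs (d q.1) (G q.1) q.2 := by
  unfold DW aW
  rw [mkDerivation_X, Sum.elim_inr]

/-- All values of the derivation on the variables have poles of order at most `7 k`: `PoleA_WW` and `PB_phW` (`4 k + 2 l ≤ 6 k`), `poleG`. -/
theorem PoleA_DW (hM : MoveW a φ z G) {M : ℕ} {P : AW N k d} (h : PoleA M P) (r : ℕ) :
    PoleA (M + 7 * k * r) ((DW φ z G)^[r] P) := by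
  induction r with
  | zero => exact h
  | succ r ih =>
    rw [Function.iterate_succ_apply']
    have h1 : M + 7 * k * (r + 1) = (M + 7 * k * r) + 7 * k := by ring
    rw [h1]
    refine PoleA.mkDerivation ih ?_
    rintro (p | q)
    · rw [Sum.elim_inl]
      split_ifs with hp
      · exact PoleA_zero _
      · refine PoleA.mono ((PoleA_WW hM.z0 hM.z2).mul (PB_phW (φ p.1) (p.2 : ℕ))) ?_
        have := p.2.2
        omega
    · rw [Sum.elim_inr]
      exact hM.poleG q.1 _

theorem w12_arc (hM : MoveW a φ z G) (b : Fin N) :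
    (Polynomial.X : Polynomial (AW N k d)) ^ (k + 1) ∣
      cf (DW φ z G) (arc xW b) - Polynomial.C (WW z) * phW (φ b) := by
  rw [Polynomial.X_pow_dvd_iff]
  intro l hl
  have h1 := H78M.coeff_arc (xW : JV N k → AW N k d) b (⟨l, hl⟩ : Fin (k + 1))
  have h2 : (arc (xW : JV N k → AW N k d) b).coeff l = xW (b, (⟨l, hl⟩ : Fin (k + 1))) := h1
  rw [Polynomial.coeff_sub, coeff_cf, h2, w12_DW_inl, Polynomial.coeff_C_mul]
  by_cases hl0 : l = 0
  · subst hl0
    have h4 : ((b, (⟨0, hl⟩ : Fin (k + 1))) : JV N k).2 = 0 := rfl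
    rw [if_pos h4, coeff_zero_phW (hM.phi0 b), mul_zero, sub_zero]
  · have h4 : ¬ ((b, (⟨l, hl⟩ : Fin (k + 1))) : JV N k).2 = 0 := fun h => hl0 (congrArg Fin.val h)
    rw [if_neg h4, sub_self]

/-- `chain_rule` of H89T/C1.lean with `Δ = cfD (DW φ z G)`, `a = fun α => aW ⟨j, α⟩`, `ξ = xW`: `cf D (arc xW b)` is congruent to `C (WW z) * phW (φ b)` modulo `X ^ (k + 1)`
(`coeff_zero_phW`), `∑_α C (D (aW ⟨j, α⟩)) * ∏ arc xW b ^ α_b = aeval (arc xW) (G j)` (`degG`, `pol_cofs`, as `g20_gen`), `aeval_arc_pderiv`; so the coefficient of `t ^ i` is that of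
`aeval (arc xW) (G j) + C (WW z) * HH φ j`, `0` by `congG`. -/
theorem DW_uu (hM : MoveW a φ z G) (j : Fin c) {i : ℕ} (hi : i ≤ k) :
    DW φ z G (uu (fun α => aW ⟨j, α⟩) xW i) = 0 := by
  have h2 := chain_rule (cfD (DW φ z G)) (fun α : Idx N (d j) => (aW ⟨j, α⟩ : AW N k d)) (xW : JV N k → AW N k d)
  simp only [cfD_apply, cf_C, w12_DW_inr] at h2
  have h3 : (∑ α : Idx N (d j), Polynomial.C (cofs (d j) (G j) α) *
      ∏ b, arc (xW : JV N k → AW N k d) b ^ (α.1 b : ℕ)) = Fx (cofs (d j) (G j)) xW := rfl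
  rw [h3] at h2
  unfold uu
  rw [← coeff_cf, h2, Polynomial.coeff_add]
  have h4 : (Fx (cofs (d j) (G j)) (xW : JV N k → AW N k d)).coeff i =
      (aeval (arc xW) (G j)).coeff i := g20_gen G hM.degG xW j i
  have h5 : (∑ b, Fdx b (fun α : Idx N (d j) => (aW ⟨j, α⟩ : AW N k d)) (xW : JV N k → AW N k d) *
      cf (DW φ z G) (arc xW b)).coeff i = (Polynomial.C (WW z) * HH φ j).coeff i := by
    refine g20_coeff (s := k + 1) ?_ (by omega)
    have h6 : Polynomial.C (WW z) * HH φ j =
        ∑ b, Fdx b (fun α : Idx N (d j) => (aW ⟨j, α⟩ : AW N k d)) (xW : JV N k → AW N k d) *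
          (Polynomial.C (WW z) * phW (φ b)) := by
      unfold HH
      rw [Finset.mul_sum]
      refine Finset.sum_congr rfl fun b _ => ?_
      rw [aeval_arc_pderiv]
      ring
    rw [h6, ← Finset.sum_sub_distrib]
    refine Finset.dvd_sum fun b _ => ?_
    rw [← mul_sub]
    exact Dvd.dvd.mul_left (w12_arc hM b) _
  rw [h4, h5, ← Polynomial.coeff_add]
  exact Polynomial.X_pow_dvd_iff.1 (hM.congG j) i (by omega)

/-- `induction_on`; `zeroG` for the coefficients, `x ↦ 0`. -/
theorem sgW_DW (hM : MoveW a φ z G) (P : AW N k d) : sgW a (DW φ z G P) = DV a φ z (sgW a P) := by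
  induction P using MvPolynomial.induction_on with
  | C t =>
    have h1 : DW φ z G (C t) = 0 := by
      unfold DW
      exact derivation_C _ _
    have h2 : sgW (N := N) (k := k) (d := d) a (C t) = C t := by
      unfold sgW
      exact aeval_C _ _
    rw [h1, h2, map_zero]
    unfold DV
    exact (derivation_C _ _).symm
  | add P Q hP hQ => rw [map_add, map_add, hP, hQ, map_add, map_add]
  | mul_X P g hP =>
    rw [Derivation.leibniz, map_add, smul_eq_mul, smul_eq_mul, map_mul, map_mul, hP, map_mul,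
      Derivation.leibniz, smul_eq_mul, smul_eq_mul]
    congr 2
    rcases g with p | q
    · have h1 := w12_DW_inl (φ := φ) (z := z) (G := G) p
      have h2 : sgW a (X (Sum.inl p) : AW N k d) = if p.2 = 0 then 0 else X p := by
        unfold sgW
        rw [aeval_X, Sum.elim_inl]
      unfold xW at h1
      rw [h1, h2]
      split_ifs with hp
      · rw [map_zero, map_zero]
      · unfold DV
        rw [mkDerivation_X, if_neg hp]
    · have h1 := w12_DW_inr (φ := φ) (z := z) (G := G) q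
      have h2 : sgW a (X (Sum.inr q) : AW N k d) = C (a q) := by
        unfold sgW
        rw [aeval_X, Sum.elim_inr]
      unfold aW at h1
      rw [h1, h2]
      have h3 : sgW a (cofs (d q.1) (G q.1) q.2) = 0 := hM.zeroG q.1 _
      rw [h3]
      unfold DV
      exact (derivation_C _ _).symm

theorem sgW_DW_iterate (hM : MoveW a φ z G) (P : AW N k d) (r : ℕ) :
    sgW a ((DW φ z G)^[r] P) = (DV a φ z)^[r] (sgW a P) := by
  induction r with
  | zero => rfl
  | succ r ih => rw [Function.iterate_succ_apply', Function.iterate_succ_apply', sgW_DW hM, ih]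

end Pool.Agent.H78W
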