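import Pool.Agent.Lib.H78W.W1

set_option autoImplicit false

/-!
CHUNK W2 of H78W (moves for small degrees, PROOF.md).  Poles in the universal ring: calculus.
-/

open MvPolynomial

namespace Pool.Agent.H78W

open Pool.Agent.H89T Pool.Agent.H67T Pool.Agent.H53U Pool.Agent.H78M

variable {N k c : ℕ} {d : Fin c → ℕ} {P Q : AW N k d} {M M' : ℕ}

theorem mulJ_zero {B : Type*} [CommRing B] (s : Fin (k + 1) → B) (ζ : JV N k → B) (l : Fin (k + 1)) :
    mulJ s ζ (0, l) = s l := rfl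

theorem mulJ_succ {B : Type*} [CommRing B] (s : Fin (k + 1) → B) (ζ : JV N k → B) (b : Fin N)
    (l : Fin (k + 1)) : mulJ s ζ (b.succ, l) = (sT s * arc ζ b).coeff (l : ℕ) := rfl

theorem w2_coeff_sT {B : Type*} [CommRing B] (s : Fin (k + 1) → B) (l : ℕ) (hl : l < k + 1) :
    (sT s).coeff l = s ⟨l, hl⟩ := by
  unfold sT
  rw [Polynomial.finsetSum_coeff, Finset.sum_eq_single (⟨l, hl⟩ : Fin (k + 1))]
  · simp
  · intro b _ hb
    rw [Polynomial.coeff_C_mul, Polynomial.coeff_X_pow, if_neg, mul_zero]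
    intro h
    exact hb (Fin.ext h.symm)
  · intro h
    exact absurd (Finset.mem_univ _) h

theorem coeff_sT {B : Type*} [CommRing B] (s : Fin (k + 1) → B) (l : Fin (k + 1)) :
    (sT s).coeff (l : ℕ) = s l := w2_coeff_sT s l l.2

theorem PoleA_C (t : ℂ) : PoleA 0 (C t : AW N k d) :=
  ⟨C t, YD_C t, fun a s ζ => by simp⟩

theorem PoleA_aW (q : CI N d) : PoleA 0 (aW q : AW N k d) :=
  ⟨X (Sum.inr q), YD_inr q, fun a s ζ => by simp [aW]⟩

/-- Multiply `R` by `X (inl (0, 0)) ^ (M' - M)` (`mulJ_zero`). -/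
theorem PoleA.mono (h : PoleA M P) (hM : M ≤ M') : PoleA M' P := by
  obtain ⟨R, hR, h⟩ := h
  refine ⟨X (Sum.inl (0, 0)) ^ (M' - M) * R, ?_, fun a s ζ => ?_⟩
  · have := ((YD_inl (N := N) (k := k) (d := d) (0, 0)).pow (M' - M)).mul hR
    rw [mul_one, Nat.sub_add_cancel hM] at this
    exact this
  · rw [eval_mul, eval_pow, eval_X, Sum.elim_inl, mulJ_zero, ← h a s ζ, ← mul_assoc, ← pow_add,
      Nat.sub_add_cancel hM]

theorem PoleA_zero (M : ℕ) : PoleA M (0 : AW N k d) :=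
  ⟨0, YD_zero M, fun a s ζ => by simp⟩

theorem PoleA.add (h : PoleA M P) (h' : PoleA M Q) : PoleA M (P + Q) := by
  obtain ⟨R, hR, h⟩ := h
  obtain ⟨S, hS, h'⟩ := h'
  refine ⟨R + S, hR.add hS, fun a s ζ => ?_⟩
  rw [eval_add, eval_add, mul_add, h a s ζ, h' a s ζ]

theorem PoleA.neg (h : PoleA M P) : PoleA M (- P) := by
  obtain ⟨R, hR, h⟩ := h
  refine ⟨- R, hR.neg, fun a s ζ => ?_⟩
  rw [eval_neg, eval_neg, mul_neg, h a s ζ]

theorem PoleA.sub (h : PoleA M P) (h' : PoleA M Q) : PoleA M (P - Q) := by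
  rw [sub_eq_add_neg]
  exact h.add h'.neg

theorem PoleA.mul (h : PoleA M P) (h' : PoleA M' Q) : PoleA (M + M') (P * Q) := by
  obtain ⟨R, hR, h⟩ := h
  obtain ⟨S, hS, h'⟩ := h'
  refine ⟨R * S, hR.mul hS, fun a s ζ => ?_⟩
  rw [eval_mul, eval_mul, ← h a s ζ, ← h' a s ζ, pow_add]
  ring

theorem PoleA.pow (h : PoleA M P) (e : ℕ) : PoleA (e * M) (P ^ e) := by
  induction e with
  | zero =>
    rw [pow_zero, zero_mul, ← C_1]
    exact PoleA_C 1
  | succ e ih =>
    rw [pow_succ, Nat.succ_mul]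
    exact ih.mul h

theorem PoleA.sum {ι : Type*} (t : Finset ι) {f : ι → AW N k d} (h : ∀ i ∈ t, PoleA M (f i)) :
    PoleA M (∑ i ∈ t, f i) := by
  classical
  induction t using Finset.induction_on with
  | empty =>
    rw [Finset.sum_empty]
    exact PoleA_zero M
  | insert i t hi ih =>
    rw [Finset.sum_insert hi]
    exact (h i (Finset.mem_insert_self i t)).add (ih fun j hj => h j (Finset.mem_insert_of_mem hj))

theorem PoleA.prod {ι : Type*} (t : Finset ι) {f : ι → AW N k d} {m : ι → ℕ}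
    (h : ∀ i ∈ t, PoleA (m i) (f i)) : PoleA (∑ i ∈ t, m i) (∏ i ∈ t, f i) := by
  classical
  induction t using Finset.induction_on with
  | empty =>
    rw [Finset.sum_empty, Finset.prod_empty, ← C_1]
    exact PoleA_C 1
  | insert i t hi ih =>
    rw [Finset.sum_insert hi, Finset.prod_insert hi]
    exact (h i (Finset.mem_insert_self i t)).mul (ih fun j hj => h j (Finset.mem_insert_of_mem hj))

theorem w2_PoleA_xW (b : Fin N) (l : ℕ) :
    ∀ hl : l < k + 1, PoleA (l + 1) (xW (b, ⟨l, hl⟩) : AW N k d) := by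
  induction l using Nat.strong_induction_on with
  | _ l ih =>
    intro hl
    have hex : ∀ i : Fin l, ∃ R : MvPolynomial (JV (N + 1) k ⊕ CI N d) ℂ, YD (l - i) R ∧
        ∀ (a : CI N d → ℂ) (s : Fin (k + 1) → ℂ) (ζ : JV N k → ℂ),
          s 0 ^ (l - (i : ℕ)) * ζ (b, ⟨l - 1 - i, by omega⟩) =
            eval (Sum.elim (mulJ s ζ) a) R := by
      intro i
      obtain ⟨R, hR, h⟩ := ih (l - 1 - i) (by have := i.2; omega) (by have := i.2; omega)
      have e : l - 1 - (i : ℕ) + 1 = l - i := by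
        have := i.2
        omega
      rw [e] at hR h
      refine ⟨R, hR, fun a s ζ => ?_⟩
      have := h a s ζ
      rw [xW, eval_X, Sum.elim_inl] at this
      exact this
    choose R hR h using hex
    refine ⟨X (Sum.inl (0, 0)) ^ l * X (Sum.inl (b.succ, ⟨l, hl⟩)) -
      ∑ i : Fin l, X (Sum.inl (0, ⟨(i : ℕ) + 1, by have := i.2; omega⟩)) *
        (X (Sum.inl (0, 0)) ^ (i : ℕ) * R i), ?_, fun a s ζ => ?_⟩
    · rw [sub_eq_add_neg]
      refine YD.add ?_ (YD.neg (YD.sum _ fun i _ => ?_))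
      · have := ((YD_inl (N := N) (k := k) (d := d) (0, 0)).pow l).mul
          (YD_inl (N := N) (k := k) (d := d) (b.succ, ⟨l, hl⟩))
        rw [mul_one] at this
        exact this
      · have := (YD_inl (N := N) (k := k) (d := d)
          (0, ⟨(i : ℕ) + 1, by have := i.2; omega⟩)).mul
          (((YD_inl (N := N) (k := k) (d := d) (0, 0)).pow (i : ℕ)).mul (hR i))
        have e : 1 + ((i : ℕ) * 1 + (l - i)) = l + 1 := by
          have := i.2
          omega
        rw [e] at this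
        exact this
    · rw [xW, eval_X, Sum.elim_inl, eval_sub, eval_mul, eval_pow, eval_X, eval_X, Sum.elim_inl,
        Sum.elim_inl, mulJ_zero, mulJ_succ, map_sum]
      have hY : (sT s * arc ζ b).coeff l = s 0 * ζ (b, ⟨l, hl⟩) +
          ∑ i : Fin l, s ⟨(i : ℕ) + 1, by have := i.2; omega⟩ *
            ζ (b, ⟨l - 1 - i, by have := i.2; omega⟩) := by
        rw [Polynomial.coeff_mul, Finset.Nat.sum_antidiagonal_eq_sum_range_succ
          (fun i j => (sT s).coeff i * (arc ζ b).coeff j), Finset.sum_range_succ', add_comm,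
          Finset.sum_range]
        have h0 : (sT s).coeff 0 = s 0 := coeff_sT s 0
        rw [h0, Nat.sub_zero, H89T.coeff_arc, dif_pos hl]
        refine congrArg₂ _ rfl (Finset.sum_congr rfl fun i _ => ?_)
        have hi := i.2
        have e : l - ((i : ℕ) + 1) = l - 1 - i := by omega
        rw [w2_coeff_sT s ((i : ℕ) + 1) (by omega), e, H89T.coeff_arc, dif_pos (by omega)]
      rw [hY, mul_add, add_sub_assoc]
      have hz : s 0 ^ l * ∑ i : Fin l, s ⟨(i : ℕ) + 1, by have := i.2; omega⟩ *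
            ζ (b, ⟨l - 1 - i, by have := i.2; omega⟩) -
          ∑ i : Fin l, eval (Sum.elim (mulJ s ζ) a)
            (X (Sum.inl (0, ⟨(i : ℕ) + 1, by have := i.2; omega⟩)) *
              (X (Sum.inl (0, 0)) ^ (i : ℕ) * R i)) = 0 := by
        rw [Finset.mul_sum, ← Finset.sum_sub_distrib]
        refine Finset.sum_eq_zero fun i _ => ?_
        rw [eval_mul, eval_mul, eval_pow, eval_X, eval_X, Sum.elim_inl, Sum.elim_inl, mulJ_zero,
          mulJ_zero, ← h i a s ζ]
        have e : s 0 ^ l = s 0 ^ (i : ℕ) * s 0 ^ (l - (i : ℕ)) := by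
          rw [← pow_add]
          have := i.2
          congr 1
          omega
        rw [e]
        ring
      rw [hz]
      ring

/-- Induction on `l` (strong): with `Y_l = mulJ s ζ (b.succ, l) = ∑_{i + j = l} s_i ζ_j` (`Polynomial.coeff_mul`, `coeff_arc`)
`s_0 ^ (l + 1) ζ_l = s_0 ^ l Y_l - ∑_{i = 1}^l s_i s_0 ^ (i - 1) (s_0 ^ (l - i + 1) ζ_{l - i})`. -/
theorem PoleA_xW (b : Fin N) (l : Fin (k + 1)) : PoleA ((l : ℕ) + 1) (xW (b, l) : AW N k d) :=
  w2_PoleA_xW b l l.2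

/-- Polynomials in `x` of degree at most `e`. -/
theorem PoleA_x {e : ℕ} {g : MvPolynomial (Fin N) ℂ} (h : g.totalDegree ≤ e) :
    PoleA e (aeval (fun b => xW (b, 0)) g : AW N k d) := by
  rw [aeval_def, eval₂_eq']
  refine PoleA.sum _ fun μ hμ => ?_
  have h1 : PoleA (0 + ∑ b : Fin N, μ b * ((0 : Fin (k + 1)) + 1 : ℕ))
      (algebraMap ℂ (AW N k d) (coeff μ g) * ∏ i, (xW (i, 0) : AW N k d) ^ μ i) :=
    (PoleA_C _).mul (PoleA.prod _ fun b _ => (PoleA_xW b 0).pow (μ b))
  refine h1.mono ?_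
  have h2 := le_totalDegree hμ
  rw [Finsupp.sum_fintype _ _ (fun _ => rfl)] at h2
  simp only [Fin.val_zero, zero_add, mul_one]
  exact h2.trans h

end Pool.Agent.H78W
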