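import Pool.Agent.Lib.H78W.W2

set_option autoImplicit false

/-!
CHUNK W3 of H78W (moves for small degrees, PROOF.md).  The jet differentials as elements of the universal ring; specialization of the coefficients.
-/

open MvPolynomial

namespace Pool.Agent.H78W

open Pool.Agent.H89T Pool.Agent.H67T Pool.Agent.H53U Pool.Agent.H78M

variable {N k c : ℕ} {d : Fin c → ℕ}

theorem w3_eval_aeval {σ τ : Type*} (g : σ → MvPolynomial τ ℂ) (ζ : τ → ℂ)
    (R : MvPolynomial σ ℂ) : eval ζ (aeval g R) = eval (fun p => eval ζ (g p)) R := by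
  induction R using MvPolynomial.induction_on with
  | C t => rw [aeval_C, eval_C]; exact eval_C t
  | add p q hp hq => rw [map_add, map_add, map_add, hp, hq]
  | mul_X p q hp => rw [map_mul, map_mul, map_mul, hp, aeval_X, eval_X]

theorem w3_rename (r : RC N d) : PoleA 0 (rename Sum.inr r : AW N k d) := by
  induction r using MvPolynomial.induction_on with
  | C t =>
    rw [rename_C]
    exact PoleA_C t
  | add p q hp hq =>
    rw [map_add]
    exact hp.add hq
  | mul_X p q hp =>
    rw [map_mul, rename_X]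
    exact hp.mul (PoleA_aW q)

theorem w3_weight (μ : JV N k →₀ ℕ) :
    ∑ p : JV N k, μ p * ((p.2 : ℕ) + 1) ≤ xd μ + 2 * H78M.jw μ := by
  have h1 : xd μ = ∑ p : JV N k, if p.2 = 0 then μ p else 0 := by
    rw [Fintype.sum_prod_type]
    unfold xd
    refine Finset.sum_congr rfl fun b _ => ?_
    rw [Finset.sum_ite_eq' Finset.univ (0 : Fin (k + 1)) (fun l => μ (b, l)),
      if_pos (Finset.mem_univ _)]
  rw [h1]
  unfold H78M.jw
  rw [Finset.mul_sum, ← Finset.sum_add_distrib]
  refine Finset.sum_le_sum fun p _ => ?_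
  by_cases h : p.2 = 0
  · rw [if_pos h, h]
    simp
  · rw [if_neg h]
    have h2 : 1 ≤ (p.2 : ℕ) := by
      rcases Nat.eq_zero_or_pos (p.2 : ℕ) with h3 | h3
      · exact absurd (Fin.ext h3) h
      · exact h3
    nlinarith [Nat.zero_le (μ p)]

/-- `P` is the sum of the monomials `C r * X ^ μ`, `μ` in the support; `rename Sum.inr r` is `PoleA 0` (`induction_on`), `∏ xW p ^ μ p` is
`PoleA (∑ (l_p + 1) μ_p)` (`PoleA_xW`), and `∑ (l_p + 1) μ_p ≤ xd μ + 2 jw μ` (`l + 1 ≤ 2 l` for `l ≥ 1`). -/
theorem PoleA_flW {a0 m : ℕ} {P : MvPolynomial (JV N k) (RC N d)} (h : BiDegK a0 m P) :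
    PoleA (a0 + 2 * m) (flW N k d P) := by
  unfold flW
  rw [coe_eval₂Hom, eval₂_eq']
  refine PoleA.sum _ fun μ hμ => ?_
  have h1 : PoleA (0 + ∑ p : JV N k, μ p * ((p.2 : ℕ) + 1))
      ((rename Sum.inr : RC N d →ₐ[ℂ] AW N k d).toRingHom (coeff μ P) *
        ∏ i, (xW i : AW N k d) ^ μ i) :=
    (w3_rename _).mul (PoleA.prod _ fun p _ => (PoleA_xW p.1 p.2).pow (μ p))
  refine h1.mono ?_
  have h2 := w3_weight μ
  have h3 := h μ hμ
  rw [zero_add]
  calc ∑ p : JV N k, μ p * ((p.2 : ℕ) + 1) ≤ xd μ + 2 * H78M.jw μ := h2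
    _ ≤ a0 + 2 * m := by
      rw [h3.2]
      exact Nat.add_le_add_right h3.1 _

/-- `R ↦ aeval (Sum.elim X (C ∘ a)) R`: the total degree is at most `M` (every monomial of `R` becomes a constant times a monomial of degree
`∑ p, μ (inl p)`). -/
theorem PoleA.spW {M : ℕ} {P : AW N k d} (h : PoleA M P) (a : CI N d → ℂ) :
    HasPole M (H78W.spW a P) := by
  obtain ⟨R, hR, h⟩ := h
  refine ⟨aeval (Sum.elim (fun p => X p) fun q => C (a q)) R, ?_, fun s ζ => ?_⟩
  · rw [aeval_def, eval₂_eq']
    refine (totalDegree_finsetSum_le fun μ hμ => ?_)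
    refine (totalDegree_mul _ _).trans ?_
    have h1 : (algebraMap ℂ (MvPolynomial (JV (N + 1) k) ℂ) (coeff μ R)).totalDegree = 0 :=
      totalDegree_C _
    rw [h1, zero_add, Fintype.prod_sum_type]
    refine (totalDegree_mul _ _).trans ?_
    have h2 : (∏ q : CI N d, (Sum.elim (fun p => (X p : MvPolynomial (JV (N + 1) k) ℂ))
        (fun q => C (a q)) (Sum.inr q)) ^ μ (Sum.inr q)).totalDegree = 0 := by
      have : (∏ q : CI N d, (Sum.elim (fun p => (X p : MvPolynomial (JV (N + 1) k) ℂ))
        (fun q => C (a q)) (Sum.inr q)) ^ μ (Sum.inr q)) =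
          C (∏ q : CI N d, a q ^ μ (Sum.inr q)) := by
        rw [map_prod]
        refine Finset.prod_congr rfl fun q _ => ?_
        rw [Sum.elim_inr, C_pow]
      rw [this]
      exact totalDegree_C _
    rw [h2, add_zero]
    refine (totalDegree_finsetProd _ _).trans (le_trans (Finset.sum_le_sum fun p _ => ?_) (hR μ hμ))
    rw [Sum.elim_inl]
    refine (totalDegree_pow _ _).trans ?_
    rw [totalDegree_X, mul_one]
  · have h1 : eval ζ (H78W.spW a P) = eval (Sum.elim ζ a) P := by
      unfold H78W.spW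
      rw [w3_eval_aeval]
      congr 1
      congr 1
      funext p
      rcases p with p | q <;> simp
    have h2 : eval (mulJ s ζ) (aeval (Sum.elim (fun p => X p) fun q => C (a q)) R) =
        eval (Sum.elim (mulJ s ζ) a) R := by
      rw [w3_eval_aeval]
      congr 1
      congr 1
      funext p
      rcases p with p | q <;> simp
    rw [h1, h2, h a s ζ]

theorem HasPole.mono {M M' : ℕ} {P : MvPolynomial (JV N k) ℂ} (h : HasPole M P) (hM : M ≤ M') :
    HasPole M' P := by
  obtain ⟨R, hR, h⟩ := h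
  refine ⟨X (0, 0) ^ (M' - M) * R, ?_, fun s ζ => ?_⟩
  · refine (totalDegree_mul _ _).trans ?_
    have h1 := totalDegree_pow (X (0, 0) : MvPolynomial (JV (N + 1) k) ℂ) (M' - M)
    rw [totalDegree_X, mul_one] at h1
    omega
  · rw [eval_mul, eval_pow, eval_X, mulJ_zero, ← h s ζ, ← mul_assoc, ← pow_add,
      Nat.sub_add_cancel hM]

/-- `s = (1, 0, ..., 0)`: `P (ζ) = R (mulJ s ζ)`, and `mulJ s ζ = (1, 0, ..., 0; ζ)`; `MvPolynomial.funext`. -/
theorem HasPole.totalDegree_le {M : ℕ} {P : MvPolynomial (JV N k) ℂ} (h : HasPole M P) :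
    P.totalDegree ≤ M := by
  obtain ⟨R, hR, h⟩ := h
  let s : Fin (k + 1) → ℂ := fun l => if l = 0 then 1 else 0
  let g : JV (N + 1) k → MvPolynomial (JV N k) ℂ := fun p =>
    Fin.cases (motive := fun _ => MvPolynomial (JV N k) ℂ) (C (s p.2)) (fun b => X (b, p.2)) p.1
  have hs : sT s = 1 := by
    ext l
    by_cases hl : l < k + 1
    · rw [w2_coeff_sT s l hl, Polynomial.coeff_one]
      show (if (⟨l, hl⟩ : Fin (k + 1)) = 0 then (1 : ℂ) else 0) = _
      by_cases h0 : l = 0
      · subst h0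
        rw [if_pos rfl, if_pos (by rfl)]
      · rw [if_neg h0, if_neg]
        intro h1
        exact h0 (congrArg Fin.val h1)
    · have h0 : l ≠ 0 := by omega
      rw [Polynomial.coeff_one, if_neg h0]
      unfold sT
      rw [Polynomial.finsetSum_coeff]
      refine Finset.sum_eq_zero fun b _ => ?_
      rw [Polynomial.coeff_C_mul, Polynomial.coeff_X_pow, if_neg, mul_zero]
      intro h1
      exact hl (h1 ▸ b.2)
  have hP : P = aeval g R := by
    refine MvPolynomial.funext fun ζ => ?_
    have h1 := h s ζ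
    have h2 : s 0 = 1 := if_pos rfl
    rw [h2, one_pow, one_mul] at h1
    rw [h1]
    rw [w3_eval_aeval]
    congr 1
    congr 1
    funext p
    obtain ⟨b, l⟩ := p
    induction b using Fin.cases with
    | zero => 
      rw [mulJ_zero]
      show s l = eval ζ (C (s l))
      rw [eval_C]
    | succ b =>
      rw [mulJ_succ, hs, one_mul, H78M.coeff_arc]
      show ζ (b, l) = eval ζ (X (b, l))
      rw [eval_X]
  have hg : ∀ p, (g p).totalDegree ≤ 1 := by
    rintro ⟨b, l⟩
    induction b using Fin.cases with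
    | zero =>
      show (C (s l) : MvPolynomial (JV N k) ℂ).totalDegree ≤ 1
      rw [totalDegree_C]
      exact Nat.zero_le _
    | succ b =>
      show (X (b, l) : MvPolynomial (JV N k) ℂ).totalDegree ≤ 1
      rw [totalDegree_X]
  rw [hP, aeval_def, eval₂_eq']
  refine totalDegree_finsetSum_le fun μ hμ => ?_
  refine (totalDegree_mul _ _).trans ?_
  have h1 : (algebraMap ℂ (MvPolynomial (JV N k) ℂ) (coeff μ R)).totalDegree = 0 := totalDegree_C _
  rw [h1, zero_add]
  refine (totalDegree_finsetProd _ _).trans ?_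
  have h2 := le_totalDegree hμ
  rw [Finsupp.sum_fintype _ _ (fun _ => rfl)] at h2
  refine le_trans (Finset.sum_le_sum fun p _ => ?_) (h2.trans hR)
  refine (totalDegree_pow _ _).trans ?_
  exact (Nat.mul_le_mul_left _ (hg p)).trans (by rw [mul_one])

end Pool.Agent.H78W
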