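import Pool.Agent.Lib.H78W.W2

set_option autoImplicit false

/-!
CHUNK W4 of H78W (moves for small degrees, PROOF.md).  First order expansion; derivations increase the pole order by a constant.
-/

open MvPolynomial

namespace Pool.Agent.H78W

open Pool.Agent.H89T Pool.Agent.H67T Pool.Agent.H53U Pool.Agent.H78M

variable {N k c : ℕ} {d : Fin c → ℕ}

/-- The product of the arcs, coefficient by coefficient. -/
theorem w4_coeff {B : Type*} [CommRing B] (s : Fin (k + 1) → B) (ζ : JV N k → B) (b : Fin N) (n : ℕ) :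
    (sT s * arc ζ b).coeff n =
      ∑ i : Fin (k + 1), ∑ j : Fin (k + 1), if (i : ℕ) + (j : ℕ) = n then s i * ζ (b, j) else 0 := by
  unfold sT arc
  rw [Finset.sum_mul_sum, Polynomial.finsetSum_coeff]
  refine Finset.sum_congr rfl fun i _ => ?_
  rw [Polynomial.finsetSum_coeff]
  refine Finset.sum_congr rfl fun j _ => ?_
  have e : Polynomial.C (s i) * Polynomial.X ^ (i : ℕ) * (Polynomial.C (ζ (b, j)) * Polynomial.X ^ (j : ℕ)) =
      Polynomial.C (s i * ζ (b, j)) * Polynomial.X ^ ((i : ℕ) + (j : ℕ)) := by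
    rw [Polynomial.C_mul, pow_add]
    ring
  rw [e, Polynomial.coeff_C_mul_X_pow]
  by_cases h : (i : ℕ) + (j : ℕ) = n
  · rw [if_pos h, if_pos h.symm]
  · rw [if_neg h, if_neg (Ne.symm h)]

/-- The value of the line at a number. -/
theorem w4_eval {σ : Type*} (p q : σ → ℂ) (P : MvPolynomial σ ℂ) (ε : ℂ) :
    (eval₂ Polynomial.C (fun g => Polynomial.C (p g) + Polynomial.C (q g) * Polynomial.X) P).eval ε =
      eval (fun g => p g + q g * ε) P := by
  have h := eval₂_comp_left (Polynomial.evalRingHom ε) Polynomial.C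
    (fun g => Polynomial.C (p g) + Polynomial.C (q g) * Polynomial.X) P
  rw [Polynomial.coe_evalRingHom] at h
  rw [h]
  have e1 : (Polynomial.evalRingHom ε).comp Polynomial.C = RingHom.id ℂ := by
    ext x
    simp
  have e2 : (Polynomial.eval ε ∘ fun g => Polynomial.C (p g) + Polynomial.C (q g) * Polynomial.X) =
      fun g => p g + q g * ε := by
    funext g
    simp
  rw [e1, e2]
  rfl

theorem w4_coeff_zero {σ : Type*} (p q : σ → ℂ) (P : MvPolynomial σ ℂ) :
    (eval₂ Polynomial.C (fun g => Polynomial.C (p g) + Polynomial.C (q g) * Polynomial.X) P).coeff 0 =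
      eval p P := by
  rw [Polynomial.coeff_zero_eq_eval_zero, w4_eval]
  simp

/-- The arc of a first order deformation. -/
theorem w4_line (s : Fin (k + 1) → ℂ) (ζ ζ' : JV N k → ℂ) (ε : ℂ) (b : Fin N) (n : ℕ) :
    (sT s * arc (fun p => ζ p + ζ' p * ε) b).coeff n =
      (sT s * arc ζ b).coeff n + (sT s * arc ζ' b).coeff n * ε := by
  rw [w4_coeff, w4_coeff, w4_coeff, Finset.sum_mul, ← Finset.sum_add_distrib]
  refine Finset.sum_congr rfl fun i _ => ?_
  rw [Finset.sum_mul, ← Finset.sum_add_distrib]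
  refine Finset.sum_congr rfl fun j _ => ?_
  by_cases h : (i : ℕ) + (j : ℕ) = n
  · rw [if_pos h, if_pos h, if_pos h]
    ring
  · rw [if_neg h, if_neg h, if_neg h]
    ring

/-- `induction_on`: `C`, sums, and `P * X g` (`Polynomial.coeff_mul` or `mul_coeff_one`; `pderiv_mul`, the sum with `Pi.single`/`pderiv_X`). -/
theorem coeff_one_line {σ : Type*} [Fintype σ] (p q : σ → ℂ) (P : MvPolynomial σ ℂ) :
    (eval₂ Polynomial.C (fun g => Polynomial.C (p g) + Polynomial.C (q g) * Polynomial.X) P).coeff 1 =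
      ∑ g, eval p (pderiv g P) * q g := by
  classical
  induction P using MvPolynomial.induction_on with
  | C t =>
    rw [eval₂_C, Polynomial.coeff_C, if_neg one_ne_zero]
    refine (Finset.sum_eq_zero fun g _ => ?_).symm
    rw [pderiv_C, map_zero, zero_mul]
  | add P Q hP hQ =>
    rw [eval₂_add, Polynomial.coeff_add, hP, hQ, ← Finset.sum_add_distrib]
    refine Finset.sum_congr rfl fun g _ => ?_
    rw [map_add, map_add, add_mul]
  | mul_X P g' hP =>
    rw [eval₂_mul, eval₂_X, Polynomial.mul_coeff_one, hP, w4_coeff_zero]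
    have e1 : (Polynomial.C (p g') + Polynomial.C (q g') * Polynomial.X : Polynomial ℂ).coeff 1 = q g' := by
      simp
    have e0 : (Polynomial.C (p g') + Polynomial.C (q g') * Polynomial.X : Polynomial ℂ).coeff 0 = p g' := by
      simp
    have e2 : ∀ g, eval p (pderiv g (P * X g')) * q g =
        eval p (pderiv g P) * q g * p g' + if g = g' then eval p P * q g' else 0 := by
      intro g
      rw [pderiv_mul, map_add, map_mul, map_mul, eval_X, pderiv_X]
      by_cases h : g = g'
      · rw [if_pos h, h, Pi.single_eq_same, map_one]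
        ring
      · rw [if_neg h, Pi.single_eq_of_ne (Ne.symm h), map_zero]
        ring
    rw [e1, e0, Finset.sum_congr rfl fun g _ => e2 g, Finset.sum_add_distrib, ← Finset.sum_mul,
      Finset.sum_ite_eq' Finset.univ g', if_pos (Finset.mem_univ _)]
    ring

/-- `mkDerivation ℂ f P = ∑ g, pderiv g P * f g` (both are derivations in `P`, `derivation_ext`, or `induction_on`). -/
theorem eval_mkDerivation {σ : Type*} [Fintype σ] (f : σ → MvPolynomial σ ℂ) (p : σ → ℂ)
    (P : MvPolynomial σ ℂ) :
    eval p (mkDerivation ℂ f P) = ∑ g, eval p (pderiv g P) * eval p (f g) := by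
  classical
  induction P using MvPolynomial.induction_on with
  | C t =>
    have e0 : MvPolynomial.mkDerivation ℂ f (C t) = 0 := (MvPolynomial.mkDerivation ℂ f).map_algebraMap t
    rw [e0, map_zero]
    refine (Finset.sum_eq_zero fun g _ => ?_).symm
    rw [pderiv_C, map_zero, zero_mul]
  | add P Q hP hQ =>
    rw [map_add, map_add, hP, hQ, ← Finset.sum_add_distrib]
    refine Finset.sum_congr rfl fun g _ => ?_
    rw [map_add, map_add, add_mul]
  | mul_X P g' hP =>
    have e2 : ∀ g, eval p (pderiv g (P * X g')) * eval p (f g) =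
        eval p (pderiv g P) * eval p (f g) * p g' + if g = g' then eval p P * eval p (f g') else 0 := by
      intro g
      rw [pderiv_mul, map_add, map_mul, map_mul, eval_X, pderiv_X]
      by_cases h : g = g'
      · rw [if_pos h, h, Pi.single_eq_same, map_one]
        ring
      · rw [if_neg h, Pi.single_eq_of_ne (Ne.symm h), map_zero]
        ring
    rw [Derivation.leibniz, mkDerivation_X, smul_eq_mul, smul_eq_mul, map_add, map_mul, map_mul, hP, eval_X,
      Finset.sum_congr rfl fun g _ => e2 g, Finset.sum_add_distrib, ← Finset.sum_mul,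
      Finset.sum_ite_eq' Finset.univ g', if_pos (Finset.mem_univ _)]
    ring

/-- THE DERIVATION LEMMA.  Let `R` belong to `P` and `R_g` to `f g` (pole `e`), `(ζ', a') = (f g (ζ, a))_g`.  `mulJ s (ζ + ε ζ')` is `mulJ s ζ + ε η'` with
`η' (0, l) = 0`, `η' (b.succ, l) = (sT s * arc ζ' b).coeff l` (linear in `ζ`).  The identity `s_0 ^ M P (ζ + ε ζ', a + ε a') = R (mulJ s ζ + ε η', a + ε a')` holds
for all `ε ∈ ℂ`, so the two polynomials in `ε` (`eval₂ Polynomial.C ...`) are equal (`Polynomial.funext`); compare the coefficients of `ε` (`coeff_one_line`) and multiply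
by `s_0 ^ e`:
`s_0 ^ (M + e) (D P) (ζ, a) = ∑_q ∂R/∂(inr q) R_(inr q) + ∑_(b, l) ∂R/∂(inl (b.succ, l)) ∑_(i + j = l) Y (0, i) R_(inl (b, j))` at `(mulJ s ζ, a)`.
`YD (M + e)` of this polynomial: `YD.pderiv_inr` (`R_(inr q)` is `YD e`) and `YD.pderiv_inl_mul` (`Y (0, i) R_(inl (b, j))` is `YD (e + 1)`). -/
theorem PoleA.mkDerivation {M e : ℕ} {P : AW N k d} (h : PoleA M P)
    {f : JV N k ⊕ CI N d → AW N k d} (hf : ∀ g, PoleA e (f g)) :
    PoleA (M + e) (MvPolynomial.mkDerivation ℂ f P) := by
  classical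
  obtain ⟨R, hR1, hR2⟩ := h
  choose Rg hg1 hg2 using hf
  let S : JV (N + 1) k → MvPolynomial (JV (N + 1) k ⊕ CI N d) ℂ := fun p =>
    Fin.cases (motive := fun _ => MvPolynomial (JV (N + 1) k ⊕ CI N d) ℂ) 0
      (fun b => ∑ i : Fin (k + 1), ∑ j : Fin (k + 1),
        if (i : ℕ) + (j : ℕ) = (p.2 : ℕ) then X (Sum.inl (0, i)) * Rg (Sum.inl (b, j)) else 0) p.1
  have hS : ∀ p, YD (e + 1) (S p) := by
    rintro ⟨b, l⟩
    induction b using Fin.cases with
    | zero => exact YD_zero _
    | succ b =>
      refine YD.sum _ fun i _ => YD.sum _ fun j _ => ?_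
      by_cases hij : (i : ℕ) + (j : ℕ) = (l : ℕ)
      · rw [if_pos hij, add_comm e 1]
        exact (YD_inl (0, i)).mul (hg1 (Sum.inl (b, j)))
      · rw [if_neg hij]
        exact YD_zero _
  refine ⟨∑ p, pderiv (Sum.inl p) R * S p + ∑ q, pderiv (Sum.inr q) R * Rg (Sum.inr q), ?_, ?_⟩
  · exact (YD.sum _ fun p _ => hR1.pderiv_inl_mul (hS p) p).add
      (YD.sum _ fun q _ => (hR1.pderiv_inr q).mul (hg1 _))
  · intro a s ζ
    set pt : JV N k ⊕ CI N d → ℂ := Sum.elim ζ a with hpt
    set qt : JV (N + 1) k ⊕ CI N d → ℂ := Sum.elim (mulJ s ζ) a with hqt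
    let ζ' : JV N k → ℂ := fun p => eval pt (f (Sum.inl p))
    let η : JV (N + 1) k → ℂ := fun p =>
      Fin.cases (motive := fun _ => ℂ) 0 (fun b => (sT s * arc ζ' b).coeff (p.2 : ℕ)) p.1
    let g' : JV (N + 1) k ⊕ CI N d → ℂ := Sum.elim η fun q => eval pt (f (Sum.inr q))
    have h1 : Polynomial.C (s 0 ^ M) *
        eval₂ Polynomial.C (fun g => Polynomial.C (pt g) + Polynomial.C (eval pt (f g)) * Polynomial.X) P =
        eval₂ Polynomial.C (fun g => Polynomial.C (qt g) + Polynomial.C (g' g) * Polynomial.X) R := by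
      refine Polynomial.funext fun ε => ?_
      rw [Polynomial.eval_mul, Polynomial.eval_C, w4_eval, w4_eval]
      have e1 : (fun g => pt g + eval pt (f g) * ε) =
          Sum.elim (fun p => ζ p + ζ' p * ε) (fun q => a q + eval pt (f (Sum.inr q)) * ε) := by
        funext g
        rcases g with g | g <;> rfl
      have e2 : (fun g => qt g + g' g * ε) =
          Sum.elim (mulJ s fun p => ζ p + ζ' p * ε) (fun q => a q + eval pt (f (Sum.inr q)) * ε) := by
        funext g
        rcases g with ⟨b, l⟩ | g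
        · induction b using Fin.cases with
          | zero =>
            change mulJ s ζ (0, l) + 0 * ε = mulJ s (fun p => ζ p + ζ' p * ε) (0, l)
            rw [mulJ_zero, mulJ_zero, zero_mul, add_zero]
          | succ b =>
            change mulJ s ζ (b.succ, l) + (sT s * arc ζ' b).coeff (l : ℕ) * ε =
              mulJ s (fun p => ζ p + ζ' p * ε) (b.succ, l)
            rw [mulJ_succ, mulJ_succ, w4_line]
        · rfl
      rw [e1, e2]
      exact hR2 _ s _
    have h2 := congrArg (fun T : Polynomial ℂ => T.coeff 1) h1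
    simp only [Polynomial.coeff_C_mul] at h2
    rw [coeff_one_line, coeff_one_line, ← eval_mkDerivation] at h2
    have h3 : ∀ q, s 0 ^ e * g' (Sum.inr q) = eval qt (Rg (Sum.inr q)) := fun q => hg2 (Sum.inr q) a s ζ
    have h4 : ∀ p, s 0 ^ e * g' (Sum.inl p) = eval qt (S p) := by
      rintro ⟨b, l⟩
      induction b using Fin.cases with
      | zero =>
        change s 0 ^ e * 0 = eval qt 0
        rw [mul_zero, map_zero]
      | succ b =>
        change s 0 ^ e * (sT s * arc ζ' b).coeff (l : ℕ) = eval qt (∑ i : Fin (k + 1), ∑ j : Fin (k + 1),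
          if (i : ℕ) + (j : ℕ) = (l : ℕ) then X (Sum.inl (0, i)) * Rg (Sum.inl (b, j)) else 0)
        rw [w4_coeff, Finset.mul_sum, map_sum]
        refine Finset.sum_congr rfl fun i _ => ?_
        rw [Finset.mul_sum, map_sum]
        refine Finset.sum_congr rfl fun j _ => ?_
        by_cases hij : (i : ℕ) + (j : ℕ) = (l : ℕ)
        · rw [if_pos hij, if_pos hij, map_mul, eval_X, ← hg2 (Sum.inl (b, j)) a s ζ]
          change s 0 ^ e * (s i * ζ' (b, j)) = mulJ s ζ (0, i) * (s 0 ^ e * ζ' (b, j))
          rw [mulJ_zero]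
          ring
        · rw [if_neg hij, if_neg hij, mul_zero, map_zero]
    rw [pow_add, mul_comm (s 0 ^ M), mul_assoc, h2, Fintype.sum_sum_type, mul_add, Finset.mul_sum,
      Finset.mul_sum, map_add, map_sum, map_sum]
    refine congrArg₂ (· + ·) (Finset.sum_congr rfl fun p _ => ?_) (Finset.sum_congr rfl fun q _ => ?_)
    · rw [map_mul, ← h4]
      ring
    · rw [map_mul, ← h3]
      ring

end Pool.Agent.H78W
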