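import Pool.Agent.Lib.H78W.W2

set_option autoImplicit false

/-!
CHUNK W5 of H78W (moves for small degrees, PROOF.md).  The type of `z (v (t))`, `z` of degree at most `2`.
-/

open MvPolynomial

namespace Pool.Agent.H78W

open Pool.Agent.H89T Pool.Agent.H67T Pool.Agent.H53U Pool.Agent.H78M

variable {N k c : ℕ} {d : Fin c → ℕ}

/-- The polynomial `∑ Y (b, l) t ^ l` of the jets in one more variable. -/
noncomputable def yW (b : Fin (N + 1)) : Polynomial (MvPolynomial (JV (N + 1) k ⊕ CI N d) ℂ) :=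
  ∑ l : Fin (k + 1), Polynomial.C (X (Sum.inl (b, l))) * Polynomial.X ^ (l : ℕ)

/-- `Y (0, 0) y_(b + 1) (t) - Y (b + 1, 0) y_0 (t)`. -/
noncomputable def hatW (b : Fin N) : Polynomial (MvPolynomial (JV (N + 1) k ⊕ CI N d) ℂ) :=
  Polynomial.C (X (Sum.inl (0, 0))) * yW b.succ - Polynomial.C (X (Sum.inl (b.succ, 0))) * yW 0

theorem w5_map_arc {a : CI N d → ℂ} {ζ : JV N k → ℂ} (b : Fin N) :
    (vW b : Polynomial (AW N k d)).map (eval (Sum.elim ζ a)) = arc ζ b - Polynomial.C (ζ (b, 0)) := by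
  unfold vW arc xW
  rw [Polynomial.map_sub, Polynomial.map_sum, Polynomial.map_C, eval_X]
  simp

theorem map_phW {a : CI N d → ℂ} {ζ : JV N k → ℂ} (z : MvPolynomial (Fin N) ℂ) :
    (phW z : Polynomial (AW N k d)).map (eval (Sum.elim ζ a)) =
      aeval (fun b => arc ζ b - Polynomial.C (ζ (b, 0))) z := by
  let F : AW N k d →ₐ[ℂ] ℂ := aeval (Sum.elim ζ a)
  have hF : ∀ q : Polynomial (AW N k d), q.map (eval (Sum.elim ζ a)) = Polynomial.mapAlgHom F q := by
    intro q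
    ext l
    rw [Polynomial.coeff_map]
    have h1 : (Polynomial.mapAlgHom F q).coeff l = F (q.coeff l) := by
      rw [Polynomial.coe_mapAlgHom, Polynomial.coeff_map]
      rfl
    rw [h1]
    rfl
  rw [hF, phW]
  have h2 : (Polynomial.mapAlgHom F).comp (aeval vW) =
      aeval (fun b => arc ζ b - Polynomial.C (ζ (b, 0))) := by
    apply MvPolynomial.algHom_ext
    intro b
    rw [AlgHom.comp_apply, aeval_X, aeval_X, ← hF]
    exact w5_map_arc b
  exact DFunLike.congr_fun h2 z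

theorem w5_map_yW (a : CI N d → ℂ) (η : JV (N + 1) k → ℂ) (b : Fin (N + 1)) :
    (yW b : Polynomial (MvPolynomial (JV (N + 1) k ⊕ CI N d) ℂ)).map (eval (Sum.elim η a)) =
      ∑ l : Fin (k + 1), Polynomial.C (η (b, l)) * Polynomial.X ^ (l : ℕ) := by
  unfold yW
  rw [Polynomial.map_sum]
  simp

theorem w5_coeff (f : Fin (k + 1) → ℂ) {l : ℕ} (hl : l < k + 1) :
    (∑ l : Fin (k + 1), Polynomial.C (f l) * Polynomial.X ^ (l : ℕ)).coeff l = f ⟨l, hl⟩ := by
  rw [Polynomial.finset_sum_coeff, Finset.sum_eq_single (⟨l, hl⟩ : Fin (k + 1))]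
  · simp
  · intro j _ hj
    rw [Polynomial.coeff_C_mul, Polynomial.coeff_X_pow, if_neg, mul_zero]
    intro h
    apply hj
    apply Fin.ext
    exact h.symm
  · intro h
    exact absurd (Finset.mem_univ _) h

theorem w5_arc0 (ζ : JV N k → ℂ) (b : Fin N) : (arc ζ b).coeff 0 = ζ (b, 0) := by
  unfold arc
  exact w5_coeff (fun l => ζ (b, l)) (Nat.succ_pos k)

theorem w5_sT0 (s : Fin (k + 1) → ℂ) : (sT s).coeff 0 = s 0 := by
  unfold sT
  exact w5_coeff s (Nat.succ_pos k)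

/-- At `(mulJ s ζ, a)` the polynomial `hatW b` is congruent to `s_0 s (t) v_b (t)` modulo `t ^ (k + 1)`: `yW b.succ ↦ s (t) ζ_b (t)` modulo `t ^ (k + 1)`,
`yW 0 ↦ s (t)`, `Y (b.succ, 0) ↦ s_0 ζ (b, 0)`. -/
theorem map_hatW (a : CI N d → ℂ) (s : Fin (k + 1) → ℂ) (ζ : JV N k → ℂ) (b : Fin N) :
    (Polynomial.X : Polynomial ℂ) ^ (k + 1) ∣
      (hatW b : Polynomial (MvPolynomial (JV (N + 1) k ⊕ CI N d) ℂ)).map (eval (Sum.elim (mulJ s ζ) a)) -
        Polynomial.C (s 0) * sT s * (arc ζ b - Polynomial.C (ζ (b, 0))) := by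
  have h1 : (hatW b : Polynomial (MvPolynomial (JV (N + 1) k ⊕ CI N d) ℂ)).map (eval (Sum.elim (mulJ s ζ) a)) =
      Polynomial.C (s 0) * (∑ l : Fin (k + 1), Polynomial.C ((sT s * arc ζ b).coeff (l : ℕ)) * Polynomial.X ^ (l : ℕ)) -
        Polynomial.C (s 0 * ζ (b, 0)) * sT s := by
    unfold hatW
    rw [Polynomial.map_sub, Polynomial.map_mul, Polynomial.map_mul, Polynomial.map_C, Polynomial.map_C, eval_X, eval_X,
      w5_map_yW, w5_map_yW]
    simp only [Sum.elim_inl]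
    have e1 : mulJ s ζ (0, 0) = s 0 := rfl
    have e2 : ∀ l, mulJ s ζ (b.succ, l) = (sT s * arc ζ b).coeff (l : ℕ) := fun l => rfl
    have e3 : ∀ l, mulJ s ζ (0, l) = s l := fun l => rfl
    simp only [e1, e2, e3]
    have e4 : (sT s * arc ζ b).coeff ((0 : Fin (k + 1)) : ℕ) = s 0 * ζ (b, 0) := by
      rw [Fin.val_zero, Polynomial.mul_coeff_zero, w5_sT0, w5_arc0]
    rw [e4]
    rfl
  have h2 : (Polynomial.X : Polynomial ℂ) ^ (k + 1) ∣
      (∑ l : Fin (k + 1), Polynomial.C ((sT s * arc ζ b).coeff (l : ℕ)) * Polynomial.X ^ (l : ℕ)) - sT s * arc ζ b := by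
    rw [Polynomial.X_pow_dvd_iff]
    intro l hl
    rw [Polynomial.coeff_sub, w5_coeff (fun l : Fin (k + 1) => (sT s * arc ζ b).coeff (l : ℕ)) hl, sub_self]
  rw [h1]
  have h3 : Polynomial.C (s 0) * (∑ l : Fin (k + 1), Polynomial.C ((sT s * arc ζ b).coeff (l : ℕ)) *
        Polynomial.X ^ (l : ℕ)) - Polynomial.C (s 0 * ζ (b, 0)) * sT s -
        Polynomial.C (s 0) * sT s * (arc ζ b - Polynomial.C (ζ (b, 0))) =
      Polynomial.C (s 0) * ((∑ l : Fin (k + 1), Polynomial.C ((sT s * arc ζ b).coeff (l : ℕ)) *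
        Polynomial.X ^ (l : ℕ)) - sT s * arc ζ b) := by
    rw [Polynomial.C_mul]
    ring
  rw [h3]
  exact Dvd.dvd.mul_left h2 _

section w5

variable {p q : Polynomial (MvPolynomial (JV (N + 1) k ⊕ CI N d) ℂ)} {M M' : ℕ}

theorem w5_C {r : MvPolynomial (JV (N + 1) k ⊕ CI N d) ℂ} (h : YD M r) (l : ℕ) : YD M ((Polynomial.C r).coeff l) := by
  rw [Polynomial.coeff_C]
  split_ifs
  · exact h
  · exact YD_zero M

theorem w5_X (j l : ℕ) :
    YD 0 (((Polynomial.X : Polynomial (MvPolynomial (JV (N + 1) k ⊕ CI N d) ℂ)) ^ j).coeff l) := by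
  rw [Polynomial.coeff_X_pow]
  split_ifs
  · have := YD_C (N := N) (k := k) (d := d) (1 : ℂ)
    rwa [C_1] at this
  · exact YD_zero 0

theorem w5_mul (hp : ∀ l, YD M (p.coeff l)) (hq : ∀ l, YD M' (q.coeff l)) (l : ℕ) : YD (M + M') ((p * q).coeff l) := by
  rw [Polynomial.coeff_mul]
  exact YD.sum _ fun i _ => (hp i.1).mul (hq i.2)

theorem w5_sub (hp : ∀ l, YD M (p.coeff l)) (hq : ∀ l, YD M (q.coeff l)) (l : ℕ) : YD M ((p - q).coeff l) := by
  rw [Polynomial.coeff_sub, sub_eq_add_neg]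
  exact (hp l).add (hq l).neg

theorem w5_sum {ι : Type*} (t : Finset ι) {f : ι → Polynomial (MvPolynomial (JV (N + 1) k ⊕ CI N d) ℂ)}
    (h : ∀ i ∈ t, ∀ l, YD M ((f i).coeff l)) (l : ℕ) : YD M ((∑ i ∈ t, f i).coeff l) := by
  rw [Polynomial.finset_sum_coeff]
  exact YD.sum _ fun i hi => h i hi l

theorem w5_pow (hp : ∀ l, YD M (p.coeff l)) (e : ℕ) : ∀ l, YD (e * M) ((p ^ e).coeff l) := by
  induction e with
  | zero =>
    intro l
    have h1 := w5_X (N := N) (k := k) (d := d) 0 l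
    rw [pow_zero] at h1 ⊢
    rw [zero_mul]
    exact h1
  | succ e ih =>
    intro l
    rw [pow_succ, Nat.succ_mul]
    exact w5_mul ih hp l

theorem w5_prod {ι : Type*} (t : Finset ι) {f : ι → Polynomial (MvPolynomial (JV (N + 1) k ⊕ CI N d) ℂ)} {m : ι → ℕ}
    (h : ∀ i ∈ t, ∀ l, YD (m i) ((f i).coeff l)) : ∀ l, YD (∑ i ∈ t, m i) ((∏ i ∈ t, f i).coeff l) := by
  classical
  induction t using Finset.induction_on with
  | empty =>
    intro l
    have h1 := w5_X (N := N) (k := k) (d := d) 0 l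
    rw [pow_zero] at h1
    rw [Finset.prod_empty, Finset.sum_empty]
    exact h1
  | insert a t ha ih =>
    intro l
    rw [Finset.prod_insert ha, Finset.sum_insert ha]
    exact w5_mul (h a (Finset.mem_insert_self _ _)) (ih fun i hi => h i (Finset.mem_insert_of_mem hi)) l

theorem w5_mono (hp : ∀ l, YD M (p.coeff l)) (hM : M ≤ M') (l : ℕ) : YD M' (p.coeff l) := (hp l).mono hM

theorem w5_yW (b : Fin (N + 1)) (l : ℕ) :
    YD 1 ((yW b : Polynomial (MvPolynomial (JV (N + 1) k ⊕ CI N d) ℂ)).coeff l) := by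
  unfold yW
  refine w5_sum _ (fun j _ l => ?_) l
  have := w5_mul (w5_C (YD_inl (d := d) (b, j))) (w5_X (j : ℕ)) l
  rwa [add_zero] at this

theorem w5_hatW (b : Fin N) (l : ℕ) :
    YD 2 ((hatW b : Polynomial (MvPolynomial (JV (N + 1) k ⊕ CI N d) ℂ)).coeff l) := by
  unfold hatW
  exact w5_sub (w5_mul (w5_C (YD_inl _)) (w5_yW _)) (w5_mul (w5_C (YD_inl _)) (w5_yW _)) l

end w5

/-- `s_0 ^ 2 s (t) ^ 2 z (v (t)) = ∑_β z_β (s_0 s (t)) ^ (2 - |β|) ∏ (s_0 s (t) v_b (t)) ^ β_b` is congruent to the image of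
`∑_β C (C z_β) (C Y_00 * yW 0) ^ (2 - |β|) ∏ hatW b ^ β_b`; the coefficients of `C Y_00 * yW 0` and `hatW b` are `YD 2`, so those of this sum are `YD 4`
(a predicate for polynomials in `t` all of whose coefficients are `YD M`, closed under sums and products). -/
theorem PT_phW {z : MvPolynomial (Fin N) ℂ} (h2 : z.totalDegree ≤ 2) :
    PT 4 (phW z : Polynomial (AW N k d)) := by
  intro l hl
  have hdeg : ∀ β ∈ z.support, ∑ b, β b ≤ 2 := by
    intro β hβ
    have h3 := le_totalDegree hβ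
    rw [Finsupp.sum_fintype _ _ (fun _ => rfl)] at h3
    exact h3.trans h2
  obtain ⟨T, hT⟩ : ∃ T : Polynomial (MvPolynomial (JV (N + 1) k ⊕ CI N d) ℂ), T = ∑ β ∈ z.support,
      Polynomial.C (C (coeff β z)) * ((Polynomial.C (X (Sum.inl (0, 0))) * yW 0) ^ (2 - ∑ b, β b) *
        ∏ b, hatW b ^ β b) := ⟨_, rfl⟩
  refine ⟨T.coeff l, ?_, ?_⟩
  · rw [hT]
    refine w5_sum _ (fun β hβ l => ?_) l
    have e1 := w5_mul (w5_C (YD_C (N := N) (k := k) (d := d) (coeff β z)))
      (w5_mul (w5_pow (w5_mul (w5_C (YD_inl (d := d) ((0, 0) : JV (N + 1) k))) (w5_yW 0)) (2 - ∑ b, β b))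
        (w5_prod Finset.univ (fun b _ => w5_pow (w5_hatW (k := k) (d := d) b) (β b)))) l
    refine e1.mono ?_
    have e2 := hdeg β hβ
    rw [← Finset.sum_mul]
    omega
  · intro a s ζ
    have h3 : T.map (eval (Sum.elim (mulJ s ζ) a)) = ∑ β ∈ z.support,
        Polynomial.C (coeff β z) * ((Polynomial.C (s 0) * sT s) ^ (2 - ∑ b, β b) *
          ∏ b, ((hatW b : Polynomial (MvPolynomial (JV (N + 1) k ⊕ CI N d) ℂ)).map
            (eval (Sum.elim (mulJ s ζ) a))) ^ β b) := by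
      rw [hT, Polynomial.map_sum]
      apply Finset.sum_congr rfl
      intro β _
      rw [Polynomial.map_mul, Polynomial.map_C, eval_C, Polynomial.map_mul, Polynomial.map_pow, Polynomial.map_mul,
        Polynomial.map_C, eval_X, w5_map_yW, Polynomial.map_prod]
      simp only [Polynomial.map_pow]
      rfl
    have h4 : Polynomial.C (s 0 ^ 2) * (sT s ^ 2 * (phW z : Polynomial (AW N k d)).map (eval (Sum.elim ζ a))) =
        ∑ β ∈ z.support, Polynomial.C (coeff β z) * ((Polynomial.C (s 0) * sT s) ^ (2 - ∑ b, β b) *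
          ∏ b, (Polynomial.C (s 0) * sT s * (arc ζ b - Polynomial.C (ζ (b, 0)))) ^ β b) := by
      rw [map_phW, aeval_def, eval₂_eq', Finset.mul_sum, Finset.mul_sum]
      apply Finset.sum_congr rfl
      intro β hβ
      have e2 := hdeg β hβ
      have e3 : ∏ b, (Polynomial.C (s 0) * sT s * (arc ζ b - Polynomial.C (ζ (b, 0)))) ^ β b =
          (Polynomial.C (s 0) * sT s) ^ (∑ b, β b) * ∏ b, (arc ζ b - Polynomial.C (ζ (b, 0))) ^ β b := by
        rw [← Finset.prod_pow_eq_pow_sum, ← Finset.prod_mul_distrib]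
        apply Finset.prod_congr rfl
        intro b _
        rw [mul_pow]
      have e4 : (Polynomial.C (s 0) * sT s) ^ (2 - ∑ b, β b) * (Polynomial.C (s 0) * sT s) ^ (∑ b, β b) =
          (Polynomial.C (s 0) * sT s) ^ 2 := by
        rw [← pow_add]
        congr 1
        omega
      rw [e3, ← mul_assoc ((Polynomial.C (s 0) * sT s) ^ (2 - ∑ b, β b)), e4, Polynomial.C_pow, mul_pow]
      have e5 : (algebraMap ℂ (Polynomial ℂ)) (coeff β z) = Polynomial.C (coeff β z) := rfl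
      rw [e5]
      ring
    let I : Ideal (Polynomial ℂ) := Ideal.span {(Polynomial.X : Polynomial ℂ) ^ (k + 1)}
    have hq : ∀ b, Ideal.Quotient.mk I ((hatW b : Polynomial (MvPolynomial (JV (N + 1) k ⊕ CI N d) ℂ)).map
        (eval (Sum.elim (mulJ s ζ) a))) =
        Ideal.Quotient.mk I (Polynomial.C (s 0) * sT s * (arc ζ b - Polynomial.C (ζ (b, 0)))) := by
      intro b
      rw [Ideal.Quotient.eq, Ideal.mem_span_singleton]
      exact map_hatW a s ζ b
    have h5 : Ideal.Quotient.mk I (T.map (eval (Sum.elim (mulJ s ζ) a))) = Ideal.Quotient.mk I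
        (Polynomial.C (s 0 ^ 2) * (sT s ^ 2 * (phW z : Polynomial (AW N k d)).map (eval (Sum.elim ζ a)))) := by
      rw [h3, h4, map_sum, map_sum]
      apply Finset.sum_congr rfl
      intro β _
      rw [map_mul, map_mul, map_mul, map_mul, map_prod, map_prod]
      simp only [map_pow, hq]
    rw [Ideal.Quotient.eq, Ideal.mem_span_singleton, Polynomial.X_pow_dvd_iff] at h5
    have h6 := h5 l (by omega)
    rw [Polynomial.coeff_sub, Polynomial.coeff_map, Polynomial.coeff_C_mul, sub_eq_zero] at h6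
    exact h6.symm

end Pool.Agent.H78W
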