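import Pool.Agent.Lib.H78W.W8

set_option autoImplicit false

/-!
CHUNK W9 of H78W (moves for small degrees, PROOF.md).  The equations of small degree.
-/

open MvPolynomial

namespace Pool.Agent.H78W

open Pool.Agent.H89T Pool.Agent.H67T Pool.Agent.H53U Pool.Agent.H78M

variable {N k c : ℕ} {d : Fin c → ℕ}

/-- The arc with `x = 0`. -/
noncomputable def w9_v0 (N k : ℕ) : Fin N → Polynomial (MvPolynomial (JV N k) ℂ) :=
  arc fun p : JV N k => if p.2 = 0 then (0 : MvPolynomial (JV N k) ℂ) else X p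

theorem w9_sgW_xW (a : CI N d → ℂ) (p : JV N k) :
    (sgW a : AW N k d →ₐ[ℂ] MvPolynomial (JV N k) ℂ) (xW p) = if p.2 = 0 then 0 else X p := by
  unfold sgW xW
  rw [aeval_X, Sum.elim_inl]

theorem w9_sgW_aW (a : CI N d → ℂ) (p : CI N d) :
    (sgW a : AW N k d →ₐ[ℂ] MvPolynomial (JV N k) ℂ) (aW p) = C (a p) := by
  unfold sgW aW
  rw [aeval_X, Sum.elim_inr]

theorem w9_map_arc (a : CI N d → ℂ) (b : Fin N) :
    (arc xW b : Polynomial (AW N k d)).map (sgW a).toRingHom = w9_v0 N k b := by
  rw [arc_map]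
  unfold w9_v0
  congr 1
  funext p
  exact w9_sgW_xW a p

theorem map_sgW_phW (a : CI N d → ℂ) (φ : MvPolynomial (Fin N) ℂ) :
    (phW φ : Polynomial (AW N k d)).map (sgW a).toRingHom =
      aeval (arc fun p : JV N k => if p.2 = 0 then (0 : MvPolynomial (JV N k) ℂ) else X p) φ := by
  have hv : ∀ b, (vW b : Polynomial (AW N k d)).map (sgW a).toRingHom = w9_v0 N k b := by
    intro b
    unfold vW
    rw [Polynomial.map_sub, w9_map_arc, Polynomial.map_C]
    have h1 : (sgW a).toRingHom (xW (b, 0) : AW N k d) = 0 := by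
      have h2 := w9_sgW_xW (k := k) a (b, 0)
      rw [if_pos rfl] at h2
      exact h2
    rw [h1, Polynomial.C_0, sub_zero]
  unfold phW
  induction φ using MvPolynomial.induction_on with
  | C r =>
    rw [aeval_C, aeval_C]
    change (Polynomial.C (algebraMap ℂ (AW N k d) r)).map (sgW a).toRingHom = Polynomial.C (algebraMap ℂ _ r)
    rw [Polynomial.map_C]
    congr 1
    exact (sgW a).commutes r
  | add p q hp hq =>
    rw [map_add, map_add, Polynomial.map_add, hp, hq]
  | mul_X p b hp =>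
    rw [map_mul, map_mul, aeval_X, aeval_X, Polynomial.map_mul, hp, hv]
    rfl

theorem w9_aeval_map (a : CI N d → ℂ) (G : MvPolynomial (Fin N) (AW N k d)) :
    (aeval (arc xW) G : Polynomial (AW N k d)).map (sgW a).toRingHom =
      aeval (w9_v0 N k) (map (sgW a).toRingHom G) := by
  induction G using MvPolynomial.induction_on with
  | C r =>
    rw [aeval_C, map_C, aeval_C]
    change (Polynomial.C r).map (sgW a).toRingHom = Polynomial.C _
    rw [Polynomial.map_C]
  | add p q hp hq =>
    rw [map_add, map_add, map_add, Polynomial.map_add, hp, hq]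
  | mul_X p b hp =>
    rw [map_mul, map_mul, map_mul, aeval_X, map_X, aeval_X, Polynomial.map_mul, hp, w9_map_arc]

theorem w9_aeval_C (G : MvPolynomial (Fin N) ℂ) :
    aeval (w9_v0 N k) (map (C : ℂ →+* MvPolynomial (JV N k) ℂ) G) = aeval (w9_v0 N k) G := by
  induction G using MvPolynomial.induction_on with
  | C r =>
    rw [map_C, aeval_C, aeval_C]
    rfl
  | add p q hp hq =>
    rw [map_add, map_add, map_add, hp, hq]
  | mul_X p b hp =>
    rw [map_mul, map_mul, map_mul, map_X, aeval_X, aeval_X, hp]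

theorem w9_map_PF (a : CI N d → ℂ) (j : Fin c) :
    map (sgW a).toRingHom (PF (aW : CI N d → AW N k d) j) = map C (PF a j) := by
  unfold PF
  rw [map_pol, map_pol]
  congr 1
  funext α
  exact w9_sgW_aW a _

/-- The image of `HH` at `a`, `x = 0`. -/
theorem w9_map_HH (a : CI N d → ℂ) (φ : Fin N → MvPolynomial (Fin N) ℂ) (j : Fin c) :
    (HH φ j : Polynomial (AW N k d)).map (sgW a).toRingHom =
      aeval (w9_v0 N k) (∑ b, φ b * pderiv b (PF a j)) := by
  unfold HH
  rw [Polynomial.map_sum, map_sum]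
  refine Finset.sum_congr rfl fun b _ => ?_
  rw [Polynomial.map_mul, map_sgW_phW, w9_aeval_map, ← pderiv_map, w9_map_PF, pderiv_map,
    w9_aeval_C, map_mul]
  rfl

theorem w9_X_dvd (b : Fin N) : Polynomial.X ∣ w9_v0 N k b := by
  rw [Polynomial.X_dvd_iff]
  unfold w9_v0
  rw [H89T.coeff_arc, dif_pos (Nat.succ_pos k)]
  exact if_pos rfl

/-- `map (sgW a) (HH φ j) = aeval v0 (∑ φ_b ∂_b F_{a,j})`, `v0 = arc (fun p => if p.2 = 0 then 0 else X p)` (divisible by `X`);
`aeval_mem_pow` of H78M/G1.lean with `I = span {X}`. -/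
theorem sgW_HH {a : CI N d → ℂ} {φ : Fin N → MvPolynomial (Fin N) ℂ} {j : Fin c}
    (hpres : ∑ b, φ b * pderiv b (PF a j) ∈ mX N ℂ ^ (k + 1)) {l : ℕ} (hl : l ≤ k) :
    sgW a ((HH φ j : Polynomial (AW N k d)).coeff l) = 0 := by
  have h1 : sgW a ((HH φ j : Polynomial (AW N k d)).coeff l) =
      ((HH φ j : Polynomial (AW N k d)).map (sgW a).toRingHom).coeff l := by
    rw [Polynomial.coeff_map]
    rfl
  rw [h1, w9_map_HH]
  have h2 := aeval_mem_pow (Ideal.span {(Polynomial.X : Polynomial (MvPolynomial (JV N k) ℂ))})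
    (g := w9_v0 N k) (fun b => Ideal.mem_span_singleton.2 (w9_X_dvd b)) hpres
  rw [Ideal.span_singleton_pow, Ideal.mem_span_singleton, Polynomial.X_pow_dvd_iff] at h2
  exact h2 l (by omega)

/-- All coefficients have poles of order at most `e`. -/
def CPW (e : ℕ) (G : MvPolynomial (Fin N) (AW N k d)) : Prop := ∀ α, PoleA e (coeff α G)

theorem w9_add {e : ℕ} {G G' : MvPolynomial (Fin N) (AW N k d)} (h : CPW e G) (h' : CPW e G') :
    CPW e (G + G') := by
  intro α
  rw [coeff_add]
  exact (h α).add (h' α)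

theorem w9_zero (e : ℕ) : CPW e (0 : MvPolynomial (Fin N) (AW N k d)) := by
  intro α
  rw [coeff_zero]
  exact PoleA_zero e

theorem w9_sum {e : ℕ} {ι : Type*} (t : Finset ι) {f : ι → MvPolynomial (Fin N) (AW N k d)}
    (h : ∀ i ∈ t, CPW e (f i)) : CPW e (∑ i ∈ t, f i) := by
  intro α
  rw [coeff_sum]
  exact PoleA.sum _ fun i hi => h i hi α

theorem w9_mul {e e' : ℕ} {G G' : MvPolynomial (Fin N) (AW N k d)} (h : CPW e G) (h' : CPW e' G') :
    CPW (e + e') (G * G') := by
  classical
  intro α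
  rw [coeff_mul]
  exact PoleA.sum _ fun p _ => (h p.1).mul (h' p.2)

theorem w9_mono {e e' : ℕ} {G : MvPolynomial (Fin N) (AW N k d)} (h : CPW e G) (he : e ≤ e') :
    CPW e' G := fun α => (h α).mono he

theorem w9_C {e : ℕ} {x : AW N k d} (h : PoleA e x) : CPW e (C x : MvPolynomial (Fin N) (AW N k d)) := by
  classical
  intro α
  rw [coeff_C]
  split_ifs
  · exact h
  · exact PoleA_zero e

theorem w9_X (b : Fin N) : CPW 0 (X b : MvPolynomial (Fin N) (AW N k d)) := by
  classical
  intro α
  rw [coeff_X]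
  split_ifs
  · exact PoleA_C (N := N) (k := k) (d := d) 1
  · exact PoleA_zero 0

theorem w9_neg {e : ℕ} {G : MvPolynomial (Fin N) (AW N k d)} (h : CPW e G) : CPW e (-G) := by
  intro α
  rw [coeff_neg]
  exact (h α).neg

theorem w9_one : CPW 0 (1 : MvPolynomial (Fin N) (AW N k d)) := by
  have h := w9_C (PoleA_C (N := N) (k := k) (d := d) 1)
  rwa [C_1, C_1] at h

theorem w9_lin (b : Fin N) : CPW 1 (X b - C (xW (b, 0)) : MvPolynomial (Fin N) (AW N k d)) := by
  rw [sub_eq_add_neg]
  refine w9_add (w9_mono (w9_X b) (Nat.zero_le 1)) (w9_neg (w9_C ?_))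
  exact (PoleA_xW b 0).mono (by simp)

theorem w9_pow {e : ℕ} {G : MvPolynomial (Fin N) (AW N k d)} (h : CPW e G) (m : ℕ) :
    CPW (m * e) (G ^ m) := by
  induction m with
  | zero =>
    rw [pow_zero, zero_mul]
    exact w9_one
  | succ m ih =>
    rw [pow_succ, Nat.succ_mul]
    exact w9_mul ih h

theorem w9_prod {ι : Type*} (t : Finset ι) {f : ι → MvPolynomial (Fin N) (AW N k d)} {m : ι → ℕ}
    (h : ∀ i ∈ t, CPW (m i) (f i)) : CPW (∑ i ∈ t, m i) (∏ i ∈ t, f i) := by
  classical
  induction t using Finset.induction_on with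
  | empty =>
    rw [Finset.sum_empty, Finset.prod_empty]
    exact w9_one
  | insert i t hi ih =>
    rw [Finset.sum_insert hi, Finset.prod_insert hi]
    exact w9_mul (h i (Finset.mem_insert_self i t)) (ih fun j hj => h j (Finset.mem_insert_of_mem hj))

/-- The coefficients in `X` of `g (X - x)` are polynomials of degree at most `e` in `x`. -/
theorem PoleA_coeff_shift {e : ℕ} {g : MvPolynomial (Fin N) ℂ} (hg : g.totalDegree ≤ e)
    (α : Fin N →₀ ℕ) :
    PoleA e (coeff α (aeval (fun b => X b - C (xW (b, 0))) g : MvPolynomial (Fin N) (AW N k d))) := by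
  have h0 : CPW e (aeval (fun b => X b - C (xW (b, 0))) g : MvPolynomial (Fin N) (AW N k d)) := by
    rw [aeval_def, eval₂_eq']
    refine w9_sum _ fun μ hμ => ?_
    have h1 : CPW (∑ b : Fin N, μ b * 1)
        (∏ b : Fin N, (X b - C (xW (b, 0)) : MvPolynomial (Fin N) (AW N k d)) ^ μ b) :=
      w9_prod _ fun b _ => w9_pow (w9_lin b) (μ b)
    have h2 : ∑ b : Fin N, μ b * 1 ≤ e := by
      have h3 := le_totalDegree hμ
      rw [Finsupp.sum_fintype _ _ (fun _ => rfl)] at h3
      simp only [mul_one]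
      exact h3.trans hg
    exact w9_mono (w9_mul (w9_C (PoleA_C (coeff μ g))) h1) (by omega)
  exact h0 α

theorem totalDegree_shift (g : MvPolynomial (Fin N) ℂ) :
    (aeval (fun b => X b - C (xW (b, 0))) g : MvPolynomial (Fin N) (AW N k d)).totalDegree ≤
      g.totalDegree := by
  classical
  rw [aeval_def, eval₂_eq']
  refine totalDegree_finsetSum_le fun μ hμ => ?_
  refine (totalDegree_mul _ _).trans ?_
  have h1 : (algebraMap ℂ (MvPolynomial (Fin N) (AW N k d)) (coeff μ g)).totalDegree = 0 :=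
    totalDegree_C _
  rw [h1, zero_add]
  refine (totalDegree_finsetProd _ _).trans ?_
  have h2 : ∀ b ∈ (Finset.univ : Finset (Fin N)),
      ((X b - C (xW (b, 0)) : MvPolynomial (Fin N) (AW N k d)) ^ μ b).totalDegree ≤ μ b := by
    intro b _
    refine (totalDegree_pow _ _).trans ?_
    have h3 : (X b - C (xW (b, 0)) : MvPolynomial (Fin N) (AW N k d)).totalDegree ≤ 1 := by
      refine (totalDegree_sub _ _).trans (max_le ?_ ?_)
      · exact (totalDegree_X b).le
      · rw [totalDegree_C]
        exact Nat.zero_le 1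
    calc μ b * (X b - C (xW (b, 0)) : MvPolynomial (Fin N) (AW N k d)).totalDegree ≤ μ b * 1 :=
          Nat.mul_le_mul_left _ h3
      _ = μ b := mul_one _
  refine (Finset.sum_le_sum h2).trans ?_
  have h3 := le_totalDegree hμ
  rwa [Finsupp.sum_fintype _ _ (fun _ => rfl)] at h3

theorem aeval_arc_shift (g : MvPolynomial (Fin N) ℂ) :
    aeval (arc (xW : JV N k → AW N k d))
        (aeval (fun b => X b - C (xW (b, 0))) g : MvPolynomial (Fin N) (AW N k d)) = phW g := by
  unfold phW
  induction g using MvPolynomial.induction_on with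
  | C r =>
    rw [aeval_C, aeval_C]
    change aeval (arc (xW : JV N k → AW N k d)) (C (algebraMap ℂ (AW N k d) r)) = _
    rw [aeval_C]
    rfl
  | add p q hp hq =>
    rw [map_add, map_add, map_add, hp, hq]
  | mul_X p b hp =>
    rw [map_mul, map_mul, map_mul, hp, aeval_X, aeval_X, map_sub, aeval_X, aeval_C]
    rfl

/-- `G = - ∑_i C (WC z (HH φ j) i) * z_i (X - x)`.  Degree `≤ 2 ≤ d j`.  `congG`: `aeval_arc_shift`, `cramer_matW` (`coeff_zero_phW`; `HH` has no constant coefficient).
`zeroG`: `sgW a (WC z (HH φ j) i) = 0`: the determinant (`map_det_matW`) has a zero column (`sgW_HH`).  `poleG`: `PoleA_WC` with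
`A = 3 k` (`PB_HH`: `d j - 1 + 2 l ≤ 3 k`) and `PoleA_coeff_shift` with `e = 2`: `4 (k - 1) + (3 k + 2) + 2 ≤ 7 k`. -/
theorem exists_G_small {a : CI N d → ℂ} {φ : Fin N → MvPolynomial (Fin N) ℂ}
    {z : Fin k → MvPolynomial (Fin N) ℂ} (hk : 1 ≤ k) (hφ : ∀ b, constantCoeff (φ b) = 0)
    (hz0 : ∀ i, constantCoeff (z i) = 0) (hz2 : ∀ i, (z i).totalDegree ≤ 2) {j : Fin c}
    (hj2 : 2 ≤ d j) (hjk : d j ≤ k)
    (hpres : ∑ b, φ b * pderiv b (PF a j) ∈ mX N ℂ ^ (k + 1)) :
    ∃ G : MvPolynomial (Fin N) (AW N k d), G.totalDegree ≤ d j ∧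
      (Polynomial.X : Polynomial (AW N k d)) ^ (k + 1) ∣
        aeval (arc xW) G + Polynomial.C (WW z) * HH φ j ∧
      (∀ α, sgW a (coeff α G) = 0) ∧ ∀ α, PoleA (7 * k) (coeff α G) := by
  classical
  have hH0 : (HH φ j : Polynomial (AW N k d)).coeff 0 = 0 := by
    unfold HH
    rw [Polynomial.finsetSum_coeff]
    refine Finset.sum_eq_zero fun b _ => ?_
    rw [Polynomial.mul_coeff_zero, coeff_zero_phW (hφ b), zero_mul]
  refine ⟨-∑ i, C (WC z (HH φ j) i) * aeval (fun b => X b - C (xW (b, 0))) (z i), ?_, ?_, ?_, ?_⟩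
  · rw [totalDegree_neg]
    refine totalDegree_finsetSum_le fun i _ => ?_
    refine (totalDegree_mul _ _).trans ?_
    rw [totalDegree_C, zero_add]
    exact ((totalDegree_shift (z i)).trans (hz2 i)).trans hj2
  · have h1 := cramer_matW (fun i => (phW (z i) : Polynomial (AW N k d))) (HH φ j)
      (fun i => coeff_zero_phW (hz0 i)) hH0
    have h2 : aeval (arc (xW : JV N k → AW N k d))
        (-∑ i, C (WC z (HH φ j) i) * aeval (fun b => X b - C (xW (b, 0))) (z i) :
          MvPolynomial (Fin N) (AW N k d)) +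
          Polynomial.C (WW z) * HH φ j =
        -((∑ i, Polynomial.C (matW (Function.update (fun i => (phW (z i) : Polynomial (AW N k d))) i
          (HH φ j))).det * phW (z i)) -
          Polynomial.C (matW fun i => (phW (z i) : Polynomial (AW N k d))).det * HH φ j) := by
      rw [map_neg, map_sum, neg_sub, sub_eq_neg_add]
      congr 1
      congr 1
      refine Finset.sum_congr rfl fun i _ => ?_
      rw [map_mul, aeval_arc_shift, aeval_C]
      rfl
    rw [h2]
    exact Dvd.dvd.neg_right h1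
  · intro α
    rw [coeff_neg, coeff_sum, map_neg, map_sum, neg_eq_zero]
    refine Finset.sum_eq_zero fun i _ => ?_
    rw [coeff_C_mul, map_mul]
    have h1 : sgW a (WC z (HH φ j) i : AW N k d) = 0 := by
      unfold WC
      have h2 := map_det_matW (sgW a).toRingHom
        (Function.update (fun i => (phW (z i) : Polynomial (AW N k d))) i (HH φ j))
      have h3 : (sgW a).toRingHom
          (matW (Function.update (fun i => (phW (z i) : Polynomial (AW N k d))) i (HH φ j))).det =
          sgW a (matW (Function.update (fun i => (phW (z i) : Polynomial (AW N k d))) i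
            (HH φ j))).det := rfl
      rw [← h3, h2]
      refine Matrix.det_eq_zero_of_column_eq_zero i fun l => ?_
      unfold matW
      rw [Matrix.of_apply]
      beta_reduce
      rw [Function.update_self, Polynomial.coeff_map]
      exact sgW_HH hpres (by omega)
    rw [h1, zero_mul]
  · intro α
    rw [coeff_neg, coeff_sum]
    refine PoleA.neg (PoleA.sum _ fun i _ => ?_)
    rw [coeff_C_mul]
    have h1 : PoleA (4 * (k - 1) + (3 * k + 2)) (WC z (HH φ j) i : AW N k d) :=
      PoleA_WC hz0 hz2 hH0 (fun l hl => (PB_HH φ j l).mono (by omega)) i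
    exact (h1.mul (PoleA_coeff_shift (hz2 i) α)).mono (by omega)

end Pool.Agent.H78W
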