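import Pool.Agent.Lib.H78W.D0
import Pool.Agent.Lib.H53V.NMain

set_option autoImplicit false

/-!
CHUNK X0 of H78W (analysis of H53W).  Definitions.
-/

open MvPolynomial

namespace Pool.Agent.H78W

open Pool.Agent.H89T Pool.Agent.H67T Pool.Agent.H53U Pool.Agent.H78M

/-- The `l`-th Taylor coefficient of the jet. -/
noncomputable def tv {N k : ℕ} (ξ : JV N k → ℂ) (l : ℕ) (b : Fin N) : ℂ := (arc ξ b).coeff l

/-- The jet `ξ` of order `2 r` is linearly regular of span `r`: its first `r` Taylor coefficients are linearly independent and the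
other ones (of positive order) are linear combinations of them. -/
def RegJ {N : ℕ} (r : ℕ) (ξ : JV N (2 * r) → ℂ) : Prop :=
  LinearIndependent ℂ (fun i : Fin r => tv ξ ((i : ℕ) + 1)) ∧
    ∀ l, 1 ≤ l → tv ξ l ∈ Submodule.span ℂ (Set.range fun i : Fin r => tv ξ ((i : ℕ) + 1))

/-- RESULT OF MODULE C: there are no linearly regular jets of order `2 r` and span `r` at the point `0` of a generic pointed complete
intersection. -/
def NoReg (n r : ℕ) {c : ℕ} (d : Fin c → ℕ) : Prop :=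
  ∃ Θ : RC (n + c) d, (∃ a : CI (n + c) d → ℂ, (∀ j, U0 a 0 j = 0) ∧ eval a Θ ≠ 0) ∧
    ∀ a : CI (n + c) d → ℂ, (∀ j, U0 a 0 j = 0) → eval a Θ ≠ 0 →
      ∀ ξ : JV (n + c) (2 * r) → ℂ, (∀ b, ξ (b, 0) = 0) →
        (∀ j, ∀ i ≤ 2 * r, H53V.uV a ξ j i = 0) → ¬ RegJ r ξ

/-- The statement for the nondegenerate points: no entire curve `w` in `F = 0` with base point `(1, 0, ..., 0)` such that the jet of order `k` of
`w (exp z - 1)` at `0` is nondegenerate. -/
def PtdQ (n k : ℕ) {c : ℕ} (d : Fin c → ℕ) : Prop :=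
  ∃ Θ : RC (n + c) d,
    (∃ a : CI (n + c) d → ℂ, (∀ j, U0 a 0 j = 0) ∧ eval a Θ ≠ 0) ∧
    ∀ F : Fin c → MvPolynomial (Fin (n + c + 1)) ℂ, (∀ j, (F j).IsHomogeneous (d j)) →
      (∀ j, U0 (cfs d F) 0 j = 0) → eval (cfs d F) Θ ≠ 0 →
        ∀ w : ℂ → Fin (n + c + 1) → ℂ, IsHol w → (∀ z j, eval (w z) (F j) = 0) →
          w 0 0 ≠ 0 → (∀ b : Fin (n + c), w 0 b.succ = 0) →
          ¬ QND (jetf k (ch 0 fun z => w (Complex.exp z - 1)) 0)

/-- The forms in the coordinates with the point `x` as origin. -/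
noncomputable def TF {N : ℕ} (x : Fin N → ℂ) (F : MvPolynomial (Fin (N + 1)) ℂ) :
    MvPolynomial (Fin (N + 1)) ℂ :=
  aeval (fun b : Fin (N + 1) => Fin.cases (motive := fun _ => MvPolynomial (Fin (N + 1)) ℂ) (X 0)
    (fun b' => X b'.succ + C (x b') * X 0) b) F

/-- The points in the coordinates with the point `x` as origin. -/
def Ty {N : ℕ} (x : Fin N → ℂ) (y : Fin (N + 1) → ℂ) : Fin (N + 1) → ℂ :=
  fun b => Fin.cases (motive := fun _ => ℂ) (y 0) (fun b' => y b'.succ - x b' * y 0) b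

end Pool.Agent.H78W
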