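import Pool.Agent.Lib.H78W.X0
import Pool.Agent.Lib.H78W.W3

set_option autoImplicit false

/-!
CHUNK X1 of H78W (analysis of H53W).  The jets of the affine coordinates and the jets of the curve.
-/

open MvPolynomial

namespace Pool.Agent.H78W

open Pool.Agent.H89T Pool.Agent.H67T Pool.Agent.H53U Pool.Agent.H78M

variable {N k : ℕ} {y : ℂ → Fin (N + 1) → ℂ}

/-- The Taylor coefficients of a product of two analytic functions (Leibniz, `iteratedDeriv_mul` or the like, divided by the factorials). -/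
theorem taylor_mul {f g : ℂ → ℂ} {z : ℂ} (hf : AnalyticAt ℂ f z) (hg : AnalyticAt ℂ g z) (l : ℕ) :
    iteratedDeriv l (fun w => f w * g w) z / (l.factorial : ℂ) =
      ∑ x ∈ Finset.HasAntidiagonal.antidiagonal l, (iteratedDeriv x.1 f z / (x.1.factorial : ℂ)) *
        (iteratedDeriv x.2 g z / (x.2.factorial : ℂ)) := by
  rw [iteratedDeriv_fun_mul hf.contDiffAt hg.contDiffAt, Finset.sum_div]
  rw [Finset.Nat.sum_antidiagonal_eq_sum_range_succ (fun i j =>
    (iteratedDeriv i f z / (i.factorial : ℂ)) * (iteratedDeriv j g z / (j.factorial : ℂ))) l]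
  refine Finset.sum_congr rfl fun i hi => ?_
  have hi' : i ≤ l := Nat.lt_succ_iff.1 (Finset.mem_range.1 hi)
  have h1 : ((l.choose i : ℕ) : ℂ) * ((i.factorial : ℕ) : ℂ) * (((l - i).factorial : ℕ) : ℂ) =
      ((l.factorial : ℕ) : ℂ) := by
    exact_mod_cast Nat.choose_mul_factorial_mul_factorial hi'
  have h2 : ((i.factorial : ℕ) : ℂ) ≠ 0 := Nat.cast_ne_zero.2 (Nat.factorial_ne_zero _)
  have h3 : (((l - i).factorial : ℕ) : ℂ) ≠ 0 := Nat.cast_ne_zero.2 (Nat.factorial_ne_zero _)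
  have h4 : ((l.choose i : ℕ) : ℂ) ≠ 0 := by
    intro h
    rw [h] at h1
    have h5 : ((l.factorial : ℕ) : ℂ) ≠ 0 := Nat.cast_ne_zero.2 (Nat.factorial_ne_zero _)
    apply h5
    rw [← h1]
    ring
  rw [← h1]
  field_simp

/-- `y_0 * ch_b = y_(b + 1)` near `z`; `taylor_mul`, `analyticAt_ch`, `mulJ_zero`, `mulJ_succ`, `Polynomial.coeff_mul`, `coeff_sT`, `coeff_arc`. -/
theorem mulJ_jet (hy : IsHol y) {z : ℂ} (hz : y z 0 ≠ 0) :
    mulJ (fun l => jetf k y z (0, l)) (jetf k (ch 0 y) z) = jetf k y z := by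
  funext p
  obtain ⟨b', l⟩ := p
  refine Fin.cases ?_ (fun b => ?_) b'
  · rw [mulJ_zero]
  · rw [mulJ_succ, Polynomial.coeff_mul]
    have h1 : ∀ x ∈ Finset.HasAntidiagonal.antidiagonal (l : ℕ),
        (sT fun l => jetf k y z (0, l)).coeff x.1 * (arc (jetf k (ch 0 y) z) b).coeff x.2 =
        (iteratedDeriv x.1 (fun w => y w 0) z / (x.1.factorial : ℂ)) *
        (iteratedDeriv x.2 (fun w => ch 0 y w b) z / (x.2.factorial : ℂ)) := by
      intro x hx
      have h2 : x.1 + x.2 = (l : ℕ) := Finset.HasAntidiagonal.mem_antidiagonal.1 hx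
      have h3 := l.2
      rw [w2_coeff_sT _ x.1 (by omega), H89T.coeff_arc, dif_pos (by omega)]
      rfl
    rw [Finset.sum_congr rfl h1, ← taylor_mul ((hy.diff 0).analyticAt z)
      (analyticAt_ch hy.diff 0 hz b) (l : ℕ)]
    unfold jetf
    simp only
    congr 1
    refine Filter.EventuallyEq.iteratedDeriv_eq _ ?_
    have h4 : ∀ᶠ w in nhds z, y w 0 ≠ 0 :=
      ((hy.diff 0).continuous.continuousAt).eventually_ne hz
    filter_upwards [h4] with w hw
    unfold ch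
    rw [Fin.succAbove_zero_apply, mul_div_cancel₀ _ hw]

/-- The derivatives of entire functions are entire. -/
theorem differentiable_jet (hy : IsHol y) (R : MvPolynomial (JV (N + 1) k) ℂ) :
    Differentiable ℂ fun z => eval (jetf k y z) R := by
  have h1 : ∀ p : JV (N + 1) k, Differentiable ℂ fun z => jetf k y z p := by
    intro p
    unfold jetf
    exact ((hy.diff p.1).contDiff.differentiable_iteratedDeriv' (p.2 : ℕ)).div_const _
  induction R using MvPolynomial.induction_on with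
  | C t =>
    simp only [eval_C]
    exact differentiable_const t
  | add p q hp hq =>
    simp only [map_add]
    exact hp.add hq
  | mul_X p q hp =>
    simp only [map_mul, eval_X]
    exact hp.mul (h1 q)

/-- As `norm_eval_le` in H89T/DE.lean, with the total degree. -/
theorem norm_eval_le_deg {M : ℕ} {P : MvPolynomial (JV N k) ℂ} (hP : P.totalDegree ≤ M) :
    ∃ C : ℝ, 0 ≤ C ∧ ∀ (ξ : JV N k → ℂ) (T S : ℝ), 1 ≤ T → 1 ≤ S → (∀ p, ‖ξ p‖ ≤ T * S) →
      ‖eval ξ P‖ ≤ C * T ^ M * S ^ M := by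
  refine ⟨∑ m ∈ P.support, ‖P.coeff m‖, Finset.sum_nonneg fun _ _ => norm_nonneg _,
    fun ξ T S hT hS hξ => ?_⟩
  have hTS : 1 ≤ T * S := one_le_mul_of_one_le_of_one_le hT hS
  rw [eval_eq', mul_assoc, ← mul_pow, Finset.sum_mul]
  refine (norm_sum_le _ _).trans (Finset.sum_le_sum fun m hm => ?_)
  rw [norm_mul]
  refine mul_le_mul_of_nonneg_left ?_ (norm_nonneg _)
  rw [norm_prod]
  calc ∏ p, ‖ξ p ^ m p‖ ≤ ∏ p, (T * S) ^ m p := by
        refine Finset.prod_le_prod (fun _ _ => norm_nonneg _) fun p _ => ?_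
        rw [norm_pow]
        exact pow_le_pow_left₀ (norm_nonneg _) (hξ p) _
    _ = (T * S) ^ ∑ p, m p := Finset.prod_pow_eq_pow_sum _ _ _
    _ ≤ (T * S) ^ M := by
        refine pow_le_pow_right₀ hTS ?_
        have h1 := le_totalDegree hm
        rw [Finsupp.sum_fintype _ _ (fun _ => rfl)] at h1
        exact h1.trans hP

/-- `Qf z = eval (jetf k y z) R` with the `R` of `HasPole` (`mulJ_jet`: `s 0 = jetf k y z (0, 0) = y z 0`), `HasPole.totalDegree_le`, `norm_eval_le_deg`, the bound as in `QQ_le_K`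
(H53V/N1.lean): `norm_jetf_le_K`. -/
theorem exists_QR {M : ℕ} (hy : IsHol y) {P : MvPolynomial (JV N k) ℂ} (hP : HasPole M P) :
    ∃ Qf : ℂ → ℂ, Differentiable ℂ Qf ∧
      (∀ z, y z 0 ≠ 0 → Qf z = y z 0 ^ M * eval (jetf k (ch 0 y) z) P) ∧
      ∃ C : ℝ, 0 ≤ C ∧ ∀ z, Good y z → ‖Qf z‖ ≤ C * ‖y z‖ ^ M * H53V.LamK k y z ^ M := by
  obtain ⟨R, hR, h⟩ := hP
  obtain ⟨C, hC, hb⟩ := norm_eval_le_deg (HasPole.totalDegree_le ⟨R, hR, h⟩)
  have h0 : ∀ z, y z 0 ≠ 0 → eval (jetf k y z) R = y z 0 ^ M * eval (jetf k (ch 0 y) z) P := by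
    intro z hz
    have h1 := h (fun l => jetf k y z (0, l)) (jetf k (ch 0 y) z)
    rw [mulJ_jet hy hz] at h1
    rw [← h1]
    congr 2
    unfold jetf
    simp
  refine ⟨fun z => eval (jetf k y z) R, differentiable_jet hy R, h0, C, hC, fun z hz => ?_⟩
  have h1 := hb (jetf k (ch 0 y) z) (H53V.LamK k y z) (‖y z‖ / ‖y z 0‖)
    (H53V.one_le_LamK _ _ _) (norm_coord_pos _ _ _ hz.1) (H53V.norm_jetf_le_K hz)
  show ‖eval (jetf k y z) R‖ ≤ _
  rw [h0 z hz.1, norm_mul, norm_pow]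
  have hc : 0 < ‖y z 0‖ := norm_pos_iff.mpr hz.1
  calc ‖y z 0‖ ^ M * ‖eval (jetf k (ch 0 y) z) P‖
      ≤ ‖y z 0‖ ^ M * (C * H53V.LamK k y z ^ M * (‖y z‖ / ‖y z 0‖) ^ M) :=
        mul_le_mul_of_nonneg_left h1 (by positivity)
    _ = C * ‖y z‖ ^ M * H53V.LamK k y z ^ M := by
        rw [div_pow]
        field_simp

end Pool.Agent.H78W
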