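import Pool.Agent.Lib.H78W.X1

set_option autoImplicit false

/-!
CHUNK X2 of H78W (analysis of H53W).  Proposition D with poles.
-/

open MvPolynomial Filter Topology

namespace Pool.Agent.H78W

open Pool.Agent.H89T Pool.Agent.H67T Pool.Agent.H53U Pool.Agent.H78M

/-- The proof of `H53V.propKD` (H53V/N3.lean) with the entire functions `Qf` of `exists_QR` instead of `QQ y 0 M (P i)` (choose them for all `P i` and `Q i`). -/
theorem propKDW {N k R κ M s : ℕ} (hs : R * M + 1 ≤ s * κ) {y : ℂ → Fin (N + 1) → ℂ}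
    (hy : IsHol y) (hy0 : ∃ z, y z 0 ≠ 0)
    (hgrow : ∃ c K : ℝ, 0 < c ∧ ∀ r : ℝ, 1 ≤ r → c * r - K ≤ chi y r)
    {l : Fin R → ℂ → ℂ} (hl : ∀ i, Differentiable ℂ (l i)) {A : ℝ} (hA0 : 0 < A)
    (hA : ∀ z, ‖y z‖ ≤ A * ‖y z 0‖ ∨ ∃ I : Finset (Fin R), I.card = κ ∧
      ∀ i ∈ I, ‖y z‖ ≤ A * ‖l i z‖)
    {P Q : Fin R → MvPolynomial (JV N k) ℂ} (hP : ∀ i, HasPole M (P i)) (hQ : ∀ i, HasPole M (Q i))
    (hrel : ∀ i z, y z 0 ≠ 0 → l i z ^ s * eval (jetf k (ch 0 y) z) (P i) =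
      y z 0 ^ s * eval (jetf k (ch 0 y) z) (Q i)) {z : ℂ} (hz : y z 0 ≠ 0) :
    ∃ i, eval (jetf k (ch 0 y) z) (P i) = 0 := by
  classical
  choose QP dP eP CP hCP hbP using fun i => exists_QR hy (hP i)
  choose QS dS eS CQ hCQ hbQ using fun i => exists_QR hy (hQ i)
  have hd := hy.diff
  obtain ⟨e, he⟩ : ∃ e, s * κ = (R * M + 1) + e := ⟨s * κ - (R * M + 1), by omega⟩
  set q : ℂ → ℂ := fun z => ∏ i, QP i z with hq
  set p : ℂ → ℂ := fun z => y z 0 ^ (R * M + 1) with hp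
  set l' : {I : Finset (Fin R) // I.card = κ} → ℂ → ℂ := fun I z => ∏ i ∈ I.1, l i z ^ s with hl'
  set r' : {I : Finset (Fin R) // I.card = κ} → ℂ → ℂ := fun I z =>
    y z 0 ^ e * ((∏ i ∈ I.1, QS i z) * ∏ i ∈ I.1ᶜ, QP i z) with hr'
  have hqd : Differentiable ℂ q := by
    rw [hq]
    exact Differentiable.fun_finsetProd fun i _ => dP i
  have hpd : Differentiable ℂ p := (hd 0).pow _
  have hl'd : ∀ I, Differentiable ℂ (l' I) := fun I =>
    Differentiable.fun_finsetProd fun i _ => (hl i).pow s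
  have hr'd : ∀ I, Differentiable ℂ (r' I) := fun I =>
    ((hd 0).pow e).mul ((Differentiable.fun_finsetProd fun i _ => dS i).mul
      (Differentiable.fun_finsetProd fun i _ => dP i))
  have hp0 : ∃ z, p z ≠ 0 := by
    obtain ⟨z, hz⟩ := hy0
    exact ⟨z, pow_ne_zero _ hz⟩
  have h0 : ∀ z, p z = 0 → ∃ I, l' I z ≠ 0 := by
    intro z hz
    have hz0 : y z 0 = 0 := eq_zero_of_pow_eq_zero hz
    have hne : 0 < ‖y z‖ := norm_pos_iff.2 (hy.ne_zero z)
    rcases hA z with h | ⟨I, hI, h⟩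
    · rw [hz0, norm_zero, mul_zero] at h
      exact absurd h (not_le.2 hne)
    · refine ⟨⟨I, hI⟩, Finset.prod_ne_zero_iff.2 fun i hi => pow_ne_zero _ fun h1 => ?_⟩
      have h2 := h i hi
      rw [h1, norm_zero, mul_zero] at h2
      exact absurd h2 (not_le.2 hne)
  have hrel' : ∀ I z, p z ≠ 0 → l' I z * q z = p z * r' I z := by
    intro I z hz
    have hz0 : y z 0 ≠ 0 := fun h => hz (by rw [hp]; simp [h])
    have h1 : ∀ i, l i z ^ s * QP i z = y z 0 ^ s * QS i z := by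
      intro i
      rw [eP i z hz0, eS i z hz0]
      linear_combination (y z 0 ^ M) * hrel i z hz0
    have h2 : q z = (∏ i ∈ I.1, QP i z) * ∏ i ∈ I.1ᶜ, QP i z := by
      rw [hq]
      exact (Finset.prod_mul_prod_compl I.1 _).symm
    have h3 : (∏ i ∈ I.1, l i z ^ s) * ∏ i ∈ I.1, QP i z =
        y z 0 ^ (s * κ) * ∏ i ∈ I.1, QS i z := by
      rw [← Finset.prod_mul_distrib, Finset.prod_congr rfl fun i _ => h1 i,
        Finset.prod_mul_distrib, Finset.prod_const, I.2, ← pow_mul]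
    rw [h2, hl', hp, hr']
    simp only
    rw [← mul_assoc, h3, he, pow_add]
    ring
  obtain ⟨Z, hZd, hZ1, hZ2⟩ := q4_quot hpd hqd hl'd hr'd hp0 h0 hrel'
  -- the bound
  set CC : ℝ := 1 + (∑ i, CP i + ∑ i, CQ i) with hCC
  have hSP : 0 ≤ ∑ i, CP i := Finset.sum_nonneg fun i _ => hCP i
  have hSQ : 0 ≤ ∑ i, CQ i := Finset.sum_nonneg fun i _ => hCQ i
  have hCC0 : 0 < CC := by positivity
  have hb : ∀ z, Good y z → ‖Z z‖ * ‖y z‖ ≤
      ((A ^ (R * M + 1) + A ^ (s * κ)) * CC ^ R) * H53V.LamK k y z ^ (R * M) := by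
    intro z hg
    have hL := H53V.one_le_LamK k y z
    have hL0 : 0 < H53V.LamK k y z := by linarith
    have hyz : 0 < ‖y z‖ := norm_pos_iff.2 (hy.ne_zero z)
    set B : ℝ := CC * ‖y z‖ ^ M * H53V.LamK k y z ^ M with hB
    have hB0 : 0 ≤ B := by positivity
    have bP : ∀ i, ‖QP i z‖ ≤ B := by
      intro i
      refine (hbP i z hg).trans ?_
      have h1 : CP i ≤ CC := by
        have := Finset.single_le_sum (f := CP) (fun i _ => hCP i) (Finset.mem_univ i)
        linarith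
      rw [hB]
      gcongr
    have bQ : ∀ i, ‖QS i z‖ ≤ B := by
      intro i
      refine (hbQ i z hg).trans ?_
      have h1 : CQ i ≤ CC := by
        have := Finset.single_le_sum (f := CQ) (fun i _ => hCQ i) (Finset.mem_univ i)
        linarith
      rw [hB]
      gcongr
    have hBR : B ^ R = CC ^ R * ‖y z‖ ^ (R * M) * H53V.LamK k y z ^ (R * M) := by
      rw [hB, mul_pow, mul_pow, ← pow_mul, ← pow_mul, mul_comm M R]
    have concl : ∀ (E f : ℕ) (lv rv : ℂ), E = (R * M + 1) + f → ‖y z‖ ^ E ≤ A ^ E * ‖lv‖ →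
        rv = lv * Z z → ‖rv‖ ≤ ‖y z‖ ^ f * B ^ R →
        ‖Z z‖ * ‖y z‖ ≤ (A ^ E * CC ^ R) * H53V.LamK k y z ^ (R * M) := by
      intro E f lv rv hE h1 h2 h3
      have h4 : ‖y z‖ ^ (R * M + f) * (‖Z z‖ * ‖y z‖) ≤
          ‖y z‖ ^ (R * M + f) * ((A ^ E * CC ^ R) * H53V.LamK k y z ^ (R * M)) := by
        calc ‖y z‖ ^ (R * M + f) * (‖Z z‖ * ‖y z‖) = ‖y z‖ ^ E * ‖Z z‖ := by
              rw [hE]
              ring
          _ ≤ A ^ E * ‖lv‖ * ‖Z z‖ := mul_le_mul_of_nonneg_right h1 (norm_nonneg _)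
          _ = A ^ E * ‖rv‖ := by rw [h2, norm_mul]; ring
          _ ≤ A ^ E * (‖y z‖ ^ f * B ^ R) := mul_le_mul_of_nonneg_left h3 (by positivity)
          _ = _ := by
              rw [hBR]
              ring
      exact le_of_mul_le_mul_left h4 (pow_pos hyz _)
    have hqb : ‖q z‖ ≤ B ^ R := by
      rw [hq]
      simp only
      rw [norm_prod]
      calc ∏ i, ‖QP i z‖ ≤ ∏ _i : Fin R, B :=
            Finset.prod_le_prod (fun _ _ => norm_nonneg _) fun i _ => bP i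
        _ = B ^ R := by rw [Finset.prod_const, Finset.card_univ, Fintype.card_fin]
    rcases hA z with h | ⟨I, hI, h⟩
    · have h1 := concl (R * M + 1) 0 (p z) (q z) rfl (by
        rw [hp]
        simp only
        rw [norm_pow, ← mul_pow]
        exact pow_le_pow_left₀ hyz.le h _) (hZ1 z) (by rwa [pow_zero, one_mul])
      refine h1.trans ?_
      gcongr
      have : 0 ≤ A ^ (s * κ) := by positivity
      linarith
    · have hlb : ‖y z‖ ^ (s * κ) ≤ A ^ (s * κ) * ‖l' ⟨I, hI⟩ z‖ := by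
        rw [hl']
        simp only
        rw [norm_prod]
        have h1 : ‖y z‖ ^ (s * κ) = ∏ _i ∈ I, ‖y z‖ ^ s := by
          rw [Finset.prod_const, hI, ← pow_mul]
        have h2 : A ^ (s * κ) * ∏ i ∈ I, ‖l i z ^ s‖ = ∏ i ∈ I, (A * ‖l i z‖) ^ s := by
          have h3 : A ^ (s * κ) = ∏ _i ∈ I, A ^ s := by
            rw [Finset.prod_const, hI, ← pow_mul]
          rw [h3, ← Finset.prod_mul_distrib]
          refine Finset.prod_congr rfl fun i _ => ?_
          rw [norm_pow, mul_pow]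
        rw [h1, h2]
        refine Finset.prod_le_prod (fun _ _ => by positivity) fun i hi => ?_
        exact pow_le_pow_left₀ hyz.le (h i hi) _
      have hrb : ‖r' ⟨I, hI⟩ z‖ ≤ ‖y z‖ ^ e * B ^ R := by
        rw [hr']
        simp only
        rw [norm_mul, norm_pow]
        have h1 : ‖(∏ i ∈ I, QS i z) * ∏ i ∈ Iᶜ, QP i z‖ ≤ B ^ R := by
          rw [norm_mul, norm_prod, norm_prod]
          have h2 : ∏ i ∈ I, ‖QS i z‖ ≤ ∏ _i ∈ I, B :=
            Finset.prod_le_prod (fun _ _ => norm_nonneg _) fun i _ => bQ i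
          have h3 : ∏ i ∈ Iᶜ, ‖QP i z‖ ≤ ∏ _i ∈ Iᶜ, B :=
            Finset.prod_le_prod (fun _ _ => norm_nonneg _) fun i _ => bP i
          have h4 : (∏ _i ∈ I, B) * ∏ _i ∈ Iᶜ, B = B ^ R := by
            rw [Finset.prod_mul_prod_compl, Finset.prod_const, Finset.card_univ, Fintype.card_fin]
          rw [← h4]
          exact mul_le_mul h2 h3 (Finset.prod_nonneg fun _ _ => norm_nonneg _)
            (Finset.prod_nonneg fun _ _ => hB0)
        refine mul_le_mul ?_ h1 (norm_nonneg _) (by positivity)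
        exact pow_le_pow_left₀ (norm_nonneg _) (norm_le_pi_norm (y z) 0) _
      have h1 := concl (s * κ) e (l' ⟨I, hI⟩ z) (r' ⟨I, hI⟩ z) he hlb (hZ2 ⟨I, hI⟩ z) hrb
      refine h1.trans ?_
      gcongr
      have : 0 ≤ A ^ (R * M + 1) := by positivity
      linarith
  have hC0 : 0 < (A ^ (R * M + 1) + A ^ (s * κ)) * CC ^ R := by positivity
  have h1 := H53V.Z_eq_zero_K hy hy0 hgrow hZd hC0 hb z
  have h2 := hZ1 z
  rw [h1, mul_zero, hq] at h2
  simp only at h2
  obtain ⟨i, -, hi⟩ := Finset.prod_eq_zero_iff.1 h2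
  refine ⟨i, ?_⟩
  rw [eP i z hz] at hi
  exact (mul_eq_zero.1 hi).resolve_left (pow_ne_zero _ hz)

end Pool.Agent.H78W
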