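import Pool.Agent.Lib.H78W.X2
import Pool.Agent.Lib.H78W.W18

set_option autoImplicit false

/-!
CHUNK X3 of H78W (analysis of H53W).  The theorem at the nondegenerate points.
-/

open MvPolynomial

namespace Pool.Agent.H78W

open Pool.Agent.H89T Pool.Agent.H67T Pool.Agent.H53U Pool.Agent.H78M

/-- The proof of `H53V.ptdU_of_algK` (H53V/NMain.lean): `y = w`, `y' z = w (exp z - 1)`; assume `QND (jetf k (ch 0 y') 0)`; by `QND.exists_ne` there is `b₀` with
`ξ (b₀, 1) ≠ 0`, i.e. `deriv (fun z => ch 0 w z b₀) 0 ≠ 0` (`jet_exp` as there), which gives `grow_exp`; `propKDW` instead of `propKD`. -/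
theorem ptdQ_of_algKW {n k q c : ℕ} (hn : 1 ≤ n) (hk : 1 ≤ k) {d : Fin c → ℕ} (hd : ∀ j, 1 ≤ d j)
    (h : AlgKW n k q d) : PtdQ n k d := by
  classical
  obtain ⟨M, s, hs0, hmain⟩ := h
  obtain ⟨Θ₁, hΘ₁, hbase⟩ := exists_theta1 (n := n) hd
  -- the number of the multipliers
  obtain ⟨ν, rfl⟩ : ∃ ν, n = ν + 1 := ⟨n - 1, by omega⟩
  set κ : ℕ := q * ν + 1 with hκ
  set R : ℕ := q * ν + 1 + ν with hR
  have hR' : R + 1 = κ + (ν + 1) := by omega
  have hsM : M + 1 ≤ s := by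
    by_contra hcon
    have h1 : s ≤ M := by omega
    have h2 : q * s ≤ q * M := Nat.mul_le_mul_left _ h1
    have h3 : (q + 1) * M = q * M + M := by ring
    omega
  have hs : R * M + 1 ≤ s * κ := by
    have h1 : ν * ((q + 1) * M + 1) ≤ ν * (q * s) := Nat.mul_le_mul_left _ hs0
    have h2 : s * κ = ν * (q * s) + s := by rw [hκ]; ring
    have h3 : R * M + 1 + ν = ν * ((q + 1) * M + 1) + (M + 1) := by rw [hR]; ring
    omega
  -- the multipliers
  set τ : Fin R → ℂ := fun i => ((i : ℕ) : ℂ) with hτ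
  have hτi : Function.Injective τ := by
    intro i j hij
    have h1 : ((i : ℕ) : ℂ) = ((j : ℕ) : ℂ) := hij
    exact Fin.ext (by exact_mod_cast h1)
  set l : Fin R → Fin (ν + 1 + c) → ℂ := fun i =>
    Fin.append (fun g : Fin (ν + 1) => τ i ^ (g : ℕ)) (fun _ => 0) with hl
  choose Θ₂ hΘ₂ hmain using fun i => hmain (l i)
  refine ⟨Θ₁ * ∏ i, Θ₂ i, mul_generic hΘ₁ (prod_generic hd _ _ fun i _ => hΘ₂ i), ?_⟩
  intro F hF hF0 hΘ y hy hFy h0 h1 hQND
  rw [map_mul, mul_ne_zero_iff, map_prod, Finset.prod_ne_zero_iff] at hΘ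
  set v : Fin (ν + 1 + c) → ℂ := fun b => deriv (fun z => ch 0 y z b) 0 with hv
  set y' : ℂ → Fin (ν + 1 + c + 1) → ℂ := fun z => y (Complex.exp z - 1) with hy'
  have hy'h : IsHol y' := ⟨fun j => (hy.diff j).comp (Complex.differentiable_exp.sub_const 1),
    fun z => hy.ne_zero _⟩
  have hFy' : ∀ z j, eval (y' z) (F j) = 0 := fun z j => hFy _ j
  have hy'0 : y' 0 = y 0 := by
    simp [hy']
  have hjet : jetf 1 (ch 0 y') 0 = JJ 0 v := jet_exp hy h0 h1
  have hy'00 : y' 0 0 ≠ 0 := by rw [hy'0]; exact h0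
  -- the jet
  set ξ : JV (ν + 1 + c) k → ℂ := jetf k (ch 0 y') 0 with hξ
  have hval : ((1 : Fin (k + 1)) : ℕ) = 1 := by
    rw [Fin.val_one', Nat.mod_eq_of_lt (by omega)]
  have hξ0 : ∀ b, ξ (b, 0) = 0 := by
    intro b
    have e : ξ (b, 0) = ch 0 y' 0 b := by
      rw [hξ]
      unfold jetf
      simp
    rw [e]
    unfold ch
    rw [hy'0, Fin.zero_succAbove, h1, zero_div]
  have hξ1 : ∃ b, ξ (b, 1) ≠ 0 := QND.exists_ne hk hξ0 hQND
  obtain ⟨b₀, hb₀'⟩ := hξ1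
  have hb₀ : v b₀ ≠ 0 := by
    have e : ξ (b₀, 1) = jetf 1 (ch 0 y') 0 (b₀, 1) := by
      rw [hξ]
      unfold jetf
      show iteratedDeriv ((1 : Fin (k + 1)) : ℕ) _ 0 / _ = iteratedDeriv ((1 : Fin (1 + 1)) : ℕ) _ 0 / _
      rw [hval]
      rfl
    rw [e, hjet] at hb₀'
    unfold JJ at hb₀'
    rw [if_neg (show ¬ ((1 : Fin 2) = 0) by decide)] at hb₀'
    exact hb₀'
  have hξu : ∀ j, ∀ i ≤ k, H53V.uV (cfs d F) ξ j i = 0 := by
    intro j i hi
    have h2 := H53V.uR_jet_zero (k := k) hF hy'h hFy' hy'00 j hi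
    rw [eval_uR] at h2
    exact h2
  choose P Q t hP hQ hrel hne using fun i =>
    hmain i (cfs d F) hF0 (hΘ.2 i (Finset.mem_univ i)) ξ hξ0 hQND hξu
  -- no base points
  set T : Finset (Fin (ν + 1 + c + 1)) :=
    insert 0 (Finset.univ.image fun i : Fin (ν + 1) => (Fin.castAdd c i).succ) with hT
  obtain ⟨A₁, hA₁0, hA₁⟩ := compact_bound hF (T := T) ⟨0, Finset.mem_insert_self _ _⟩
    (fun x hx hxT => hbase F hF hΘ.1 x hx (hxT 0 (Finset.mem_insert_self _ _)) fun i =>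
      hxT _ (Finset.mem_insert_of_mem (Finset.mem_image_of_mem _ (Finset.mem_univ i))))
  obtain ⟨A, hA0, hA⟩ := genpos hR' (fun g : Fin (ν + 1) => Fin.castAdd c g) hτi t hA₁0
  have hA' : ∀ z, ‖y' z‖ ≤ A * ‖y' z 0‖ ∨ ∃ I : Finset (Fin R), I.card = κ ∧ ∀ i ∈ I,
      ‖y' z‖ ≤ A * ‖∑ g : Fin (ν + 1), τ i ^ (g : ℕ) * y' z (Fin.castAdd c g).succ +
        t i * y' z 0‖ := by
    intro z
    refine hA (y' z) ?_
    obtain ⟨b, hb, hle⟩ := hA₁ (y' z) (hFy' z)
    rw [hT, Finset.mem_insert, Finset.mem_image] at hb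
    rcases hb with rfl | ⟨i, -, rfl⟩
    · exact Or.inl hle
    · exact Or.inr ⟨i, hle⟩
  have hld : ∀ i : Fin R, Differentiable ℂ fun z =>
      ∑ g : Fin (ν + 1), τ i ^ (g : ℕ) * y' z (Fin.castAdd c g).succ + t i * y' z 0 := by
    intro i
    refine Differentiable.add (Differentiable.fun_sum fun g _ => ?_) ?_
    · exact (hy'h.diff _).const_mul _
    · exact (hy'h.diff 0).const_mul _
  obtain ⟨i, hi⟩ := propKDW hs hy'h ⟨0, hy'00⟩ (grow_exp hy h0 hb₀) hld hA0 hA' hP hQ (by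
    intro i z hz
    have h2 := H53V.eval_jet_mem_K hF hy'h hFy' (hrel i) hz
    rw [map_sub, map_mul, map_pow, map_add, eval_C, sub_eq_zero] at h2
    have h3 : eval (jetf k (ch 0 y') z) (H53V.linK k (l i)) =
        ∑ g : Fin (ν + 1), τ i ^ (g : ℕ) * ch 0 y' z (Fin.castAdd c g) := by
      unfold H53V.linK
      rw [map_sum, Fin.sum_univ_add]
      have h4 : ∑ j : Fin c, eval (jetf k (ch 0 y') z)
          (C (l i (Fin.natAdd (ν + 1) j)) * X (Fin.natAdd (ν + 1) j, 0)) = 0 := by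
        refine Finset.sum_eq_zero fun j _ => ?_
        rw [map_mul, eval_C, hl]
        simp only [Fin.append_right, zero_mul]
      rw [h4, add_zero]
      refine Finset.sum_congr rfl fun g _ => ?_
      rw [map_mul, eval_C, eval_X, hl]
      simp only [Fin.append_left]
      congr 1
      simp [jetf]
    have h5 : ∑ g : Fin (ν + 1), τ i ^ (g : ℕ) * y' z (Fin.castAdd c g).succ + t i * y' z 0 =
        y' z 0 * (eval (jetf k (ch 0 y') z) (H53V.linK k (l i)) + t i) := by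
      rw [h3, mul_add, Finset.mul_sum]
      congr 1
      · refine Finset.sum_congr rfl fun g _ => ?_
        have h6 : ch 0 y' z (Fin.castAdd c g) = y' z (Fin.castAdd c g).succ / y' z 0 := by
          unfold ch
          rw [Fin.zero_succAbove]
        rw [h6]
        field_simp
      · ring
    rw [h5, mul_pow, mul_assoc, h2]) hy'00
  exact hne i hi

end Pool.Agent.H78W
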