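import Pool.Agent.Lib.H78W.X4

set_option autoImplicit false

/-!
CHUNK X5 of H78W (analysis of H53W).  Curves in a linear subspace: the argument at one point.
-/

open MvPolynomial Filter Topology

namespace Pool.Agent.H78W

open Pool.Agent.H89T Pool.Agent.H67T Pool.Agent.H53U Pool.Agent.H78M

variable {N : ℕ} {g : ℂ → Fin N → ℂ}

/-- The `l`-th derivative of `g`. -/
noncomputable def dg (g : ℂ → Fin N → ℂ) (l : ℕ) (t : ℂ) : Fin N → ℂ :=
  fun b => iteratedDeriv l (fun w => g w b) t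

theorem x5_analytic {f : ℂ → ℂ} {t₁ : ℂ} (hf : AnalyticAt ℂ f t₁) (l : ℕ) :
    AnalyticAt ℂ (iteratedDeriv l f) t₁ := by
  rw [iteratedDeriv_eq_iterate]
  exact hf.iterated_deriv l

theorem x5_iter (f : ℂ → ℂ) (a b : ℕ) : iteratedDeriv a (iteratedDeriv b f) = iteratedDeriv (a + b) f := by
  rw [iteratedDeriv_eq_iterate, iteratedDeriv_eq_iterate, iteratedDeriv_eq_iterate,
    Function.iterate_add_apply]

/-- The derivatives of a linear form of `g`. -/
theorem x5_lin {t : ℂ} (hg : ∀ b, AnalyticAt ℂ (fun z => g z b) t) (L : Fin N → ℂ) (l : ℕ) :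
    iteratedDeriv l (fun z => ∑ b, L b * g z b) t = ∑ b, L b * dg g l t b := by
  rw [iteratedDeriv_fun_sum (fun b _ => ((analyticAt_const.fun_mul (hg b)).contDiffAt))]
  refine Finset.sum_congr rfl fun b _ => ?_
  rw [iteratedDeriv_const_mul_field]
  rfl

theorem x5_det {m : ℕ} {M : ℂ → Matrix (Fin m) (Fin m) ℂ} {t₁ : ℂ}
    (h : ∀ i j, AnalyticAt ℂ (fun t => M t i j) t₁) : AnalyticAt ℂ (fun t => (M t).det) t₁ := by
  simp only [Matrix.det_apply']
  apply Finset.analyticAt_fun_sum
  intro σ _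
  exact analyticAt_const.fun_mul (Finset.analyticAt_fun_prod _ fun i _ => h _ _)

/-- Only one term of the Leibniz rule remains. -/
theorem x5_leib {f m : ℂ → ℂ} {t₁ : ℂ} {k : ℕ} (hf : AnalyticAt ℂ f t₁) (hm : AnalyticAt ℂ m t₁)
    (h : ∀ i < k, iteratedDeriv i f t₁ = 0) :
    iteratedDeriv k (fun t => f t * m t) t₁ = iteratedDeriv k f t₁ * m t₁ := by
  rw [iteratedDeriv_fun_mul hf.contDiffAt hm.contDiffAt, Finset.sum_range_succ, Finset.sum_eq_zero]
  · rw [Nat.choose_self, Nat.cast_one, one_mul, Nat.sub_self, zero_add, iteratedDeriv_zero]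
  · intro i hi
    rw [h i (Finset.mem_range.1 hi), mul_zero, zero_mul]

theorem x5_functional {r : ℕ} {t₁ : ℂ} (hg : ∀ b, AnalyticAt ℂ (fun z => g z b) t₁)
    (hind : LinearIndependent ℂ fun i : Fin r => dg g ((i : ℕ) + 1) t₁)
    (hdep : ∀ᶠ t in nhds t₁, ¬ LinearIndependent ℂ fun i : Fin (r + 1) => dg g ((i : ℕ) + 1) t)
    (lam : Fin N → ℂ) (hlam : ∀ i : Fin r, ∑ b, lam b * dg g ((i : ℕ) + 1) t₁ b = 0)
    (l : ℕ) (hl : 1 ≤ l) : ∑ b, lam b * dg g l t₁ b = 0 := by
  obtain ⟨L, hL⟩ := exists_dual hind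
  set u : ℂ → ℂ := fun z => ∑ b, lam b * g z b with hu
  have hua : AnalyticAt ℂ u t₁ := by
    apply Finset.analyticAt_fun_sum
    intro b _
    exact analyticAt_const.fun_mul (hg b)
  have hga : ∀ᶠ t in nhds t₁, ∀ b, AnalyticAt ℂ (fun z => g z b) t := by
    rw [Filter.eventually_all]
    intro b
    exact (hg b).eventually_analyticAt
  by_contra hne
  -- the least order
  have hex : ∃ l, 1 ≤ l ∧ iteratedDeriv l u t₁ ≠ 0 := by
    refine ⟨l, hl, ?_⟩
    rw [hu, x5_lin hg]
    exact hne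
  classical
  set l0 := Nat.find hex with hl0
  have hl0s := Nat.find_spec hex
  rw [← hl0] at hl0s
  have hmin : ∀ i, 1 ≤ i → i < l0 → iteratedDeriv i u t₁ = 0 := by
    intro i h1 h2
    by_contra h3
    exact Nat.find_min hex h2 ⟨h1, h3⟩
  have hrl : r < l0 := by
    by_contra hcon
    push Not at hcon
    apply hl0s.2
    have h1 : l0 - 1 < r := by omega
    have h2 := hlam ⟨l0 - 1, h1⟩
    rw [hu, x5_lin hg]
    have e : l0 - 1 + 1 = l0 := by omega
    simp only [e] at h2
    exact h2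
  -- the rows
  let R : Fin (r + 1) → Fin N → ℂ := Fin.snoc (α := fun _ => Fin N → ℂ) L lam
  have hRl : R (Fin.last r) = lam := Fin.snoc_last (α := fun _ => Fin N → ℂ) lam L
  have hRc : ∀ i : Fin r, R i.castSucc = L i := fun i => Fin.snoc_castSucc (α := fun _ => Fin N → ℂ) lam L i
  let M : ℂ → Matrix (Fin (r + 1)) (Fin (r + 1)) ℂ :=
    fun t => Matrix.of fun i j => iteratedDeriv ((j : ℕ) + 1) (fun z => ∑ b, R i b * g z b) t
  have hMa : ∀ i j, AnalyticAt ℂ (fun t => M t i j) t₁ := by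
    intro i j
    have h1 : AnalyticAt ℂ (fun z => ∑ b, R i b * g z b) t₁ := by
      apply Finset.analyticAt_fun_sum
      intro b _
      exact analyticAt_const.fun_mul (hg b)
    exact x5_analytic h1 ((j : ℕ) + 1)
  let m : Fin (r + 1) → ℂ → ℂ := fun j t => ((M t).submatrix (Fin.last r).succAbove j.succAbove).det
  have hma : ∀ j, AnalyticAt ℂ (m j) t₁ := by
    intro j
    apply x5_det
    intro a b
    exact hMa _ _
  have hdet : ∀ᶠ t in nhds t₁, (M t).det = 0 := by
    filter_upwards [hdep, hga] with t ht hgt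
    rw [← Matrix.exists_mulVec_eq_zero_iff]
    rw [Fintype.not_linearIndependent_iff] at ht
    obtain ⟨c, hc, i0, hi0⟩ := ht
    refine ⟨c, fun h => hi0 (by rw [h]; rfl), ?_⟩
    funext i
    have h1 : ∀ j : Fin (r + 1), M t i j = ∑ b, R i b * dg g ((j : ℕ) + 1) t b := by
      intro j
      change iteratedDeriv ((j : ℕ) + 1) (fun z => ∑ b, R i b * g z b) t = _
      exact x5_lin hgt (R i) _
    simp only [Matrix.mulVec, dotProduct, h1, Pi.zero_apply]
    have h2 : ∀ b, ∑ j : Fin (r + 1), c j * dg g ((j : ℕ) + 1) t b = 0 := by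
      intro b
      have h3 := congrFun hc b
      rw [Finset.sum_apply] at h3
      exact h3
    calc ∑ j : Fin (r + 1), (∑ b, R i b * dg g ((j : ℕ) + 1) t b) * c j
        = ∑ b, R i b * ∑ j : Fin (r + 1), c j * dg g ((j : ℕ) + 1) t b := by
          simp only [Finset.sum_mul, Finset.mul_sum]
          rw [Finset.sum_comm]
          refine Finset.sum_congr rfl fun b _ => Finset.sum_congr rfl fun j _ => by ring
      _ = 0 := by
          apply Finset.sum_eq_zero
          intro b _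
          rw [h2 b, mul_zero]
  have hexp : ∀ᶠ t in nhds t₁, ∑ j : Fin (r + 1),
      (-1 : ℂ) ^ ((Fin.last r : ℕ) + (j : ℕ)) * (iteratedDeriv ((j : ℕ) + 1) u t * m j t) = 0 := by
    filter_upwards [hdet] with t ht
    rw [← ht, Matrix.det_succ_row (M t) (Fin.last r)]
    refine Finset.sum_congr rfl fun j _ => ?_
    have h1 : M t (Fin.last r) j = iteratedDeriv ((j : ℕ) + 1) u t := by
      change iteratedDeriv ((j : ℕ) + 1) (fun z => ∑ b, R (Fin.last r) b * g z b) t = _
      rw [hRl]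
    rw [h1, mul_assoc]
  have hder := Filter.EventuallyEq.iteratedDeriv_eq (l0 - 1 - r) hexp
  have hzero : iteratedDeriv (l0 - 1 - r) (fun _ : ℂ => (0 : ℂ)) t₁ = 0 := by
    rw [iteratedDeriv_const]
    split_ifs <;> rfl
  rw [hzero] at hder
  have hfa : ∀ j : Fin (r + 1), AnalyticAt ℂ (fun t => iteratedDeriv ((j : ℕ) + 1) u t * m j t) t₁ :=
    fun j => (x5_analytic hua _).fun_mul (hma j)
  rw [iteratedDeriv_fun_sum (fun j _ => (analyticAt_const.fun_mul (hfa j)).contDiffAt)] at hder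
  have hterm : ∀ j : Fin (r + 1), iteratedDeriv (l0 - 1 - r)
      (fun t => (-1 : ℂ) ^ ((Fin.last r : ℕ) + (j : ℕ)) * (iteratedDeriv ((j : ℕ) + 1) u t * m j t)) t₁ =
      (-1 : ℂ) ^ ((Fin.last r : ℕ) + (j : ℕ)) * (iteratedDeriv (l0 - 1 - r + ((j : ℕ) + 1)) u t₁ * m j t₁) := by
    intro j
    rw [iteratedDeriv_const_mul_field, x5_leib (x5_analytic hua _) (hma j), x5_iter]
    intro i hi
    rw [x5_iter]
    have := j.2
    exact hmin _ (by omega) (by omega)
  rw [Finset.sum_congr rfl fun j _ => hterm j, Fin.sum_univ_castSucc, Finset.sum_eq_zero, zero_add] at hder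
  · have e1 : l0 - 1 - r + (((Fin.last r : Fin (r + 1)) : ℕ) + 1) = l0 := by
      rw [Fin.val_last]; omega
    rw [e1] at hder
    have e2 : m (Fin.last r) t₁ = 1 := by
      have h1 : (M t₁).submatrix (Fin.last r).succAbove (Fin.last r).succAbove = 1 := by
        ext i j
        rw [Matrix.submatrix_apply, Fin.succAbove_last]
        change iteratedDeriv (((Fin.castSucc j : Fin (r + 1)) : ℕ) + 1) (fun z => ∑ b, R i.castSucc b * g z b) t₁ = _
        rw [hRc, x5_lin hg, Fin.val_castSucc, hL i j, Matrix.one_apply]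
      change ((M t₁).submatrix (Fin.last r).succAbove (Fin.last r).succAbove).det = 1
      rw [h1, Matrix.det_one]
    rw [e2, mul_one] at hder
    rcases mul_eq_zero.1 hder with h | h
    · exact absurd h (pow_ne_zero _ (by norm_num))
    · exact hl0s.2 h
  · intro j _
    have h1 : iteratedDeriv (l0 - 1 - r + (((Fin.castSucc j : Fin (r + 1)) : ℕ) + 1)) u t₁ = 0 := by
      rw [Fin.val_castSucc]
      have := j.2
      exact hmin _ (by omega) (by omega)
    rw [h1, zero_mul, mul_zero]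

/-- Let `g` be analytic at `t₁`, `g', ..., g^(r)` linearly independent at `t₁`, and `g', ..., g^(r + 1)` linearly dependent at all points near `t₁`.  Then all derivatives at `t₁` are linear combinations
of `g' (t₁), ..., g^(r) (t₁)`.
PROOF.  Choose coordinates `S : Fin r → Fin N` with `δ (t₁) ≠ 0`, `δ (t) = det (g^(j + 1)_(S i) (t))`.  Near `t₁`: `δ ≠ 0`, so the dependence gives
`δ g^(r + 1) = ∑_i δ_i g^(i)`, `δ_i` the determinants with `g^(i)` replaced by `g^(r + 1)` (Cramer for the coordinates in `S`; the vector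
`g^(r + 1) - ∑ (δ_i / δ) g^(i)` is in the span of ... and has zero coordinates in `S`: as `g', ..., g^(r + 1)` are dependent and `g', ..., g^(r)` independent, `g^(r + 1)` is a combination of them,
with coefficients determined by the coordinates in `S`).  `δ, δ_i` are analytic at `t₁`.
Let `λ` be a linear functional with `λ (g^(i) (t₁)) = 0`, `1 ≤ i ≤ r`, and `u = (λ ∘ g)'`: `δ u^(r) = ∑_i δ_i u^(i - 1)` near `t₁`, `u^(j) (t₁) = 0` for `j < r`.  By induction on `m`,
`u^(r + m) (t₁) = 0`: the `m`-th derivative of the relation at `t₁` (Leibniz) is `δ (t₁) u^(r + m) (t₁) = 0`.  (Or by `analyticOrderAt`.)  So `λ (g^(l) (t₁)) = 0` for all `l ≥ 1` and all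
such `λ`; hence `g^(l) (t₁)` is in the span. -/
theorem mem_span_all {r : ℕ} {t₁ : ℂ} (hg : ∀ b, AnalyticAt ℂ (fun z => g z b) t₁)
    (hind : LinearIndependent ℂ fun i : Fin r => dg g ((i : ℕ) + 1) t₁)
    (hdep : ∀ᶠ t in nhds t₁, ¬ LinearIndependent ℂ fun i : Fin (r + 1) => dg g ((i : ℕ) + 1) t)
    (l : ℕ) (hl : 1 ≤ l) :
    dg g l t₁ ∈ Submodule.span ℂ (Set.range fun i : Fin r => dg g ((i : ℕ) + 1) t₁) := by
  by_contra hcon
  obtain ⟨f, hf, hker⟩ := Submodule.exists_le_ker_of_notMem hcon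
  have hrep : ∀ v : Fin N → ℂ, f v = ∑ b, f (Pi.single b 1) * v b := by
    intro v
    have h3 : v = ∑ b, v b • (Pi.single b (1 : ℂ) : Fin N → ℂ) := by
      funext b'
      rw [Finset.sum_apply, Finset.sum_eq_single b']
      · simp
      · intro b _ hb
        rw [Pi.smul_apply, Pi.single_eq_of_ne (Ne.symm hb), smul_zero]
      · intro h; exact absurd (Finset.mem_univ _) h
    conv_lhs => rw [h3]
    rw [map_sum]
    refine Finset.sum_congr rfl fun b _ => ?_
    rw [map_smul, smul_eq_mul, mul_comm]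
  apply hf
  rw [hrep]
  refine x5_functional hg hind hdep _ (fun i => ?_) l hl
  rw [← hrep]
  exact hker (Submodule.subset_span ⟨i, rfl⟩)

end Pool.Agent.H78W
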