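import Pool.Agent.Lib.H78W.X0

set_option autoImplicit false

/-!
CHUNK Y1 of H78W (H53W).  Module C (no linearly regular jets): a dimension argument.
-/

open MvPolynomial

namespace Pool.Agent.H78W

open Pool.Agent.H89T Pool.Agent.H67T Pool.Agent.H53U Pool.Agent.H78M

/-- A rational map from an affine space to an affine space of larger dimension is not dominant.
PROOF.  `W = 0`: `Θ = 1`.  Otherwise let `K = FractionRing (MvPolynomial τ ℂ)`; `Algebra.trdeg ℂ K = #τ` (`MvPolynomial.trdeg_of_isDomain`, `Algebra.trdeg_add_eq`, `K` is algebraic over the polynomial ring),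
so the family `g_i = G_i / W` in `K`, `i : ι`, is not algebraically independent (`AlgebraicIndependent.lift_cardinalMk_le_trdeg`): there is `Θ ≠ 0` with `aeval g Θ = 0`.
With `e = Θ.totalDegree`: `∑_μ Θ_μ ∏ G_i ^ μ_i W ^ (e - |μ|) = 0` in the polynomial ring (multiply by `W ^ e`, `algebraMap` is injective).  Evaluate at `t`:
`W (t) ^ e Θ (a) = 0` as `G_i (t) = W (t) a_i`.
(Alternative without transcendence degrees: compare the dimensions of the spaces of polynomials of degree at most `m` for large `m`.) -/
theorem exists_dependence {τ ι : Type} [Fintype τ] [Fintype ι] (h : Fintype.card τ < Fintype.card ι)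
    (W : MvPolynomial τ ℂ) (G : ι → MvPolynomial τ ℂ) :
    ∃ Θ : MvPolynomial ι ℂ, Θ ≠ 0 ∧ ∀ (t : τ → ℂ) (a : ι → ℂ), eval t W ≠ 0 →
      (∀ i, eval t W * a i = eval t (G i)) → eval a Θ = 0 := by
  classical
  by_cases hW : W = 0
  · exact ⟨1, one_ne_zero, fun t a ht _ => absurd (by rw [hW, map_zero]) ht⟩
  have hp : Submonoid.powers W ≤ nonZeroDivisors (MvPolynomial τ ℂ) :=
    powers_le_nonZeroDivisors_of_noZeroDivisors hW
  have : IsDomain (Localization.Away W) := IsLocalization.isDomain_localization hp
  have hinj : Function.Injective (algebraMap (MvPolynomial τ ℂ) (Localization.Away W)) :=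
    IsLocalization.injective _ hp
  have : FaithfulSMul (MvPolynomial τ ℂ) (Localization.Away W) :=
    (faithfulSMul_iff_algebraMap_injective _ _).2 hinj
  have : Algebra.IsAlgebraic (MvPolynomial τ ℂ) (Localization.Away W) :=
    IsLocalization.isAlgebraic _ (Submonoid.powers W)
  have h1 : Algebra.trdeg ℂ (Localization.Away W) = (Fintype.card τ : Cardinal) := by
    rw [← trdeg_add_eq ℂ (MvPolynomial τ ℂ), trdeg_eq_zero (R := MvPolynomial τ ℂ) (A := Localization.Away W), add_zero,
      MvPolynomial.trdeg_of_isDomain]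
    simp
  obtain ⟨g, hg⟩ : ∃ g : ι → Localization.Away W, ∀ i,
      algebraMap _ (Localization.Away W) W * g i = algebraMap _ (Localization.Away W) (G i) :=
    ⟨fun i => IsLocalization.mk' _ (G i) (⟨W, Submonoid.mem_powers W⟩ : Submonoid.powers W),
      fun i => IsLocalization.mk'_spec' _ (G i) (⟨W, Submonoid.mem_powers W⟩ : Submonoid.powers W)⟩
  have h2 : ¬ AlgebraicIndependent ℂ g := by
    intro hh
    have h3 := hh.cardinalMk_le_trdeg
    rw [h1, Cardinal.mk_fintype] at h3
    have h4 : Fintype.card ι ≤ Fintype.card τ := by exact_mod_cast h3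
    omega
  rw [algebraicIndependent_iff] at h2
  push Not at h2
  obtain ⟨Θ, h3, h4⟩ := h2
  refine ⟨Θ, h4, fun t a ht ha => ?_⟩
  obtain ⟨φ, hφ⟩ : ∃ φ : Localization.Away W →+* ℂ,
      ∀ P, φ (algebraMap _ (Localization.Away W) P) = eval t P :=
    ⟨IsLocalization.Away.lift W (g := eval t) (isUnit_iff_ne_zero.2 ht), fun P =>
      IsLocalization.Away.lift_eq W _ P⟩
  have h5 : ∀ i, φ (g i) = a i := by
    intro i
    have h6 := congrArg φ (hg i)
    rw [map_mul, hφ, hφ, ← ha i] at h6
    exact mul_left_cancel₀ ht h6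
  have h7 := congrArg φ h3
  rw [map_zero] at h7
  rw [← h7]
  have h8 : (φ.comp (aeval g : MvPolynomial ι ℂ →ₐ[ℂ] Localization.Away W).toRingHom) = eval a := by
    apply MvPolynomial.ringHom_ext
    · intro r
      have e1 : algebraMap ℂ (Localization.Away W) r
        = algebraMap (MvPolynomial τ ℂ) (Localization.Away W) (C r) := by
        rw [IsScalarTower.algebraMap_apply ℂ (MvPolynomial τ ℂ) (Localization.Away W)]
        rfl
      simp [e1, hφ]
    · intro i
      simp [h5 i]
  have h9 := RingHom.congr_fun h8 Θ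
  exact h9.symm

end Pool.Agent.H78W
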