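import Pool.Agent.Lib.H78W.X4

set_option autoImplicit false

/-!
CHUNK Y2 of H78W (H53W).  Module C: the choice of the monomials.
-/

open MvPolynomial

namespace Pool.Agent.H78W

open Pool.Agent.H89T Pool.Agent.H67T Pool.Agent.H53U Pool.Agent.H78M

/-- The determinant is multilinear in the `z_i`: expand every `z_i` in monomials (`Matrix.det` of `matW`: `∑` over the choices of monomials; or: the columns of the monomials of
degree `1, 2` span `ℂ ^ k` because the columns of the `z_i` do, so `k` of them are linearly independent, `exists_linearIndependent` / `Basis`; injectivity: two equal columns give determinant `0`). -/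
theorem exists_monomials {N k : ℕ} {ξ : JV N k → ℂ} (h : QND ξ) :
    ∃ Z : Fin k → (Fin N →₀ ℕ), Function.Injective Z ∧ (∀ i, Z i ≠ 0) ∧ (∀ i, (Z i).degree ≤ 2) ∧
      (matW fun i => aeval (arc ξ) (monomial (Z i) (1 : ℂ))).det ≠ 0 := by
  classical
  obtain ⟨z, h0, h2, hdet⟩ := h
  obtain ⟨w, hw⟩ : ∃ w : (Fin N →₀ ℕ) → Fin k → ℂ,
      w = fun (μ : Fin N →₀ ℕ) (l : Fin k) => (aeval (arc ξ) (monomial μ (1 : ℂ))).coeff ((l : ℕ) + 1) := ⟨_, rfl⟩
  have hrow : ∀ i, (fun l : Fin k => (aeval (arc ξ) (z i)).coeff ((l : ℕ) + 1))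
      = ∑ μ ∈ (z i).support, (z i).coeff μ • w μ := by
    intro i
    funext l
    have h3 : aeval (arc ξ) (z i)
        = ∑ μ ∈ (z i).support, (z i).coeff μ • aeval (arc ξ) (monomial μ (1 : ℂ)) := by
      conv_lhs => rw [(z i).as_sum]
      rw [map_sum]
      apply Finset.sum_congr rfl
      intro μ _
      rw [← map_smul, smul_monomial, smul_eq_mul, mul_one]
    rw [h3, Polynomial.finsetSum_coeff, Finset.sum_apply]
    apply Finset.sum_congr rfl
    intro μ _
    rw [hw]
    simp
  have h4 : Matrix.detRowAlternating (fun i : Fin k => ∑ μ ∈ (z i).support,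
      (z i).coeff μ • w μ) ≠ 0 := by
    intro h5
    apply hdet
    rw [← Matrix.det_transpose]
    have h6 : (matW fun i => aeval (arc ξ) (z i)).transpose
        = fun i : Fin k => ∑ μ ∈ (z i).support, (z i).coeff μ • w μ := by
      funext i
      rw [← hrow i]
      rfl
    rw [h6]
    exact h5
  have h7 := (Matrix.detRowAlternating (R := ℂ) (n := Fin k)).toMultilinearMap.map_sum_finset
    (fun i (μ : Fin N →₀ ℕ) => (z i).coeff μ • w μ) (fun i => (z i).support)
  have h8 : ∑ r ∈ Fintype.piFinset (fun i => (z i).support),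
      (Matrix.detRowAlternating (R := ℂ) (n := Fin k)).toMultilinearMap
        (fun i => (z i).coeff (r i) • w (r i)) ≠ 0 := by
    intro h9
    exact h4 (h7.trans h9)
  obtain ⟨r, hr, hr0⟩ := Finset.exists_ne_zero_of_sum_ne_zero h8
  rw [Fintype.mem_piFinset] at hr
  rw [MultilinearMap.map_smul_univ] at hr0
  have hr1 : (Matrix.detRowAlternating (R := ℂ) (n := Fin k)) (fun i => w (r i)) ≠ 0 := by
    intro h9
    apply hr0
    have h10 : (Matrix.detRowAlternating (R := ℂ) (n := Fin k)).toMultilinearMap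
      (fun i => w (r i)) = 0 := h9
    rw [h10, smul_zero]
  refine ⟨r, ?_, ?_, ?_, ?_⟩
  · intro i j hij
    by_contra hne
    exact hr1 ((Matrix.detRowAlternating (R := ℂ) (n := Fin k)).map_eq_zero_of_eq _
      (congrArg w hij) hne)
  · intro i hi
    have h11 := hr i
    rw [hi, mem_support_iff] at h11
    exact h11 (h0 i)
  · intro i
    refine le_trans ?_ (h2 i)
    exact le_totalDegree (hr i)
  · rw [← Matrix.det_transpose]
    have h13 : (matW fun i => aeval (arc ξ) (monomial (r i) (1 : ℂ))).transpose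
        = fun i : Fin k => w (r i) := by
      funext i
      rw [hw]
      rfl
    rw [h13]
    exact hr1

/-- `QND_of_indep` (`k = 2 r`) and `exists_monomials`. -/
theorem exists_monomials_reg {N r : ℕ} (hr : 1 ≤ r) {ξ : JV N (2 * r) → ℂ} (h0 : ∀ b, ξ (b, 0) = 0)
    (h : RegJ r ξ) :
    ∃ Z : Fin (2 * r) → (Fin N →₀ ℕ), Function.Injective Z ∧ (∀ i, Z i ≠ 0) ∧
      (∀ i, (Z i).degree ≤ 2) ∧
      (matW fun i => aeval (arc ξ) (monomial (Z i) (1 : ℂ))).det ≠ 0 :=
  exists_monomials (QND_of_indep h0 hr le_rfl (by omega) h.1)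

end Pool.Agent.H78W
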